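import Pool.Agent.Y803.GR.NorJ
import Pool.Agent.H225R3.JRad3

/-!
From real fields to all fields of characteristic zero.
-/

set_option autoImplicit false

open Polynomial Pointwise

namespace Pool.Agent.Y803.GR

universe u v w

theorem real_mvPolynomial {σ : Type u} {ι : Type v} (s : Finset ι) (f : ι → MvPolynomial σ ℤ)
    (h : ∑ i ∈ s, f i * f i = 0) : ∀ i ∈ s, f i = 0 := by
  intro i hi
  apply MvPolynomial.funext
  intro q
  rw [map_zero]
  have h1 := congrArg (MvPolynomial.eval q) h
  rw [map_sum, map_zero] at h1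
  simp only [map_mul] at h1
  have h2 := (Finset.sum_eq_zero_iff_of_nonneg (fun j _ => mul_self_nonneg _)).1 h1 i hi
  exact mul_self_eq_zero.1 h2

theorem realFor_fraction {σ : Type u} (G : Type v) :
    RealFor (FractionRing (MvPolynomial σ ℤ)) G := by
  classical
  intro s f h i hi
  obtain ⟨b, hb⟩ := IsLocalization.exist_integer_multiples
    (nonZeroDivisors (MvPolynomial σ ℤ)) s f
  choose! c hc using hb
  have hb0 : algebraMap (MvPolynomial σ ℤ) (FractionRing (MvPolynomial σ ℤ)) (b : MvPolynomial σ ℤ)
      ≠ 0 := by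
    intro h0
    have := (IsFractionRing.injective (MvPolynomial σ ℤ)
      (FractionRing (MvPolynomial σ ℤ))) (h0.trans (map_zero _).symm)
    exact nonZeroDivisors.coe_ne_zero b this
  have h1 : ∑ j ∈ s, c j * c j = 0 := by
    apply IsFractionRing.injective (MvPolynomial σ ℤ) (FractionRing (MvPolynomial σ ℤ))
    rw [map_sum, map_zero]
    have h2 : ∀ j ∈ s, algebraMap (MvPolynomial σ ℤ) (FractionRing (MvPolynomial σ ℤ)) (c j * c j) =
        (algebraMap (MvPolynomial σ ℤ) (FractionRing (MvPolynomial σ ℤ)) b *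
          algebraMap (MvPolynomial σ ℤ) (FractionRing (MvPolynomial σ ℤ)) b) * (f j * f j) := by
      intro j hj
      rw [map_mul, hc j hj, Algebra.smul_def]
      ring
    rw [Finset.sum_congr rfl h2, ← Finset.mul_sum, h, mul_zero]
  have h3 := real_mvPolynomial s c h1 i hi
  have h4 := hc i hi
  rw [h3, map_zero, Algebra.smul_def] at h4
  exact (mul_eq_zero.1 h4.symm).resolve_left hb0

/-- The radical of `K[G]` lies in the radical of `F[G]` for algebraic extensions `F / K`. -/
theorem jacobson_up {G : Type v} [Group G] {K F : Type u} [Field K] [Field F] [Algebra K F]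
    [Algebra.IsAlgebraic K F] (x : MonoidAlgebra K G)
    (hx : x ∈ Ideal.jacobson (⊥ : Ideal (MonoidAlgebra K G))) :
    MonoidAlgebra.mapRingHom G (algebraMap K F) x ∈
      Ideal.jacobson (⊥ : Ideal (MonoidAlgebra F G)) := by
  classical
  rw [Pool.Agent.H225R3.JRad.mem_jac]
  intro y
  let S : Set F := ↑(y.coeff.support.image y.coeff)
  let E : IntermediateField K F := IntermediateField.adjoin K S
  have : FiniteDimensional K E := by
    apply IntermediateField.finiteDimensional_adjoin
    intro x _
    exact (Algebra.IsAlgebraic.isAlgebraic x).isIntegral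
  obtain ⟨yE, hyE⟩ := Pool.Agent.H225R3.JRad.mem_range_mapRingHom (algebraMap E F) G y (by
    intro g
    by_cases hg : y.coeff g = 0
    · exact ⟨0, by simp [hg]⟩
    · exact ⟨⟨y.coeff g, IntermediateField.subset_adjoin K S (by
        simp only [S, Finset.coe_image, Set.mem_image, Finset.mem_coe, Finsupp.mem_support_iff]
        exact ⟨g, hg, rfl⟩)⟩, rfl⟩)
  have h1 := Pool.Agent.H225R3.JRad.goingup (K := K) (L := E) x hx
  rw [Pool.Agent.H225R3.JRad.mem_jac] at h1
  obtain ⟨z, hz⟩ := h1 yE
  refine ⟨MonoidAlgebra.mapRingHom G (algebraMap E F) z, ?_⟩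
  have h2 := congrArg (MonoidAlgebra.mapRingHom G (algebraMap E F)) hz
  rw [map_add, map_mul, map_mul, hyE, map_one] at h2
  have h3 : MonoidAlgebra.mapRingHom G (algebraMap E F)
      (MonoidAlgebra.mapRingHom G (algebraMap K E) x) =
      MonoidAlgebra.mapRingHom G (algebraMap K F) x := by
    ext g
    simp only [MonoidAlgebra.coeff_mapRingHom]
    rfl
  rwa [h3] at h2

theorem jacobson_down {G : Type v} [Group G] {K F : Type u} [Field K] [Field F] [Algebra K F]
    [Algebra.IsAlgebraic K F] (h : Ideal.jacobson (⊥ : Ideal (MonoidAlgebra F G)) = ⊥) :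
    Ideal.jacobson (⊥ : Ideal (MonoidAlgebra K G)) = ⊥ := by
  rw [eq_bot_iff]
  intro x hx
  have h1 := jacobson_up (F := F) x hx
  rw [h, Ideal.mem_bot] at h1
  rw [Ideal.mem_bot]
  ext g
  have h2 := congrArg (fun w : MonoidAlgebra F G => w.coeff g) h1
  simp only [MonoidAlgebra.coeff_mapRingHom] at h2
  have h3 : algebraMap K F (x.coeff g) = 0 := by rw [h2]; simp
  rw [(algebraMap K F).injective (h3.trans (map_zero _).symm)]
  simp

/-- For the semiprimitivity of `F[G]` in characteristic zero one may assume that `F` is real. -/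
theorem all_fields {G : Type v} [Group G] (F : Type u) [Field F] [CharZero F]
    (h : ∀ (k : Type u) [Field k] [CharZero k] [Algebra k F] [Algebra.IsAlgebraic k F],
      RealFor k G → Ideal.jacobson (⊥ : Ideal (MonoidAlgebra k G)) = ⊥) :
    Ideal.jacobson (⊥ : Ideal (MonoidAlgebra F G)) = ⊥ := by
  obtain ⟨s, hs⟩ := exists_isTranscendenceBasis ℤ F
  letI : Algebra (MvPolynomial s ℤ) F := (MvPolynomial.aeval (R := ℤ) (fun x : s => (x : F))).toAlgebra
  have hinj : Function.Injective (algebraMap (MvPolynomial s ℤ) F) := hs.1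
  haveI : FaithfulSMul (MvPolynomial s ℤ) F := (faithfulSMul_iff_algebraMap_injective _ _).2 hinj
  letI : Algebra (FractionRing (MvPolynomial s ℤ)) F := FractionRing.liftAlgebra _ _
  haveI : IsScalarTower (MvPolynomial s ℤ) (FractionRing (MvPolynomial s ℤ)) F :=
    FractionRing.isScalarTower_liftAlgebra _ _
  haveI : CharZero (FractionRing (MvPolynomial s ℤ)) :=
    charZero_of_injective_algebraMap (IsFractionRing.injective (MvPolynomial s ℤ) _)
  haveI : Algebra.IsAlgebraic (MvPolynomial s ℤ) F := by
    haveI h1 := hs.isAlgebraic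
    refine Algebra.IsAlgebraic.of_ringHom_of_comp_eq
      (S := Algebra.adjoin ℤ (Set.range (fun x : s => (x : F)))) (B := F)
      (hs.1.aevalEquiv : MvPolynomial s ℤ →+* Algebra.adjoin ℤ (Set.range (fun x : s => (x : F))))
      (RingHom.id F) hs.1.aevalEquiv.surjective Function.injective_id ?_
    ext x
    · simp
    · rename_i x
      change ((hs.1.aevalEquiv (MvPolynomial.X x) : Algebra.adjoin ℤ (Set.range (fun x : s => (x : F)))) : F) = _
      rw [AlgebraicIndependent.aevalEquiv_apply_coe]
      rfl
  haveI : Algebra.IsAlgebraic (FractionRing (MvPolynomial s ℤ)) F :=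
    (IsFractionRing.comap_isAlgebraic_iff (A := MvPolynomial s ℤ)
      (K := FractionRing (MvPolynomial s ℤ)) (C := F)).1 inferInstance
  exact Pool.Agent.H225R3.JRad.algebraic_ext (K := FractionRing (MvPolynomial s ℤ))
    (h (FractionRing (MvPolynomial s ℤ)) (realFor_fraction G))

/-- **Theorem.** Let `F` be a field of characteristic zero, let `G` act on the Hausdorff space `X`
with kernel `K`, and let `N` be a normal subgroup which acts faithfully and whose rigid
stabilisers of nonempty open sets are not trivial. If `J(F[K]) = 0`, or if these rigid stabilisers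
are not locally finite, then `J(F[G]) = 0`. -/
theorem jacobson_normal_all (F : Type u) [Field F] [CharZero F] {G : Type v} [Group G]
    (X : Type w) [TopologicalSpace X] [T2Space X] [MulAction G X] [ContinuousConstSMul G X]
    (N : Subgroup G) [N.Normal] (hf : ∀ n ∈ N, (∀ x : X, n • x = x) → n = 1)
    (h0 : ∀ U : Set X, IsOpen U → U.Nonempty → ∃ a ∈ RN N U, a ≠ 1)
    (hor : Ideal.jacobson (⊥ : Ideal (MonoidAlgebra F (Rist G (∅ : Set X)))) = ⊥ ∨
      (Nonempty X ∧ ∀ U : Set X, IsOpen U → U.Nonempty → ¬ LocFinite (RN N U))) :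
    Ideal.jacobson (⊥ : Ideal (MonoidAlgebra F G)) = ⊥ := by
  refine all_fields F fun k _ _ _ _ hR => jacobson_normal k hR X N hf h0 ?_
  rcases hor with h | h
  · exact Or.inl (jacobson_down h)
  · exact Or.inr h

end Pool.Agent.Y803.GR
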