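import Pool.Agent.Y803.GR.SpnB
import Pool.Agent.Y803.GR.Fld

/-!
The group algebra of a spinal group over the `p`-ary tree: the theorem on the radical.
-/

set_option autoImplicit false

open Polynomial

namespace Pool.Agent.Y803.Spinal

open Pool.Agent.Y803.GR

universe u v w

variable {p : ℕ} [Fact p.Prime] {V : Type v} [AddCommGroup V] [Module (ZMod p) V]

section

variable (k : Type u) [Field k]

/-- The sum of the multiples of `v`. -/
noncomputable def Nv (p : ℕ) [Fact p.Prime] {V : Type v} [AddCommGroup V] [Module (ZMod p) V]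
    (v : V) : MonoidAlgebra k (Multiplicative V) :=
  ∑ t : ZMod p, MonoidAlgebra.single (Multiplicative.ofAdd (t • v)) 1

variable {k}

theorem Nv_nil (hp : (p : k) = 0) (v : V) : IsNilpotent (Nv k p v) := by
  have h : ∀ t : ZMod p, MonoidAlgebra.single (Multiplicative.ofAdd (t • v)) (1 : k) * Nv k p v =
      Nv k p v := by
    intro t
    rw [Nv, Finset.mul_sum]
    simp only [MonoidAlgebra.single_mul_single, ← ofAdd_add, ← add_smul, mul_one]
    exact Fintype.sum_equiv (Equiv.addLeft t) _ _ (fun s => rfl)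
  have h2 : Nv k p v * Nv k p v =
      ∑ t : ZMod p, MonoidAlgebra.single (Multiplicative.ofAdd (t • v)) (1 : k) * Nv k p v := by
    rw [← Finset.sum_mul]; rfl
  refine ⟨2, ?_⟩
  rw [pow_two, h2]
  simp only [h, Finset.sum_const, Finset.card_univ, ZMod.card]
  rw [← Nat.cast_smul_eq_nsmul k, hp, zero_smul]

theorem mp_Nv (hp : (p : k) = 0) (φ : V →ₗ[ZMod p] ZMod p) (v : V) :
    mp k (hm φ) (Nv k p v) = (if φ v = 0 then (0 : k) else 1) • NN k p := by
  rw [Nv, map_sum]
  simp only [mp_single, hm_apply, map_smul, smul_eq_mul]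
  split_ifs with h
  · simp only [h, mul_zero, Finset.sum_const, Finset.card_univ, ZMod.card]
    rw [← Nat.cast_smul_eq_nsmul k, hp, zero_smul, zero_smul]
  · rw [one_smul, NN]
    exact Fintype.sum_equiv (Equiv.mulRight₀ (φ v) h) _ _ (fun t => rfl)

/-- The number of the non-zero `x` with `Φ x v ≠ 0`. -/
def cc (Φ : ZMod p → V → ZMod p) (v : V) : ℕ :=
  (Finset.univ.filter (fun x : ZMod p => x ≠ 0 ∧ Φ x v ≠ 0)).card

theorem cc_ne [CharP k p] (Φ : ZMod p → V → ZMod p) {v : V} {x : ZMod p} (hx : x ≠ 0)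
    (hv : Φ x v ≠ 0) : (cc Φ v : k) ≠ 0 := by
  intro h
  rw [CharP.cast_eq_zero_iff k p] at h
  have h1 : 0 < cc Φ v :=
    Finset.card_pos.2 ⟨x, Finset.mem_filter.2 ⟨Finset.mem_univ _, hx, hv⟩⟩
  have h2 : cc Φ v < p := by
    have : cc Φ v < (Finset.univ : Finset (ZMod p)).card := by
      apply Finset.card_lt_card
      rw [Finset.filter_ssubset]
      exact ⟨0, Finset.mem_univ _, fun h => h.1 rfl⟩
    rwa [Finset.card_univ, ZMod.card] at this
  exact absurd (Nat.le_of_dvd h1 h) (not_le.2 h2)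

theorem exists_lambda [Finite V] [Infinite k] [CharP k p] : ∃ l : V → k,
    ∀ Φ : ZMod p → V → ZMod p, (∃ x, x ≠ 0 ∧ ∃ v, Φ x v ≠ 0) →
      letI := Fintype.ofFinite V
      ∑ v, (cc Φ v : k) * l v ≠ 0 := by
  classical
  letI := Fintype.ofFinite V
  let i : V → ℕ := fun v => (Fintype.equivFin V v : ℕ)
  have hi : Function.Injective i := by
    intro a b hab
    exact (Fintype.equivFin V).injective (Fin.ext hab)
  let P : (ZMod p → V → ZMod p) → k[X] := fun Φ => ∑ v, C (cc Φ v : k) * X ^ i v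
  let F : Finset (ZMod p → V → ZMod p) :=
    Finset.univ.filter (fun Φ => ∃ x, x ≠ 0 ∧ ∃ v, Φ x v ≠ 0)
  have hP : ∀ Φ ∈ F, P Φ ≠ 0 := by
    intro Φ hΦ h0
    obtain ⟨x, hx, v, hv⟩ := (Finset.mem_filter.1 hΦ).2
    apply cc_ne (k := k) Φ hx hv
    have h1 := congrArg (fun q : k[X] => q.coeff (i v)) h0
    simp only [P, finsetSum_coeff, coeff_C_mul_X_pow, coeff_zero] at h1
    rw [Finset.sum_eq_single v, if_pos rfl] at h1
    · exact h1
    · intro b _ hb
      rw [if_neg]
      intro h2
      exact hb (hi h2).symm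
    · intro h2
      exact absurd (Finset.mem_univ _) h2
  have hprod : ∏ Φ ∈ F, P Φ ≠ 0 := Finset.prod_ne_zero_iff.2 hP
  obtain ⟨τ, hτ⟩ := Infinite.exists_notMem_finset (∏ Φ ∈ F, P Φ).roots.toFinset
  have hτ' : (∏ Φ ∈ F, P Φ).eval τ ≠ 0 := by
    intro h
    apply hτ
    rw [Multiset.mem_toFinset, mem_roots hprod]
    exact h
  rw [eval_prod, Finset.prod_ne_zero_iff] at hτ'
  refine ⟨fun v => τ ^ i v, fun Φ hΦ => ?_⟩
  have h1 := hτ' Φ (Finset.mem_filter.2 ⟨Finset.mem_univ _, hΦ⟩)
  simp only [P, eval_finsetSum, eval_mul, eval_C, eval_pow, eval_X] at h1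
  exact h1

theorem exists_good [Finite V] [Infinite k] [CharP k p]
    {e : ℕ → ZMod p → (V →ₗ[ZMod p] ZMod p)} (he : NZ e) :
    ∃ (X : MonoidAlgebra k (Multiplicative V)) (μ : ℕ → ZMod p → k), Good e X μ := by
  classical
  have hp : (p : k) = 0 := CharP.cast_eq_zero k p
  obtain ⟨l, hl⟩ := exists_lambda (k := k) (p := p) (V := V)
  letI := Fintype.ofFinite V
  refine ⟨∑ v, l v • Nv k p v, fun n x => ∑ v, l v * (if e n x v = 0 then (0 : k) else 1),
    ?_, ?_, ?_⟩
  · exact isNilpotent_sum fun v _ => (Nv_nil hp v).smul (l v)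
  · intro n x _
    rw [map_sum, Finset.sum_smul]
    refine Finset.sum_congr rfl fun v _ => ?_
    rw [map_smul, mp_Nv hp, smul_smul]
  · intro n
    obtain ⟨x, hx, hxe⟩ := he n
    obtain ⟨v, hv⟩ : ∃ v, e n x v ≠ 0 := by
      by_contra hcon
      push Not at hcon
      exact hxe (LinearMap.ext hcon)
    have h1 := hl (fun x v => e n x v) ⟨x, hx, v, hv⟩
    have h2 : kp (fun x => ∑ v, l v * (if e n x v = 0 then (0 : k) else 1)) =
        ∑ v, (cc (fun x v => e n x v) v : k) * l v := by
      have h3 : kp (fun x => ∑ v, l v * (if e n x v = 0 then (0 : k) else 1)) =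
          ∑ x : ZMod p, ∑ v, if x ≠ 0 ∧ e n x v ≠ 0 then l v else 0 := by
        rw [kp]
        refine Finset.sum_congr rfl fun x _ => ?_
        split_ifs with h4
        · symm
          apply Finset.sum_eq_zero
          intro v _
          rw [if_neg]
          exact fun h5 => h5.1 h4
        · refine Finset.sum_congr rfl fun v _ => ?_
          by_cases h5 : e n x v = 0
          · rw [if_pos h5, mul_zero, if_neg]
            exact fun h6 => h6.2 h5
          · rw [if_neg h5, mul_one, if_pos ⟨h4, h5⟩]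
      rw [h3, Finset.sum_comm]
      refine Finset.sum_congr rfl fun v _ => ?_
      rw [← Finset.sum_filter, Finset.sum_const, cc, ← Nat.cast_smul_eq_nsmul k, smul_eq_mul]
    rw [h2]
    exact h1

theorem charP_of (hp : (p : k) = 0) : CharP k p := by
  obtain ⟨q, hq⟩ := CharP.exists k
  have h1 := (CharP.cast_eq_zero_iff k q p).1 hp
  rcases (Nat.dvd_prime (Fact.out : p.Prime)).1 h1 with h2 | h2
  · subst h2
    have h3 := CharP.cast_eq_zero k 1
    rw [Nat.cast_one] at h3
    exact absurd h3 one_ne_zero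
  · rwa [h2] at hq

theorem aug_NN : aug k (Multiplicative (ZMod p)) (NN k p) = (p : k) := by
  rw [NN, map_sum]
  simp only [aug_single, Finset.sum_const, Finset.card_univ, ZMod.card, nsmul_one]

theorem aug_Na (e : ℕ → ZMod p → (V →ₗ[ZMod p] ZMod p)) :
    aug k (GG e) (Na k e) = (p : k) := by
  rw [Na, map_sum]
  simp only [aug_single, Finset.sum_const, Finset.card_univ, ZMod.card, nsmul_one]

theorem not_augLeJac_infinite [Finite V] [Infinite k] (hp : (p : k) = 0)
    (e : ℕ → ZMod p → (V →ₗ[ZMod p] ZMod p)) (he : NZ e) : ¬ AugLeJac k (GG e) := by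
  intro h
  have := charP_of hp
  obtain ⟨X, μ, hG⟩ := exists_good (k := k) he
  obtain ⟨x, hx, -⟩ := exists_ne (hG.ne 0)
  have h1 : aug k (GG e) (-((1 : k) • Na k e + mp k (rbH e) X)) = 0 := by
    have h2 := congrArg (aug k (Multiplicative (ZMod p))) (hG.eq 0 x hx)
    rw [aug_mp, map_smul, aug_NN, hp, smul_zero] at h2
    rw [map_neg, map_add, aug_mp, h2, map_smul, aug_Na, hp, smul_zero, add_zero, neg_zero]
  have h2 := isUnit_of_jacobson (h _ h1)
  obtain ⟨Y, hY⟩ := h2.exists_right_inv
  obtain ⟨n, hn⟩ := exists_VV e Y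
  apply no_inv hp n e X μ hG 1 one_ne_zero Y hn
  rw [sub_eq_add_neg]
  exact hY

theorem not_augLeJac_coprime (hp : (p : k) ≠ 0)
    (e : ℕ → ZMod p → (V →ₗ[ZMod p] ZMod p)) : ¬ AugLeJac k (GG e) := by
  intro h
  have h1 : aug k (GG e) (-(1 - (p : k)⁻¹ • Na k e)) = 0 := by
    rw [map_neg, map_sub, map_one, map_smul, aug_Na, smul_eq_mul, inv_mul_cancel₀ hp, sub_self,
      neg_zero]
  have h2 := isUnit_of_jacobson (h _ h1)
  have h3 : (1 + -(1 - (p : k)⁻¹ • Na k e)) = (p : k)⁻¹ • Na k e := by abel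
  rw [h3] at h2
  have h4 : ((p : k)⁻¹ • Na k e) * (MonoidAlgebra.single (ra e 1) 1 - 1) = 0 := by
    have h5 : Na k e * MonoidAlgebra.single (ra e 1) 1 = Na k e := by
      rw [Na, Finset.sum_mul]
      simp only [MonoidAlgebra.single_mul_single, ra_mul, mul_one]
      exact Fintype.sum_equiv (Equiv.addRight 1) _ _ (fun s => rfl)
    rw [smul_mul_assoc, mul_sub, h5, mul_one, sub_self, smul_zero]
  have h6 := (h2.mul_right_eq_zero).1 h4
  rw [sub_eq_zero, MonoidAlgebra.one_def] at h6
  have h7 := congrArg (fun z : MonoidAlgebra k (GG e) => z.coeff (ra e 1)) h6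
  simp only [MonoidAlgebra.coeff_single] at h7
  rw [Finsupp.single_eq_same, Finsupp.single_eq_of_ne] at h7
  · exact one_ne_zero h7
  · intro h8
    rw [← ra_zero] at h8
    exact one_ne_zero (ra_inj h8)

end

/-- The condition `ω ⊆ J` passes to algebraic extensions of the field. -/
theorem augLeJac_up {k K : Type u} [Field k] [Field K] [Algebra k K] [Algebra.IsAlgebraic k K]
    {G : Type v} [Group G] (h : AugLeJac k G) : AugLeJac K G := by
  intro x hx
  have h1 : Ideal.span (Set.range (fun g : G => MonoidAlgebra.of K G g - 1)) ≤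
      Ideal.jacobson (⊥ : Ideal (MonoidAlgebra K G)) := by
    rw [Ideal.span_le]
    rintro _ ⟨g, rfl⟩
    have h2 := jacobson_up (F := K) (MonoidAlgebra.of k G g - 1) (h _ (by
      rw [map_sub, map_one, MonoidAlgebra.of_apply, aug_single, sub_self]))
    rw [map_sub, map_one, MonoidAlgebra.of_apply, MonoidAlgebra.mapRingHom_single, map_one] at h2
    exact h2
  exact h1 (mem_span_of_aug x hx)

/-- The augmentation ideal of the group algebra of a spinal group does not lie in the radical. -/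
theorem not_augLeJac (k : Type u) [Field k] [Finite V]
    (e : ℕ → ZMod p → (V →ₗ[ZMod p] ZMod p)) (he : NZ e) : ¬ AugLeJac k (GG e) := by
  by_cases hp : (p : k) = 0
  · intro h
    have hp' : (p : AlgebraicClosure k) = 0 := by
      have := congrArg (algebraMap k (AlgebraicClosure k)) hp
      rwa [map_natCast, map_zero] at this
    exact not_augLeJac_infinite hp' e he (augLeJac_up (K := AlgebraicClosure k) h)
  · exact not_augLeJac_coprime hp e

/-- Kaplansky's question for groups with a section which is a spinal group. -/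
theorem kaplansky_spinal (k : Type u) [Field k] [Finite V] {M : Type w} [Group M]
    {e : ℕ → ZMod p → (V →ₗ[ZMod p] ZMod p)}
    (he : NZ e) (S : Subgroup M) (f : S →* GG e) (hf : Function.Surjective f) :
    ¬ Ideal.span (Set.range (fun g : M => MonoidAlgebra.of k M g - 1)) ≤
      Ideal.jacobson (⊥ : Ideal (MonoidAlgebra k M)) := by
  intro h
  have h1 : AugLeJac k M := fun x hx => h (mem_span_of_aug x hx)
  exact not_augLeJac k e he (augLeJac_section ⟨S, f, hf⟩ h1)

end Pool.Agent.Y803.Spinal
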