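import Pool.Agent.Y803.GR.Kill

/-!
The abstract semiprimitivity theorem.
-/

set_option autoImplicit false

open Polynomial Pointwise

namespace Pool.Agent.Y803.GR

universe u v w

section

variable {k : Type u} [Field k] {G : Type v} [Group G] {X : Type w} [MulAction G X]

/-- The region used so far. -/
def FF (S : Finset G) (U : G → Set X) (T : Finset G) : Set X :=
  {x | ∃ g ∈ S, g ≠ 1 ∧ g ∉ T ∧ ∃ s ∈ S, x ∈ s⁻¹ • U g}

theorem reduce [DecidableEq G] [FaithfulSMul G X] (S : Finset G) (h1S : 1 ∈ S) (U : G → Set X)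
    (z : G → MonoidAlgebra k G)
    (c1 : ∀ g ∈ S, g ≠ 1 → Disjoint (U g) (g⁻¹ • U g))
    (c2 : ∀ g ∈ S, g ≠ 1 → ∀ h ∈ S, h ≠ 1 → g ≠ h → ∀ s ∈ S, ∀ t ∈ S,
      Disjoint (s⁻¹ • U g) (t⁻¹ • U h))
    (hz : ∀ g ∈ S, g ≠ 1 → z g ∈ Com k G (U g))
    (hzn : ∀ g ∈ S, g ≠ 1 → ¬ IsNilpotent (z g))
    (I : Ideal (MonoidAlgebra k G)) (hI : I.IsTwoSided) (T : Finset G) :
    (∀ g ∈ T, g ∈ S ∧ g ≠ 1) → ∀ w : G → MonoidAlgebra k G,
    (∀ s ∈ insert 1 T, w s ∈ A k G (FF S U T)) → ¬ IsNilpotent (w 1) →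
    (∑ s ∈ insert 1 T, MonoidAlgebra.single s 1 * w s) ∈ I →
    ∃ w' ∈ I, w' ∈ A k G (FF S U ∅) ∧ ¬ IsNilpotent w' := by
  induction T using Finset.induction_on with
  | empty =>
    intro _ w hw hw1 hx
    refine ⟨w 1, ?_, hw 1 (by simp), hw1⟩
    have h1 : (∑ s ∈ insert 1 (∅ : Finset G), MonoidAlgebra.single s 1 * w s) = w 1 := by
      rw [Finset.sum_insert (by simp), Finset.sum_empty, add_zero, ← MonoidAlgebra.one_def,
        one_mul]
    rwa [h1] at hx
  | insert g T hgT ih =>
    intro hT w hw hw1 hx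
    obtain ⟨hgS, hg1⟩ := hT g (Finset.mem_insert_self g T)
    obtain ⟨Ψ, a1, a2, a3, a4⟩ := kill_of_com (k := k) (c1 g hgS hg1) (hz g hgS hg1)
    set F := FF S U (insert g T) with hF
    have hd1 : Disjoint F (U g) := by
      rw [Set.disjoint_left]
      rintro x ⟨g', hg'S, hg'1, hg'T, s, hs, hx⟩ hxg
      have hne : g' ≠ g := fun h => hg'T (h ▸ Finset.mem_insert_self g T)
      have := c2 g' hg'S hg'1 g hgS hg1 hne s hs 1 h1S
      rw [inv_one, one_smul] at this
      exact Set.disjoint_left.1 this hx hxg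
    have hd2 : Disjoint F (g⁻¹ • U g) := by
      rw [Set.disjoint_left]
      rintro x ⟨g', hg'S, hg'1, hg'T, s, hs, hx⟩ hxg
      have hne : g' ≠ g := fun h => hg'T (h ▸ Finset.mem_insert_self g T)
      exact Set.disjoint_left.1 (c2 g' hg'S hg'1 g hgS hg1 hne s hs g hgS) hx hxg
    have hFsub : F ⊆ FF S U T := by
      rintro x ⟨g', hg'S, hg'1, hg'T, hx⟩
      exact ⟨g', hg'S, hg'1, fun h => hg'T (Finset.mem_insert_of_mem h), hx⟩
    have hUsub : ∀ s ∈ S, s⁻¹ • U g ⊆ FF S U T := fun s hs x hx => ⟨g, hgS, hg1, hgT, s, hs, hx⟩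
    have hUsub1 : U g ⊆ FF S U T := by
      have := hUsub 1 h1S
      rwa [inv_one, one_smul] at this
    choose w' hw' hw'e using fun s : G => a4 F s (if s ∈ insert 1 (insert g T) then w s else 0)
      (by
        split_ifs with h
        · exact hw s h
        · exact zero_mem _)
    let w'' : G → MonoidAlgebra k G := fun s => if s = 1 then w 1 * z g else w' s
    have h1T : (1 : G) ∉ T := fun h => (hT 1 (Finset.mem_insert_of_mem h)).2 rfl
    have h1gT : (1 : G) ∉ insert g T := fun h => (hT 1 h).2 rfl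
    refine ih (fun h hh => hT h (Finset.mem_insert_of_mem hh)) w'' ?_ ?_ ?_
    · intro s hs
      by_cases h : s = 1
      · simp only [w'', h, if_true]
        exact mul_mem (A_mono hFsub (hw 1 (Finset.mem_insert_self _ _)))
          (A_mono hUsub1 (Com_le (hz g hgS hg1)))
      · simp only [w'', h, if_false]
        have hsT : s ∈ T := (Finset.mem_insert.1 hs).resolve_left h
        refine A_mono ?_ (hw' s)
        refine Set.union_subset (Set.union_subset (Set.union_subset hFsub ?_) hUsub1) ?_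
        · exact hUsub s (hT s (Finset.mem_insert_of_mem hsT)).1
        · exact hUsub g hgS
    · simp only [w'', if_true]
      exact A_not_nilpotent hd1 (hw 1 (Finset.mem_insert_self _ _)) (Com_le (hz g hgS hg1)) hw1
        (hzn g hgS hg1)
    · have h2 := a1 I hI _ hx
      have h3 : Ψ (∑ s ∈ insert 1 (insert g T), MonoidAlgebra.single s 1 * w s) =
          ∑ s ∈ insert 1 T, MonoidAlgebra.single s 1 * w'' s := by
        rw [map_sum, Finset.sum_insert h1gT, Finset.sum_insert hgT, Finset.sum_insert h1T,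
          a3 F hd2 (w g) (hw g (Finset.mem_insert_of_mem (Finset.mem_insert_self _ _))), zero_add]
        congr 1
        · have e1 : (MonoidAlgebra.single (1 : G) (1 : k)) * w 1 = w 1 := by
            rw [← MonoidAlgebra.one_def, one_mul]
          rw [e1, a2 F hd1 hd2 (w 1) (hw 1 (Finset.mem_insert_self _ _))]
          simp only [w'', if_true]
          rw [← MonoidAlgebra.one_def, one_mul]
        · apply Finset.sum_congr rfl
          intro s hs
          have hs1 : s ≠ 1 := fun h => h1T (h ▸ hs)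
          have hsm : s ∈ insert 1 (insert g T) :=
            Finset.mem_insert_of_mem (Finset.mem_insert_of_mem hs)
          have h4 := hw'e s
          rw [if_pos hsm] at h4
          rw [h4]
          simp only [w'', hs1, if_false]
      rwa [h3] at h2

/-- **Theorem.** Let `G` act faithfully on a set `X`. Suppose that for every finite `S ⊆ G` there
are subsets `U_g` (`1 ≠ g ∈ S`) and `V` of `X` such that `U_g` is disjoint from its translate by
`g⁻¹`, the translates by elements of `S⁻¹` of the different `U_g` are disjoint from each other and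
from `V`, there is a non-nilpotent sum of elements `[a, y] - 1` with `a, y` in the rigid stabiliser
of `U_g`, and the group algebra of the rigid stabiliser of `V` is not algebraic.
Then `J(k[G]) = 0`. -/
theorem jacobson_eq_bot [FaithfulSMul G X]
    (hsep : ∀ S : Finset G, 1 ∈ S → ∃ (U : G → Set X) (V : Set X),
      (∀ g ∈ S, g ≠ 1 → Disjoint (U g) (g⁻¹ • U g)) ∧
      (∀ g ∈ S, g ≠ 1 → ∀ h ∈ S, h ≠ 1 → g ≠ h → ∀ s ∈ S, ∀ t ∈ S,
        Disjoint (s⁻¹ • U g) (t⁻¹ • U h)) ∧
      (∀ g ∈ S, g ≠ 1 → ∀ s ∈ S, Disjoint V (s⁻¹ • U g)) ∧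
      (∀ g ∈ S, g ≠ 1 → ∃ z ∈ Com k G (U g), ¬ IsNilpotent z) ∧
      (∃ y : MonoidAlgebra k (Rist G V), Transcendental k y)) :
    Ideal.jacobson (⊥ : Ideal (MonoidAlgebra k G)) = ⊥ := by
  classical
  rw [eq_bot_iff]
  intro x hx
  rw [Ideal.mem_bot]
  by_contra hx0
  obtain ⟨g₀, hg₀⟩ := Finsupp.ne_iff.1 (fun h0 => hx0 (MonoidAlgebra.coeff_eq_zero.1 h0) :
    x.coeff ≠ 0)
  set x' : MonoidAlgebra k G := x * MonoidAlgebra.single g₀⁻¹ 1 with hx'
  have hx'J : x' ∈ Ideal.jacobson (⊥ : Ideal (MonoidAlgebra k G)) :=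
    Ideal.mul_mem_right _ _ hx
  have hc : x'.coeff 1 ≠ 0 := by
    rw [hx', MonoidAlgebra.coeff_mul_single_apply, inv_inv, one_mul, mul_one]
    exact hg₀
  set S : Finset G := x'.coeff.support with hS
  have h1S : 1 ∈ S := Finsupp.mem_support_iff.2 hc
  obtain ⟨U, V, c1, c2, c3, hz, y, hy⟩ := hsep S h1S
  choose! z hz hzn using hz
  have hsum : x' = ∑ s ∈ insert 1 (S.erase 1), MonoidAlgebra.single s 1 *
      algebraMap k (MonoidAlgebra k G) (x'.coeff s) := by
    rw [Finset.insert_erase h1S]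
    have h1 : ∀ s : G, (MonoidAlgebra.single s 1 *
        algebraMap k (MonoidAlgebra k G) (x'.coeff s) : MonoidAlgebra k G) =
        MonoidAlgebra.single s (x'.coeff s) := by
      intro s
      rw [MonoidAlgebra.coe_algebraMap, Function.comp_apply, MonoidAlgebra.single_mul_single,
        mul_one, one_mul]
      rfl
    simp only [h1]
    exact (MonoidAlgebra.sum_coeff_single x').symm
  obtain ⟨w', hw'J, hw'A, hw'n⟩ := reduce S h1S U z (fun g hg h1 => c1 g hg h1)
    (fun g hg h1 h hh h2 => c2 g hg h1 h hh h2) (fun g hg h1 => hz g hg h1)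
    (fun g hg h1 => hzn g hg h1) (Ideal.jacobson ⊥) inferInstance (S.erase 1)
    (fun g hg => ⟨Finset.mem_of_mem_erase hg, Finset.ne_of_mem_erase hg⟩)
    (fun s => algebraMap k (MonoidAlgebra k G) (x'.coeff s))
    (fun s _ => algebraMap_mem _ _)
    (by
      rintro ⟨n, hn⟩
      rw [← map_pow] at hn
      have h2 : x'.coeff 1 ^ n = 0 := by
        apply (algebraMap k (MonoidAlgebra k G)).injective
        rw [hn, map_zero]
      exact pow_ne_zero n hc h2)
    (by rw [← hsum]; exact hx'J)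
  have hVF : Disjoint (FF S U ∅) V := by
    rw [Set.disjoint_left]
    rintro x ⟨g, hgS, hg1, -, s, hs, hxs⟩ hxV
    exact Set.disjoint_left.1 (c3 g hgS hg1 s hs) hxV hxs
  obtain ⟨y', rfl⟩ := hw'A
  have hnil := nil_of_prod (k := k)
    (prodHom (Rist G (FF S U ∅)) (Rist G V) (fun a ha b hb => Rist_comm hVF ha hb))
    (prodHom_injective _ _ _ (fun a ha hb => Rist_disj hVF ha hb)) y hy y' (by
      have hinl : (prodHom (Rist G (FF S U ∅)) (Rist G V)
          (fun a ha b hb => Rist_comm hVF ha hb)).comp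
          (MonoidHom.inl (Rist G (FF S U ∅)) (Rist G V)) = (Rist G (FF S U ∅)).subtype := by
        ext a
        show (a : G) * ((1 : Rist G V) : G) = a
        rw [OneMemClass.coe_one, mul_one]
      rw [hinl]
      exact hw'J)
  exact hw'n (hnil.map (mp k (Rist G (FF S U ∅)).subtype))

end

end Pool.Agent.Y803.GR
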