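import Pool.Agent.Y803.GR.Main

/-!
Transcendental elements from the leading term argument.
-/

set_option autoImplicit false

open Polynomial

namespace Pool.Agent.Y803.GR

universe u v w

/-- The linear operator of `b_i + a b_j`. -/
def xopL (k : Type u) [Field k] (i j : Fin 3) (ω : ℕ → Fin 3) :
    Module.End k (List Bool → k) where
  toFun := xop i j ω
  map_add' f g := by
    funext u
    simp only [xop, Pi.add_apply]
    ring
  map_smul' c f := by
    funext u
    simp only [xop, Pi.smul_apply, smul_eq_mul, RingHom.id_apply]
    ring

theorem xopL_pow (k : Type u) [Field k] (i j : Fin 3) (ω : ℕ → Fin 3) (n : ℕ)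
    (f : List Bool → k) : ((xopL k i j ω) ^ n) f = (xop i j ω)^[n] f := by
  induction n with
  | zero => simp
  | succ n ih =>
    rw [pow_succ', Module.End.mul_apply, ih, Function.iterate_succ', Function.comp_apply]
    rfl

theorem xopL_transcendental (k : Type u) [Field k] {i j : Fin 3} (hij : i ≠ j)
    (ω : ℕ → Fin 3) : Transcendental k (xopL k i j ω) := by
  rw [transcendental_iff]
  intro p hp
  by_contra hp0
  set n := p.natDegree with hn
  obtain ⟨w, -, -, -, h1, -, h2⟩ := xop_pow (k := k) hij ω (2 * n + 1) n
    (by
      have := Nat.lt_two_pow_self (n := 2 * n + 1)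
      omega) (by omega)
  set f : List Bool → k := fun u => if u = List.replicate (2 * n + 1) true then (1 : k) else 0
    with hf
  have h3 : (aeval (xopL k i j ω) p) f w = 0 := by rw [hp]; rfl
  rw [aeval_eq_sum_range] at h3
  simp only [LinearMap.sum_apply, Finset.sum_apply, LinearMap.smul_apply, Pi.smul_apply,
    xopL_pow, smul_eq_mul] at h3
  rw [Finset.sum_range_succ, ← hn, h1, mul_one, Finset.sum_eq_zero, zero_add] at h3
  · rw [hn, coeff_natDegree, leadingCoeff_eq_zero] at h3
    exact hp0 h3
  · intro m hm
    rw [h2 m (Finset.mem_range.1 hm), mul_zero]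

/-- The operator `x^2 - 4`, `x` the operator of `b_i + a b_j`. -/
noncomputable def opL (k : Type u) [Field k] (i j : Fin 3) (ω : ℕ → Fin 3) (c : k) :
    Module.End k (List Bool → k) := aeval (xopL k i j ω) (X ^ 2 - C c)

theorem opL_transcendental (k : Type u) [Field k] {i j : Fin 3} (hij : i ≠ j)
    (ω : ℕ → Fin 3) (c : k) : Transcendental k (opL k i j ω c) := by
  have hd : (X ^ 2 - C c : k[X]).natDegree = 2 := natDegree_X_pow_sub_C
  refine (xopL_transcendental k hij ω).aeval _ (by rw [hd]; norm_num) ?_
  rw [mem_nonZeroDivisors_iff_ne_zero, leadingCoeff_ne_zero]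
  intro h
  rw [h, natDegree_zero] at hd
  exact absurd hd (by norm_num)

theorem opL_apply (k : Type u) [Field k] (i j : Fin 3) (ω : ℕ → Fin 3) (c : k)
    (f : List Bool → k) (u : List Bool) :
    opL k i j ω c f u = xop i j ω (xop i j ω f) u - c * f u := by
  unfold opL
  rw [map_sub, map_pow, aeval_X, aeval_C, LinearMap.sub_apply, Pi.sub_apply, pow_two,
    Module.End.mul_apply, Module.algebraMap_end_apply, Pi.smul_apply, smul_eq_mul]
  rfl

/-- An element of a group algebra which acts on some quotient of a module like a transcendental
operator is transcendental. -/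
theorem transcendental_of_res {k : Type u} [Field k] {R : Type v} [Ring R] [Algebra k R]
    {V : Type w} [AddCommGroup V] [Module k V] (F : R →ₐ[k] Module.End k V)
    (P : V →ₗ[k] V) (hP : Function.Surjective P) (L : Module.End k V) (hL : Transcendental k L)
    (x : R) (h : ∀ f, P (F x f) = L (P f)) : Transcendental k x := by
  rw [transcendental_iff] at hL ⊢
  intro p hp
  apply hL
  have key : ∀ (q : k[X]) (f : V), P (F (aeval x q) f) = (aeval L q) (P f) := by
    intro q f
    induction q using Polynomial.induction_on' with
    | add q r hq hr =>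
      rw [map_add, map_add, map_add, LinearMap.add_apply, LinearMap.add_apply, map_add, hq, hr]
    | monomial n c =>
      rw [aeval_monomial, aeval_monomial, map_mul, AlgHom.commutes, Module.End.mul_apply,
        Module.End.mul_apply, Module.algebraMap_end_apply, Module.algebraMap_end_apply, map_smul]
      congr 1
      induction n with
      | zero => simp
      | succ n ih =>
        rw [pow_succ', pow_succ', map_mul, Module.End.mul_apply, Module.End.mul_apply, h, ih]
  ext f : 1
  obtain ⟨f, rfl⟩ := hP f
  rw [← key, hp, map_zero]
  simp

/-- Restriction of functions to the subtree at a vertex. -/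
def resL (k : Type u) [Field k] (v : List Bool) : (List Bool → k) →ₗ[k] (List Bool → k) where
  toFun f := fun w => f (v ++ w)
  map_add' _ _ := rfl
  map_smul' _ _ := rfl

theorem resL_surjective (k : Type u) [Field k] (v : List Bool) :
    Function.Surjective (resL k v) := by
  intro f
  refine ⟨fun u => f (u.drop v.length), ?_⟩
  funext w
  show f ((v ++ w).drop v.length) = f w
  rw [List.drop_left]

theorem not_nilpotent_of_transcendental {k : Type u} [Field k] {R : Type v} [Ring R]
    [Algebra k R] {x : R} (hx : Transcendental k x) : ¬ IsNilpotent x := by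
  rintro ⟨n, hn⟩
  rw [transcendental_iff] at hx
  have := hx (X ^ n) (by rw [map_pow, aeval_X, hn])
  exact pow_ne_zero n X_ne_zero this

end Pool.Agent.Y803.GR
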