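import Pool.Agent.Y803.GR.Conj
import Pool.Agent.Y803.GR.Trn

/-!
Kaplansky's question for the groups with a section isomorphic to a Grigorchuk group.
-/

set_option autoImplicit false

open Polynomial

namespace Pool.Agent.Y803.GR

universe u v w

/-- The kernel of the augmentation lies in the ideal generated by the elements `g - 1`. -/
theorem mem_span_of_aug {k : Type u} [Field k] {G : Type v} [Group G] (x : MonoidAlgebra k G)
    (hx : aug k G x = 0) :
    x ∈ Ideal.span (Set.range (fun g : G => MonoidAlgebra.of k G g - 1)) := by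
  have key : ∀ x : MonoidAlgebra k G, x - algebraMap k (MonoidAlgebra k G) (aug k G x) ∈
      Ideal.span (Set.range (fun g : G => MonoidAlgebra.of k G g - 1)) := by
    intro x
    induction x using MonoidAlgebra.induction_linear with
    | zero => simp
    | add x y hx hy =>
      have h : x + y - algebraMap k (MonoidAlgebra k G) (aug k G (x + y)) =
          (x - algebraMap k (MonoidAlgebra k G) (aug k G x)) +
          (y - algebraMap k (MonoidAlgebra k G) (aug k G y)) := by
        rw [map_add, map_add]
        abel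
      rw [h]
      exact add_mem hx hy
    | single g r =>
      have h : (MonoidAlgebra.single g r : MonoidAlgebra k G) -
          algebraMap k (MonoidAlgebra k G) (aug k G (MonoidAlgebra.single g r)) =
          algebraMap k (MonoidAlgebra k G) r * (MonoidAlgebra.of k G g - 1) := by
        rw [aug_single, mul_sub, mul_one, MonoidAlgebra.of_apply]
        congr 1
        rw [MonoidAlgebra.coe_algebraMap, Function.comp_apply, MonoidAlgebra.single_mul_single,
          one_mul]
        simp
      rw [h]
      exact Ideal.mul_mem_left _ _ (Ideal.subset_span ⟨g, rfl⟩)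
  have := key x
  rwa [hx, map_zero, sub_zero] at this

theorem infinite_G (ω : ℕ → Fin 3) : Infinite (G ω) := by
  by_contra hfin
  rw [not_infinite_iff_finite] at hfin
  have hij : (0 : Fin 3) ≠ 1 := by decide
  let g1 : G ω := ⟨pb 0 ω, pb_mem 0 ω⟩
  let g2 : G ω := ⟨pa * pb 1 ω, (G ω).mul_mem (pa_mem ω) (pb_mem 1 ω)⟩
  let x : MonoidAlgebra (ZMod 2) (G ω) := MonoidAlgebra.single g1 1 + MonoidAlgebra.single g2 1
  have hx : Rho (ZMod 2) (G ω) x = xopL (ZMod 2) 0 1 ω := by
    ext f u
    simp only [x, map_add, LinearMap.add_apply, Pi.add_apply, Rho_single]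
    have e1 : ((g1 : Equiv.Perm (List Bool)))⁻¹ u = fb 0 ω u := rfl
    have e2 : ((g2 : Equiv.Perm (List Bool)))⁻¹ u = fb 1 ω (fa u) := by
      show (pa * pb 1 ω)⁻¹ u = _
      rw [mul_inv_rev, pa_inv, pb_inv]
      rfl
    rw [e1, e2]
    rfl
  have htr : Transcendental (ZMod 2) x := by
    have h1 := xopL_transcendental (ZMod 2) hij ω
    rw [transcendental_iff] at h1 ⊢
    intro p hp
    apply h1
    rw [← hx, aeval_algHom_apply, hp, map_zero]
  have hmf : Module.Finite (ZMod 2) (MonoidAlgebra (ZMod 2) (G ω)) := inferInstance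
  exact htr (Algebra.IsIntegral.isIntegral x).isAlgebraic

/-- A group with a section isomorphic to `G_ω` is not locally finite. -/
theorem exists_infinite_fg {M : Type v} [Group M] (ω : ℕ → Fin 3) (S : Subgroup M)
    (f : S →* G ω) (hf : Function.Surjective f) : ∃ H : Subgroup M, H.FG ∧ Infinite H := by
  classical
  obtain ⟨sa, hsa⟩ := hf ⟨pa, pa_mem ω⟩
  choose sb hsb using fun i : Fin 3 => hf ⟨pb i ω, pb_mem i ω⟩
  let T : Finset M := insert (sa : M) (Finset.univ.image fun i : Fin 3 => (sb i : M))
  refine ⟨Subgroup.closure (T : Set M), ⟨T, rfl⟩, ?_⟩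
  by_contra hfin
  rw [not_infinite_iff_finite] at hfin
  have hle : Subgroup.closure (T : Set M) ≤ S := by
    rw [Subgroup.closure_le]
    intro t ht
    rcases Finset.mem_insert.1 (Finset.mem_coe.1 ht) with h | h
    · rw [h]; exact sa.2
    · obtain ⟨i, -, rfl⟩ := Finset.mem_image.1 h
      exact (sb i).2
  have hrange : ∀ g : G ω, ∃ h : Subgroup.closure (T : Set M), f ⟨h, hle h.2⟩ = g := by
    rintro ⟨g, hg⟩
    have hg' : g ∈ Subgroup.closure ({pa} ∪ Set.range fun i => pb i ω) := hg
    have key : ∀ g ∈ Subgroup.closure ({pa} ∪ Set.range fun i => pb i ω),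
        ∃ h : Subgroup.closure (T : Set M),
          ((f ⟨h, hle h.2⟩ : G ω) : Equiv.Perm (List Bool)) = g := by
      intro g hg
      induction hg using Subgroup.closure_induction with
      | mem x hx =>
        rcases hx with hx | ⟨i, rfl⟩
        · rw [Set.mem_singleton_iff] at hx
          subst hx
          refine ⟨⟨sa, Subgroup.subset_closure (Finset.mem_coe.2 (Finset.mem_insert_self _ _))⟩, ?_⟩
          exact congrArg Subtype.val hsa
        · refine ⟨⟨sb i, Subgroup.subset_closure (Finset.mem_coe.2 (Finset.mem_insert_of_mem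
            (Finset.mem_image.2 ⟨i, Finset.mem_univ _, rfl⟩)))⟩, ?_⟩
          exact congrArg Subtype.val (hsb i)
      | one => exact ⟨1, congrArg Subtype.val (map_one f)⟩
      | mul x y _ _ hx hy =>
        obtain ⟨h, h1⟩ := hx
        obtain ⟨h', h1'⟩ := hy
        refine ⟨h * h', ?_⟩
        have e : f ⟨(h * h' : Subgroup.closure (T : Set M)), hle (h * h').2⟩ =
            f ⟨h, hle h.2⟩ * f ⟨h', hle h'.2⟩ := (map_mul f ⟨h, hle h.2⟩ ⟨h', hle h'.2⟩)
        rw [e, Subgroup.coe_mul, h1, h1']
      | inv x _ hx =>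
        obtain ⟨h, h1⟩ := hx
        refine ⟨h⁻¹, ?_⟩
        have e : f ⟨(h⁻¹ : Subgroup.closure (T : Set M)), hle (h⁻¹).2⟩ =
            (f ⟨h, hle h.2⟩)⁻¹ := (map_inv f ⟨h, hle h.2⟩)
        rw [e, Subgroup.coe_inv, h1]
    obtain ⟨h, h1⟩ := key g hg'
    exact ⟨h, Subtype.ext h1⟩
  have hfG : Finite (G ω) := Finite.of_surjective
    (fun h : Subgroup.closure (T : Set M) => f ⟨h, hle h.2⟩) hrange
  have := infinite_G ω
  exact not_finite (G ω)

/-- **Theorem.** Let `M` be a group with a section isomorphic to a Grigorchuk group `G_ω`. Over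
every field the augmentation ideal of `k[M]` does not lie in the Jacobson radical. -/
theorem kaplansky_section (k : Type u) [Field k] {M : Type v} [Group M] (ω : ℕ → Fin 3)
    (S : Subgroup M) (f : S →* G ω) (hf : Function.Surjective f) :
    ¬ Ideal.span (Set.range (fun g : M => MonoidAlgebra.of k M g - 1)) ≤
      Ideal.jacobson (⊥ : Ideal (MonoidAlgebra k M)) := by
  intro h
  have h1 : AugLeJac k M := fun x hx => h (mem_span_of_aug x hx)
  exact all k ω (augLeJac_section ⟨S, f, hf⟩ h1)

end Pool.Agent.Y803.GR
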