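import Pool.Agent.H202Kap.C
import Pool.Agent.Y803.GR.Kap

/-!
Free Burnside groups of prime power exponent have wreath products as quotients.
-/

set_option autoImplicit false

namespace Pool.Agent.Y803.Brn

open Pool.Agent.Y803.GR Pool.Agent.Helper826.Kap Pool.Agent.H202Kap

universe u v w

/-- The free Burnside group of rank `r` and exponent `n`. -/
def Burnside (r n : ℕ) : Type :=
  FreeGroup (Fin r) ⧸ Subgroup.normalClosure (Set.range (fun w : FreeGroup (Fin r) => w ^ n))

noncomputable instance (r n : ℕ) : Group (Burnside r n) :=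
  inferInstanceAs (Group (FreeGroup (Fin r) ⧸
    Subgroup.normalClosure (Set.range (fun w : FreeGroup (Fin r) => w ^ n))))

/-- The projection of the free group. -/
def toB (r n : ℕ) : FreeGroup (Fin r) →* Burnside r n := QuotientGroup.mk' _

theorem toB_surjective (r n : ℕ) : Function.Surjective (toB r n) := QuotientGroup.mk'_surjective _

theorem pow_eq_one {r n : ℕ} (x : Burnside r n) : x ^ n = 1 := by
  obtain ⟨w, rfl⟩ := toB_surjective r n x
  rw [← map_pow]
  exact (QuotientGroup.eq_one_iff _).2 (Subgroup.subset_normalClosure ⟨w, rfl⟩)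

theorem gen_B (r n : ℕ) :
    Subgroup.closure (Set.range (fun i : Fin r => toB r n (FreeGroup.of i))) = ⊤ := by
  have h1 : Set.range (fun i : Fin r => toB r n (FreeGroup.of i)) =
      toB r n '' Set.range (FreeGroup.of) := by
    rw [← Set.range_comp]; rfl
  rw [h1, ← MonoidHom.map_closure, FreeGroup.closure_range_of, ← MonoidHom.range_eq_map,
    MonoidHom.range_eq_top]
  exact toB_surjective r n

theorem exists_hom {r n : ℕ} {H : Type v} [Group H] (hH : ∀ x : H, x ^ n = 1) (h : Fin r → H)
    (hgen : Subgroup.closure (Set.range h) = ⊤) :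
    ∃ f : Burnside r n →* H, Function.Surjective f := by
  refine ⟨QuotientGroup.lift _ (FreeGroup.lift h) ?_, ?_⟩
  · have h1 : Subgroup.normalClosure (Set.range (fun w : FreeGroup (Fin r) => w ^ n)) ≤
        (FreeGroup.lift h).ker := by
      apply Subgroup.normalClosure_le_normal
      rintro _ ⟨w, rfl⟩
      show FreeGroup.lift h (w ^ n) = 1
      rw [map_pow, hH]
    intro x hx
    exact h1 hx
  · intro y
    have h1 : y ∈ (FreeGroup.lift h).range := by
      rw [FreeGroup.range_lift_eq_closure, hgen]
      trivial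
    obtain ⟨w, rfl⟩ := h1
    exact ⟨toB r n w, rfl⟩

/-- A group with an infinite finitely generated section is not locally finite. -/
theorem not_locFin_of_section {M : Type v} [Group M] {Q : Type w} [Group Q] [Infinite Q]
    {T : Set Q} (hT : T.Finite) (hgen : Subgroup.closure T = ⊤) (S : Subgroup M) (f : S →* Q)
    (hf : Function.Surjective f) : ¬ ∀ H : Subgroup M, H.FG → Finite H := by
  intro h
  choose g hg using hf
  let K : Subgroup S := Subgroup.closure (g '' T)
  have hKM : (K.map S.subtype).FG := (Subgroup.fg_iff _).2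
    ⟨S.subtype '' (g '' T), (MonoidHom.map_closure _ _).symm, (hT.image g).image _⟩
  have hfin := h _ hKM
  have hKfin : Finite K :=
    Finite.of_equiv _ (K.equivMapOfInjective S.subtype S.subtype_injective).toEquiv.symm
  have hle : (⊤ : Subgroup Q) ≤ K.map f := by
    rw [← hgen, Subgroup.closure_le]
    intro t ht
    exact ⟨g t, Subgroup.subset_closure ⟨t, ht, rfl⟩, hg t⟩
  have hsurj : Function.Surjective (fun x : K => f x) := by
    intro q
    obtain ⟨s, hs, hs'⟩ := hle (Subgroup.mem_top q)
    exact ⟨⟨s, hs⟩, hs'⟩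
  have hQ : Finite Q := Finite.of_surjective _ hsurj
  exact not_finite Q

section Wreath

variable {D Q : Type} [Group D] [Group Q]

/-- The top group. -/
def topHom : Q →* Wr D Q where
  toFun := top
  map_one' := rfl
  map_mul' s t := by
    apply Subtype.ext
    apply RegularWreathProduct.ext
    · funext x
      show (1 : D) = 1 * 1
      rw [one_mul]
    · rfl

theorem left_conj (q x : Q) (d : D) : (top q * base d * (top q)⁻¹ : Wr D Q).1.left x =
    (base d : Wr D Q).1.left (q⁻¹ * x) := by
  rw [left_mul, left_mul, left_top, one_mul, ← (show topHom q⁻¹ = (top q : Wr D Q)⁻¹ from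
    map_inv topHom q)]
  show _ * (1 : D) = _
  rw [mul_one]
  rfl

theorem right_conj (q : Q) (d : D) : (top q * base d * (top q)⁻¹ : Wr D Q).1.right = 1 := by
  show q * 1 * q⁻¹ = 1
  rw [mul_one, mul_inv_cancel]

theorem wr_gen (d0 : D) (hD : ∀ d : D, d ∈ Subgroup.zpowers d0) (T : Set Q)
    (hT : Subgroup.closure T = ⊤) :
    Subgroup.closure ({base d0} ∪ top '' T) = (⊤ : Subgroup (Wr D Q)) := by
  classical
  set R : Subgroup (Wr D Q) := Subgroup.closure ({base d0} ∪ top '' T) with hR
  have h1 : ∀ q : Q, top q ∈ R := by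
    have h2 : (⊤ : Subgroup Q) ≤ R.comap topHom := by
      rw [← hT, Subgroup.closure_le]
      intro t ht
      exact Subgroup.subset_closure (Or.inr ⟨t, ht, rfl⟩)
    intro q
    exact h2 (Subgroup.mem_top q)
  have h2 : ∀ d : D, base d ∈ R := by
    intro d
    obtain ⟨z, rfl⟩ := hD d
    have h3 : (base (d0 ^ z) : Wr D Q) = (base d0) ^ z := map_zpow (baseHom D Q) d0 z
    show base (d0 ^ z) ∈ R
    rw [h3]
    exact R.zpow_mem (Subgroup.subset_closure (Or.inl rfl)) z
  have h3 : ∀ s : Finset Q, ∀ g : Wr D Q, (∀ x ∉ s, g.1.left x = 1) → g ∈ R := by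
    intro s
    induction s using Finset.induction_on with
    | empty =>
      intro g hg
      have h4 : g = top g.1.right := by
        apply Subtype.ext
        apply RegularWreathProduct.ext
        · funext x
          exact hg x (Finset.notMem_empty x)
        · rfl
      rw [h4]
      exact h1 _
    | insert q s hq ih =>
      intro g hg
      set c : Wr D Q := top q * base (g.1.left q) * (top q)⁻¹ with hc
      have hcR : c ∈ R := R.mul_mem (R.mul_mem (h1 q) (h2 _)) (R.inv_mem (h1 q))
      have hcg : c⁻¹ * g ∈ R := by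
        apply ih
        intro x hx
        have h5 : (c⁻¹).1.left x = (c.1.left x)⁻¹ := by
          show (c.1.left (c.1.right * x))⁻¹ = _
          rw [hc, right_conj, one_mul]
        have h6 : (c⁻¹).1.right = 1 := by
          show (c.1.right)⁻¹ = 1
          rw [hc, right_conj, inv_one]
        rw [left_mul, h5, h6, inv_one, one_mul, hc, left_conj]
        by_cases hxq : x = q
        · subst hxq
          rw [inv_mul_cancel, left_base_one, inv_mul_cancel]
        · rw [left_base_ne, inv_one, one_mul]
          · apply hg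
            rw [Finset.mem_insert, not_or]
            exact ⟨hxq, hx⟩
          · intro h7
            exact hxq (inv_mul_eq_one.1 h7).symm
      have h8 : g = c * (c⁻¹ * g) := by group
      rw [h8]
      exact R.mul_mem hcR hcg
  rw [eq_top_iff]
  rintro g -
  have hfin : (Function.mulSupport g.1.left).Finite := g.2
  apply h3 hfin.toFinset g
  intro x hx
  by_contra h4
  exact hx (hfin.mem_toFinset.2 h4)

theorem wr_pow {p n : ℕ} (hD : ∀ d : D, d ^ p = 1) (hQ : ∀ q : Q, q ^ n = 1) (x : Wr D Q) :
    x ^ (n * p) = 1 := by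
  rw [pow_mul]
  set y := x ^ n with hy
  have hyr : y.1.right = 1 := by
    have h1 : y.1.right = x.1.right ^ n := by
      have := map_pow ((RegularWreathProduct.rightHom (D := D) (Q := Q)).comp
        (Wr D Q).subtype) x n
      exact this
    rw [h1, hQ]
  have key : ∀ j : ℕ, (y ^ j).1.right = 1 ∧ ∀ z, (y ^ j).1.left z = (y.1.left z) ^ j := by
    intro j
    induction j with
    | zero =>
      refine ⟨rfl, fun z => ?_⟩
      rw [pow_zero, pow_zero]; rfl
    | succ j ih =>
      refine ⟨?_, fun z => ?_⟩
      · rw [pow_succ, right_mul, ih.1, hyr, one_mul]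
      · rw [pow_succ, left_mul, ih.2, ih.1, inv_one, one_mul, pow_succ]
  apply Subtype.ext
  apply RegularWreathProduct.ext
  · funext z
    rw [(key p).2 z, hD]
    rfl
  · exact (key p).1

theorem topHom_injective : Function.Injective (topHom : Q →* Wr D Q) := by
  intro a b hab
  exact congrArg (fun z : Wr D Q => z.1.right) hab

theorem not_aug_wr (F : Type) [Field F] [Nontrivial D] [Infinite Q] (T : Finset Q)
    (hT : Subgroup.closure (T : Set Q) = ⊤) : ¬ AugLeJac F (Wr D Q) := by
  intro h
  have hJ : Aug F (Wr D Q) ≤ Ideal.jacobson ⊥ := by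
    rw [Ideal.span_le]
    rintro _ ⟨g, rfl⟩
    apply h
    rw [map_sub, map_one, MonoidAlgebra.of_apply, aug_single, sub_self]
  have h1 := locFin_top F (Wr D Q) hJ D Q (MonoidHom.id _) Function.injective_id T
  rw [hT] at h1
  have h2 : Finite Q := Finite.of_equiv _ Subgroup.topEquiv.toEquiv
  exact not_finite Q

end Wreath

section Two

variable {W : Type} [Group W]

/-- The first generator. -/
noncomputable def al {m : ℕ} (N : ℕ) (g : Fin m → W) :
    RegularWreathProduct W (Multiplicative (ZMod N)) :=
  ⟨fun x => if h : x.toAdd.val < m then g ⟨x.toAdd.val, h⟩ else 1, 1⟩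

/-- The second generator. -/
def tt (N : ℕ) : RegularWreathProduct W (Multiplicative (ZMod N)) :=
  RegularWreathProduct.inl (Multiplicative.ofAdd 1)

theorem rw_pow {N n : ℕ} (hW : ∀ d : W, d ^ n = 1)
    (x : RegularWreathProduct W (Multiplicative (ZMod N))) : x ^ (N * n) = 1 := by
  rw [pow_mul]
  set y := x ^ N with hy
  have hyr : y.right = 1 := by
    have h1 : y.right = x.right ^ N := map_pow RegularWreathProduct.rightHom x N
    rw [h1]
    apply Multiplicative.toAdd.injective
    rw [toAdd_pow, toAdd_one, nsmul_eq_mul, ZMod.natCast_self, zero_mul]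
  have key : ∀ j : ℕ, (y ^ j).right = 1 ∧ ∀ z, (y ^ j).left z = (y.left z) ^ j := by
    intro j
    induction j with
    | zero =>
      refine ⟨rfl, fun z => ?_⟩
      rw [pow_zero, pow_zero]; rfl
    | succ j ih =>
      refine ⟨?_, fun z => ?_⟩
      · rw [pow_succ, RegularWreathProduct.mul_right, ih.1, hyr, one_mul]
      · rw [pow_succ, RegularWreathProduct.mul_left, Pi.mul_apply, ih.2, ih.1, inv_one, one_mul,
          pow_succ]
  apply RegularWreathProduct.ext
  · funext z
    rw [(key n).2 z, hW]
    rfl
  · exact (key n).1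

/-- A group generated by `m ≤ N` elements is a section of a `2`-generator group. -/
theorem section_two {m N : ℕ} [NeZero N] (hmN : m ≤ N) (g : Fin m → W)
    (hg : Subgroup.closure (Set.range g) = ⊤) :
    ∃ (S : Subgroup (Subgroup.closure {al N g, tt N} :
        Subgroup (RegularWreathProduct W (Multiplicative (ZMod N))))) (f : S →* W),
      Function.Surjective f := by
  set H : Subgroup (RegularWreathProduct W (Multiplicative (ZMod N))) :=
    Subgroup.closure {al N g, tt N} with hH
  let S : Subgroup H := (RegularWreathProduct.rightHom.comp H.subtype).ker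
  have hS : ∀ s : S, (s : H).1.right = 1 := fun s => s.2
  let f : S →* W :=
    { toFun := fun s => (s : H).1.left 1
      map_one' := rfl
      map_mul' := fun a b => by
        show ((a : H).1 * (b : H).1).left 1 = _
        rw [RegularWreathProduct.mul_left, Pi.mul_apply, hS a, inv_one, one_mul] }
  refine ⟨S, f, ?_⟩
  have hα : al N g ∈ H := Subgroup.subset_closure (Or.inl rfl)
  have ht : tt N ∈ H := Subgroup.subset_closure (Or.inr rfl)
  have hle : (⊤ : Subgroup W) ≤ f.range := by
    rw [← hg, Subgroup.closure_le]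
    rintro _ ⟨i, rfl⟩
    have h1 : (RegularWreathProduct.inl (Multiplicative.ofAdd (i.1 : ZMod N)))⁻¹ * al N g *
        RegularWreathProduct.inl (Multiplicative.ofAdd (i.1 : ZMod N)) ∈ H := by
      have h2 : (RegularWreathProduct.inl (Multiplicative.ofAdd (i.1 : ZMod N)) :
          RegularWreathProduct W (Multiplicative (ZMod N))) = (tt N) ^ i.1 := by
        rw [tt, ← map_pow, ← ofAdd_nsmul, nsmul_eq_mul, mul_one]
      rw [h2]
      exact H.mul_mem (H.mul_mem (H.inv_mem (H.pow_mem ht _)) hα) (H.pow_mem ht _)
    refine ⟨⟨⟨_, h1⟩, ?_⟩, ?_⟩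
    · show (Multiplicative.ofAdd (i.1 : ZMod N))⁻¹ * 1 * Multiplicative.ofAdd (i.1 : ZMod N) = 1
      rw [mul_one, inv_mul_cancel]
    · show ((RegularWreathProduct.inl (Multiplicative.ofAdd (i.1 : ZMod N)))⁻¹ * al N g *
        RegularWreathProduct.inl (Multiplicative.ofAdd (i.1 : ZMod N))).left 1 = g i
      have h3 : i.1 < N := lt_of_lt_of_le i.2 hmN
      simp only [RegularWreathProduct.mul_left, Pi.mul_apply, RegularWreathProduct.inv_left,
        RegularWreathProduct.left_inl, RegularWreathProduct.inv_right,
        RegularWreathProduct.right_inl, inv_inv, Pi.inv_apply, Pi.one_apply, mul_one, one_mul,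
        inv_one]
      show (if h : (Multiplicative.ofAdd (i.1 : ZMod N)).toAdd.val < m then
        g ⟨(Multiplicative.ofAdd (i.1 : ZMod N)).toAdd.val, h⟩ else 1) = g i
      have h4 : (Multiplicative.ofAdd (i.1 : ZMod N)).toAdd.val = i.1 := by
        rw [toAdd_ofAdd, ZMod.val_natCast, Nat.mod_eq_of_lt h3]
      rw [dif_pos (by rw [h4]; exact i.2)]
      congr 1
      exact Fin.ext h4
  intro w
  exact hle (Subgroup.mem_top w)

end Two

end Pool.Agent.Y803.Brn
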