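import Pool.Agent.Y803.GR.Brn

/-!
Kaplansky's question for free Burnside groups of prime power exponent.
-/

set_option autoImplicit false

namespace Pool.Agent.Y803.Brn

open Pool.Agent.Y803.GR Pool.Agent.Helper826.Kap Pool.Agent.H202Kap

universe u v w

theorem main (F : Type) [Field F] (p : ℕ) [Fact p.Prime] (m k c r l : ℕ)
    (hinf : Infinite (Burnside m (p ^ k))) (hc : m + 1 ≤ p ^ c) (hr : 2 ≤ r)
    (hl : k + 1 + c ≤ l) :
    ¬ AugLeJac F (Burnside r (p ^ l)) ∧ Infinite (Burnside r (p ^ l)) := by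
  classical
  let Q := Burnside m (p ^ k)
  let D := Multiplicative (ZMod p)
  let W : Type := Wr D Q
  let d0 : D := Multiplicative.ofAdd 1
  have hD0 : ∀ d : D, d ∈ Subgroup.zpowers d0 := by
    intro d
    refine ⟨(d.toAdd.val : ℤ), ?_⟩
    show d0 ^ ((d.toAdd.val : ℕ) : ℤ) = d
    rw [zpow_natCast]
    apply Multiplicative.toAdd.injective
    rw [toAdd_pow, toAdd_ofAdd, nsmul_eq_mul, mul_one, ZMod.natCast_zmod_val]
  have hDp : ∀ d : D, d ^ p = 1 := by
    intro d
    apply Multiplicative.toAdd.injective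
    rw [toAdd_pow, toAdd_one, nsmul_eq_mul, ZMod.natCast_self, zero_mul]
  have hQ : ∀ q : Q, q ^ (p ^ k) = 1 := fun q => pow_eq_one q
  have hW : ∀ x : W, x ^ (p ^ k * p) = 1 := fun x => wr_pow hDp hQ x
  let gQ : Fin m → Q := fun i => toB m (p ^ k) (FreeGroup.of i)
  let g : Fin (m + 1) → W := Fin.cons (base d0) (fun i => top (gQ i))
  have hg : Subgroup.closure (Set.range g) = ⊤ := by
    have h1 : Set.range g = {base d0} ∪ top '' (Set.range gQ) := by
      rw [Fin.range_cons, Set.singleton_union, ← Set.range_comp]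
      rfl
    rw [h1]
    exact wr_gen d0 hD0 _ (gen_B m (p ^ k))
  let N := p ^ c
  have hN : NeZero N := ⟨pow_ne_zero _ (Fact.out : p.Prime).ne_zero⟩
  let H : Subgroup (RegularWreathProduct W (Multiplicative (ZMod N))) :=
    Subgroup.closure {al N g, tt N}
  have hH : H = Subgroup.closure {al N g, tt N} := rfl
  obtain ⟨S, f, hf⟩ : ∃ (S : Subgroup H) (f : S →* W), Function.Surjective f :=
    section_two (N := N) hc g hg
  have hdvd : N * (p ^ k * p) ∣ p ^ l := by
    have h1 : N * (p ^ k * p) = p ^ (k + 1 + c) := by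
      show p ^ c * (p ^ k * p) = _
      ring
    rw [h1]
    exact pow_dvd_pow p hl
  have hHp : ∀ x : H, x ^ (p ^ l) = 1 := by
    intro x
    obtain ⟨z, hz⟩ := hdvd
    rw [hz, pow_mul]
    have h1 : x ^ (N * (p ^ k * p)) = 1 := Subtype.ext (rw_pow hW x.1)
    rw [h1, one_pow]
  have hα : al N g ∈ H := Subgroup.subset_closure (Or.inl rfl)
  have ht : tt N ∈ H := Subgroup.subset_closure (Or.inr rfl)
  let h : Fin r → H := fun i => if i.1 = 0 then ⟨al N g, hα⟩ else ⟨tt N, ht⟩
  have hgen : Subgroup.closure (Set.range h) = ⊤ := by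
    have hle : H ≤ (Subgroup.closure (Set.range h)).map H.subtype := by
      conv_lhs => rw [hH]
      rw [Subgroup.closure_le]
      rintro x (rfl | hx)
      · exact ⟨⟨al N g, hα⟩, Subgroup.subset_closure ⟨⟨0, by omega⟩, if_pos rfl⟩, rfl⟩
      · rw [Set.mem_singleton_iff] at hx
        subst hx
        exact ⟨⟨tt N, ht⟩, Subgroup.subset_closure ⟨⟨1, by omega⟩, if_neg one_ne_zero⟩, rfl⟩
    rw [eq_top_iff]
    rintro x -
    obtain ⟨y, hy, hyx⟩ := hle x.2
    have : y = x := Subtype.ext hyx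
    rw [← this]
    exact hy
  obtain ⟨φ, hφ⟩ := exists_hom hHp h hgen
  constructor
  · intro hA
    have h1 : AugLeJac F H := augLeJac_quot φ hφ hA
    have h2 : AugLeJac F W := augLeJac_section ⟨S, f, hf⟩ h1
    refine not_aug_wr (D := D) (Q := Q) F (Finset.univ.image gQ) ?_ h2
    rw [Finset.coe_image, Finset.coe_univ, Set.image_univ]
    exact gen_B m (p ^ k)
  · by_contra hfin
    rw [not_infinite_iff_finite] at hfin
    have h1 : Finite H := Finite.of_surjective φ hφ
    have h2 : Finite W := Finite.of_surjective f hf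
    have h3 : Finite Q := Finite.of_injective (topHom : Q →* Wr D Q) topHom_injective
    exact not_finite Q

end Pool.Agent.Y803.Brn
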