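import Pool.Agent.Y803.GR.Tor

/-!
Subgroups which commute with a disjoint conjugate, and subgroups which commute with each other.
-/

set_option autoImplicit false

open Polynomial

namespace Pool.Agent.Y803.GR

universe u v w

/-- The homomorphism `H₁ × H₂ → G` of two commuting subgroups. -/
def prodHom {G : Type v} [Group G] (H₁ H₂ : Subgroup G)
    (hcomm : ∀ a ∈ H₁, ∀ b ∈ H₂, a * b = b * a) : H₁ × H₂ →* G where
  toFun p := p.1 * p.2
  map_one' := by simp
  map_mul' p q := by
    show ((p.1 * q.1 : H₁) : G) * ((p.2 * q.2 : H₂) : G) = (p.1 * p.2) * (q.1 * q.2)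
    rw [Subgroup.coe_mul, Subgroup.coe_mul]
    calc (p.1 : G) * q.1 * (p.2 * q.2) = p.1 * (q.1 * p.2) * q.2 := by group
      _ = p.1 * (p.2 * q.1) * q.2 := by rw [hcomm _ q.1.2 _ p.2.2]
      _ = _ := by group

theorem prodHom_injective {G : Type v} [Group G] (H₁ H₂ : Subgroup G)
    (hcomm : ∀ a ∈ H₁, ∀ b ∈ H₂, a * b = b * a) (hdisj : ∀ a ∈ H₁, a ∈ H₂ → a = 1) :
    Function.Injective (prodHom H₁ H₂ hcomm) := by
  rintro ⟨⟨g, hg⟩, ⟨h, hh⟩⟩ ⟨⟨g', hg'⟩, ⟨h', hh'⟩⟩ heq
  have heq : g * h = g' * h' := heq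
  have h3 : g'⁻¹ * g = h' * h⁻¹ := by
    rw [inv_mul_eq_iff_eq_mul, ← mul_assoc, eq_mul_inv_iff_mul_eq]; exact heq
  have h4 : g'⁻¹ * g = 1 := hdisj _ (H₁.mul_mem (H₁.inv_mem hg') hg)
    (h3 ▸ H₂.mul_mem hh' (H₂.inv_mem hh))
  have h5 : h' * h⁻¹ = 1 := h3 ▸ h4
  have e1 : g = g' := (inv_mul_eq_one.mp h4).symm
  have e2 : h = h' := (mul_inv_eq_one.mp h5).symm
  subst e1 e2
  rfl

/-- An element of `k[G]` supported on a subgroup comes from the group algebra of the subgroup. -/
theorem exists_of_support {k : Type u} [Field k] {G : Type v} [Group G] (H : Subgroup G)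
    (x : MonoidAlgebra k G) (hx : ∀ g ∈ x.coeff.support, g ∈ H) :
    ∃ y : MonoidAlgebra k H, mp k H.subtype y = x := by
  refine ⟨MonoidAlgebra.comapDomain H.subtype H.subtype_injective x, ?_⟩
  apply MonoidAlgebra.mapDomain_comapDomain
  intro g hg
  exact ⟨⟨g, hx g hg⟩, rfl⟩

/-- **Theorem.** Let `H` be a subgroup of `G` which commutes elementwise with a conjugate
`c H c⁻¹` and meets it in `1`. Then every element of `J(k[G])` supported on `H` is nilpotent. -/
theorem nil_of_conj {k : Type u} [Field k] {G : Type v} [Group G] (H : Subgroup G) (c : G)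
    (hcomm : ∀ a ∈ H, ∀ b ∈ H, a * (c * b * c⁻¹) = (c * b * c⁻¹) * a)
    (hdisj : ∀ a ∈ H, ∀ b ∈ H, a = c * b * c⁻¹ → a = 1)
    (x : MonoidAlgebra k G) (hx : x ∈ Ideal.jacobson (⊥ : Ideal (MonoidAlgebra k G)))
    (hsupp : ∀ g ∈ x.coeff.support, g ∈ H) : IsNilpotent x := by
  obtain ⟨y, rfl⟩ := exists_of_support H x hsupp
  let H' : Subgroup G := H.map (MulAut.conj c).toMonoidHom
  have hcomm' : ∀ a ∈ H, ∀ b ∈ H', a * b = b * a := by
    rintro a ha _ ⟨b, hb, rfl⟩
    exact hcomm a ha b hb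
  have hdisj' : ∀ a ∈ H, a ∈ H' → a = 1 := by
    rintro a ha ⟨b, hb, hab⟩
    exact hdisj a ha b hb hab.symm
  let e : H →* H' :=
    { toFun := fun a => ⟨c * a * c⁻¹, ⟨a, a.2, rfl⟩⟩
      map_one' := by
        apply Subtype.ext
        simp
      map_mul' := fun a b => by
        apply Subtype.ext
        show c * ((a * b : H) : G) * c⁻¹ = (c * a * c⁻¹) * (c * b * c⁻¹)
        rw [Subgroup.coe_mul]
        group }
  have he : Function.Injective e := by
    intro a b hab
    have h1 : c * (a : G) * c⁻¹ = c * b * c⁻¹ := congrArg Subtype.val hab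
    apply Subtype.ext
    exact mul_left_cancel (mul_right_cancel h1)
  let ψ : H × H →* G := (prodHom H H' hcomm').comp
    ((MonoidHom.id H).prodMap e)
  have hψ : Function.Injective ψ := by
    refine (prodHom_injective H H' hcomm' hdisj').comp ?_
    rintro ⟨a, b⟩ ⟨a', b'⟩ hab
    have h1 : (a, e b) = (a', e b') := hab
    rw [Prod.mk.injEq] at h1
    rw [h1.1, he h1.2]
  have hinl : ψ.comp (MonoidHom.inl H H) = H.subtype := by
    ext a
    show (a : G) * (e 1 : H') = a
    rw [map_one]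
    simp
  have hn := nil_of_square ψ hψ y (by rw [hinl]; exact hx)
  exact hn.map (mp k H.subtype)

/-- **Theorem.** If the augmentation ideal of `k[G]` lies in the Jacobson radical and `H₁`, `H₂`
are commuting subgroups with trivial intersection, then the augmentation ideal of `k[H₁]` or that
of `k[H₂]` is nil. -/
theorem nil_or_nil {k : Type u} [Field k] {G : Type w} [Group G] (hJ : AugLeJac k G)
    {H₁ H₂ : Type v} [Group H₁] [Group H₂] (ψ : H₁ × H₂ →* G) (hψ : Function.Injective ψ) :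
    (∀ x : MonoidAlgebra k H₁, aug k H₁ x = 0 → IsNilpotent x) ∨
    (∀ x : MonoidAlgebra k H₂, aug k H₂ x = 0 → IsNilpotent x) := by
  by_contra hcon
  push Not at hcon
  obtain ⟨⟨x, hx, hxn⟩, ⟨y, hy, hyn⟩⟩ := hcon
  have hinj : Function.Injective (mp k (ψ.comp (MonoidHom.inr H₁ H₂))) := by
    apply mp_injective
    intro a b hab
    have := hψ hab
    simpa using this
  have hJy := hJ (mp k (ψ.comp (MonoidHom.inr H₁ H₂)) y) (by rw [aug_mp, hy])
  have hn' : ¬ IsNilpotent (mp k (ψ.comp (MonoidHom.inr H₁ H₂)) y) := by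
    rintro ⟨n, h⟩
    apply hyn
    refine ⟨n, hinj ?_⟩
    rw [map_pow, h, map_zero]
  have tY := transcendental_of_jacobson (k := k) hJy hn'
  have ty : Transcendental k y := by
    rw [transcendental_iff] at tY ⊢
    intro p hp
    apply tY
    rw [aeval_algHom_apply, hp, map_zero]
  exact hxn (nil_of_prod ψ hψ y ty x (hJ _ (by rw [aug_mp, hx])))

theorem apply_nil {ω : ℕ → Fin 3} {g : Equiv.Perm (List Bool)} (hg : g ∈ G ω) : g [] = [] := by
  induction hg using Subgroup.closure_induction with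
  | mem x hx =>
    rcases hx with hx | ⟨i, rfl⟩
    · rw [Set.mem_singleton_iff] at hx
      subst hx
      rfl
    · rfl
  | one => rfl
  | mul x y _ _ hx hy => rw [Equiv.Perm.mul_apply, hy, hx]
  | inv x _ hx => rw [Equiv.Perm.inv_eq_iff_eq, hx]

/-- The pointwise stabiliser of the subtree of all words beginning with `b`. -/
def Fx (ω : ℕ → Fin 3) (b : Bool) : Subgroup (G ω) where
  carrier := {g | ∀ w, (g : Equiv.Perm (List Bool)) (b :: w) = b :: w}
  mul_mem' := by
    intro g h hg hh w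
    rw [Subgroup.coe_mul, Equiv.Perm.mul_apply, hh w, hg w]
  one_mem' := fun w => rfl
  inv_mem' := by
    intro g hg w
    rw [Subgroup.coe_inv, Equiv.Perm.inv_eq_iff_eq, hg w]

theorem Fx_maps {ω : ℕ → Fin 3} {b : Bool} {g : G ω} (hg : g ∈ Fx ω b) (w : List Bool) :
    ∃ w', (g : Equiv.Perm (List Bool)) ((!b) :: w) = (!b) :: w' := by
  rcases hw : (g : Equiv.Perm (List Bool)) ((!b) :: w) with _ | ⟨x, w'⟩
  · rw [← apply_nil g.2] at hw
    have := (g : Equiv.Perm (List Bool)).injective hw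
    simp at this
  · by_cases hx : x = b
    · subst hx
      rw [← hg w'] at hw
      have := (g : Equiv.Perm (List Bool)).injective hw
      simp at this
    · have : x = !b := by
        cases x <;> cases b <;> simp_all
      exact ⟨w', by rw [this]⟩

theorem Fx_comm {ω : ℕ → Fin 3} {b : Bool} {g h : G ω} (hg : g ∈ Fx ω b) (hh : h ∈ Fx ω (!b)) :
    g * h = h * g := by
  apply Subtype.ext
  ext1 u
  simp only [Subgroup.coe_mul, Equiv.Perm.mul_apply]
  rcases u with _ | ⟨x, w⟩
  · rw [apply_nil h.2, apply_nil g.2, apply_nil h.2]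
  · by_cases hx : x = b
    · subst hx
      obtain ⟨w', hw'⟩ := Fx_maps hh w
      rw [Bool.not_not] at hw'
      rw [hg w, hw', hg w']
    · have hx' : x = !b := by
        cases x <;> cases b <;> simp_all
      subst hx'
      obtain ⟨w', hw'⟩ := Fx_maps hg w
      rw [hh w, hw', hh w']

theorem Fx_disj {ω : ℕ → Fin 3} {b : Bool} {g : G ω} (hg : g ∈ Fx ω b) (hg' : g ∈ Fx ω (!b)) :
    g = 1 := by
  apply Subtype.ext
  ext1 u
  rcases u with _ | ⟨x, w⟩
  · rw [apply_nil g.2]; rfl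
  · by_cases hx : x = b
    · subst hx
      rw [hg w]; rfl
    · have hx' : x = !b := by
        cases x <;> cases b <;> simp_all
      subst hx'
      rw [hg' w]; rfl

theorem Fx_conj {ω : ℕ → Fin 3} {b : Bool} {g : G ω} (hg : g ∈ Fx ω b) :
    (⟨pa, pa_mem ω⟩ : G ω) * g * (⟨pa, pa_mem ω⟩ : G ω)⁻¹ ∈ Fx ω (!b) := by
  intro w
  show pa ((g : Equiv.Perm (List Bool)) (pa⁻¹ ((!b) :: w))) = (!b) :: w
  rw [pa_inv]
  show pa ((g : Equiv.Perm (List Bool)) ((!(!b)) :: w)) = (!b) :: w
  rw [Bool.not_not, hg w]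
  rfl

/-- **Theorem.** For every field `k` and every sequence `ω`, the elements of `J(k[G_ω])` supported
on the pointwise stabiliser of one of the two halves of the tree are nilpotent. -/
theorem nil_rigid (k : Type u) [Field k] (ω : ℕ → Fin 3) (b : Bool)
    (x : MonoidAlgebra k (G ω)) (hx : x ∈ Ideal.jacobson (⊥ : Ideal (MonoidAlgebra k (G ω))))
    (hsupp : ∀ g ∈ x.coeff.support, ∀ w, (g : Equiv.Perm (List Bool)) (b :: w) = b :: w) :
    IsNilpotent x := by
  refine nil_of_conj (Fx ω b) ⟨pa, pa_mem ω⟩ ?_ ?_ x hx hsupp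
  · intro a ha c hc
    exact Fx_comm ha (Fx_conj hc)
  · intro a ha c hc hac
    exact Fx_disj ha (hac ▸ Fx_conj hc)

end Pool.Agent.Y803.GR
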