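import Pool.Agent.Y803.GR.Nil

/-!
The Grigorchuk groups `G ω`, the leading term argument and the rigid stabilisers.
-/

set_option autoImplicit false

open Polynomial

namespace Pool.Agent.Y803.GR

universe u v w

/-- The automorphism `a` of the binary tree: it changes the first letter. -/
def fa : List Bool → List Bool
  | [] => []
  | x :: w => (!x) :: w

/-- The automorphism `b_i` for the sequence `ω`: `b_i(0w) = 0w` if `ω 0 = i` and `0 a(w)`
otherwise, `b_i(1w) = 1 b_i'(w)` with `b_i'` the automorphism for the shifted sequence. -/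
def fb (i : Fin 3) : (ℕ → Fin 3) → List Bool → List Bool
  | _, [] => []
  | ω, false :: w => false :: (if ω 0 = i then w else fa w)
  | ω, true :: w => true :: fb i (fun n => ω (n + 1)) w

theorem fa_fa (w : List Bool) : fa (fa w) = w := by
  cases w <;> simp [fa]

theorem fb_fb (i : Fin 3) (w : List Bool) : ∀ ω : ℕ → Fin 3, fb i ω (fb i ω w) = w := by
  induction w with
  | nil => intro ω; simp [fb]
  | cons x w ih =>
    intro ω
    cases x with
    | false =>
      by_cases h : ω 0 = i
      · simp [fb, h]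
      · simp [fb, h, fa_fa]
    | true => simp [fb, ih]

theorem fin3 : ∀ i j l x : Fin 3, i ≠ j → j ≠ l → i ≠ l → x = i ∨ x = j ∨ x = l := by decide

theorem fb_comp {i j l : Fin 3} (hij : i ≠ j) (hjl : j ≠ l) (hil : i ≠ l) (w : List Bool) :
    ∀ ω : ℕ → Fin 3, fb i ω (fb j ω w) = fb l ω w := by
  induction w with
  | nil => intro ω; simp [fb]
  | cons x w ih =>
    intro ω
    cases x with
    | false =>
      rcases fin3 i j l (ω 0) hij hjl hil with h | h | h
      · simp [fb, h, hij, hil]
      · simp [fb, h, hij.symm, hjl]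
      · simp [fb, h, hil.symm, hjl.symm, fa_fa]
    | true => simp [fb, ih]

theorem length_fa (w : List Bool) : (fa w).length = w.length := by
  cases w <;> simp [fa]

theorem length_fb (i : Fin 3) (w : List Bool) : ∀ ω : ℕ → Fin 3,
    (fb i ω w).length = w.length := by
  induction w with
  | nil => intro ω; simp [fb]
  | cons x w ih =>
    intro ω
    cases x with
    | false =>
      by_cases h : ω 0 = i
      · simp [fb, h]
      · simp [fb, h, length_fa]
    | true => simp [fb, ih]

/-- Gray code position. -/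
def pos : List Bool → ℕ
  | [] => 0
  | true :: w => 2 * pos w + pos w % 2
  | false :: w => 2 * pos w + 1 - pos w % 2

theorem pos_inj (u v : List Bool) (hl : u.length = v.length) (h : pos u = pos v) : u = v := by
  induction u generalizing v with
  | nil => cases v <;> simp_all
  | cons x u ih =>
    cases v with
    | nil => simp at hl
    | cons y v =>
      simp only [List.length_cons, add_left_inj] at hl
      have key : pos u = pos v ∧ x = y := by
        rcases Nat.mod_two_eq_zero_or_one (pos u) with hu | hu <;>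
        rcases Nat.mod_two_eq_zero_or_one (pos v) with hv | hv <;>
        cases x <;> cases y <;> simp only [pos, hu, hv] at h <;>
          first | (exact ⟨by omega, rfl⟩) | (exfalso; omega)
      rw [ih v hl key.1, key.2]

theorem pos_fa (w : List Bool) (hw : w ≠ []) :
    (pos w % 2 = 0 → pos (fa w) = pos w + 1) ∧ (pos w % 2 = 1 → pos (fa w) + 1 = pos w) := by
  cases w with
  | nil => exact absurd rfl hw
  | cons x w =>
    cases x <;> simp only [pos, fa, Bool.not_true, Bool.not_false] <;> omega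

theorem pos_fb (i : Fin 3) (w : List Bool) : ∀ ω : ℕ → Fin 3,
    (pos w % 2 = 0 → pos (fb i ω w) ≤ pos w ∧ pos w ≤ pos (fb i ω w) + 1) ∧
    (pos w % 2 = 1 → pos w ≤ pos (fb i ω w) ∧ pos (fb i ω w) ≤ pos w + 1) := by
  induction w with
  | nil => intro ω; simp [fb, pos]
  | cons x w ih =>
    intro ω
    cases x with
    | false =>
      by_cases hi : ω 0 = i
      · simp only [fb, hi, if_true]
        omega
      · by_cases hw : w = []
        · subst hw; simp [fb, pos, fa, hi]
        · have := pos_fa w hw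
          simp only [fb, hi, if_false, pos]
          omega
    | true =>
      have := ih (fun n => ω (n + 1))
      simp only [fb, pos]
      omega

theorem fa_ne (w : List Bool) (hw : w ≠ []) : fa w ≠ w := by
  cases w with
  | nil => exact absurd rfl hw
  | cons x w => cases x <;> simp [fa]

theorem pos_fix {i j : Fin 3} (hij : i ≠ j) (w : List Bool) : ∀ ω : ℕ → Fin 3,
    pos w % 2 = 1 → pos w + 1 < 2 ^ w.length → fb j ω w = w →
    pos (fb i ω w) = pos w + 1 ∧ fb j ω (fb i ω w) = fb i ω w := by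
  induction w with
  | nil => intro ω hw; simp [pos] at hw
  | cons x w ih =>
    intro ω hw hlt hfix
    simp only [List.length_cons, pow_succ] at hlt
    cases x with
    | false =>
      by_cases hne : w = []
      · subst hne; simp [pos] at hlt
      · have h1 := pos_fa w hne
        have h2 := fa_ne w hne
        have hj : ω 0 = j := by
          by_contra hj
          simp only [fb, hj, if_false, List.cons.injEq, true_and] at hfix
          exact h2 hfix
        have hi : ω 0 ≠ i := by
          rw [hj]; exact hij.symm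
        simp only [pos] at hw hlt
        simp only [fb, hj, if_true, pos, if_neg hij.symm]
        refine ⟨by omega, trivial⟩
    | true =>
      simp only [pos] at hw hlt
      simp only [fb, List.cons.injEq, true_and] at hfix
      have := ih (fun n => ω (n + 1)) (by omega) (by omega) hfix
      simp only [fb, pos, List.cons.injEq, true_and]
      refine ⟨by omega, this.2⟩

/-- The operator of `b_i + a b_j` on functions. -/
def xop {k : Type u} [Field k] (i j : Fin 3) (ω : ℕ → Fin 3) (f : List Bool → k) :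
    List Bool → k := fun u => f (fb i ω u) + f (fb j ω (fa u))

theorem xop_step {k : Type u} [Field k] {i j : Fin 3} (hij : i ≠ j) (ω : ℕ → Fin 3)
    (f : List Bool → k) (w : List Bool) (hne : w ≠ [])
    (hg : pos w % 2 = 1 ∨ fb j ω w = w) (hlt : pos w + 2 < 2 ^ w.length) (h1 : f w = 1)
    (h0 : ∀ u, u.length = w.length → pos w < pos u → f u = 0) :
    ∃ w', w'.length = w.length ∧ (pos w' % 2 = 1 ∨ fb j ω w' = w') ∧
      (pos w < pos w' ∧ pos w' ≤ pos w + 2) ∧
      xop i j ω f w' = 1 ∧ ∀ u, u.length = w.length → pos w' < pos u → xop i j ω f u = 0 := by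
  have Pi := fun u => pos_fb i u ω
  have Pj := fun u => pos_fb j u ω
  -- general bound for the terms above
  have hle : ∀ u, u.length = w.length → u ≠ [] → pos w < pos (fb i ω u) →
      pos w < pos (fb j ω (fa u)) → xop i j ω f u = 0 := by
    intro u hu _ h2 h3
    unfold xop
    rw [h0 (fb i ω u) (by rw [length_fb, hu]) h2,
      h0 (fb j ω (fa u)) (by rw [length_fb, length_fa, hu]) h3, add_zero]
  have hlen : ∀ u : List Bool, u.length = w.length → u ≠ [] := by
    intro u hu h
    rw [h] at hu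
    exact hne (List.length_eq_zero_iff.mp hu.symm)
  rcases Nat.mod_two_eq_zero_or_one (pos w) with hw | hw
  · -- even case
    have hd : fb j ω w = w := by
      rcases hg with h | h
      · omega
      · exact h
    have hfa := pos_fa w hne
    refine ⟨fa w, length_fa w, Or.inl (by omega), ⟨by omega, by omega⟩, ?_, ?_⟩
    · have hPb := Pi (fa w)
      unfold xop
      rw [fa_fa, hd, h1, h0 (fb i ω (fa w)) (by rw [length_fb, length_fa]) (by omega), zero_add]
    · intro u hu hpu
      have hune := hlen u hu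
      have hPu := Pi u
      have hua := pos_fa u hune
      have hPa := Pj (fa u)
      exact hle u hu hune (by omega) (by omega)
  · by_cases hd : fb j ω w = w
    · -- odd, fixed
      obtain ⟨hb1, hb2⟩ := pos_fix hij w ω hw (by omega) hd
      refine ⟨fb i ω w, length_fb i w ω, Or.inr hb2, ⟨by omega, by omega⟩, ?_, ?_⟩
      · have hbne := hlen (fb i ω w) (length_fb i w ω)
        have h2 := pos_fa (fb i ω w) hbne
        have h3 := Pj (fa (fb i ω w))
        unfold xop
        rw [fb_fb, h1, h0 (fb j ω (fa (fb i ω w)))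
          (by rw [length_fb, length_fa, length_fb]) (by omega), add_zero]
      · intro u hu hpu
        have hune := hlen u hu
        have hPu := Pi u
        have hua := pos_fa u hune
        have hPa := Pj (fa u)
        by_cases hc : pos (fa u) = pos (fb i ω w)
        · have h4 : fa u = fb i ω w := pos_inj _ _ (by rw [length_fa, hu, length_fb]) hc
          have h5 : fb j ω (fa u) = fb i ω w := by rw [h4, hb2]
          refine hle u hu hune (by omega) (by rw [h5]; omega)
        · exact hle u hu hune (by omega) (by omega)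
    · -- odd, moved
      have hPw := Pj w
      have hdp : pos (fb j ω w) = pos w + 1 := by
        by_contra hcon
        have : pos (fb j ω w) = pos w := by omega
        exact hd (pos_inj _ _ (length_fb j w ω) this)
      have hdne := hlen (fb j ω w) (length_fb j w ω)
      have h2 := pos_fa (fb j ω w) hdne
      refine ⟨fa (fb j ω w), by rw [length_fa, length_fb], Or.inl (by omega),
        ⟨by omega, by omega⟩, ?_, ?_⟩
      · have h3 := Pi (fa (fb j ω w))
        unfold xop
        rw [fa_fa, fb_fb, h1, h0 (fb i ω (fa (fb j ω w)))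
          (by rw [length_fb, length_fa, length_fb]) (by omega), zero_add]
      · intro u hu hpu
        have hune := hlen u hu
        have hPu := Pi u
        have hua := pos_fa u hune
        have hPa := Pj (fa u)
        exact hle u hu hune (by omega) (by omega)

theorem fb_replicate (i : Fin 3) (m : ℕ) : ∀ ω : ℕ → Fin 3,
    fb i ω (List.replicate m true) = List.replicate m true := by
  induction m with
  | zero => intro ω; simp [fb]
  | succ m ih => intro ω; simp [fb, List.replicate_succ, ih]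

theorem pos_replicate (m : ℕ) : pos (List.replicate m true) = 0 := by
  induction m with
  | zero => simp [pos]
  | succ m ih => simp [pos, List.replicate_succ, ih]

theorem xop_pow {k : Type u} [Field k] {i j : Fin 3} (hij : i ≠ j) (ω : ℕ → Fin 3)
    (N n : ℕ) (hN : 2 * n < 2 ^ N) (hN0 : 0 < N) :
    ∃ w : List Bool, w.length = N ∧ (pos w % 2 = 1 ∨ fb j ω w = w) ∧ pos w ≤ 2 * n ∧
      ((xop i j ω)^[n]) (fun u => if u = List.replicate N true then (1 : k) else 0) w = 1 ∧
      (∀ u : List Bool, u.length = N → pos w < pos u →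
        ((xop i j ω)^[n]) (fun u => if u = List.replicate N true then (1 : k) else 0) u = 0) ∧
      ∀ m < n, ((xop i j ω)^[m]) (fun u => if u = List.replicate N true then (1 : k) else 0) w =
        0 := by
  suffices h : ∃ w : List Bool, w.length = N ∧ (pos w % 2 = 1 ∨ fb j ω w = w) ∧ pos w ≤ 2 * n ∧
      ((xop i j ω)^[n]) (fun u => if u = List.replicate N true then (1 : k) else 0) w = 1 ∧
      (∀ u : List Bool, u.length = N → pos w < pos u →
        ((xop i j ω)^[n]) (fun u => if u = List.replicate N true then (1 : k) else 0) u = 0) ∧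
      ∀ m < n, ∀ u : List Bool, u.length = N → pos w ≤ pos u →
        ((xop i j ω)^[m]) (fun u => if u = List.replicate N true then (1 : k) else 0) u =
        0 by
    obtain ⟨w, h1, h2, h3, h4, h5, h6⟩ := h
    exact ⟨w, h1, h2, h3, h4, h5, fun m hm => h6 m hm w h1 le_rfl⟩
  induction n with
  | zero =>
    refine ⟨List.replicate N true, by simp, Or.inr (fb_replicate j N ω),
      by simp [pos_replicate], by simp, ?_, fun m hm => absurd hm (by omega)⟩
    intro u hu hpu
    rw [pos_replicate] at hpu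
    simp only [Function.iterate_zero, id_eq]
    rw [if_neg]
    intro h
    rw [h, pos_replicate] at hpu
    omega
  | succ n ih =>
    obtain ⟨w, hw1, hw2, hw3, hw4, hw5, hw6⟩ := ih (by omega)
    have hne : w ≠ [] := by
      intro h
      rw [h] at hw1
      simp at hw1
      omega
    obtain ⟨w', a1, a2, a3, a4, a5⟩ := xop_step hij ω _ w hne hw2 (by rw [hw1]; omega) hw4
      (by rw [hw1]; exact hw5)
    rw [hw1] at a1 a5
    rw [Function.iterate_succ', Function.comp_apply]
    refine ⟨w', a1, a2, by omega, a4, a5, ?_⟩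
    intro m hm u hu hpu
    rcases Nat.lt_succ_iff_lt_or_eq.1 hm with h | h
    · exact hw6 m h u hu (by omega)
    · rw [h]
      exact hw5 u hu (by omega)

theorem xop_pow_ne {k : Type u} [Field k] {i j : Fin 3} (hij : i ≠ j) (ω : ℕ → Fin 3) (n : ℕ) :
    ∃ f : List Bool → k, ((xop i j ω)^[n]) f ≠ 0 := by
  obtain ⟨w, -, -, -, h, -, -⟩ := xop_pow (k := k) hij ω (2 * n + 1) n
    (by
      have := Nat.lt_two_pow_self (n := 2 * n + 1)
      omega) (by omega)
  refine ⟨fun u => if u = List.replicate (2 * n + 1) true then 1 else 0, fun h0 => ?_⟩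
  rw [h0] at h
  simp at h

/-! ### The groups -/

/-- The automorphism `a` as a permutation of the vertex set of the tree. -/
def pa : Equiv.Perm (List Bool) := ⟨fa, fa, fa_fa, fa_fa⟩

/-- The automorphism `b_i` for the sequence `ω` as a permutation of the vertex set. -/
def pb (i : Fin 3) (ω : ℕ → Fin 3) : Equiv.Perm (List Bool) :=
  ⟨fb i ω, fb i ω, fun w => fb_fb i w ω, fun w => fb_fb i w ω⟩

/-- The Grigorchuk group `G_ω`, generated by `a, b_0, b_1, b_2`. -/
def G (ω : ℕ → Fin 3) : Subgroup (Equiv.Perm (List Bool)) :=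
  Subgroup.closure ({pa} ∪ Set.range fun i => pb i ω)

/-- The shifted sequence. -/
def sh (ω : ℕ → Fin 3) : ℕ → Fin 3 := fun n => ω (n + 1)

theorem pa_mem (ω : ℕ → Fin 3) : pa ∈ G ω := Subgroup.subset_closure (Or.inl rfl)
theorem pb_mem (i : Fin 3) (ω : ℕ → Fin 3) : pb i ω ∈ G ω :=
  Subgroup.subset_closure (Or.inr ⟨i, rfl⟩)

theorem pa_mul_pa : pa * pa = 1 := Equiv.ext fa_fa
theorem pb_mul_pb (i : Fin 3) (ω : ℕ → Fin 3) : pb i ω * pb i ω = 1 :=
  Equiv.ext fun w => fb_fb i w ω
theorem pb_mul {i j l : Fin 3} (hij : i ≠ j) (hjl : j ≠ l) (hil : i ≠ l) (ω : ℕ → Fin 3) :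
    pb i ω * pb j ω = pb l ω := Equiv.ext fun w => fb_comp hij hjl hil w ω
theorem pa_inv : pa⁻¹ = pa := rfl
theorem pb_inv (i : Fin 3) (ω : ℕ → Fin 3) : (pb i ω)⁻¹ = pb i ω := rfl

/-- The action of a permutation on the left subtree. -/
def lftFun (s : List Bool → List Bool) : List Bool → List Bool
  | [] => []
  | false :: w => false :: s w
  | true :: w => true :: w

/-- The action of a permutation on the right subtree. -/
def rgtFun (s : List Bool → List Bool) : List Bool → List Bool
  | [] => []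
  | false :: w => false :: w
  | true :: w => true :: s w

/-- The embedding on the left subtree. -/
def Lft : Equiv.Perm (List Bool) →* Equiv.Perm (List Bool) where
  toFun s := ⟨lftFun s, lftFun s.symm,
    by rintro (_ | ⟨_ | _, w⟩) <;> simp [lftFun],
    by rintro (_ | ⟨_ | _, w⟩) <;> simp [lftFun]⟩
  map_one' := by
    ext1 (_ | ⟨_ | _, w⟩) <;> simp [lftFun]
  map_mul' s t := by
    ext1 (_ | ⟨_ | _, w⟩) <;> simp [lftFun]

/-- The embedding on the right subtree. -/
def Rgt : Equiv.Perm (List Bool) →* Equiv.Perm (List Bool) where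
  toFun s := ⟨rgtFun s, rgtFun s.symm,
    by rintro (_ | ⟨_ | _, w⟩) <;> simp [rgtFun],
    by rintro (_ | ⟨_ | _, w⟩) <;> simp [rgtFun]⟩
  map_one' := by
    ext1 (_ | ⟨_ | _, w⟩) <;> simp [rgtFun]
  map_mul' s t := by
    ext1 (_ | ⟨_ | _, w⟩) <;> simp [rgtFun]

theorem Lft_nil (s : Equiv.Perm (List Bool)) : Lft s [] = [] := rfl
theorem Lft_false (s : Equiv.Perm (List Bool)) (w : List Bool) :
    Lft s (false :: w) = false :: s w := rfl
theorem Lft_true (s : Equiv.Perm (List Bool)) (w : List Bool) :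
    Lft s (true :: w) = true :: w := rfl
theorem Rgt_nil (s : Equiv.Perm (List Bool)) : Rgt s [] = [] := rfl
theorem Rgt_false (s : Equiv.Perm (List Bool)) (w : List Bool) :
    Rgt s (false :: w) = false :: w := rfl
theorem Rgt_true (s : Equiv.Perm (List Bool)) (w : List Bool) :
    Rgt s (true :: w) = true :: s w := rfl

theorem Lft_Rgt_comm (s t : Equiv.Perm (List Bool)) : Lft s * Rgt t = Rgt t * Lft s := by
  ext1 (_ | ⟨_ | _, w⟩) <;> rfl

theorem conj_Lft (s : Equiv.Perm (List Bool)) : pa * Lft s * pa = Rgt s := by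
  ext1 (_ | ⟨_ | _, w⟩) <;> rfl

theorem conj_Rgt (s : Equiv.Perm (List Bool)) : pa * Rgt s * pa = Lft s := by
  ext1 (_ | ⟨_ | _, w⟩) <;> rfl

theorem LR_inj {s t s' t' : Equiv.Perm (List Bool)} (h : Lft s * Rgt t = Lft s' * Rgt t') :
    s = s' ∧ t = t' := by
  constructor
  · ext1 w
    have := congrArg (fun p : Equiv.Perm (List Bool) => p (false :: w)) h
    simpa [Equiv.Perm.mul_apply, Rgt_false, Lft_false] using this
  · ext1 w
    have := congrArg (fun p : Equiv.Perm (List Bool) => p (true :: w)) h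
    simpa [Equiv.Perm.mul_apply, Rgt_true, Lft_true] using this

theorem LR_mul (s t s' t' : Equiv.Perm (List Bool)) :
    (Lft s * Rgt t) * (Lft s' * Rgt t') = Lft (s * s') * Rgt (t * t') := by
  rw [map_mul, map_mul]
  calc Lft s * Rgt t * (Lft s' * Rgt t') = Lft s * (Rgt t * Lft s') * Rgt t' := by group
    _ = Lft s * (Lft s' * Rgt t) * Rgt t' := by rw [Lft_Rgt_comm s' t]
    _ = _ := by group

theorem LR_inv (s t : Equiv.Perm (List Bool)) :
    (Lft s * Rgt t)⁻¹ = Lft s⁻¹ * Rgt t⁻¹ := by
  rw [mul_inv_rev, map_inv, map_inv, ← map_inv, ← map_inv, ← Lft_Rgt_comm]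

theorem pb_eq_of_eq {i : Fin 3} {ω : ℕ → Fin 3} (h : ω 0 = i) :
    pb i ω = Rgt (pb i (sh ω)) := by
  ext1 (_ | ⟨_ | _, w⟩)
  · rfl
  · show false :: (if ω 0 = i then w else fa w) = false :: w
    rw [if_pos h]
  · rfl

theorem pb_eq_of_ne {i : Fin 3} {ω : ℕ → Fin 3} (h : ω 0 ≠ i) :
    pb i ω = Lft pa * Rgt (pb i (sh ω)) := by
  ext1 (_ | ⟨_ | _, w⟩)
  · rfl
  · show false :: (if ω 0 = i then w else fa w) = false :: fa w
    rw [if_neg h]
  · rfl

/-- The stabiliser of the first level projects onto `G (sh ω)`. -/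
theorem exists_right (ω : ℕ → Fin 3) {s : Equiv.Perm (List Bool)} (hs : s ∈ G (sh ω)) :
    ∃ t, Lft s * Rgt t ∈ G ω := by
  induction hs using Subgroup.closure_induction with
  | mem x hx =>
    rcases hx with hx | ⟨i, rfl⟩
    · rw [Set.mem_singleton_iff] at hx
      subst hx
      obtain ⟨i, hi⟩ : ∃ i : Fin 3, ω 0 ≠ i := by
        have : ∀ x : Fin 3, ∃ i, x ≠ i := by decide
        exact this _
      exact ⟨pb i (sh ω), pb_eq_of_ne hi ▸ pb_mem i ω⟩
    · by_cases hi : ω 0 = i
      · refine ⟨1, ?_⟩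
        have h1 : pa * pb i ω * pa ∈ G ω :=
          (G ω).mul_mem ((G ω).mul_mem (pa_mem ω) (pb_mem i ω)) (pa_mem ω)
        rw [pb_eq_of_eq hi, conj_Rgt] at h1
        rwa [map_one, mul_one]
      · refine ⟨pa, ?_⟩
        have h1 : pa * pb i ω * pa ∈ G ω :=
          (G ω).mul_mem ((G ω).mul_mem (pa_mem ω) (pb_mem i ω)) (pa_mem ω)
        rw [pb_eq_of_ne hi] at h1
        have h2 : pa * (Lft pa * Rgt (pb i (sh ω))) * pa =
            (pa * Lft pa * pa) * (pa * Rgt (pb i (sh ω)) * pa) := by
          calc _ = pa * Lft pa * 1 * Rgt (pb i (sh ω)) * pa := by group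
            _ = pa * Lft pa * (pa * pa) * Rgt (pb i (sh ω)) * pa := by rw [pa_mul_pa]
            _ = _ := by group
        rw [h2, conj_Lft, conj_Rgt, ← Lft_Rgt_comm] at h1
        exact h1
  | one => exact ⟨1, by rw [map_one, map_one, one_mul]; exact (G ω).one_mem⟩
  | mul x y _ _ hx hy =>
    obtain ⟨t, ht⟩ := hx
    obtain ⟨t', ht'⟩ := hy
    exact ⟨t * t', LR_mul x t y t' ▸ (G ω).mul_mem ht ht'⟩
  | inv x _ hx =>
    obtain ⟨t, ht⟩ := hx
    exact ⟨t⁻¹, LR_inv x t ▸ (G ω).inv_mem ht⟩

/-- The rigid stabiliser of the vertex `0`, as a group acting on the left subtree. -/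
def K (ω : ℕ → Fin 3) : Subgroup (Equiv.Perm (List Bool)) := (G ω).comap Lft

theorem K_gen (ω : ℕ → Fin 3) : pb (ω 0) (sh ω) ∈ K ω := by
  show Lft (pb (ω 0) (sh ω)) ∈ G ω
  have h1 : pa * pb (ω 0) ω * pa ∈ G ω :=
    (G ω).mul_mem ((G ω).mul_mem (pa_mem ω) (pb_mem _ ω)) (pa_mem ω)
  rwa [pb_eq_of_eq rfl, conj_Rgt] at h1

theorem K_conj (ω : ℕ → Fin 3) {s h : Equiv.Perm (List Bool)} (hs : s ∈ K ω)
    (hh : h ∈ G (sh ω)) : h * s * h⁻¹ ∈ K ω := by
  obtain ⟨t, ht⟩ := exists_right ω hh
  show Lft (h * s * h⁻¹) ∈ G ω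
  have h1 : (Lft h * Rgt t) * Lft s * (Lft h * Rgt t)⁻¹ ∈ G ω :=
    (G ω).mul_mem ((G ω).mul_mem ht hs) ((G ω).inv_mem ht)
  have h2 : (Lft h * Rgt t) * Lft s * (Lft h * Rgt t)⁻¹ = Lft (h * s * h⁻¹) := by
    have h3 : (Lft s : Equiv.Perm (List Bool)) = Lft s * Rgt 1 := by rw [map_one, mul_one]
    rw [h3, LR_inv, LR_mul, LR_mul, mul_one, mul_inv_cancel, map_one, mul_one]
  rwa [h2] at h1

theorem Rgt_mem (ω : ℕ → Fin 3) {s : Equiv.Perm (List Bool)} (hs : s ∈ K ω) :
    Rgt s ∈ G ω := by
  rw [← conj_Lft]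
  exact (G ω).mul_mem ((G ω).mul_mem (pa_mem ω) hs) (pa_mem ω)

/-- The sections at the vertex `0` of elements of `K ω`. -/
def L (ω : ℕ → Fin 3) (s : Equiv.Perm (List Bool)) : Prop := ∃ t, Lft s * Rgt t ∈ K ω

theorem L_mul {ω : ℕ → Fin 3} {s s' : Equiv.Perm (List Bool)} (h : L ω s) (h' : L ω s') :
    L ω (s * s') := by
  obtain ⟨t, ht⟩ := h
  obtain ⟨t', ht'⟩ := h'
  exact ⟨t * t', LR_mul s t s' t' ▸ (K ω).mul_mem ht ht'⟩

theorem L_conj {ω : ℕ → Fin 3} {s h : Equiv.Perm (List Bool)} (hs : L ω s)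
    (hh : h ∈ G (sh (sh ω))) : L ω (h * s * h⁻¹) := by
  obtain ⟨t, ht⟩ := hs
  obtain ⟨r, hr⟩ := exists_right (sh ω) hh
  refine ⟨r * t * r⁻¹, ?_⟩
  have := K_conj ω ht hr
  rwa [LR_inv, LR_mul, LR_mul] at this

theorem L_a {ω : ℕ → Fin 3} (hω : ω 1 ≠ ω 0) : L ω pa :=
  ⟨pb (ω 0) (sh (sh ω)), (pb_eq_of_ne (i := ω 0) (ω := sh ω) hω) ▸ K_gen ω⟩

theorem L_b {ω : ℕ → Fin 3} (hω : ω 1 ≠ ω 0) : L ω (pb (ω 0) (sh (sh ω))) := by
  refine ⟨pa, ?_⟩
  have h1 := K_conj ω (K_gen ω) (pa_mem (sh ω))
  rw [pb_eq_of_ne (i := ω 0) (ω := sh ω) hω, pa_inv] at h1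
  have h2 : pa * (Lft pa * Rgt (pb (ω 0) (sh (sh ω)))) * pa =
      (pa * Lft pa * pa) * (pa * Rgt (pb (ω 0) (sh (sh ω))) * pa) := by
    calc _ = pa * Lft pa * 1 * Rgt (pb (ω 0) (sh (sh ω))) * pa := by group
      _ = pa * Lft pa * (pa * pa) * Rgt (pb (ω 0) (sh (sh ω))) * pa := by rw [pa_mul_pa]
      _ = _ := by group
  rw [h2, conj_Lft, conj_Rgt, ← Lft_Rgt_comm] at h1
  exact h1

theorem L_words {ω : ℕ → Fin 3} (hω : ω 1 ≠ ω 0) {i l : Fin 3} (hi : i ≠ l) (hi0 : i ≠ ω 0)
    (hl0 : l ≠ ω 0) :
    L ω (pb i (sh (sh ω)) * pa * pb l (sh (sh ω))) ∧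
    L ω (pa * pb l (sh (sh ω)) * pb i (sh (sh ω))) ∧
    L ω (pa * pb l (sh (sh ω)) * pa * pb l (sh (sh ω))) := by
  set u := pb i (sh (sh ω))
  set v := pb l (sh (sh ω))
  have huv : u * v = pb (ω 0) (sh (sh ω)) := pb_mul hi hl0 hi0 _
  have hvu : v * u = pb (ω 0) (sh (sh ω)) := pb_mul hi.symm hi0 hl0 _
  refine ⟨?_, ?_, ?_⟩
  · have h1 := L_mul (L_conj (L_a hω) (pb_mem i (sh (sh ω)))) (L_b hω)
    rw [← huv] at h1
    have h2 : pb i (sh (sh ω)) * pa * (pb i (sh (sh ω)))⁻¹ * (u * v) = u * pa * v := by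
      simp only [u]
      group
    rwa [h2] at h1
  · have h1 := L_mul (L_a hω) (L_b hω)
    rw [← hvu, ← mul_assoc] at h1
    exact h1
  · have h1 := L_mul (L_a hω) (L_conj (L_a hω) (pb_mem l (sh (sh ω))))
    rw [pb_inv, ← mul_assoc, ← mul_assoc] at h1
    exact h1

end Pool.Agent.Y803.GR
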