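import Mathlib

/-!
A `p`-group acting linearly on a nonzero finite-dimensional vector space over any field of
characteristic `p` fixes a nonzero vector (Kolchin).
-/

set_option autoImplicit false

open Polynomial TensorProduct

namespace Pool.Agent.Y803.GR

universe u v w

section closed

variable {F : Type u} [Field F] {R : Type v} [Ring R] [Algebra F R]
  {W : Type w} [AddCommGroup W] [Module F W] [Module R W] [IsScalarTower F R W]
  [FiniteDimensional F W] [IsSimpleModule R W]

theorem schur [IsAlgClosed F] (φ : Module.End R W) : ∃ c : F, ∀ w, φ w = c • w := by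
  have hnt := IsSimpleModule.nontrivial R W
  let φF : Module.End F W := φ.restrictScalars F
  obtain ⟨c, hc⟩ := Module.End.exists_eigenvalue φF
  obtain ⟨v, hv⟩ := hc.exists_hasEigenvector
  refine ⟨c, ?_⟩
  let S : Submodule R W :=
    { carrier := {w | φ w = c • w}
      add_mem' := by
        intro a b ha hb
        show φ (a + b) = c • (a + b)
        rw [map_add, smul_add]
        exact congrArg₂ _ ha hb
      zero_mem' := by
        show φ 0 = c • 0
        rw [map_zero, smul_zero]
      smul_mem' := by
        intro r w hw
        show φ (r • w) = c • r • w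
        rw [map_smul, smul_comm c r w]
        exact congrArg _ hw }
  have hvS : v ∈ S := by
    have := hv.apply_eq_smul
    exact this
  have hS : S = ⊤ := by
    rcases eq_bot_or_eq_top S with h | h
    · rw [h, Submodule.mem_bot] at hvS
      exact absurd hvS hv.2
    · exact h
  intro w
  have : w ∈ S := by rw [hS]; trivial
  exact this

theorem burnside [IsAlgClosed F] (T : Module.End F W) : ∃ r : R, ∀ w, T w = r • w := by
  classical
  let f : Module.End (Module.End R W) W :=
    { toFun := T
      map_add' := T.map_add
      map_smul' := by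
        intro φ w
        obtain ⟨c, hc⟩ := schur (F := F) φ
        show T (φ w) = φ (T w)
        rw [hc, hc, map_smul] }
  obtain ⟨s, hs⟩ := Module.Finite.fg_top (R := F) (M := W)
  obtain ⟨r, hr⟩ := jacobson_density f s
  refine ⟨r, fun w => ?_⟩
  have hw : w ∈ Submodule.span F (s : Set W) := hs ▸ trivial
  induction hw using Submodule.span_induction with
  | mem x hx => exact hr x hx
  | zero => rw [map_zero, smul_zero]
  | add x y _ _ hx hy => rw [map_add, hx, hy, smul_add]
  | smul c x _ hx => rw [map_smul, hx, smul_comm]

theorem smul_eq_zero_of_trace [IsAlgClosed F] (x : R)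
    (hx : ∀ r : R, LinearMap.trace F W (Algebra.lsmul F F W (x * r)) = 0) (w : W) :
    x • w = 0 := by
  by_contra h
  have h1 := mt (Module.forall_dual_apply_eq_zero_iff F (x • w)).1 h
  push Not at h1
  obtain ⟨l, hl⟩ := h1
  obtain ⟨r, hr⟩ := burnside (R := R) (l.smulRight w)
  have h2 := hx r
  have e : (Algebra.lsmul F F W (x * r) : Module.End F W) = l.smulRight (x • w) := by
    ext u
    show (x * r) • u = l u • x • w
    rw [mul_smul, ← hr]
    show x • (l u • w) = _
    rw [smul_comm]
  rw [e, LinearMap.trace_smulRight] at h2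
  exact hl h2

end closed

theorem unip {p : ℕ} [Fact p.Prime] {F : Type u} [Field F] [CharP F p] {G : Type w} [Group G]
    (hG : IsPGroup p G) (h : G) :
    IsNilpotent (MonoidAlgebra.single h 1 - 1 : MonoidAlgebra F G) := by
  obtain ⟨m, hm⟩ := hG h
  have : CharP (MonoidAlgebra F G) p :=
    charP_of_injective_algebraMap (algebraMap F (MonoidAlgebra F G)).injective p
  refine ⟨p ^ m, ?_⟩
  rw [sub_pow_char_pow_of_commute _ _ (Commute.one_right _), one_pow, MonoidAlgebra.single_pow, hm,
    one_pow, MonoidAlgebra.one_def, sub_self]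

theorem trace_single {p : ℕ} [Fact p.Prime] {F : Type u} [Field F] [CharP F p] {G : Type w}
    [Group G] (hG : IsPGroup p G) {W : Type v} [AddCommGroup W] [Module F W]
    [Module (MonoidAlgebra F G) W] [IsScalarTower F (MonoidAlgebra F G) W]
    [FiniteDimensional F W] (h : G) (c : F) :
    LinearMap.trace F W (Algebra.lsmul F F W (MonoidAlgebra.single h c : MonoidAlgebra F G)) =
      c * LinearMap.trace F W 1 := by
  have h1 : (MonoidAlgebra.single h c : MonoidAlgebra F G) =
      c • (MonoidAlgebra.single h 1 - 1) + c • 1 := by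
    rw [← smul_add, sub_add_cancel, MonoidAlgebra.smul_single, smul_eq_mul, mul_one]
  have h2 : LinearMap.trace F W
      (Algebra.lsmul F F W (MonoidAlgebra.single h 1 - 1 : MonoidAlgebra F G)) = 0 :=
    (LinearMap.isNilpotent_trace_of_isNilpotent ((unip hG h).map (Algebra.lsmul F F W))).eq_zero
  rw [h1, map_add, map_smul, map_smul, map_add, map_smul, map_smul, h2, smul_zero, zero_add,
    map_one, smul_eq_mul]

theorem exists_fixed_closed {p : ℕ} [Fact p.Prime] {F : Type u} [Field F] [IsAlgClosed F]
    [CharP F p] {G : Type w} [Group G] (hG : IsPGroup p G) {V : Type v} [AddCommGroup V]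
    [Module F V] [FiniteDimensional F V] [Nontrivial V] (ρ : Representation F G V) :
    ∃ v : V, v ≠ 0 ∧ ∀ g, ρ g v = v := by
  let _ : Module (MonoidAlgebra F G) V :=
    Module.compHom V (MonoidAlgebra.lift F (Module.End F V) G ρ).toRingHom
  have hsm : ∀ (x : MonoidAlgebra F G) (v : V),
      x • v = MonoidAlgebra.lift F (Module.End F V) G ρ x v := fun _ _ => rfl
  have : IsScalarTower F (MonoidAlgebra F G) V := ⟨fun c x v => by
    rw [hsm, hsm, map_smul, LinearMap.smul_apply]⟩
  have hart : IsArtinian (MonoidAlgebra F G) V := isArtinian_of_tower F inferInstance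
  have hat : IsAtomic (Submodule (MonoidAlgebra F G) V) :=
    isAtomic_of_orderBot_wellFounded_lt (wellFounded_lt)
  obtain ⟨S, hS, -⟩ := (hat.eq_bot_or_exists_atom_le ⊤).resolve_left top_ne_bot
  have hsimp : IsSimpleModule (MonoidAlgebra F G) S := isSimpleModule_iff_isAtom.2 hS
  have hfd : FiniteDimensional F S := by
    have : FiniteDimensional F (S.restrictScalars F) := inferInstance
    exact this
  obtain ⟨v, hvS, hv0⟩ := S.exists_mem_ne_zero_of_ne_bot hS.1
  refine ⟨v, hv0, fun g => ?_⟩
  have key := smul_eq_zero_of_trace (F := F) (R := MonoidAlgebra F G) (W := S)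
    (MonoidAlgebra.single g 1 - 1) (by
      intro r
      induction r using MonoidAlgebra.induction_linear with
      | zero => rw [mul_zero, map_zero, map_zero]
      | add r s hr hs => rw [mul_add, map_add, map_add, hr, hs, add_zero]
      | single h c =>
        rw [sub_mul, one_mul, MonoidAlgebra.single_mul_single, one_mul, map_sub, map_sub,
          trace_single hG, trace_single hG, sub_self]) ⟨v, hvS⟩
  have h1 : (MonoidAlgebra.single g 1 - 1 : MonoidAlgebra F G) • v = 0 :=
    congrArg Subtype.val key
  rw [sub_smul, one_smul, sub_eq_zero, hsm] at h1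
  simpa using h1

/-- A `p`-group acting linearly on a nonzero finite-dimensional vector space over a field of
characteristic `p` fixes a nonzero vector. -/
theorem exists_fixed {p : ℕ} [Fact p.Prime] {k : Type u} [Field k]
    [CharP k p] {G : Type w} [Group G] (hG : IsPGroup p G) {V : Type v} [AddCommGroup V]
    [Module k V] [FiniteDimensional k V] [Nontrivial V] (ρ : Representation k G V) :
    ∃ v : V, v ≠ 0 ∧ ∀ g, ρ g v = v := by
  classical
  let F := AlgebraicClosure k
  have : CharP F p := charP_of_injective_algebraMap (algebraMap k F).injective p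
  let ρ' : Representation F G (F ⊗[k] V) :=
    ((Module.End.baseChangeHom k F V : Module.End k V →ₐ[k] Module.End F (F ⊗[k] V)) :
      Module.End k V →* Module.End F (F ⊗[k] V)).comp ρ
  have hnt : Nontrivial (F ⊗[k] V) := by
    apply Module.nontrivial_of_finrank_pos (R := F)
    rw [Module.finrank_baseChange]
    exact Module.finrank_pos
  obtain ⟨x, hx0, hx⟩ := exists_fixed_closed hG ρ'
  let B := Module.Basis.ofVectorSpace k F
  have hne : TensorProduct.equivFinsuppOfBasisLeft (N := V) B x ≠ 0 := by
    intro h
    exact hx0 ((TensorProduct.equivFinsuppOfBasisLeft (N := V) B).map_eq_zero_iff.1 h)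
  obtain ⟨i, hi⟩ := Finsupp.ne_iff.1 hne
  refine ⟨TensorProduct.equivFinsuppOfBasisLeft (N := V) B x i, hi, fun g => ?_⟩
  have key : ∀ y : F ⊗[k] V, ρ g (TensorProduct.equivFinsuppOfBasisLeft (N := V) B y i) =
      TensorProduct.equivFinsuppOfBasisLeft (N := V) B (ρ' g y) i := by
    intro y
    induction y using TensorProduct.induction_on with
    | zero => simp
    | add y z hy hz => rw [map_add, Finsupp.add_apply, map_add, hy, hz, map_add, map_add,
        Finsupp.add_apply]
    | tmul m n =>
      have h1 : ρ' g (m ⊗ₜ[k] n) = m ⊗ₜ[k] (ρ g n) := rfl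
      rw [h1, TensorProduct.equivFinsuppOfBasisLeft_apply_tmul_apply,
        TensorProduct.equivFinsuppOfBasisLeft_apply_tmul_apply, map_smul]
  rw [key, hx]

end Pool.Agent.Y803.GR
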