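import Pool.Agent.Y803.GR.Sec
import Pool.Agent.Y803.GR.Kol

/-!
Infinite-dimensional irreducible representations from sections.
-/

set_option autoImplicit false

open Polynomial

namespace Pool.Agent.Y803.GR

universe u v w

/-- The representation of `G` on a `k[G]`-module. -/
noncomputable def toRep (k : Type u) [Field k] (G : Type v) [Group G] (V : Type w)
    [AddCommGroup V] [Module k V] [Module (MonoidAlgebra k G) V]
    [IsScalarTower k (MonoidAlgebra k G) V] : Representation k G V :=
  ((Algebra.lsmul k k V : MonoidAlgebra k G →ₐ[k] Module.End k V) :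
      MonoidAlgebra k G →* Module.End k V).comp (MonoidAlgebra.of k G)

theorem toRep_apply (k : Type u) [Field k] (G : Type v) [Group G] (V : Type w)
    [AddCommGroup V] [Module k V] [Module (MonoidAlgebra k G) V]
    [IsScalarTower k (MonoidAlgebra k G) V] (g : G) (v : V) :
    toRep k G V g v = (MonoidAlgebra.single g 1 : MonoidAlgebra k G) • v := rfl

/-- `M` has an infinite-dimensional irreducible representation over `k`. -/
def HasInfIrrep (k : Type u) [Field k] (M : Type v) [Group M] : Prop :=
  ∃ (V : Type (max u v)) (_ : AddCommGroup V) (_ : Module k V) (ρ : Representation k M V),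
    Nontrivial V ∧
    (∀ W : Submodule k V, (∀ g : M, ∀ w ∈ W, ρ g w ∈ W) → W = ⊥ ∨ W = ⊤) ∧
    ¬ FiniteDimensional k V

/-- A simple module of a `p`-group in characteristic `p` on which the augmentation ideal does not
act as zero has infinite dimension. -/
theorem not_finite_of_ne {p : ℕ} [Fact p.Prime] {k : Type u} [Field k] [CharP k p]
    {Q : Type v} [Group Q] (hQ : IsPGroup p Q) (m : Ideal (MonoidAlgebra k Q))
    (hm : m.IsMaximal) (x : MonoidAlgebra k Q) (hx : aug k Q x = 0) (hxm : x ∉ m) :
    ¬ FiniteDimensional k (MonoidAlgebra k Q ⧸ m) := by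
  intro hfin
  have hsimp : IsSimpleModule (MonoidAlgebra k Q) (MonoidAlgebra k Q ⧸ m) := by
    rw [isSimpleModule_iff_isCoatom]
    exact hm.out
  have hnt : Nontrivial (MonoidAlgebra k Q ⧸ m) := IsSimpleModule.nontrivial (MonoidAlgebra k Q) _
  obtain ⟨v, hv0, hv⟩ := exists_fixed hQ (toRep k Q (MonoidAlgebra k Q ⧸ m))
  have haug : ∀ r : MonoidAlgebra k Q, r • v = aug k Q r • v := by
    intro r
    induction r using MonoidAlgebra.induction_linear with
    | zero => rw [zero_smul, map_zero, zero_smul]
    | add r s hr hs => rw [add_smul, map_add, add_smul, hr, hs]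
    | single g c =>
      have h1 : (MonoidAlgebra.single g c : MonoidAlgebra k Q) =
          c • (MonoidAlgebra.single g 1 : MonoidAlgebra k Q) := by
        rw [MonoidAlgebra.smul_single, smul_eq_mul, mul_one]
      rw [h1, smul_assoc, ← toRep_apply, hv g, map_smul, aug_single, smul_eq_mul, mul_one]
  have hspan : Submodule.span (MonoidAlgebra k Q) {v} = ⊤ := by
    rcases eq_bot_or_eq_top (Submodule.span (MonoidAlgebra k Q) {v}) with h | h
    · exact absurd (Submodule.span_singleton_eq_bot.1 h) hv0
    · exact h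
  have h1 : (Submodule.Quotient.mk (1 : MonoidAlgebra k Q) : MonoidAlgebra k Q ⧸ m) ∈
      Submodule.span (MonoidAlgebra k Q) {v} := by
    rw [hspan]; trivial
  obtain ⟨r, hr⟩ := Submodule.mem_span_singleton.1 h1
  rw [haug r] at hr
  have h2 : x • (Submodule.Quotient.mk (1 : MonoidAlgebra k Q) : MonoidAlgebra k Q ⧸ m) = 0 := by
    rw [← hr, smul_comm x (aug k Q r) v, haug x, hx, zero_smul, smul_zero]
  rw [← Submodule.Quotient.mk_smul, smul_eq_mul, mul_one, Submodule.Quotient.mk_eq_zero] at h2
  exact hxm h2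

/-- **Theorem.** If a `p`-group `Q` whose augmentation ideal over a field `k` of characteristic
`p` is not contained in the Jacobson radical is a section of `M`, then `M` has an
infinite-dimensional irreducible representation over `k`. -/
theorem hasInfIrrep_of_section {p : ℕ} [Fact p.Prime] {k : Type u} [Field k] [CharP k p]
    {Q : Type w} [Group Q] (hQ : IsPGroup p Q) (hJ : ¬ AugLeJac k Q) {M : Type v} [Group M]
    (hs : IsSection Q M) : HasInfIrrep k M := by
  obtain ⟨S, f, hf⟩ := hs
  unfold AugLeJac at hJ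
  push Not at hJ
  obtain ⟨x, hx, hxJ⟩ := hJ
  rw [Ideal.jacobson, Ideal.mem_sInf] at hxJ
  push Not at hxJ
  obtain ⟨m, ⟨-, hm⟩, hxm⟩ := hxJ
  let m₁ : Ideal (MonoidAlgebra k S) := Ideal.comap (mp k f) m
  let m₂ : Ideal (MonoidAlgebra k M) := Ideal.span (mp k S.subtype '' (m₁ : Set _))
  have hm₂ : m₂ ≠ ⊤ := by
    intro h
    have h1 : (1 : MonoidAlgebra k M) ∈ Ideal.span (mp k S.subtype '' (m₁ : Set _)) := by
      have : (1 : MonoidAlgebra k M) ∈ m₂ := by rw [h]; trivial
      exact this
    have key : ∀ z ∈ Ideal.span (mp k S.subtype '' (m₁ : Set _)), ∀ r : MonoidAlgebra k M,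
        pr S.subtype S.subtype_injective (r * z) ∈ m₁ := by
      intro z hz
      induction hz using Submodule.span_induction with
      | mem z hz =>
        obtain ⟨y, hy, rfl⟩ := hz
        intro r
        rw [pr_mul]
        exact m₁.mul_mem_left _ hy
      | zero => intro r; rw [mul_zero, pr_zero]; exact m₁.zero_mem
      | add a b _ _ ha hb => intro r; rw [mul_add, pr_add]; exact m₁.add_mem (ha r) (hb r)
      | smul a z _ hz =>
        intro r
        rw [smul_eq_mul, ← mul_assoc]
        exact hz _
    have h2 := key 1 h1 1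
    rw [mul_one, pr_one] at h2
    have h3 : mp k f 1 ∈ m := h2
    rw [map_one] at h3
    exact hm.ne_top ((Ideal.eq_top_iff_one m).2 h3)
  obtain ⟨m₃, hm₃, hle⟩ := Ideal.exists_le_maximal m₂ hm₂
  have hsimp : IsSimpleModule (MonoidAlgebra k M) (MonoidAlgebra k M ⧸ m₃) := by
    rw [isSimpleModule_iff_isCoatom]
    exact hm₃.out
  have hnt : Nontrivial (MonoidAlgebra k M ⧸ m₃) :=
    IsSimpleModule.nontrivial (MonoidAlgebra k M) _
  refine ⟨MonoidAlgebra k M ⧸ m₃, inferInstance, inferInstance,
    toRep k M (MonoidAlgebra k M ⧸ m₃), hnt, ?_, ?_⟩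
  · intro W hW
    have hWR : ∀ (r : MonoidAlgebra k M), ∀ w ∈ W, r • w ∈ W := by
      intro r w hw
      induction r using MonoidAlgebra.induction_linear with
      | zero => rw [zero_smul]; exact W.zero_mem
      | add r s hr hs => rw [add_smul]; exact W.add_mem hr hs
      | single g c =>
        have h1 : (MonoidAlgebra.single g c : MonoidAlgebra k M) =
            c • (MonoidAlgebra.single g 1 : MonoidAlgebra k M) := by
          rw [MonoidAlgebra.smul_single, smul_eq_mul, mul_one]
        rw [h1, smul_assoc]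
        exact W.smul_mem _ (hW g w hw)
    let W' : Submodule (MonoidAlgebra k M) (MonoidAlgebra k M ⧸ m₃) :=
      { carrier := W
        add_mem' := fun ha hb => W.add_mem ha hb
        zero_mem' := W.zero_mem
        smul_mem' := fun r w hw => hWR r w hw }
    rcases eq_bot_or_eq_top W' with h | h
    · left
      ext w
      have h1 : w ∈ W ↔ w ∈ W' := Iff.rfl
      rw [h1, h]
      simp
    · right
      ext w
      have h1 : w ∈ W ↔ w ∈ W' := Iff.rfl
      rw [h1, h]
      simp
  · intro hfin
    apply not_finite_of_ne hQ m hm x hx hxm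
    let φ : MonoidAlgebra k S →ₗ[k] (MonoidAlgebra k M ⧸ m₃) :=
      ((m₃.mkQ).restrictScalars k).comp (mp k S.subtype).toLinearMap
    let χ : MonoidAlgebra k S →ₗ[k] (MonoidAlgebra k Q ⧸ m) :=
      ((m.mkQ).restrictScalars k).comp (mp k f).toLinearMap
    have hφ : ∀ y, φ y = 0 ↔ mp k S.subtype y ∈ m₃ := fun y => by
      show (Submodule.Quotient.mk (mp k S.subtype y) : MonoidAlgebra k M ⧸ m₃) = 0 ↔ _
      exact Submodule.Quotient.mk_eq_zero _
    have hχ : ∀ y, χ y = 0 ↔ mp k f y ∈ m := fun y => by
      show (Submodule.Quotient.mk (mp k f y) : MonoidAlgebra k Q ⧸ m) = 0 ↔ _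
      exact Submodule.Quotient.mk_eq_zero _
    have hker : LinearMap.ker φ ≤ LinearMap.ker χ := by
      intro y hy
      rw [LinearMap.mem_ker, hφ] at hy
      rw [LinearMap.mem_ker, hχ]
      by_contra hy'
      obtain ⟨a, i, hi, hai⟩ := hm.exists_inv hy'
      obtain ⟨a, rfl⟩ := mp_surjective f hf a
      have h1 : (1 - a * y : MonoidAlgebra k S) ∈ m₁ := by
        show mp k f (1 - a * y) ∈ m
        rw [map_sub, map_mul, map_one, ← hai, add_sub_cancel_left]
        exact hi
      have h2 : mp k S.subtype (1 - a * y) ∈ m₃ :=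
        hle (Ideal.subset_span ⟨_, h1, rfl⟩)
      have h3 : (1 : MonoidAlgebra k M) ∈ m₃ := by
        have h4 := m₃.add_mem h2 (m₃.mul_mem_left (mp k S.subtype a) hy)
        rwa [map_sub, map_mul, map_one, sub_add_cancel] at h4
      exact hm₃.ne_top ((Ideal.eq_top_iff_one m₃).2 h3)
    have hfin2 : FiniteDimensional k (MonoidAlgebra k S ⧸ LinearMap.ker φ) :=
      LinearEquiv.finiteDimensional (φ.quotKerEquivRange).symm
    have hχs : Function.Surjective χ := by
      intro y
      obtain ⟨y, rfl⟩ := Submodule.Quotient.mk_surjective _ y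
      obtain ⟨z, rfl⟩ := mp_surjective f hf y
      exact ⟨z, rfl⟩
    have hsurj : Function.Surjective ((LinearMap.ker φ).liftQ χ hker) := by
      intro y
      obtain ⟨z, rfl⟩ := hχs y
      exact ⟨Submodule.Quotient.mk z, Submodule.liftQ_apply _ _ _⟩
    exact Module.Finite.of_surjective _ hsurj

end Pool.Agent.Y803.GR
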