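import Pool.Agent.Y803.GR.GrigJ
import Pool.Agent.Y803.GR.Irr

/-!
Consequences for the irreducible representations of the first Grigorchuk group.
-/

set_option autoImplicit false

open Pointwise

namespace Pool.Agent.Y803.GR

open Pool.Agent.Results.MP_2e8808_al

universe u v w

/-- **Theorem.** The group algebra of the first Grigorchuk group over any field is semiprimitive. -/
theorem jacobson_Grig (k : Type u) [Field k] :
    Ideal.jacobson (⊥ : Ideal (MonoidAlgebra k GrigorchukJacobson.Grig)) = ⊥ := by
  rw [grig_eq]
  exact jacobson_GG k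

theorem infinite_GG : Infinite GG := by
  by_contra h
  rw [not_infinite_iff_finite] at h
  obtain ⟨y, hy⟩ := good_y (ZMod 2) []
  have hfin : Finite (Rist GG (Tr [])) := inferInstance
  have hmf : Module.Finite (ZMod 2) (MonoidAlgebra (ZMod 2) (Rist GG (Tr []))) := inferInstance
  exact hy (Algebra.IsIntegral.isIntegral y).isAlgebraic

/-- In the group algebra of an infinite group, a nonzero element is not killed by all `g - 1`. -/
theorem exists_mul_sub_ne {k : Type u} [Field k] {G : Type v} [Group G] [Infinite G]
    {x : MonoidAlgebra k G} (hx : x ≠ 0) :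
    ∃ g : G, x * (MonoidAlgebra.single g 1 - 1) ≠ 0 := by
  by_contra hcon
  push Not at hcon
  obtain ⟨s, hs⟩ := Finsupp.ne_iff.1 (fun h0 => hx (MonoidAlgebra.coeff_eq_zero.1 h0) :
    x.coeff ≠ 0)
  have hs' : x.coeff s ≠ 0 := hs
  have key : ∀ g : G, x.coeff g ≠ 0 := by
    intro g
    have h1 := hcon (s⁻¹ * g)
    rw [mul_sub, mul_one, sub_eq_zero] at h1
    have h2 := congrArg (fun z => MonoidAlgebra.coeff z g) h1
    simp only [MonoidAlgebra.coeff_mul_single_apply, mul_one] at h2
    rw [← h2]
    have h3 : g * (s⁻¹ * g)⁻¹ = s := by group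
    rw [h3]
    exact hs'
  have hfin : Set.Finite (Set.univ : Set G) :=
    x.coeff.support.finite_toSet.subset fun g _ => Finsupp.mem_support_iff.2 (key g)
  exact Set.infinite_univ hfin

/-- **Theorem.** Let `k` be a field of characteristic `2`, and let `x` be a nonzero element of the
group algebra over `k` of the first Grigorchuk group. Then there is an infinite-dimensional
irreducible representation of the group over `k` on which `x` does not act as zero. -/
theorem separating (k : Type u) [Field k] [CharP k 2]
    (hG : IsPGroup 2 GrigorchukJacobson.Grig)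
    (x : MonoidAlgebra k GrigorchukJacobson.Grig) (hx : x ≠ 0) :
    ∃ (V : Type u) (_ : AddCommGroup V) (_ : Module k V)
      (ρ : Representation k GrigorchukJacobson.Grig V),
      Nontrivial V ∧
      (∀ W : Submodule k V, (∀ g : GrigorchukJacobson.Grig, ∀ w ∈ W, ρ g w ∈ W) →
        W = ⊥ ∨ W = ⊤) ∧
      ¬ FiniteDimensional k V ∧ ρ.asAlgebraHom x ≠ 0 := by
  have : Fact (Nat.Prime 2) := ⟨Nat.prime_two⟩
  have hinf : Infinite GrigorchukJacobson.Grig := by
    have := infinite_GG
    rw [grig_eq]
    exact this
  obtain ⟨g, hg⟩ := exists_mul_sub_ne hx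
  set y := x * (MonoidAlgebra.single g 1 - 1) with hy
  have hyaug : aug k _ y = 0 := by
    rw [hy, map_mul, map_sub, aug_single, map_one, sub_self, mul_zero]
  have hyJ : y ∉ Ideal.jacobson (⊥ : Ideal (MonoidAlgebra k GrigorchukJacobson.Grig)) := by
    rw [jacobson_Grig, Ideal.mem_bot]
    exact hg
  rw [Ideal.jacobson, Ideal.mem_sInf] at hyJ
  push Not at hyJ
  obtain ⟨m, ⟨-, hm⟩, hym⟩ := hyJ
  have hsimp : IsSimpleModule (MonoidAlgebra k GrigorchukJacobson.Grig)
      (MonoidAlgebra k GrigorchukJacobson.Grig ⧸ m) := by
    rw [isSimpleModule_iff_isCoatom]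
    exact hm.out
  have hnt : Nontrivial (MonoidAlgebra k GrigorchukJacobson.Grig ⧸ m) :=
    IsSimpleModule.nontrivial (MonoidAlgebra k GrigorchukJacobson.Grig) _
  refine ⟨MonoidAlgebra k GrigorchukJacobson.Grig ⧸ m, inferInstance, inferInstance,
    toRep k GrigorchukJacobson.Grig (MonoidAlgebra k GrigorchukJacobson.Grig ⧸ m), hnt, ?_,
    not_finite_of_ne hG m hm y hyaug hym, ?_⟩
  · intro W hW
    have hWR : ∀ (r : MonoidAlgebra k GrigorchukJacobson.Grig), ∀ w ∈ W, r • w ∈ W := by
      intro r w hw
      induction r using MonoidAlgebra.induction_linear with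
      | zero => rw [zero_smul]; exact W.zero_mem
      | add r s hr hs => rw [add_smul]; exact W.add_mem hr hs
      | single g c =>
        have h1 : (MonoidAlgebra.single g c : MonoidAlgebra k GrigorchukJacobson.Grig) =
            c • (MonoidAlgebra.single g 1 : MonoidAlgebra k GrigorchukJacobson.Grig) := by
          rw [MonoidAlgebra.smul_single, smul_eq_mul, mul_one]
        rw [h1, smul_assoc]
        exact W.smul_mem _ (hW g w hw)
    let W' : Submodule (MonoidAlgebra k GrigorchukJacobson.Grig)
        (MonoidAlgebra k GrigorchukJacobson.Grig ⧸ m) :=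
      { carrier := W
        add_mem' := fun ha hb => W.add_mem ha hb
        zero_mem' := W.zero_mem
        smul_mem' := fun r w hw => hWR r w hw }
    rcases eq_bot_or_eq_top W' with h | h
    · left
      ext w
      have h1 : w ∈ W ↔ w ∈ W' := Iff.rfl
      rw [h1, h]
      simp
    · right
      ext w
      have h1 : w ∈ W ↔ w ∈ W' := Iff.rfl
      rw [h1, h]
      simp
  · intro h0
    have hact : ∀ (r : MonoidAlgebra k GrigorchukJacobson.Grig)
        (v : MonoidAlgebra k GrigorchukJacobson.Grig ⧸ m),
        (toRep k GrigorchukJacobson.Grig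
          (MonoidAlgebra k GrigorchukJacobson.Grig ⧸ m)).asAlgebraHom r v = r • v := by
      intro r v
      induction r using MonoidAlgebra.induction_linear with
      | zero => rw [map_zero, zero_smul]; rfl
      | add r s hr hs => rw [map_add, LinearMap.add_apply, hr, hs, add_smul]
      | single g c =>
        rw [Representation.asAlgebraHom_single, LinearMap.smul_apply, toRep_apply]
        have h1 : (MonoidAlgebra.single g c : MonoidAlgebra k GrigorchukJacobson.Grig) =
            c • (MonoidAlgebra.single g 1 : MonoidAlgebra k GrigorchukJacobson.Grig) := by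
          rw [MonoidAlgebra.smul_single, smul_eq_mul, mul_one]
        rw [h1, smul_assoc]
    apply hym
    rw [← Submodule.Quotient.mk_eq_zero, ← mul_one y, ← smul_eq_mul, Submodule.Quotient.mk_smul,
      hy, mul_smul, ← hact x, h0]
    rfl

end Pool.Agent.Y803.GR
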