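import Pool.Agent.Y803.GR.Tor
import Pool.Agent.Results.MP_2e8808_al.GrigorchukJacobson

/-!
The first Grigorchuk group is the group `G_ω` for `ω = 2, 1, 0, 2, 1, 0, …`.
-/

set_option autoImplicit false

namespace Pool.Agent.Y803.GR

open Pool.Agent.Results.MP_2e8808_al

/-- The periodic sequence `2, 1, 0, 2, 1, 0, …`, shifted by `m`. -/
def seq (m : ℕ) : ℕ → Fin 3 := fun n =>
  if (n + m) % 3 = 0 then 2 else if (n + m) % 3 = 1 then 1 else 0

theorem seq_succ (m : ℕ) : (fun n => seq m (n + 1)) = seq (m + 1) := by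
  funext n
  unfold seq
  have : n + 1 + m = n + (m + 1) := by omega
  rw [this]

theorem fa_eq (w : List Bool) : fa w = GrigorchukJacobson.fa w := by
  cases w <;> rfl

theorem seq_zero0 {m : ℕ} (h : m % 3 = 0) : seq m 0 = 2 := by
  unfold seq
  rw [zero_add, if_pos h]

theorem seq_zero1 {m : ℕ} (h : m % 3 = 1) : seq m 0 = 1 := by
  unfold seq
  rw [zero_add, if_neg (by omega), if_pos h]

theorem seq_zero2 {m : ℕ} (h : m % 3 = 2) : seq m 0 = 0 := by
  unfold seq
  rw [zero_add, if_neg (by omega), if_neg (by omega)]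

theorem fb_seq (w : List Bool) : ∀ m : ℕ,
    (m % 3 = 0 → fb 0 (seq m) w = GrigorchukJacobson.fb w ∧
      fb 1 (seq m) w = GrigorchukJacobson.fc w ∧ fb 2 (seq m) w = GrigorchukJacobson.fd w) ∧
    (m % 3 = 1 → fb 0 (seq m) w = GrigorchukJacobson.fc w ∧
      fb 1 (seq m) w = GrigorchukJacobson.fd w ∧ fb 2 (seq m) w = GrigorchukJacobson.fb w) ∧
    (m % 3 = 2 → fb 0 (seq m) w = GrigorchukJacobson.fd w ∧
      fb 1 (seq m) w = GrigorchukJacobson.fb w ∧ fb 2 (seq m) w = GrigorchukJacobson.fc w) := by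
  induction w with
  | nil =>
    intro m
    simp [fb, GrigorchukJacobson.fb, GrigorchukJacobson.fc, GrigorchukJacobson.fd]
  | cons x w ih =>
    intro m
    cases x with
    | false =>
      refine ⟨fun h => ?_, fun h => ?_, fun h => ?_⟩
      · simp [fb, GrigorchukJacobson.fb, GrigorchukJacobson.fc, GrigorchukJacobson.fd,
          seq_zero0 h, fa_eq]
      · simp [fb, GrigorchukJacobson.fb, GrigorchukJacobson.fc, GrigorchukJacobson.fd,
          seq_zero1 h, fa_eq]
      · simp [fb, GrigorchukJacobson.fb, GrigorchukJacobson.fc, GrigorchukJacobson.fd,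
          seq_zero2 h, fa_eq]
    | true =>
      have ih' := ih (m + 1)
      refine ⟨fun h => ?_, fun h => ?_, fun h => ?_⟩
      · obtain ⟨h1, h2, h3⟩ := ih'.2.1 (by omega)
        simp only [fb, GrigorchukJacobson.fb, GrigorchukJacobson.fc, GrigorchukJacobson.fd,
          seq_succ, h1, h2, h3, and_self]
      · obtain ⟨h1, h2, h3⟩ := ih'.2.2 (by omega)
        simp only [fb, GrigorchukJacobson.fb, GrigorchukJacobson.fc, GrigorchukJacobson.fd,
          seq_succ, h1, h2, h3, and_self]
      · obtain ⟨h1, h2, h3⟩ := ih'.1 (by omega)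
        simp only [fb, GrigorchukJacobson.fb, GrigorchukJacobson.fc, GrigorchukJacobson.fd,
          seq_succ, h1, h2, h3, and_self]

/-- The first Grigorchuk group belongs to the family. -/
theorem grig_eq : GrigorchukJacobson.Grig = G (seq 0) := by
  have ha : GrigorchukJacobson.pa = pa := Equiv.ext fun w => (fa_eq w).symm
  have hb : GrigorchukJacobson.pb = pb 0 (seq 0) :=
    Equiv.ext fun w => ((fb_seq w 0).1 rfl).1.symm
  have hc : GrigorchukJacobson.pc = pb 1 (seq 0) :=
    Equiv.ext fun w => ((fb_seq w 0).1 rfl).2.1.symm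
  have hd : GrigorchukJacobson.pd = pb 2 (seq 0) :=
    Equiv.ext fun w => ((fb_seq w 0).1 rfl).2.2.symm
  rw [GrigorchukJacobson.Grig, G, ha, hb, hc, hd]
  congr 1
  ext x
  simp only [Set.mem_insert_iff, Set.mem_singleton_iff, Set.mem_union, Set.mem_range,
    Fin.exists_fin_succ]
  constructor
  · rintro (rfl | rfl | rfl | rfl) <;> simp
  · intro h
    simp at h
    rcases h with h | h | h | h <;> simp [h]

end Pool.Agent.Y803.GR
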