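import Pool.Agent.Y803.GR.Sec

/-!
GGS-groups with a sequence of defining vectors, and their sections.
-/

set_option autoImplicit false

namespace Pool.Agent.Y803.GGS

open Pool.Agent.Y803.GR

universe u v

variable {p : ℕ}

/-- The rooted automorphism which adds `t` to the first letter. -/
def fr (t : ZMod p) : List (ZMod p) → List (ZMod p)
  | [] => []
  | x :: w => (x + t) :: w

/-- The shifted sequence. -/
def sh (e : ℕ → ZMod p → ZMod p) : ℕ → ZMod p → ZMod p := fun n => e (n + 1)

/-- The directed automorphisms: `fd e j (0w) = 0 (fd (sh e) j w)`,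
`fd e j (xw) = x (fr (j e_0(x)) w)` for `x ≠ 0`. -/
def fd : (ℕ → ZMod p → ZMod p) → ZMod p → List (ZMod p) → List (ZMod p)
  | _, _, [] => []
  | e, j, x :: w => x :: (if x = 0 then fd (sh e) j w else fr (j * e 0 x) w)

theorem fr_add (s t : ZMod p) (w : List (ZMod p)) : fr s (fr t w) = fr (t + s) w := by
  cases w <;> simp [fr, add_assoc]

theorem fr_zero (w : List (ZMod p)) : fr (0 : ZMod p) w = w := by
  cases w <;> simp [fr]

theorem fd_add (s t : ZMod p) (w : List (ZMod p)) : ∀ e : ℕ → ZMod p → ZMod p,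
    fd e s (fd e t w) = fd e (t + s) w := by
  induction w with
  | nil => intro e; rfl
  | cons x w ih =>
    intro e
    by_cases h : x = 0
    · simp [fd, h, ih]
    · simp [fd, h, fr_add, add_mul]

theorem fd_zero (w : List (ZMod p)) : ∀ e : ℕ → ZMod p → ZMod p, fd e 0 w = w := by
  induction w with
  | nil => intro e; rfl
  | cons x w ih =>
    intro e
    by_cases h : x = 0
    · simp [fd, h, ih]
    · simp [fd, h, fr_zero]

/-- The rooted automorphism as a permutation. -/
def rt (t : ZMod p) : Equiv.Perm (List (ZMod p)) where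
  toFun := fr t
  invFun := fr (-t)
  left_inv w := by rw [fr_add, add_neg_cancel, fr_zero]
  right_inv w := by rw [fr_add, neg_add_cancel, fr_zero]

/-- The directed automorphism as a permutation. -/
def bb (e : ℕ → ZMod p → ZMod p) (t : ZMod p) : Equiv.Perm (List (ZMod p)) where
  toFun := fd e t
  invFun := fd e (-t)
  left_inv w := by rw [fd_add, add_neg_cancel, fd_zero]
  right_inv w := by rw [fd_add, neg_add_cancel, fd_zero]

theorem rt_apply (t : ZMod p) (w : List (ZMod p)) : rt t w = fr t w := rfl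
theorem bb_apply (e : ℕ → ZMod p → ZMod p) (t : ZMod p) (w : List (ZMod p)) :
    bb e t w = fd e t w := rfl

theorem rt_mul (s t : ZMod p) : (rt s * rt t : Equiv.Perm (List (ZMod p))) = rt (s + t) := by
  ext1 w
  rw [Equiv.Perm.mul_apply, rt_apply, rt_apply, rt_apply, fr_add, add_comm]

theorem bb_mul (e : ℕ → ZMod p → ZMod p) (s t : ZMod p) : bb e s * bb e t = bb e (s + t) := by
  ext1 w
  rw [Equiv.Perm.mul_apply, bb_apply, bb_apply, bb_apply, fd_add, add_comm]

theorem rt_zero : (rt 0 : Equiv.Perm (List (ZMod p))) = 1 := by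
  ext1 w
  rw [rt_apply, fr_zero]; rfl

theorem bb_zero (e : ℕ → ZMod p → ZMod p) : bb e 0 = 1 := by
  ext1 w
  rw [bb_apply, fd_zero]; rfl

/-- The GGS-group of the sequence `e`, generated by `a = rt 1` and `b = bb e 1`. -/
def GG (e : ℕ → ZMod p → ZMod p) : Subgroup (Equiv.Perm (List (ZMod p))) :=
  Subgroup.closure {rt 1, bb e 1}

theorem perm_inv_self {α : Type u} (g : Equiv.Perm α) (x : α) : g (g⁻¹ x) = x :=
  Equiv.apply_symm_apply g x

variable [Fact p.Prime]

theorem rt_mem (e : ℕ → ZMod p → ZMod p) (t : ZMod p) : rt t ∈ GG e := by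
  have h : ∀ n : ℕ, (rt (n : ZMod p) : Equiv.Perm (List (ZMod p))) ∈ GG e := by
    intro n
    induction n with
    | zero => rw [Nat.cast_zero, rt_zero]; exact one_mem _
    | succ n ih =>
      rw [Nat.cast_succ, ← rt_mul]
      exact mul_mem ih (Subgroup.subset_closure (Or.inl rfl))
  have := h t.val
  rwa [ZMod.natCast_zmod_val] at this

theorem bb_mem (e : ℕ → ZMod p → ZMod p) (t : ZMod p) : bb e t ∈ GG e := by
  have h : ∀ n : ℕ, bb e (n : ZMod p) ∈ GG e := by
    intro n
    induction n with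
    | zero => rw [Nat.cast_zero, bb_zero]; exact one_mem _
    | succ n ih =>
      rw [Nat.cast_succ, ← bb_mul]
      exact mul_mem ih (Subgroup.subset_closure (Or.inr rfl))
  have := h t.val
  rwa [ZMod.natCast_zmod_val] at this

/-- `rt t` as an element of the group. -/
def ra (e : ℕ → ZMod p → ZMod p) (t : ZMod p) : GG e := ⟨rt t, rt_mem e t⟩

/-- `bb e t` as an element of the group. -/
def rb (e : ℕ → ZMod p → ZMod p) (t : ZMod p) : GG e := ⟨bb e t, bb_mem e t⟩

variable (e : ℕ → ZMod p → ZMod p)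

theorem ra_mul (s t : ZMod p) : ra e s * ra e t = ra e (s + t) := Subtype.ext (rt_mul s t)
theorem rb_mul (s t : ZMod p) : rb e s * rb e t = rb e (s + t) := Subtype.ext (bb_mul e s t)
theorem ra_zero : ra e 0 = 1 := Subtype.ext rt_zero
theorem rb_zero : rb e 0 = 1 := Subtype.ext (bb_zero e)
theorem ra_inv (t : ZMod p) : (ra e t)⁻¹ = ra e (-t) := by
  rw [inv_eq_iff_mul_eq_one, ra_mul, add_neg_cancel, ra_zero]
theorem rb_inv (t : ZMod p) : (rb e t)⁻¹ = rb e (-t) := by
  rw [inv_eq_iff_mul_eq_one, rb_mul, add_neg_cancel, rb_zero]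

/-- Existence of sections. -/
theorem exists_sec (g : GG e) : ∃ (σ : ZMod p → ZMod p) (s : ZMod p → GG (sh e)),
    ∀ (x : ZMod p) (w : List (ZMod p)), (g : Equiv.Perm (List (ZMod p))) (x :: w) =
      σ x :: (s x : Equiv.Perm (List (ZMod p))) w := by
  obtain ⟨g, hg⟩ := g
  have hg' : g ∈ Subgroup.closure {rt 1, bb e 1} := hg
  show ∃ (σ : ZMod p → ZMod p) (s : ZMod p → GG (sh e)),
    ∀ (x : ZMod p) (w : List (ZMod p)), g (x :: w) = σ x :: (s x : Equiv.Perm (List (ZMod p))) w
  clear hg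
  induction hg' using Subgroup.closure_induction with
  | mem g hg =>
    rcases hg with rfl | hg
    · exact ⟨fun x => x + 1, fun _ => 1, fun x w => rfl⟩
    · rw [Set.mem_singleton_iff] at hg
      subst hg
      refine ⟨fun x => x, fun x => if x = 0 then rb (sh e) 1 else ra (sh e) (e 0 x),
        fun x w => ?_⟩
      by_cases h : x = 0
      · simp [bb_apply, fd, h, rb]
      · simp [bb_apply, fd, h, ra, rt_apply]
  | one => exact ⟨fun x => x, fun _ => 1, fun x w => rfl⟩
  | mul g h _ _ hg hh =>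
    obtain ⟨σ, s, h1⟩ := hg
    obtain ⟨τ, t, h2⟩ := hh
    refine ⟨fun x => σ (τ x), fun x => s (τ x) * t x, fun x w => ?_⟩
    rw [Equiv.Perm.mul_apply, h2, h1, Subgroup.coe_mul, Equiv.Perm.mul_apply]
  | inv g _ hg =>
    obtain ⟨σ, s, h1⟩ := hg
    have hinj : Function.Injective σ := by
      intro x y hxy
      have h2 := h1 x ((s x : Equiv.Perm (List (ZMod p)))⁻¹ [])
      have h3 := h1 y ((s y : Equiv.Perm (List (ZMod p)))⁻¹ [])
      rw [perm_inv_self] at h2 h3
      rw [hxy, ← h3] at h2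
      have := g.injective h2
      exact (List.cons.inj this).1
    have hsurj : Function.Surjective σ := Finite.surjective_of_injective hinj
    choose τ hτ using hsurj
    refine ⟨τ, fun x => (s (τ x))⁻¹, fun x w => ?_⟩
    rw [Equiv.Perm.inv_eq_iff_eq, h1, hτ, Subgroup.coe_inv, perm_inv_self]

/-- The action on the first level. -/
noncomputable def act (g : GG e) : ZMod p → ZMod p := (exists_sec e g).choose

/-- The sections. -/
noncomputable def sec (g : GG e) : ZMod p → GG (sh e) := (exists_sec e g).choose_spec.choose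

theorem sec_spec (g : GG e) (x : ZMod p) (w : List (ZMod p)) :
    (g : Equiv.Perm (List (ZMod p))) (x :: w) =
      act e g x :: (sec e g x : Equiv.Perm (List (ZMod p))) w :=
  (exists_sec e g).choose_spec.choose_spec x w

theorem sec_unique (g : GG e) (x y : ZMod p) (h : GG (sh e))
    (hh : ∀ w, (g : Equiv.Perm (List (ZMod p))) (x :: w) =
      y :: (h : Equiv.Perm (List (ZMod p))) w) : act e g x = y ∧ sec e g x = h := by
  constructor
  · have h1 := (sec_spec e g x []).symm.trans (hh [])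
    exact (List.cons.inj h1).1
  · apply Subtype.ext
    ext1 w
    have h1 := (sec_spec e g x w).symm.trans (hh w)
    exact (List.cons.inj h1).2

theorem act_mul (g h : GG e) (x : ZMod p) : act e (g * h) x = act e g (act e h x) :=
  (sec_unique e (g * h) x _ (sec e g (act e h x) * sec e h x) (fun w => by
    rw [Subgroup.coe_mul, Equiv.Perm.mul_apply, sec_spec, sec_spec, Subgroup.coe_mul,
      Equiv.Perm.mul_apply])).1

theorem sec_mul (g h : GG e) (x : ZMod p) : sec e (g * h) x = sec e g (act e h x) * sec e h x :=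
  (sec_unique e (g * h) x (act e g (act e h x)) _ (fun w => by
    rw [Subgroup.coe_mul, Equiv.Perm.mul_apply, sec_spec, sec_spec, Subgroup.coe_mul,
      Equiv.Perm.mul_apply])).2

theorem act_one (x : ZMod p) : act e 1 x = x := (sec_unique e 1 x x 1 (fun _ => rfl)).1
theorem sec_one (x : ZMod p) : sec e 1 x = 1 := (sec_unique e 1 x x 1 (fun _ => rfl)).2

theorem act_ra (t x : ZMod p) : act e (ra e t) x = x + t :=
  (sec_unique e (ra e t) x (x + t) 1 (fun _ => rfl)).1
theorem sec_ra (t x : ZMod p) : sec e (ra e t) x = 1 :=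
  (sec_unique e (ra e t) x (x + t) 1 (fun _ => rfl)).2

theorem rb_spec (t x : ZMod p) (w : List (ZMod p)) :
    (rb e t : Equiv.Perm (List (ZMod p))) (x :: w) =
      x :: ((if x = 0 then rb (sh e) t else ra (sh e) (t * e 0 x) : GG (sh e)) :
        Equiv.Perm (List (ZMod p))) w := by
  by_cases h : x = 0
  · simp [rb, bb_apply, fd, h]
  · simp [rb, bb_apply, fd, h, ra, rt_apply]

theorem act_rb (t x : ZMod p) : act e (rb e t) x = x :=
  (sec_unique e (rb e t) x x _ (rb_spec e t x)).1
theorem sec_rb (t x : ZMod p) :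
    sec e (rb e t) x = if x = 0 then rb (sh e) t else ra (sh e) (t * e 0 x) :=
  (sec_unique e (rb e t) x x _ (rb_spec e t x)).2

theorem act_inv_act (g : GG e) (x : ZMod p) : act e g⁻¹ (act e g x) = x := by
  rw [← act_mul, inv_mul_cancel, act_one]

theorem act_act_inv (g : GG e) (x : ZMod p) : act e g (act e g⁻¹ x) = x := by
  rw [← act_mul, mul_inv_cancel, act_one]

/-! ### Lengths -/

/-- The letters: the rooted and the directed automorphisms. -/
def Let : Set (GG e) := Set.range (ra e) ∪ Set.range (rb e)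

/-- Products of `n` letters. -/
def PP : ℕ → Set (GG e)
  | 0 => {1}
  | n + 1 => {g | ∃ l ∈ Let e, ∃ h ∈ PP n, g = l * h}

/-- Elements with at most `n` directed syllables. -/
def LL : ℕ → Set (GG e)
  | 0 => Set.range (ra e)
  | n + 1 => {g | ∃ t j, ∃ h ∈ LL n, g = ra e t * rb e j * h}

theorem LL_succ (n : ℕ) : LL e n ⊆ LL e (n + 1) := by
  intro g hg
  exact ⟨0, 0, g, hg, by rw [ra_zero, rb_zero, one_mul, one_mul]⟩

theorem LL_mono {m n : ℕ} (h : m ≤ n) : LL e m ⊆ LL e n := by
  induction h with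
  | refl => exact subset_rfl
  | step _ ih => exact ih.trans (LL_succ e _)

theorem ra_LL (n : ℕ) (t : ZMod p) {g : GG e} (hg : g ∈ LL e n) : ra e t * g ∈ LL e n := by
  cases n with
  | zero =>
    obtain ⟨s, rfl⟩ := hg
    exact ⟨t + s, (ra_mul e t s).symm⟩
  | succ n =>
    obtain ⟨s, j, h, hh, rfl⟩ := hg
    exact ⟨t + s, j, h, hh, by rw [← ra_mul]; simp only [mul_assoc]⟩

theorem rb_LL (n : ℕ) (t : ZMod p) {g : GG e} (hg : g ∈ LL e n) : rb e t * g ∈ LL e (n + 1) :=
  ⟨0, t, g, hg, by rw [ra_zero, one_mul]⟩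

theorem PP_LL (n : ℕ) : PP e n ⊆ LL e ((n + 1) / 2) := by
  induction n using Nat.strong_induction_on with
  | _ n ih =>
    match n with
    | 0 =>
      rintro g hg
      rw [show g = 1 from hg]
      exact ⟨0, ra_zero e⟩
    | 1 =>
      rintro g ⟨l, hl, h, hh, rfl⟩
      rw [show h = 1 from hh, mul_one]
      rcases hl with ⟨t, rfl⟩ | ⟨t, rfl⟩
      · exact LL_succ e 0 ⟨t, rfl⟩
      · exact ⟨0, t, 1, ⟨0, ra_zero e⟩, by rw [ra_zero, one_mul, mul_one]⟩
    | n + 2 =>
      rintro g ⟨l, hl, h, ⟨l', hl', h', hh', rfl⟩, rfl⟩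
      have h1 := ih n (by omega) hh'
      have e1 : (n + 2 + 1) / 2 = (n + 1) / 2 + 1 := by omega
      rw [e1]
      rcases hl with ⟨t, rfl⟩ | ⟨t, rfl⟩
      · rcases hl' with ⟨s, rfl⟩ | ⟨s, rfl⟩
        · exact LL_succ e _ (ra_LL e _ t (ra_LL e _ s h1))
        · exact ra_LL e _ t (rb_LL e _ s h1)
      · rcases hl' with ⟨s, rfl⟩ | ⟨s, rfl⟩
        · exact rb_LL e _ t (ra_LL e _ s h1)
        · rw [← mul_assoc, rb_mul]
          exact rb_LL e _ _ h1

theorem sec_LL (n : ℕ) : ∀ g ∈ LL e n, ∀ x, sec e g x ∈ PP (sh e) n := by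
  induction n with
  | zero =>
    rintro _ ⟨t, rfl⟩ x
    rw [sec_ra]
    rfl
  | succ n ih =>
    rintro _ ⟨t, j, h, hh, rfl⟩ x
    rw [sec_mul, sec_mul, sec_ra, one_mul]
    refine ⟨_, ?_, _, ih h hh x, rfl⟩
    rw [sec_rb]
    split_ifs
    · exact Or.inr ⟨_, rfl⟩
    · exact Or.inl ⟨_, rfl⟩

theorem exists_PP (g : GG e) : ∃ n, g ∈ PP e n := by
  obtain ⟨g, hg⟩ := g
  have key : ∀ g ∈ Subgroup.closure {rt 1, bb e 1}, ∃ h : GG e,
      (h : Equiv.Perm (List (ZMod p))) = g ∧ ∃ n, h ∈ PP e n := by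
    intro g hg
    induction hg using Subgroup.closure_induction_left with
    | one => exact ⟨1, rfl, 0, rfl⟩
    | mul_left x hx y _ ih =>
      obtain ⟨h, rfl, n, hn⟩ := ih
      rcases hx with rfl | hx
      · exact ⟨ra e 1 * h, rfl, n + 1, _, Or.inl ⟨1, rfl⟩, h, hn, rfl⟩
      · rw [Set.mem_singleton_iff] at hx
        subst hx
        exact ⟨rb e 1 * h, rfl, n + 1, _, Or.inr ⟨1, rfl⟩, h, hn, rfl⟩
    | inv_mul_cancel x hx y _ ih =>
      obtain ⟨h, rfl, n, hn⟩ := ih
      rcases hx with rfl | hx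
      · refine ⟨(ra e 1)⁻¹ * h, rfl, n + 1, _, Or.inl ⟨-1, (ra_inv e 1).symm⟩, h, hn, rfl⟩
      · rw [Set.mem_singleton_iff] at hx
        subst hx
        refine ⟨(rb e 1)⁻¹ * h, rfl, n + 1, _, Or.inr ⟨-1, (rb_inv e 1).symm⟩, h, hn, rfl⟩
  obtain ⟨h, h1, n, hn⟩ := key g hg
  have h2 : h = ⟨g, hg⟩ := Subtype.ext h1
  rw [h2] at hn
  exact ⟨n, hn⟩

/-! ### Uniqueness facts -/

/-- All vectors of the sequence are non-zero. -/
def NZ : Prop := ∀ n, ∃ x, x ≠ 0 ∧ e n x ≠ 0

variable {e}

theorem NZ.sh (h : NZ e) : NZ (sh e) := fun n => h (n + 1)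

theorem rb_eq_ra {j t : ZMod p} (hx : NZ e) (h : rb e j = ra e t) :
    j = 0 ∧ t = 0 := by
  have h1 : t = 0 := by
    have := congrArg (fun g => act e g 0) h
    simp only [act_rb, act_ra, zero_add] at this
    exact this.symm
  obtain ⟨x, hx0, hex⟩ := hx 0
  have h2 := congrArg (fun g => sec e g x) h
  simp only [sec_rb, sec_ra, if_neg hx0] at h2
  have h3 := congrArg (fun g => act (sh e) g 0) h2
  simp only [act_ra, act_one, zero_add] at h3
  exact ⟨(mul_eq_zero.1 h3).resolve_right hex, h1⟩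

theorem ra_inj {s t : ZMod p} (h : ra e s = ra e t) : s = t := by
  have := congrArg (fun g => act e g 0) h
  simpa only [act_ra, zero_add] using this

theorem conj_fact {t j j' : ZMod p} (hx : NZ e) (ht : t ≠ 0)
    (h : ra e t * rb e j * ra e (-t) = rb e j') : j = 0 := by
  have h1 := congrArg (fun g => sec e g 0) h
  simp only [sec_mul, sec_ra, sec_rb, act_ra, zero_add, one_mul, mul_one, if_true,
    if_neg (neg_ne_zero.2 ht)] at h1
  obtain ⟨h2, -⟩ := rb_eq_ra hx.sh h1.symm
  rw [h2, rb_zero] at h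
  have h3 : rb e j = ra e 0 := by
    calc rb e j = ra e (-t) * (ra e t * rb e j * ra e (-t)) * ra e t := by
          rw [← ra_inv]; group
      _ = ra e 0 := by rw [h, mul_one, ra_mul, neg_add_cancel]
  exact (rb_eq_ra hx h3).1

theorem not_Let_one {i t j : ZMod p} (hx : NZ e) (ht : t ≠ 0) (hj : j ≠ 0) :
    rb e i * (ra e t * rb e j) ∉ Let e := by
  rintro (⟨t', h⟩ | ⟨i', h⟩)
  · have h1 := congrArg (fun g => act e g 0) h
    simp only [act_mul, act_ra, act_rb, zero_add] at h1
    rw [h1] at h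
    apply hj
    apply conj_fact (j' := -i) hx ht
    have h2 : ra e t * rb e j = (rb e i)⁻¹ * ra e t := by
      rw [eq_inv_mul_iff_mul_eq]; exact h.symm
    rw [h2, mul_assoc, ra_mul, add_neg_cancel, ra_zero, mul_one, rb_inv]
  · have h1 := congrArg (fun g => act e g 0) h
    simp only [act_mul, act_ra, act_rb, zero_add] at h1
    exact ht h1.symm

theorem not_Let_two {s j t : ZMod p} (hx : NZ e) (ht : t ≠ 0) (hj : j ≠ 0) :
    ra e s * (rb e j * ra e t) ∉ Let e := by
  rintro (⟨t', h⟩ | ⟨i, h⟩)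
  · have h1 : rb e j = ra e (-s + t' + -t) := by
      rw [← ra_mul, ← ra_mul, ← ra_inv, ← ra_inv, h]
      group
    exact hj (rb_eq_ra hx h1).1
  · have h1 := congrArg (fun g => act e g 0) h
    simp only [act_mul, act_ra, act_rb, zero_add] at h1
    have hs : s = -t := by
      rw [eq_neg_iff_add_eq_zero, add_comm]; exact h1.symm
    rw [hs] at h
    apply hj
    apply conj_fact (t := -t) (j' := i) hx (neg_ne_zero.2 ht)
    rw [neg_neg, mul_assoc]
    exact h.symm

end Pool.Agent.Y803.GGS
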