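import Pool.Agent.Y803.GR.GGS
import Pool.Agent.Y803.GR.Kap

/-!
The group algebra of a GGS-group: `1 - (d N_a + c N_b)` has no right inverse.
-/

set_option autoImplicit false

namespace Pool.Agent.Y803.GGS

open Pool.Agent.Y803.GR

universe u v

variable {p : ℕ} [Fact p.Prime] (k : Type u) [Field k]

/-- The action of `g` on vectors indexed by the first level. -/
noncomputable def rhoFun (e : ℕ → ZMod p → ZMod p) (g : GG e) :
    Module.End k (ZMod p → MonoidAlgebra k (GG (sh e))) where
  toFun v := fun y => MonoidAlgebra.single (sec e g (act e g⁻¹ y)) 1 * v (act e g⁻¹ y)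
  map_add' v w := by
    ext1 y
    rw [Pi.add_apply, Pi.add_apply, mul_add]
  map_smul' r v := by
    ext1 y
    rw [Pi.smul_apply, Pi.smul_apply, mul_smul_comm, RingHom.id_apply]

theorem rhoFun_apply (e : ℕ → ZMod p → ZMod p) (g : GG e)
    (v : ZMod p → MonoidAlgebra k (GG (sh e))) (y : ZMod p) :
    rhoFun k e g v y =
      MonoidAlgebra.single (sec e g (act e g⁻¹ y)) 1 * v (act e g⁻¹ y) := rfl

/-- The representation of the group on vectors indexed by the first level. -/
noncomputable def rhoHom (e : ℕ → ZMod p → ZMod p) :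
    GG e →* Module.End k (ZMod p → MonoidAlgebra k (GG (sh e))) where
  toFun := rhoFun k e
  map_one' := by
    refine LinearMap.ext fun v => funext fun y => ?_
    rw [rhoFun_apply, inv_one, act_one, sec_one, ← MonoidAlgebra.one_def, one_mul]
    rfl
  map_mul' g h := by
    refine LinearMap.ext fun v => funext fun y => ?_
    rw [Module.End.mul_apply, rhoFun_apply, rhoFun_apply, rhoFun_apply, mul_inv_rev, act_mul,
      sec_mul, act_act_inv, ← mul_assoc, MonoidAlgebra.single_mul_single, one_mul]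

/-- The wreath recursion as an algebra homomorphism. -/
noncomputable def rho (e : ℕ → ZMod p → ZMod p) :
    MonoidAlgebra k (GG e) →ₐ[k] Module.End k (ZMod p → MonoidAlgebra k (GG (sh e))) :=
  MonoidAlgebra.lift k _ _ (rhoHom k e)

theorem rho_single (e : ℕ → ZMod p → ZMod p) (g : GG e)
    (v : ZMod p → MonoidAlgebra k (GG (sh e))) (y : ZMod p) :
    rho k e (MonoidAlgebra.single g 1) v y =
      MonoidAlgebra.single (sec e g (act e g⁻¹ y)) 1 * v (act e g⁻¹ y) := by
  rw [rho, MonoidAlgebra.lift_single, one_smul]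
  rfl

/-- The sum of the powers of `a`. -/
noncomputable def Na (e : ℕ → ZMod p → ZMod p) : MonoidAlgebra k (GG e) :=
  ∑ t : ZMod p, MonoidAlgebra.single (ra e t) 1

/-- The sum of the powers of `b`. -/
noncomputable def Nb (e : ℕ → ZMod p → ZMod p) : MonoidAlgebra k (GG e) :=
  ∑ t : ZMod p, MonoidAlgebra.single (rb e t) 1

/-- The section of `Nb` at `x`. -/
noncomputable def NB (e : ℕ → ZMod p → ZMod p) (x : ZMod p) : MonoidAlgebra k (GG (sh e)) :=
  if x = 0 then Nb k (sh e) else if e 0 x = 0 then 0 else Na k (sh e)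

variable {k}

theorem rho_Na (e : ℕ → ZMod p → ZMod p) (v : ZMod p → MonoidAlgebra k (GG (sh e)))
    (y : ZMod p) : rho k e (Na k e) v y = ∑ x, v x := by
  rw [Na, map_sum, LinearMap.sum_apply, Finset.sum_apply]
  have h : ∀ t : ZMod p, rho k e (MonoidAlgebra.single (ra e t) 1) v y = v (y - t) := by
    intro t
    rw [rho_single, sec_ra, ra_inv, act_ra, ← MonoidAlgebra.one_def, one_mul, sub_eq_add_neg]
  simp only [h]
  exact Fintype.sum_equiv (Equiv.subLeft y) _ _ (fun t => rfl)

theorem rho_Nb (hp : (p : k) = 0) (e : ℕ → ZMod p → ZMod p)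
    (v : ZMod p → MonoidAlgebra k (GG (sh e)))
    (y : ZMod p) : rho k e (Nb k e) v y = NB k e y * v y := by
  rw [Nb, map_sum, LinearMap.sum_apply, Finset.sum_apply]
  have h : ∀ t : ZMod p, rho k e (MonoidAlgebra.single (rb e t) 1) v y =
      MonoidAlgebra.single (if y = 0 then rb (sh e) t else ra (sh e) (t * e 0 y)) 1 * v y := by
    intro t
    rw [rho_single, rb_inv, act_rb, sec_rb]
  simp only [h]
  rw [← Finset.sum_mul]
  congr 1
  rw [NB]
  split_ifs with h1 h2
  · rfl
  · simp only [h2, mul_zero, ra_zero, Finset.sum_const, Finset.card_univ, ZMod.card]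
    rw [← MonoidAlgebra.one_def, nsmul_one]
    have := congrArg (algebraMap k (MonoidAlgebra k (GG (sh e)))) hp
    rwa [map_natCast, map_zero] at this
  · exact Fintype.sum_equiv (Equiv.mulRight₀ (e 0 y) h2) _ _ (fun t => rfl)

theorem Na_sq (hp : (p : k) = 0) (e : ℕ → ZMod p → ZMod p) : Na k e * Na k e = 0 := by
  have h : ∀ t : ZMod p, MonoidAlgebra.single (ra e t) (1 : k) * Na k e = Na k e := by
    intro t
    rw [Na, Finset.mul_sum]
    simp only [MonoidAlgebra.single_mul_single, ra_mul, mul_one]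
    exact Fintype.sum_equiv (Equiv.addLeft t) _ _ (fun s => rfl)
  have h2 : Na k e * Na k e = ∑ t : ZMod p, MonoidAlgebra.single (ra e t) (1 : k) * Na k e := by
    rw [← Finset.sum_mul]; rfl
  rw [h2]
  simp only [h, Finset.sum_const, Finset.card_univ, ZMod.card]
  rw [← Nat.cast_smul_eq_nsmul k, hp, zero_smul]

theorem Nb_sq (hp : (p : k) = 0) (e : ℕ → ZMod p → ZMod p) : Nb k e * Nb k e = 0 := by
  have h : ∀ t : ZMod p, MonoidAlgebra.single (rb e t) (1 : k) * Nb k e = Nb k e := by
    intro t
    rw [Nb, Finset.mul_sum]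
    simp only [MonoidAlgebra.single_mul_single, rb_mul, mul_one]
    exact Fintype.sum_equiv (Equiv.addLeft t) _ _ (fun s => rfl)
  have h2 : Nb k e * Nb k e = ∑ t : ZMod p, MonoidAlgebra.single (rb e t) (1 : k) * Nb k e := by
    rw [← Finset.sum_mul]; rfl
  rw [h2]
  simp only [h, Finset.sum_const, Finset.card_univ, ZMod.card]
  rw [← Nat.cast_smul_eq_nsmul k, hp, zero_smul]

theorem NB_sq (hp : (p : k) = 0) (e : ℕ → ZMod p → ZMod p) (x : ZMod p) :
    NB k e x * NB k e x = 0 := by
  rw [NB]
  split_ifs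
  · exact Nb_sq hp _
  · exact zero_mul _
  · exact Na_sq hp _

/-- The number of non-zero entries of the first vector. -/
def kap (e : ℕ → ZMod p → ZMod p) : ℕ :=
  (Finset.univ.filter (fun x : ZMod p => x ≠ 0 ∧ e 0 x ≠ 0)).card

theorem kap_ne_zero [CharP k p] {e : ℕ → ZMod p → ZMod p} (he : NZ e) : (kap e : k) ≠ 0 := by
  intro h
  rw [CharP.cast_eq_zero_iff k p] at h
  have h1 : 0 < kap e := by
    obtain ⟨x, hx⟩ := he 0
    exact Finset.card_pos.2 ⟨x, Finset.mem_filter.2 ⟨Finset.mem_univ _, hx⟩⟩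
  have h2 : kap e < p := by
    have : kap e < (Finset.univ : Finset (ZMod p)).card := by
      apply Finset.card_lt_card
      rw [Finset.filter_ssubset]
      exact ⟨0, Finset.mem_univ _, fun h => h.1 rfl⟩
    rwa [Finset.card_univ, ZMod.card] at this
  exact absurd (Nat.le_of_dvd h1 h) (not_le.2 h2)

theorem sum_NB (e : ℕ → ZMod p → ZMod p) :
    ∑ x, NB k e x = Nb k (sh e) + (kap e : k) • Na k (sh e) := by
  have h : ∀ x, NB k e x = (if x = 0 then Nb k (sh e) else 0) +
      (if x ≠ 0 ∧ e 0 x ≠ 0 then Na k (sh e) else 0) := by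
    intro x
    rw [NB]
    by_cases h1 : x = 0
    · simp [h1]
    · by_cases h2 : e 0 x = 0
      · simp [h1, h2]
      · simp [h1, h2]
  simp only [h]
  rw [Finset.sum_add_distrib, Finset.sum_ite_eq' Finset.univ (0 : ZMod p)
    (fun _ => Nb k (sh e)), if_pos (Finset.mem_univ _), ← Finset.sum_filter, Finset.sum_const,
    Nat.cast_smul_eq_nsmul]
  rfl

/-- The sum of the entries of the first column vector of `Y`. -/
noncomputable def ss (e : ℕ → ZMod p → ZMod p) (Y : MonoidAlgebra k (GG e)) :
    MonoidAlgebra k (GG (sh e)) := ∑ x, rho k e Y (fun _ => 1) x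

/-- The descent step. -/
theorem descend (hp : (p : k) = 0) (e : ℕ → ZMod p → ZMod p) (c d : k)
    (Y : MonoidAlgebra k (GG e)) (hY : (1 - (d • Na k e + c • Nb k e)) * Y = 1) :
    (1 - ((c * d * (kap e : k)) • Na k (sh e) + (c * d) • Nb k (sh e))) *
      (1 + d • ss e Y) = 1 := by
  set m := rho k e Y (fun _ => 1) with hm
  set s := ss e Y with hs
  have hss : s = ∑ x, m x := rfl
  have h1 : ∀ x, m x - (d • s + c • (NB k e x * m x)) = 1 := by
    intro x
    have h := congrArg (fun z => rho k e z (fun _ => 1) x) hY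
    simp only [map_mul, map_sub, map_one, map_add, map_smul, Module.End.mul_apply,
      LinearMap.sub_apply, LinearMap.add_apply, LinearMap.smul_apply, Module.End.one_apply,
      Pi.sub_apply, Pi.add_apply, Pi.smul_apply, rho_Na, rho_Nb hp] at h
    rw [← hm] at h
    exact h
  have h2 : ∀ x, m x = (1 + c • NB k e x) * (1 + d • s) := by
    intro x
    have h3 : 1 + d • s = m x - c • (NB k e x * m x) := by
      rw [← h1 x]; abel
    rw [h3, add_mul, one_mul, mul_sub, mul_smul_comm, smul_mul_assoc, smul_mul_assoc,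
      ← mul_assoc, NB_sq hp, zero_mul, smul_zero, smul_zero, sub_zero]
    abel
  have h4 : s = c • ((Nb k (sh e) + (kap e : k) • Na k (sh e)) * (1 + d • s)) := by
    conv_lhs => rw [hss]
    rw [Finset.sum_congr rfl (fun x _ => h2 x), ← Finset.sum_mul, Finset.sum_add_distrib,
      ← Finset.smul_sum, sum_NB, Finset.sum_const, Finset.card_univ, ZMod.card,
      ← Nat.cast_smul_eq_nsmul k, hp, zero_smul, zero_add, smul_mul_assoc]
  have h5 : ((c * d * (kap e : k)) • Na k (sh e) + (c * d) • Nb k (sh e)) * (1 + d • s) =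
      d • s := by
    conv_rhs => rw [h4]
    rw [← smul_mul_assoc, ← smul_mul_assoc]
    congr 1
    rw [smul_smul, smul_add, smul_smul, add_comm, mul_comm d c]
  rw [sub_mul, one_mul, h5, add_sub_cancel_right]

end Pool.Agent.Y803.GGS
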