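import Pool.Agent.Y803.GR.GGSA

/-!
The GGS-groups: supports, the final contradiction, infiniteness and sections.
-/

set_option autoImplicit false

namespace Pool.Agent.Y803.GGS

open Pool.Agent.Y803.GR

universe u v

section VV

variable (k : Type u) [Field k] {G : Type v}

/-- The elements of the group algebra supported on `S`. -/
noncomputable def VV (S : Set G) : Submodule k (MonoidAlgebra k G) :=
  Submodule.span k ((fun g => MonoidAlgebra.single g (1 : k)) '' S)

variable {k}

theorem VV_mono {S T : Set G} (h : S ⊆ T) : VV k S ≤ VV k T :=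
  Submodule.span_mono (Set.image_mono h)

theorem single_mem_VV {S : Set G} {g : G} (hg : g ∈ S) :
    MonoidAlgebra.single g (1 : k) ∈ VV k S := Submodule.subset_span ⟨g, hg, rfl⟩

theorem coeff_VV {S : Set G} {Y : MonoidAlgebra k G} (hY : Y ∈ VV k S) {g : G} (hg : g ∉ S) :
    Y.coeff g = 0 := by
  classical
  induction hY using Submodule.span_induction with
  | mem y hy =>
    obtain ⟨h, hh, rfl⟩ := hy
    show (MonoidAlgebra.single h (1 : k)).coeff g = 0
    rw [MonoidAlgebra.coeff_single, Finsupp.single_apply, if_neg]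
    rintro rfl
    exact hg hh
  | zero => rfl
  | add x y _ _ hx hy => rw [MonoidAlgebra.coeff_add, Finsupp.add_apply, hx, hy, add_zero]
  | smul r x _ hx => rw [MonoidAlgebra.coeff_smul, Finsupp.smul_apply, hx, smul_zero]

end VV

variable {p : ℕ} [Fact p.Prime] {k : Type u} [Field k]

theorem ss_mem {e : ℕ → ZMod p → ZMod p} {S : Set (GG e)} {T : Set (GG (sh e))}
    (h : ∀ g ∈ S, ∀ x, sec e g x ∈ T) {Y : MonoidAlgebra k (GG e)} (hY : Y ∈ VV k S) :
    ss e Y ∈ VV k T := by
  apply Submodule.sum_mem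
  intro x _
  induction hY using Submodule.span_induction with
  | mem y hy =>
    obtain ⟨g, hg, rfl⟩ := hy
    show rho k e (MonoidAlgebra.single g 1) (fun _ => 1) x ∈ _
    rw [rho_single, mul_one]
    exact single_mem_VV (h g hg _)
  | zero => rw [map_zero]; exact zero_mem _
  | add a b _ _ ha hb => rw [map_add]; exact add_mem ha hb
  | smul r a _ ha => rw [map_smul]; exact Submodule.smul_mem _ r ha

theorem exists_VV (e : ℕ → ZMod p → ZMod p) (Y : MonoidAlgebra k (GG e)) :
    ∃ n, Y ∈ VV k (LL e n) := by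
  induction Y using MonoidAlgebra.induction_linear with
  | zero => exact ⟨0, zero_mem _⟩
  | add a b ha hb =>
    obtain ⟨n, hn⟩ := ha
    obtain ⟨m, hm⟩ := hb
    exact ⟨max n m, add_mem (VV_mono (LL_mono e (le_max_left n m)) hn)
      (VV_mono (LL_mono e (le_max_right n m)) hm)⟩
  | single g r =>
    obtain ⟨n, hn⟩ := exists_PP e g
    refine ⟨(n + 1) / 2, ?_⟩
    have h : MonoidAlgebra.single g r = r • MonoidAlgebra.single g (1 : k) := by
      rw [MonoidAlgebra.smul_single, smul_eq_mul, mul_one]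
    rw [h]
    exact Submodule.smul_mem _ r (single_mem_VV (PP_LL e n hn))

theorem no_short {e : ℕ → ZMod p → ZMod p} (he : NZ e) {c d : k} (hc : c ≠ 0) (hd : d ≠ 0)
    (Y : MonoidAlgebra k (GG e)) (hY : Y ∈ VV k (Let e))
    (h : (1 - (d • Na k e + c • Nb k e)) * Y = 1) : False := by
  classical
  have h10 : (1 : ZMod p) ≠ 0 := one_ne_zero
  have key : ∀ g, Y.coeff g = (1 : MonoidAlgebra k (GG e)).coeff g +
      (d * ∑ t, Y.coeff (ra e (-t) * g) + c * ∑ t, Y.coeff (rb e (-t) * g)) := by
    intro g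
    have h1 : Y = 1 + (d • (Na k e * Y) + c • (Nb k e * Y)) := by
      rw [← h, sub_mul, one_mul, add_mul, smul_mul_assoc, smul_mul_assoc]
      abel
    conv_lhs => rw [h1]
    rw [Na, Nb, Finset.sum_mul, Finset.sum_mul]
    simp only [MonoidAlgebra.coeff_add, MonoidAlgebra.coeff_smul, MonoidAlgebra.coeff_sum,
      Finsupp.add_apply, Finsupp.smul_apply, Finsupp.finsetSum_apply,
      MonoidAlgebra.coeff_single_mul_apply, one_mul, ra_inv, rb_inv, smul_eq_mul]
  have hone : ∀ g : GG e, g ≠ 1 → (1 : MonoidAlgebra k (GG e)).coeff g = 0 := by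
    intro g hg
    rw [MonoidAlgebra.one_def, MonoidAlgebra.coeff_single, Finsupp.single_apply, if_neg hg.symm]
  have one_Let : (1 : GG e) ∈ Let e := Or.inl ⟨0, ra_zero e⟩
  have nl1 : ∀ t j : ZMod p, t ≠ 0 → j ≠ 0 → ra e t * rb e j ∉ Let e := by
    intro t j ht hj
    have := not_Let_one (i := 0) he ht hj
    rwa [rb_zero, one_mul] at this
  have nl2 : ∀ j t : ZMod p, t ≠ 0 → j ≠ 0 → rb e j * ra e t ∉ Let e := by
    intro j t ht hj
    have := not_Let_two (s := 0) he ht hj
    rwa [ra_zero, one_mul] at this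
  have ne1 : ∀ {g : GG e}, g ∉ Let e → g ≠ 1 := by
    rintro g hg rfl
    exact hg one_Let
  have hb : ∀ j : ZMod p, j ≠ 0 → Y.coeff (rb e j) = 0 := by
    intro j hj
    have h0 := nl1 1 j h10 hj
    have h1 := key (ra e 1 * rb e j)
    rw [coeff_VV hY h0, hone _ (ne1 h0), zero_add,
      Finset.sum_eq_single (1 : ZMod p), Finset.sum_eq_zero, mul_zero, add_zero] at h1
    · rw [← mul_assoc, ra_mul, neg_add_cancel, ra_zero, one_mul] at h1
      exact (mul_eq_zero.1 h1.symm).resolve_left hd
    · intro t _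
      exact coeff_VV hY (not_Let_one he h10 hj)
    · intro t _ ht
      rw [← mul_assoc, ra_mul]
      refine coeff_VV hY (nl1 _ _ ?_ hj)
      intro h2
      exact ht (neg_add_eq_zero.1 h2)
    · intro h2
      exact absurd (Finset.mem_univ _) h2
  have ha : ∀ t : ZMod p, t ≠ 0 → Y.coeff (ra e t) = 0 := by
    intro t ht
    have h0 := nl2 1 t ht h10
    have h1 := key (rb e 1 * ra e t)
    rw [coeff_VV hY h0, hone _ (ne1 h0), zero_add,
      Finset.sum_eq_zero, mul_zero, zero_add, Finset.sum_eq_single (1 : ZMod p)] at h1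
    · rw [← mul_assoc, rb_mul, neg_add_cancel, rb_zero, one_mul] at h1
      exact (mul_eq_zero.1 h1.symm).resolve_left hc
    · intro s _ hs
      rw [← mul_assoc, rb_mul]
      refine coeff_VV hY (nl2 _ _ ht ?_)
      intro h2
      exact hs (neg_add_eq_zero.1 h2)
    · intro h2
      exact absurd (Finset.mem_univ _) h2
    · intro s _
      exact coeff_VV hY (not_Let_two he ht h10)
  have h1' : Y.coeff 1 = 0 := by
    have h1 := key (ra e 1)
    have hne : ra e 1 ≠ 1 := by
      intro h2
      rw [← ra_zero] at h2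
      exact h10 (ra_inj h2)
    rw [ha 1 h10, hone _ hne, zero_add, Finset.sum_eq_single (1 : ZMod p), Finset.sum_eq_zero,
      mul_zero, add_zero] at h1
    · rw [ra_mul, neg_add_cancel, ra_zero] at h1
      exact (mul_eq_zero.1 h1.symm).resolve_left hd
    · intro j _
      by_cases hj : j = 0
      · rw [hj, neg_zero, rb_zero, one_mul]
        exact ha 1 h10
      · exact coeff_VV hY (nl2 _ _ h10 (neg_ne_zero.2 hj))
    · intro t _ ht
      rw [ra_mul]
      apply ha
      intro h2
      exact ht (neg_add_eq_zero.1 h2)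
    · intro h2
      exact absurd (Finset.mem_univ _) h2
  have hY0 : ∀ g, Y.coeff g = 0 := by
    intro g
    by_cases hg : g ∈ Let e
    · rcases hg with ⟨t, rfl⟩ | ⟨t, rfl⟩
      · by_cases ht : t = 0
        · rw [ht, ra_zero, h1']
        · exact ha t ht
      · by_cases ht : t = 0
        · rw [ht, rb_zero, h1']
        · exact hb t ht
    · exact coeff_VV hY hg
  have h2 := key 1
  rw [hY0] at h2
  simp only [hY0, Finset.sum_const_zero, mul_zero, add_zero] at h2
  rw [MonoidAlgebra.one_def, MonoidAlgebra.coeff_single, Finsupp.single_eq_same] at h2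
  exact zero_ne_one h2

theorem one_mem_PP (e : ℕ → ZMod p → ZMod p) (n : ℕ) : (1 : GG e) ∈ PP e n := by
  induction n with
  | zero => rfl
  | succ n ih => exact ⟨1, Or.inl ⟨0, ra_zero e⟩, 1, ih, (one_mul 1).symm⟩

theorem PP_le_one {e : ℕ → ZMod p → ZMod p} {n : ℕ} (hn : n ≤ 1) : PP e n ⊆ Let e := by
  intro g hg
  match n with
  | 0 =>
    rw [show g = 1 from hg]
    exact Or.inl ⟨0, ra_zero e⟩
  | 1 =>
    obtain ⟨l, hl, h, hh, rfl⟩ := hg
    rw [show h = 1 from hh, mul_one]
    exact hl

theorem no_inv [CharP k p] (n : ℕ) : ∀ (e : ℕ → ZMod p → ZMod p), NZ e → ∀ c d : k, c ≠ 0 → d ≠ 0 →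
    ∀ Y ∈ VV k (LL e n), (1 - (d • Na k e + c • Nb k e)) * Y ≠ 1 := by
  have hp : (p : k) = 0 := CharP.cast_eq_zero k p
  induction n using Nat.strong_induction_on with
  | _ n ih =>
    intro e he c d hc hd Y hY h
    have h1 := descend hp e c d Y h
    have hc' : c * d ≠ 0 := mul_ne_zero hc hd
    have hd' : c * d * (kap e : k) ≠ 0 := mul_ne_zero hc' (kap_ne_zero he)
    have h2 : 1 + d • ss e Y ∈ VV k (PP (sh e) n) :=
      add_mem (by rw [MonoidAlgebra.one_def]; exact single_mem_VV (one_mem_PP _ n))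
        (Submodule.smul_mem _ d (ss_mem (sec_LL e n) hY))
    by_cases hn : n ≤ 1
    · exact no_short he.sh hc' hd' _ (VV_mono (PP_le_one hn) h2) h1
    · exact ih ((n + 1) / 2) (by omega) (sh e) he.sh _ _ hc' hd' _ (VV_mono (PP_LL _ n) h2) h1

theorem aug_Na (e : ℕ → ZMod p → ZMod p) : aug k (GG e) (Na k e) = (p : k) := by
  rw [Na, map_sum]
  simp only [aug_single, Finset.sum_const, Finset.card_univ, ZMod.card, nsmul_one]

theorem aug_Nb (e : ℕ → ZMod p → ZMod p) : aug k (GG e) (Nb k e) = (p : k) := by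
  rw [Nb, map_sum]
  simp only [aug_single, Finset.sum_const, Finset.card_univ, ZMod.card, nsmul_one]

theorem charP_of (hp : (p : k) = 0) : CharP k p := by
  obtain ⟨q, hq⟩ := CharP.exists k
  have h1 := (CharP.cast_eq_zero_iff k q p).1 hp
  rcases (Nat.dvd_prime (Fact.out : p.Prime)).1 h1 with h2 | h2
  · subst h2
    have h3 := CharP.cast_eq_zero k 1
    rw [Nat.cast_one] at h3
    exact absurd h3 one_ne_zero
  · rwa [h2] at hq

/-- The augmentation ideal of the group algebra of a GGS-group does not lie in the radical. -/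
theorem not_augLeJac (e : ℕ → ZMod p → ZMod p) (he : NZ e) : ¬ AugLeJac k (GG e) := by
  intro h
  by_cases hp : (p : k) = 0
  · have := charP_of hp
    have h1 : aug k (GG e) (-(Na k e + Nb k e)) = 0 := by
      rw [map_neg, map_add, aug_Na, aug_Nb, hp, add_zero, neg_zero]
    have h2 := isUnit_of_jacobson (h _ h1)
    obtain ⟨Y, hY⟩ := h2.exists_right_inv
    obtain ⟨n, hn⟩ := exists_VV e Y
    apply no_inv n e he 1 1 one_ne_zero one_ne_zero Y hn
    rw [one_smul, one_smul, sub_eq_add_neg]
    exact hY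
  · have h1 : aug k (GG e) (-(1 - (p : k)⁻¹ • Na k e)) = 0 := by
      rw [map_neg, map_sub, map_one, map_smul, aug_Na, smul_eq_mul, inv_mul_cancel₀ hp, sub_self,
        neg_zero]
    have h2 := isUnit_of_jacobson (h _ h1)
    have h3 : (1 + -(1 - (p : k)⁻¹ • Na k e)) = (p : k)⁻¹ • Na k e := by abel
    rw [h3] at h2
    have h4 : ((p : k)⁻¹ • Na k e) * (MonoidAlgebra.single (ra e 1) 1 - 1) = 0 := by
      have h5 : Na k e * MonoidAlgebra.single (ra e 1) 1 = Na k e := by
        rw [Na, Finset.sum_mul]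
        simp only [MonoidAlgebra.single_mul_single, ra_mul, mul_one]
        exact Fintype.sum_equiv (Equiv.addRight 1) _ _ (fun s => rfl)
      rw [smul_mul_assoc, mul_sub, h5, mul_one, sub_self, smul_zero]
    have h6 := (h2.mul_right_eq_zero).1 h4
    rw [sub_eq_zero, MonoidAlgebra.one_def] at h6
    have h7 := congrArg (fun z : MonoidAlgebra k (GG e) => z.coeff (ra e 1)) h6
    simp only [MonoidAlgebra.coeff_single] at h7
    rw [Finsupp.single_eq_same, Finsupp.single_eq_of_ne] at h7
    · exact one_ne_zero h7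
    · intro h8
      rw [← ra_zero] at h8
      exact one_ne_zero (ra_inj h8)

/-! ### Infiniteness -/

/-- The stabiliser of the vertex `0` of the first level. -/
noncomputable def St (e : ℕ → ZMod p → ZMod p) : Subgroup (GG e) where
  carrier := {g | act e g 0 = 0}
  one_mem' := act_one e 0
  mul_mem' := by
    intro g h hg hh
    show act e (g * h) 0 = 0
    rw [act_mul, show act e h 0 = 0 from hh]
    exact hg
  inv_mem' := by
    intro g hg
    show act e g⁻¹ 0 = 0
    conv_lhs => rw [← show act e g 0 = 0 from hg]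
    exact act_inv_act e g 0

/-- The section at `0`. -/
noncomputable def secHom (e : ℕ → ZMod p → ZMod p) : St e →* GG (sh e) where
  toFun g := sec e g 0
  map_one' := sec_one e 0
  map_mul' g h := by
    show sec e ((g : GG e) * (h : GG e)) 0 = _
    rw [sec_mul, show act e h 0 = 0 from h.2]

theorem secHom_surj {e : ℕ → ZMod p → ZMod p} (he : NZ e) : Function.Surjective (secHom e) := by
  have h : GG (sh e) ≤ ((secHom e).range).map (GG (sh e)).subtype := by
    show Subgroup.closure {rt 1, bb (sh e) 1} ≤ _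
    rw [Subgroup.closure_le]
    rintro g (rfl | hg)
    · obtain ⟨x, hx0, hx⟩ := he 0
      have hmem : ra e (-x) * (rb e (e 0 x)⁻¹ * ra e x) ∈ St e := by
        show act e _ 0 = 0
        rw [act_mul, act_mul, act_ra, act_rb, act_ra, zero_add, add_neg_cancel]
      refine ⟨ra (sh e) 1, ⟨⟨_, hmem⟩, ?_⟩, rfl⟩
      show sec e (ra e (-x) * (rb e (e 0 x)⁻¹ * ra e x)) 0 = _
      rw [sec_mul, sec_mul, sec_ra, sec_ra, act_ra, sec_rb, zero_add, if_neg hx0, one_mul,
        mul_one, inv_mul_cancel₀ hx]
    · rw [Set.mem_singleton_iff] at hg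
      subst hg
      refine ⟨rb (sh e) 1, ⟨⟨rb e 1, act_rb e 1 0⟩, ?_⟩, rfl⟩
      show sec e (rb e 1) 0 = _
      rw [sec_rb, if_pos rfl]
  intro g
  obtain ⟨g', hg', h1⟩ := h g.2
  obtain ⟨s, hs⟩ := hg'
  exact ⟨s, hs.trans (Subtype.ext h1)⟩

theorem infinite_GG {e : ℕ → ZMod p → ZMod p} (he : NZ e) : Infinite (GG e) := by
  have key : ∀ n : ℕ, ∀ e : ℕ → ZMod p → ZMod p, NZ e → Finite (GG e) →
      Nat.card (GG e) = n → False := by
    intro n
    induction n using Nat.strong_induction_on with
    | _ n ih =>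
      intro e he hfin hcard
      have h1 : Nat.card (GG (sh e)) ≤ Nat.card (St e) :=
        Nat.card_le_card_of_surjective _ (secHom_surj he)
      have h2 : Nat.card (St e) ≤ Nat.card (GG e) := Subgroup.card_le_card_group _
      have h3 : Nat.card (St e) ≠ Nat.card (GG e) := by
        intro h3
        have h4 := Subgroup.eq_top_of_card_eq _ h3
        have h5 : ra e 1 ∈ St e := by rw [h4]; exact Subgroup.mem_top _
        have h6 : act e (ra e 1) 0 = 0 := h5
        rw [act_ra, zero_add] at h6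
        exact one_ne_zero h6
      have hf : Finite (GG (sh e)) := Finite.of_surjective _ (secHom_surj he)
      exact ih (Nat.card (GG (sh e))) (by omega) (sh e) he.sh hf rfl
  by_contra hfin
  rw [not_infinite_iff_finite] at hfin
  exact key _ e he hfin rfl

theorem not_locally_finite {M : Type v} [Group M] {e : ℕ → ZMod p → ZMod p} (he : NZ e)
    (S : Subgroup M) (f : S →* GG e) (hf : Function.Surjective f) :
    ¬ ∀ H : Subgroup M, H.FG → Finite H := by
  intro h
  obtain ⟨sa, hsa⟩ := hf (ra e 1)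
  obtain ⟨sb, hsb⟩ := hf (rb e 1)
  let K : Subgroup S := Subgroup.closure {sa, sb}
  have hKM : (K.map S.subtype).FG := (Subgroup.fg_iff _).2
    ⟨S.subtype '' {sa, sb}, (MonoidHom.map_closure _ _).symm, by
      exact Set.Finite.image _ (by simp)⟩
  have hfin := h _ hKM
  have hKfin : Finite K :=
    Finite.of_equiv _ (K.equivMapOfInjective S.subtype S.subtype_injective).toEquiv.symm
  have hle : GG e ≤ (K.map f).map (GG e).subtype := by
    show Subgroup.closure {rt 1, bb e 1} ≤ _
    rw [Subgroup.closure_le]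
    rintro g (rfl | hg)
    · exact ⟨ra e 1, ⟨sa, Subgroup.subset_closure (Or.inl rfl), hsa⟩, rfl⟩
    · rw [Set.mem_singleton_iff] at hg
      subst hg
      exact ⟨rb e 1, ⟨sb, Subgroup.subset_closure (Or.inr rfl), hsb⟩, rfl⟩
  have hsurj : Function.Surjective (fun x : K => f x) := by
    intro g
    obtain ⟨g', ⟨s, hs, hs'⟩, h1⟩ := hle g.2
    exact ⟨⟨s, hs⟩, hs'.trans (Subtype.ext h1)⟩
  have hG : Finite (GG e) := Finite.of_surjective _ hsurj
  have := infinite_GG he
  exact not_finite (GG e)

/-- Kaplansky's question for groups with a section which is a GGS-group. -/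
theorem kaplansky_GGS (k : Type u) [Field k] {M : Type v} [Group M] {e : ℕ → ZMod p → ZMod p}
    (he : NZ e) (S : Subgroup M) (f : S →* GG e) (hf : Function.Surjective f) :
    ¬ Ideal.span (Set.range (fun g : M => MonoidAlgebra.of k M g - 1)) ≤
      Ideal.jacobson (⊥ : Ideal (MonoidAlgebra k M)) := by
  intro h
  have h1 : AugLeJac k M := fun x hx => h (mem_span_of_aug x hx)
  exact not_augLeJac e he (augLeJac_section ⟨S, f, hf⟩ h1)

end Pool.Agent.Y803.GGS
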