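import Mathlib

/-! A greedy choice lemma. -/

set_option autoImplicit false

namespace Pool.Agent.Y803.GR

theorem greedy {ι α : Type*} [DecidableEq ι] [DecidableEq α] (N M : ℕ) (bad : α → Finset α)
    (hb : ∀ a, (bad a).card ≤ N) (hsymm : ∀ a b, a ∈ bad b → b ∈ bad a) (E : ι → Set α)
    (hE : ∀ i, ∀ B : Finset α, B.card ≤ M → ∃ a ∈ E i, a ∉ B) (T : Finset ι) :
    N * T.card ≤ M → ∃ f : ι → α, (∀ i, f i ∈ E i) ∧
      ∀ i ∈ T, ∀ j ∈ T, i ≠ j → f i ∉ bad (f j) := by
  induction T using Finset.induction_on with
  | empty =>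
    intro _
    choose f hf _ using fun i => hE i ∅ (by simp)
    exact ⟨f, hf, fun i hi => absurd hi (by simp)⟩
  | insert i T hi ih =>
    intro hM
    rw [Finset.card_insert_of_notMem hi] at hM
    obtain ⟨f, hf1, hf2⟩ := ih (le_trans (Nat.mul_le_mul_left N (Nat.le_succ _)) hM)
    obtain ⟨a, ha, haB⟩ := hE i (T.biUnion fun j => bad (f j)) (by
      refine le_trans Finset.card_biUnion_le ?_
      refine le_trans (Finset.sum_le_card_nsmul T _ N fun j _ => hb _) ?_
      rw [smul_eq_mul, mul_comm]
      exact le_trans (Nat.mul_le_mul_left N (Nat.le_succ _)) hM)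
    have haB' : ∀ j ∈ T, a ∉ bad (f j) := fun j hj h =>
      haB (Finset.mem_biUnion.2 ⟨j, hj, h⟩)
    refine ⟨Function.update f i a, ?_, ?_⟩
    · intro j
      by_cases h : j = i
      · subst h; rw [Function.update_self]; exact ha
      · rw [Function.update_of_ne h]; exact hf1 j
    · intro j hj l hl hjl
      by_cases h : j = i
      · subst h
        have hlT : l ∈ T := (Finset.mem_insert.1 hl).resolve_left (fun h => hjl h.symm)
        rw [Function.update_self, Function.update_of_ne hjl.symm]
        exact haB' l hlT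
      · have hjT : j ∈ T := (Finset.mem_insert.1 hj).resolve_left h
        rw [Function.update_of_ne h]
        by_cases h' : l = i
        · subst h'
          rw [Function.update_self]
          exact fun hh => haB' j hjT (hsymm _ _ hh)
        · have hlT : l ∈ T := (Finset.mem_insert.1 hl).resolve_left h'
          rw [Function.update_of_ne h']
          exact hf2 j hjT l hlT hjl

end Pool.Agent.Y803.GR
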