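import Pool.Agent.Y803.GR.GrigK
import Pool.Agent.Y803.GR.Abs
import Pool.Agent.Y803.GR.Greedy

/-!
The group algebra of the first Grigorchuk group is semiprimitive.
-/

set_option autoImplicit false

open Pointwise

namespace Pool.Agent.Y803.GR

open Pool.Agent.Results.MP_2e8808_al

universe u v w

theorem perm_inv_self (g : Equiv.Perm (List Bool)) (x : List Bool) : g (g⁻¹ x) = x :=
  Equiv.apply_symm_apply g x

theorem fa_append (v u : List Bool) : ∃ u', fa (v ++ u) = fa v ++ u' := by
  cases v with
  | nil => exact ⟨fa u, rfl⟩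
  | cons x v => exact ⟨u, rfl⟩

theorem fb_append (i : Fin 3) (v u : List Bool) : ∀ ω, ∃ u', fb i ω (v ++ u) = fb i ω v ++ u' := by
  induction v with
  | nil => intro ω; exact ⟨fb i ω u, by simp [fb]⟩
  | cons x v ih =>
    intro ω
    cases x with
    | false =>
      by_cases h : ω 0 = i
      · exact ⟨u, by simp [fb, h]⟩
      · obtain ⟨u', hu'⟩ := fa_append v u
        exact ⟨u', by simp [fb, h, hu']⟩
    | true =>
      obtain ⟨u', hu'⟩ := ih (fun n => ω (n + 1))
      exact ⟨u', by simp [fb, hu']⟩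

theorem GG_length {g : Equiv.Perm (List Bool)} (hg : g ∈ GG) : ∀ u, (g u).length = u.length := by
  induction hg using Subgroup.closure_induction with
  | mem x hx =>
    rcases hx with hx | ⟨i, rfl⟩
    · rw [Set.mem_singleton_iff] at hx
      subst hx
      exact length_fa
    · exact fun u => length_fb i u _
  | one => exact fun u => rfl
  | mul x y _ _ hx hy => intro u; rw [Equiv.Perm.mul_apply, hx, hy]
  | inv x _ hx =>
    intro u
    have := hx (x⁻¹ u)
    rw [perm_inv_self] at this
    exact this.symm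

theorem GG_append {g : Equiv.Perm (List Bool)} (hg : g ∈ GG) :
    ∀ v u, ∃ u', g (v ++ u) = g v ++ u' := by
  induction hg using Subgroup.closure_induction with
  | mem x hx =>
    rcases hx with hx | ⟨i, rfl⟩
    · rw [Set.mem_singleton_iff] at hx
      subst hx
      exact fa_append
    · exact fun v u => fb_append i v u _
  | one => exact fun v u => ⟨u, rfl⟩
  | mul x y _ _ hx hy =>
    intro v u
    obtain ⟨u', hu'⟩ := hy v u
    obtain ⟨u'', hu''⟩ := hx (y v) u'
    exact ⟨u'', by rw [Equiv.Perm.mul_apply, hu', hu'']; rfl⟩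
  | inv x hxG hx =>
    intro v u
    have hlen : ∀ y : List Bool, (x⁻¹ y).length = y.length := GG_length (GG.inv_mem hxG)
    set y := x⁻¹ (v ++ u) with hy
    have hyl : v.length ≤ y.length := by rw [hy, hlen, List.length_append]; omega
    obtain ⟨u', hu'⟩ := hx (y.take v.length) (y.drop v.length)
    rw [List.take_append_drop, hy, perm_inv_self, ← hy] at hu'
    have h1 : v = x (y.take v.length) := by
      apply List.append_inj_left hu'
      rw [GG_length hxG, List.length_take, min_eq_left hyl]
    refine ⟨y.drop v.length, ?_⟩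
    have h2 : x⁻¹ v = y.take v.length := by
      rw [Equiv.Perm.inv_eq_iff_eq]
      exact h1
    rw [h2, List.take_append_drop]

/-- The subtree at a vertex. -/
def Tr (v : List Bool) : Set (List Bool) := {u | ∃ w, u = v ++ w}

theorem smul_Tr (g : GG) (v : List Bool) : g⁻¹ • Tr v = Tr (g⁻¹ • v) := by
  ext u
  rw [Set.mem_inv_smul_set_iff]
  constructor
  · rintro ⟨w, hw⟩
    have h1 : u = g⁻¹ • (v ++ w) := by rw [← hw, inv_smul_smul]
    obtain ⟨w', hw'⟩ := GG_append (g⁻¹).2 v w
    exact ⟨w', by rw [h1]; exact hw'⟩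
  · rintro ⟨w, rfl⟩
    obtain ⟨w', hw'⟩ := GG_append g.2 (g⁻¹ • v) w
    refine ⟨w', ?_⟩
    have h1 : g • (g⁻¹ • v ++ w) = g • (g⁻¹ • v) ++ w' := hw'
    rw [h1, smul_inv_smul]

theorem length_smul (g : GG) (v : List Bool) : (g • v).length = v.length := GG_length g.2 v

theorem Tr_disjoint {v w : List Bool} (hl : v.length = w.length) (h : v ≠ w) :
    Disjoint (Tr v) (Tr w) := by
  rw [Set.disjoint_left]
  rintro u ⟨x, hx⟩ ⟨y, hy⟩
  rw [hx] at hy
  exact h (List.append_inj_left hy hl)

theorem iv_Rist (s : Equiv.Perm (List Bool)) (hs : s ∈ K0) (v v' : List Bool)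
    (hv : ∃ p, v' = v ++ p) : (⟨iv v' s, K0_le (iv_K0 hs v')⟩ : GG) ∈ Rist GG (Tr v) := by
  intro u hu
  show iv v' s u = u
  apply iv_fix
  rintro ⟨w, rfl⟩
  obtain ⟨p, rfl⟩ := hv
  exact hu ⟨p ++ w, by rw [List.append_assoc]⟩

theorem inv_sec {g s : Equiv.Perm (List Bool)}
    (h : ∀ w, g (false :: false :: w) = false :: false :: s w) (w : List Bool) :
    g⁻¹ (false :: false :: w) = false :: false :: s⁻¹ w := by
  rw [Equiv.Perm.inv_eq_iff_eq, h, perm_inv_self]

theorem good_y (k : Type u) [Field k] (v : List Bool) :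
    ∃ y : MonoidAlgebra k (Rist GG (Tr v)), Transcendental k y := by
  obtain ⟨g, hg, h0, h1, h2⟩ := exists_three
  let r : Fin 3 → Rist GG (Tr v) := fun i =>
    ⟨⟨iv v (g i), K0_le (iv_K0 (hg i) v)⟩, iv_Rist (g i) (hg i) v v ⟨[], by simp⟩⟩
  refine ⟨∑ i, MonoidAlgebra.single (r i) 1, ?_⟩
  refine transcendental_of_res ((Rho k GG).comp (mp k (Rist GG (Tr v)).subtype))
    (resL k (v ++ [false, false])) (resL_surjective k _) (opL k 0 2 (seq 0) 1)
    (opL_transcendental k (by decide) _ _) _ ?_
  intro f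
  funext w
  rw [opL_apply]
  have key : ∀ i : Fin 3, ∀ s : Equiv.Perm (List Bool),
      (∀ w, (g i) (false :: false :: w) = false :: false :: s w) →
      Rho k GG (mp k (Rist GG (Tr v)).subtype (MonoidAlgebra.single (r i) 1)) f
        ((v ++ [false, false]) ++ w) = resL k (v ++ [false, false]) f (s⁻¹ w) := by
    intro i s hs
    rw [mp_single, Rho_single]
    show f ((iv v (g i))⁻¹ ((v ++ [false, false]) ++ w)) = f ((v ++ [false, false]) ++ s⁻¹ w)
    rw [← map_inv, List.append_assoc, iv_apply]
    congr 1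
    rw [List.append_assoc]
    congr 1
    exact inv_sec hs w
  show Rho k GG (mp k (Rist GG (Tr v)).subtype (∑ i, MonoidAlgebra.single (r i) 1)) f
    ((v ++ [false, false]) ++ w) = _
  rw [map_sum, map_sum, LinearMap.sum_apply, Finset.sum_apply, Fin.sum_univ_three,
    key 0 _ h0, key 1 _ h1, key 2 _ h2]
  simp only [xop, fb_fb, one_mul]
  simp only [mul_inv_rev, gb_inv, gd_inv, pa_inv]
  show resL k (v ++ [false, false]) f (fb 2 (seq 0) (fa (fb 0 (seq 0) w))) +
    resL k (v ++ [false, false]) f (fb 0 (seq 0) (fb 2 (seq 0) (fa w))) +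
    resL k (v ++ [false, false]) f (fb 2 (seq 0) (fa (fb 2 (seq 0) (fa w)))) = _
  ring

theorem good_z (k : Type u) [Field k] (v : List Bool) :
    ∃ z ∈ Com k GG (Tr v), ¬ IsNilpotent z := by
  obtain ⟨g, hg, h0, h1, h2⟩ := exists_three
  set v' : List Bool := v ++ [false, false, false] with hv'
  let h : GG := ⟨iv v (g 0), K0_le (iv_K0 (hg 0) v)⟩
  let r : Fin 3 → GG := fun i =>
    ⟨iv v' (g i)⁻¹, K0_le (iv_K0 (K0.inv_mem (hg i)) v')⟩
  have hh : h ∈ Rist GG (Tr v) := iv_Rist (g 0) (hg 0) v v ⟨[], by simp⟩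
  have hr : ∀ i, r i ∈ Rist GG (Tr v) := fun i =>
    iv_Rist (g i)⁻¹ (K0.inv_mem (hg i)) v v' ⟨_, hv'⟩
  let c : Fin 3 → GG := fun i => h * r i * h⁻¹ * (r i)⁻¹
  refine ⟨∑ i, (MonoidAlgebra.single (c i) 1 - 1), sum_mem fun i _ =>
    AddSubmonoid.subset_closure ⟨h, hh, r i, hr i, rfl⟩, ?_⟩
  apply not_nilpotent_of_transcendental (k := k)
  refine transcendental_of_res (Rho k GG)
    (resL k (v' ++ [false, false])) (resL_surjective k _) (opL k 0 2 (seq 0) 4)
    (opL_transcendental k (by decide) _ _) _ ?_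
  -- `h⁻¹` moves the subtree at `v'` off itself
  have hmove : ∀ x : List Bool, ¬ ∃ y, (iv v (g 0))⁻¹ (v' ++ x) = v' ++ y := by
    rintro x ⟨y, hy⟩
    have h3 : v' ++ x = iv v (g 0) (v' ++ y) := by
      rw [← hy, perm_inv_self]
    rw [hv', List.append_assoc, List.append_assoc, iv_apply] at h3
    have h4 := List.append_cancel_left h3
    have h5 : (g 0) ([false, false, false] ++ y) =
        false :: false :: (gb * pa * gd) (false :: y) := h0 (false :: y)
    rw [h5] at h4
    have h6 : (gb * pa * gd) (false :: y) = fb 0 (seq 0) (fa (fb 2 (seq 0) (false :: y))) := rfl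
    rw [h6] at h4
    have h7 : fb 2 (seq 0) (false :: y) = false :: y := by
      have : seq 0 0 = 2 := by decide
      simp [fb, this]
    rw [h7] at h4
    simp [fa, fb] at h4
  intro f
  funext w
  rw [opL_apply]
  have key : ∀ i : Fin 3, ∀ s : Equiv.Perm (List Bool),
      (∀ w, (g i) (false :: false :: w) = false :: false :: s w) →
      Rho k GG (MonoidAlgebra.single (c i) 1) f
        ((v' ++ [false, false]) ++ w) = resL k (v' ++ [false, false]) f (s⁻¹ w) := by
    intro i s hs
    rw [Rho_single]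
    show f (((c i : GG) : Equiv.Perm (List Bool))⁻¹ ((v' ++ [false, false]) ++ w)) =
      f ((v' ++ [false, false]) ++ s⁻¹ w)
    have e1 : ((c i : GG) : Equiv.Perm (List Bool))⁻¹ =
        iv v' (g i)⁻¹ * (iv v (g 0) * ((iv v' (g i)⁻¹)⁻¹ * (iv v (g 0))⁻¹)) := by
      show (iv v (g 0) * iv v' (g i)⁻¹ * (iv v (g 0))⁻¹ * (iv v' (g i)⁻¹)⁻¹)⁻¹ = _
      group
    rw [e1]
    simp only [Equiv.Perm.mul_apply]
    have e2 : (iv v' (g i)⁻¹)⁻¹ ((iv v (g 0))⁻¹ ((v' ++ [false, false]) ++ w)) =
        (iv v (g 0))⁻¹ ((v' ++ [false, false]) ++ w) := by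
      rw [← map_inv]
      apply iv_fix
      rw [List.append_assoc]
      exact hmove _
    rw [e2, perm_inv_self]
    have e4 : iv v' (g i)⁻¹ ((v' ++ [false, false]) ++ w) = (v' ++ [false, false]) ++ s⁻¹ w := by
      rw [List.append_assoc v' [false, false] w, iv_apply,
        List.append_assoc v' [false, false] (s⁻¹ w)]
      show v' ++ (g i)⁻¹ (false :: false :: w) = v' ++ (false :: false :: s⁻¹ w)
      rw [inv_sec hs w]
    rw [e4]
  show Rho k GG (∑ i, (MonoidAlgebra.single (c i) 1 - 1)) f ((v' ++ [false, false]) ++ w) = _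
  rw [map_sum, LinearMap.sum_apply, Finset.sum_apply, Fin.sum_univ_three]
  simp only [map_sub, map_one, LinearMap.sub_apply, Pi.sub_apply, Module.End.one_apply]
  rw [key 0 _ h0, key 1 _ h1, key 2 _ h2]
  simp only [xop, fb_fb]
  simp only [mul_inv_rev, gb_inv, gd_inv, pa_inv]
  have e3 : resL k (v' ++ [false, false]) f w = f ((v' ++ [false, false]) ++ w) := rfl
  show (resL k (v' ++ [false, false]) f (fb 2 (seq 0) (fa (fb 0 (seq 0) w))) -
      f ((v' ++ [false, false]) ++ w)) +
    (resL k (v' ++ [false, false]) f (fb 0 (seq 0) (fb 2 (seq 0) (fa w))) -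
      f ((v' ++ [false, false]) ++ w)) +
    (resL k (v' ++ [false, false]) f (fb 2 (seq 0) (fa (fb 2 (seq 0) (fa w)))) -
      f ((v' ++ [false, false]) ++ w)) = _
  rw [e3]
  ring

/-- **Theorem.** The group algebra of the first Grigorchuk group over any field is semiprimitive. -/
theorem jacobson_GG (k : Type u) [Field k] :
    Ideal.jacobson (⊥ : Ideal (MonoidAlgebra k GG)) = ⊥ := by
  classical
  apply jacobson_eq_bot (X := List Bool)
  intro S h1S
  have hmv : ∀ g : GG, ∃ w : List Bool, g ≠ 1 → g • w ≠ w := by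
    intro g
    by_cases hg : g = 1
    · exact ⟨[], fun h => absurd hg h⟩
    · by_contra hcon
      push Not at hcon
      apply hg
      apply Subtype.ext
      ext1 w
      exact (hcon w).2
  choose w hw using hmv
  set Lm := S.sup (fun g => (w g).length) with hLm
  set N := S.card * S.card with hN
  set M := N * S.card with hM
  set n := Lm + M with hn
  obtain ⟨f, hf1, hf2⟩ := greedy (ι := GG) N M
    (fun a : List Bool => (S ×ˢ S).image fun p : GG × GG => p.1 • p.2⁻¹ • a)
    (fun a => by
      refine le_trans Finset.card_image_le ?_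
      rw [Finset.card_product])
    (fun a b hab => by
      simp only [Finset.mem_image, Finset.mem_product] at hab ⊢
      obtain ⟨⟨s, t⟩, ⟨hs, ht⟩, rfl⟩ := hab
      exact ⟨⟨t, s⟩, ⟨ht, hs⟩, by simp⟩)
    (fun g => {v : List Bool | g ∈ S → v.length = n ∧ ∃ u, v = w g ++ u})
    (by
      intro g B hB
      by_cases hg : g ∈ S
      · by_contra hcon
        push Not at hcon
        have hle : (w g).length ≤ Lm := Finset.le_sup (f := fun g => (w g).length) hg
        set m := n - (w g).length with hm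
        have hmM : M ≤ m := by omega
        let F : (Fin m → Bool) → List Bool := fun φ => w g ++ List.ofFn φ
        have hF : Function.Injective F := by
          intro φ ψ h
          exact List.ofFn_injective (List.append_cancel_left h)
        have hsub : (Finset.univ.image F) ⊆ B := by
          intro a ha
          obtain ⟨φ, -, rfl⟩ := Finset.mem_image.1 ha
          apply hcon
          intro _
          refine ⟨?_, ⟨_, rfl⟩⟩
          simp only [F, List.length_append, List.length_ofFn]
          omega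
        have h1 := Finset.card_le_card hsub
        rw [Finset.card_image_of_injective _ hF, Finset.card_univ, Fintype.card_fun,
          Fintype.card_bool, Fintype.card_fin] at h1
        have h2 : M < 2 ^ m := lt_of_lt_of_le Nat.lt_two_pow_self
          (Nat.pow_le_pow_right (by norm_num) hmM)
        omega
      · obtain ⟨a, ha⟩ := Infinite.exists_notMem_finset B
        exact ⟨a, fun h => absurd h hg, ha⟩)
    S le_rfl
  have hlen : ∀ g ∈ S, (f g).length = n := fun g hg => (hf1 g hg).1
  refine ⟨fun g => Tr (f g), Tr (f 1), ?_, ?_, ?_, ?_, ?_⟩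
  · intro g hg hg1
    rw [smul_Tr]
    apply Tr_disjoint
    · rw [length_smul]
    · intro h
      obtain ⟨u, hu⟩ := (hf1 g hg).2
      have h1 : g • f g = f g := by
        conv_lhs => rw [h]
        rw [smul_inv_smul]
      rw [hu] at h1
      obtain ⟨u', hu'⟩ := GG_append g.2 (w g) u
      have h2 : g • (w g ++ u) = g • w g ++ u' := hu'
      rw [h2] at h1
      exact hw g hg1 (List.append_inj_left h1 (length_smul g _))
  · intro g hg hg1 h hh hh1 hgh s hs t ht
    rw [smul_Tr, smul_Tr]
    apply Tr_disjoint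
    · rw [length_smul, length_smul, hlen g hg, hlen h hh]
    · intro he
      apply hf2 g hg h hh hgh
      refine Finset.mem_image.2 ⟨(s, t), Finset.mem_product.2 ⟨hs, ht⟩, ?_⟩
      show s • t⁻¹ • f h = f g
      rw [← he, smul_inv_smul]
  · intro g hg hg1 s hs
    rw [smul_Tr]
    apply Tr_disjoint
    · rw [length_smul, hlen g hg, hlen 1 h1S]
    · intro he
      apply hf2 1 h1S g hg (fun h => hg1 h.symm)
      refine Finset.mem_image.2 ⟨(1, s), Finset.mem_product.2 ⟨h1S, hs⟩, ?_⟩
      show (1 : GG) • s⁻¹ • f g = f 1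
      rw [one_smul, he]
  · intro g _ _
    exact good_z k (f g)
  · exact good_y k (f 1)

end Pool.Agent.Y803.GR
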