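import Pool.Agent.Y803.GR.First
import Pool.Agent.Y803.GR.Trn

/-!
The branching subgroup of the first Grigorchuk group.
-/

set_option autoImplicit false

namespace Pool.Agent.Y803.GR

open Pool.Agent.Results.MP_2e8808_al

/-- `b` -/
def gb : Equiv.Perm (List Bool) := pb 0 (seq 0)
/-- `c` -/
def gc : Equiv.Perm (List Bool) := pb 1 (seq 0)
/-- `d` -/
def gd : Equiv.Perm (List Bool) := pb 2 (seq 0)
/-- The first Grigorchuk group. -/
def GG : Subgroup (Equiv.Perm (List Bool)) := G (seq 0)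

theorem pa_GG : pa ∈ GG := pa_mem _
theorem gb_GG : gb ∈ GG := pb_mem _ _
theorem gc_GG : gc ∈ GG := pb_mem _ _
theorem gd_GG : gd ∈ GG := pb_mem _ _

theorem gb_gb : gb * gb = 1 := pb_mul_pb _ _
theorem gc_gc : gc * gc = 1 := pb_mul_pb _ _
theorem gd_gd : gd * gd = 1 := pb_mul_pb _ _
theorem gb_inv : gb⁻¹ = gb := rfl
theorem gc_inv : gc⁻¹ = gc := rfl
theorem gd_inv : gd⁻¹ = gd := rfl
theorem gb_gc : gb * gc = gd := pb_mul (by decide) (by decide) (by decide) _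
theorem gc_gb : gc * gb = gd := pb_mul (by decide) (by decide) (by decide) _
theorem gc_gd : gc * gd = gb := pb_mul (by decide) (by decide) (by decide) _
theorem gd_gc : gd * gc = gb := pb_mul (by decide) (by decide) (by decide) _

theorem sh_seq : sh (seq 0) = seq 1 := seq_succ 0

theorem gb_eq : gb = Lft pa * Rgt gc := by
  have h : seq 0 0 ≠ 0 := by decide
  have h1 : pb 0 (sh (seq 0)) = gc := by
    apply Equiv.ext
    intro w
    show fb 0 (sh (seq 0)) w = fb 1 (seq 0) w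
    rw [sh_seq, ((fb_seq w 1).2.1 rfl).1, ((fb_seq w 0).1 rfl).2.1]
  rw [← h1]
  exact pb_eq_of_ne h

theorem gc_eq : gc = Lft pa * Rgt gd := by
  have h : seq 0 0 ≠ 1 := by decide
  have h1 : pb 1 (sh (seq 0)) = gd := by
    apply Equiv.ext
    intro w
    show fb 1 (sh (seq 0)) w = fb 2 (seq 0) w
    rw [sh_seq, ((fb_seq w 1).2.1 rfl).2.1, ((fb_seq w 0).1 rfl).2.2]
  rw [← h1]
  exact pb_eq_of_ne h

theorem gd_eq : gd = Rgt gb := by
  have h : seq 0 0 = 2 := by decide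
  have h1 : pb 2 (sh (seq 0)) = gb := by
    apply Equiv.ext
    intro w
    show fb 2 (sh (seq 0)) w = fb 0 (seq 0) w
    rw [sh_seq, ((fb_seq w 1).2.1 rfl).2.2, ((fb_seq w 0).1 rfl).1]
  rw [← h1]
  exact pb_eq_of_eq h

theorem conj_LR (s t : Equiv.Perm (List Bool)) : pa * (Lft s * Rgt t) * pa = Lft t * Rgt s := by
  have h2 : pa * (Lft s * Rgt t) * pa = (pa * Lft s * pa) * (pa * Rgt t * pa) := by
    calc _ = pa * Lft s * 1 * Rgt t * pa := by group
      _ = pa * Lft s * (pa * pa) * Rgt t * pa := by rw [pa_mul_pa]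
      _ = _ := by group
  rw [h2, conj_Lft, conj_Rgt, ← Lft_Rgt_comm]

theorem aba : pa * gb * pa = Lft gc * Rgt pa := by
  conv_lhs => rw [gb_eq]
  exact conj_LR _ _

theorem aca : pa * gc * pa = Lft gd * Rgt pa := by
  conv_lhs => rw [gc_eq]
  exact conj_LR _ _

theorem ada : pa * gd * pa = Lft gb := by
  rw [gd_eq, conj_Rgt]

theorem GG_gen {x : Equiv.Perm (List Bool)}
    (hx : x ∈ ({pa} ∪ Set.range fun i => pb i (seq 0) : Set (Equiv.Perm (List Bool)))) :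
    x = pa ∨ x = gb ∨ x = gc ∨ x = gd := by
  rcases hx with hx | ⟨i, rfl⟩
  · left; exact hx
  · fin_cases i
    · right; left; rfl
    · right; right; left; rfl
    · right; right; right; rfl

theorem exists_rightG {s : Equiv.Perm (List Bool)} (hs : s ∈ GG) :
    ∃ t, Lft s * Rgt t ∈ GG := by
  induction hs using Subgroup.closure_induction with
  | mem x hx =>
    rcases GG_gen hx with rfl | rfl | rfl | rfl
    · exact ⟨gc, gb_eq ▸ gb_GG⟩
    · refine ⟨1, ?_⟩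
      rw [map_one, mul_one, ← ada]
      exact GG.mul_mem (GG.mul_mem pa_GG gd_GG) pa_GG
    · refine ⟨pa, ?_⟩
      rw [← aba]
      exact GG.mul_mem (GG.mul_mem pa_GG gb_GG) pa_GG
    · refine ⟨pa, ?_⟩
      rw [← aca]
      exact GG.mul_mem (GG.mul_mem pa_GG gc_GG) pa_GG
  | one => exact ⟨1, by rw [map_one, map_one, one_mul]; exact GG.one_mem⟩
  | mul x y _ _ hx hy =>
    obtain ⟨t, ht⟩ := hx
    obtain ⟨t', ht'⟩ := hy
    exact ⟨t * t', LR_mul x t y t' ▸ GG.mul_mem ht ht'⟩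
  | inv x _ hx =>
    obtain ⟨t, ht⟩ := hx
    exact ⟨t⁻¹, LR_inv x t ▸ GG.inv_mem ht⟩

/-- `(ab)^2` -/
def kap : Equiv.Perm (List Bool) := pa * gb * pa * gb

/-- The normal closure of `(ab)^2`. -/
def K0 : Subgroup (Equiv.Perm (List Bool)) :=
  Subgroup.closure {x | ∃ h ∈ GG, x = h * kap * h⁻¹}

theorem kap_GG : kap ∈ GG :=
  GG.mul_mem (GG.mul_mem (GG.mul_mem pa_GG gb_GG) pa_GG) gb_GG

theorem K0_le : K0 ≤ GG := by
  rw [K0, Subgroup.closure_le]
  rintro _ ⟨h, hh, rfl⟩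
  exact GG.mul_mem (GG.mul_mem hh kap_GG) (GG.inv_mem hh)

theorem kap_K0 : kap ∈ K0 :=
  Subgroup.subset_closure ⟨1, GG.one_mem, by group⟩

theorem K0_conj {x h : Equiv.Perm (List Bool)} (hx : x ∈ K0) (hh : h ∈ GG) :
    h * x * h⁻¹ ∈ K0 := by
  induction hx using Subgroup.closure_induction with
  | mem x hx =>
    obtain ⟨g, hg, rfl⟩ := hx
    refine Subgroup.subset_closure ⟨h * g, GG.mul_mem hh hg, ?_⟩
    group
  | one => rw [mul_one, mul_inv_cancel]; exact K0.one_mem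
  | mul x y _ _ hx hy =>
    have : h * (x * y) * h⁻¹ = (h * x * h⁻¹) * (h * y * h⁻¹) := by group
    rw [this]
    exact K0.mul_mem hx hy
  | inv x _ hx =>
    have : h * x⁻¹ * h⁻¹ = (h * x * h⁻¹)⁻¹ := by group
    rw [this]
    exact K0.inv_mem hx

theorem kap_eq : kap = Lft (gc * pa) * Rgt (pa * gc) := by
  have h : kap = (pa * gb * pa) * gb := rfl
  rw [h, aba]
  conv_lhs => rw [gb_eq]
  rw [LR_mul]

theorem Lft_kap : Lft (gc * kap * gc⁻¹) ∈ K0 := by
  have h1 : Lft gb ∈ GG := by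
    rw [← ada]
    exact GG.mul_mem (GG.mul_mem pa_GG gd_GG) pa_GG
  have h2 : kap * (Lft gb * kap⁻¹ * (Lft gb)⁻¹) ∈ K0 :=
    K0.mul_mem kap_K0 (K0_conj (K0.inv_mem kap_K0) h1)
  have h3 : (Lft gb : Equiv.Perm (List Bool)) = Lft gb * Rgt 1 := by rw [map_one, mul_one]
  have h4 : kap * (Lft gb * kap⁻¹ * (Lft gb)⁻¹) = Lft (gc * pa * (gb * (gc * pa)⁻¹ * gb⁻¹)) := by
    rw [h3, kap_eq, LR_inv, LR_inv, LR_mul, LR_mul, LR_mul, one_mul, inv_one, mul_one,
      mul_inv_cancel, map_one, mul_one]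
  have h5 : gc * pa * (gb * (gc * pa)⁻¹ * gb⁻¹) = gc * kap * gc⁻¹ := by
    rw [mul_inv_rev, gb_inv, gc_inv, pa_inv]
    have e : gb * (pa * gc) * gb = gb * pa * (gc * gb) := by group
    rw [e, gc_gb, ← gb_gc]
    simp only [kap]
    group
  rw [h4, h5] at h2
  exact h2

theorem Lft_K0 {s : Equiv.Perm (List Bool)} (hs : s ∈ K0) : Lft s ∈ K0 := by
  have hN : ∀ {s h : Equiv.Perm (List Bool)}, Lft s ∈ K0 → h ∈ GG → Lft (h * s * h⁻¹) ∈ K0 := by
    intro s h hs hh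
    obtain ⟨t, ht⟩ := exists_rightG hh
    have h1 := K0_conj hs ht
    have h2 : (Lft h * Rgt t) * Lft s * (Lft h * Rgt t)⁻¹ = Lft (h * s * h⁻¹) := by
      have h3 : (Lft s : Equiv.Perm (List Bool)) = Lft s * Rgt 1 := by rw [map_one, mul_one]
      rw [h3, LR_inv, LR_mul, LR_mul, mul_one, mul_inv_cancel, map_one, mul_one]
    rwa [h2] at h1
  have hk : Lft kap ∈ K0 := by
    have h1 := hN Lft_kap (GG.inv_mem gc_GG)
    have h2 : gc⁻¹ * (gc * kap * gc⁻¹) * gc⁻¹⁻¹ = kap := by group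
    rwa [h2] at h1
  induction hs using Subgroup.closure_induction with
  | mem x hx =>
    obtain ⟨g, hg, rfl⟩ := hx
    exact hN hk hg
  | one => rw [map_one]; exact K0.one_mem
  | mul x y _ _ hx hy => rw [map_mul]; exact K0.mul_mem hx hy
  | inv x _ hx => rw [map_inv]; exact K0.inv_mem hx

theorem Rgt_K0 {s : Equiv.Perm (List Bool)} (hs : s ∈ K0) : Rgt s ∈ K0 := by
  have := K0_conj (Lft_K0 hs) pa_GG
  rwa [pa_inv, conj_Lft] at this

/-- The embedding on the subtree at a vertex. -/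
def iv : List Bool → (Equiv.Perm (List Bool) →* Equiv.Perm (List Bool))
  | [] => MonoidHom.id _
  | false :: v => Lft.comp (iv v)
  | true :: v => Rgt.comp (iv v)

theorem iv_K0 {s : Equiv.Perm (List Bool)} (hs : s ∈ K0) (v : List Bool) : iv v s ∈ K0 := by
  induction v with
  | nil => exact hs
  | cons x v ih =>
    cases x with
    | false => exact Lft_K0 ih
    | true => exact Rgt_K0 ih

theorem iv_apply (s : Equiv.Perm (List Bool)) (v w : List Bool) :
    iv v s (v ++ w) = v ++ s w := by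
  induction v with
  | nil => rfl
  | cons x v ih =>
    cases x with
    | false =>
      show Lft (iv v s) (false :: (v ++ w)) = false :: (v ++ s w)
      rw [Lft_false, ih]
    | true =>
      show Rgt (iv v s) (true :: (v ++ w)) = true :: (v ++ s w)
      rw [Rgt_true, ih]

theorem iv_fix (s : Equiv.Perm (List Bool)) (v : List Bool) :
    ∀ u : List Bool, (¬ ∃ w, u = v ++ w) → iv v s u = u := by
  induction v with
  | nil => intro u hu; exact absurd ⟨u, rfl⟩ hu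
  | cons x v ih =>
    intro u hu
    rcases u with _ | ⟨y, u⟩
    · cases x <;> rfl
    · cases x <;> cases y
      · show Lft (iv v s) (false :: u) = false :: u
        rw [Lft_false, ih u]
        rintro ⟨w, rfl⟩
        exact hu ⟨w, rfl⟩
      · rfl
      · rfl
      · show Rgt (iv v s) (true :: u) = true :: u
        rw [Rgt_true, ih u]
        rintro ⟨w, rfl⟩
        exact hu ⟨w, rfl⟩

/-- Sections at `0` of elements of `K0`. -/
def Q1 (s : Equiv.Perm (List Bool)) : Prop := ∃ t, Lft s * Rgt t ∈ K0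

theorem Q1_mul {s s' : Equiv.Perm (List Bool)} (h : Q1 s) (h' : Q1 s') : Q1 (s * s') := by
  obtain ⟨t, ht⟩ := h
  obtain ⟨t', ht'⟩ := h'
  exact ⟨t * t', LR_mul s t s' t' ▸ K0.mul_mem ht ht'⟩

theorem Q1_inv {s : Equiv.Perm (List Bool)} (h : Q1 s) : Q1 s⁻¹ := by
  obtain ⟨t, ht⟩ := h
  exact ⟨t⁻¹, LR_inv s t ▸ K0.inv_mem ht⟩

theorem Q1_conj {s h : Equiv.Perm (List Bool)} (hs : Q1 s) (hh : h ∈ GG) :
    Q1 (h * s * h⁻¹) := by
  obtain ⟨t, ht⟩ := hs
  obtain ⟨r, hr⟩ := exists_rightG hh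
  refine ⟨r * t * r⁻¹, ?_⟩
  have := K0_conj ht hr
  rwa [LR_inv, LR_mul, LR_mul] at this

theorem Q1_ca : Q1 (gc * pa) := ⟨_, kap_eq ▸ kap_K0⟩

theorem Q1_ac : Q1 (pa * gc) := by
  have := Q1_inv Q1_ca
  rwa [mul_inv_rev, pa_inv, gc_inv] at this

/-- Sections at `00` of elements of `K0`. -/
def Q2 (s : Equiv.Perm (List Bool)) : Prop := ∃ t, Q1 (Lft s * Rgt t)

theorem Q2_mul {s s' : Equiv.Perm (List Bool)} (h : Q2 s) (h' : Q2 s') : Q2 (s * s') := by
  obtain ⟨t, ht⟩ := h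
  obtain ⟨t', ht'⟩ := h'
  exact ⟨t * t', LR_mul s t s' t' ▸ Q1_mul ht ht'⟩

theorem Q2_inv {s : Equiv.Perm (List Bool)} (h : Q2 s) : Q2 s⁻¹ := by
  obtain ⟨t, ht⟩ := h
  exact ⟨t⁻¹, LR_inv s t ▸ Q1_inv ht⟩

theorem Q2_da : Q2 (gd * pa) := by
  refine ⟨pa * gd, ?_⟩
  have h1 := Q1_mul Q1_ac Q1_ac
  have h2 : pa * gc * (pa * gc) = (pa * gc * pa) * gc := by group
  rw [h2, aca] at h1
  rw [gc_eq, LR_mul] at h1
  exact h1

theorem Q2_b : Q2 gb := by
  refine ⟨gb, ?_⟩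
  have h1 := Q1_mul Q1_ac (Q1_conj (Q1_inv Q1_ac) gd_GG)
  have h2 : pa * gc * (gd * (pa * gc)⁻¹ * gd⁻¹) = (pa * gd * pa) * gd := by
    rw [mul_inv_rev, pa_inv, gc_inv, gd_inv]
    calc pa * gc * (gd * (gc * pa) * gd) = pa * (gc * (gd * gc)) * pa * gd := by group
      _ = pa * (gc * gb) * pa * gd := by rw [gd_gc]
      _ = _ := by rw [gc_gb]
  rw [h2, ada] at h1
  conv at h1 => rw [gd_eq]
  exact h1

theorem Q2_ad : Q2 (pa * gd) := by
  have := Q2_inv Q2_da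
  rwa [mul_inv_rev, pa_inv, gd_inv] at this

theorem Q2_words : Q2 (gb * pa * gd) ∧ Q2 (pa * gd * gb) ∧ Q2 (pa * gd * pa * gd) := by
  refine ⟨?_, Q2_mul Q2_ad Q2_b, ?_⟩
  · have := Q2_mul Q2_b Q2_ad
    rwa [← mul_assoc] at this
  · have := Q2_mul Q2_ad Q2_ad
    rwa [← mul_assoc] at this

/-- There are three elements of `K0` with the sections `bad`, `adb`, `adad` at `00`. -/
theorem exists_three : ∃ g : Fin 3 → Equiv.Perm (List Bool), (∀ i, g i ∈ K0) ∧
    (∀ w, (g 0) (false :: false :: w) = false :: false :: (gb * pa * gd) w) ∧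
    (∀ w, (g 1) (false :: false :: w) = false :: false :: (pa * gd * gb) w) ∧
    (∀ w, (g 2) (false :: false :: w) = false :: false :: (pa * gd * pa * gd) w) := by
  obtain ⟨⟨t1, s1, h1⟩, ⟨t2, s2, h2⟩, ⟨t3, s3, h3⟩⟩ := Q2_words
  refine ⟨![Lft (Lft (gb * pa * gd) * Rgt t1) * Rgt s1,
    Lft (Lft (pa * gd * gb) * Rgt t2) * Rgt s2,
    Lft (Lft (pa * gd * pa * gd) * Rgt t3) * Rgt s3], ?_, ?_, ?_, ?_⟩
  · intro i
    fin_cases i
    · exact h1
    · exact h2
    · exact h3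
  · intro w; rfl
  · intro w; rfl
  · intro w; rfl

end Pool.Agent.Y803.GR
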