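import Pool.Agent.Y803.GR.Fin

/-!
Infinite-dimensional irreducible representations which detect the group algebra of a section.
-/

set_option autoImplicit false

open Polynomial

namespace Pool.Agent.Y803.GR

open Pool.Agent.Results.MP_2e8808_al

universe u v w

theorem asAlgebraHom_toRep {k : Type u} [Field k] {G : Type v} [Group G] (V : Type w)
    [AddCommGroup V] [Module k V] [Module (MonoidAlgebra k G) V]
    [IsScalarTower k (MonoidAlgebra k G) V] (r : MonoidAlgebra k G) (v : V) :
    (toRep k G V).asAlgebraHom r v = r • v := by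
  induction r using MonoidAlgebra.induction_linear with
  | zero => rw [map_zero, zero_smul]; rfl
  | add r s hr hs => rw [map_add, LinearMap.add_apply, hr, hs, add_smul]
  | single g c =>
    rw [Representation.asAlgebraHom_single, LinearMap.smul_apply, toRep_apply]
    have h1 : (MonoidAlgebra.single g c : MonoidAlgebra k G) =
        c • (MonoidAlgebra.single g 1 : MonoidAlgebra k G) := by
      rw [MonoidAlgebra.smul_single, smul_eq_mul, mul_one]
    rw [h1, smul_assoc]

/-- Let the `p`-group `Q` be a quotient of the subgroup `S` of `M`, and let `x ∈ k[S]`, `g ∈ Q` be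
such that the image of `x` in `k[Q]` times `g - 1` is not in the radical. Then `x` acts
non-trivially in an infinite-dimensional irreducible representation of `M`. -/
theorem detects_of_section {p : ℕ} [Fact p.Prime] {k : Type u} [Field k] [CharP k p]
    {Q : Type w} [Group Q] (hQ : IsPGroup p Q) {M : Type v} [Group M] (S : Subgroup M)
    (f : S →* Q) (hf : Function.Surjective f) (x : MonoidAlgebra k S) (g : Q)
    (hxJ : mp k f x * (MonoidAlgebra.single g 1 - 1) ∉
      Ideal.jacobson (⊥ : Ideal (MonoidAlgebra k Q))) :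
    ∃ (V : Type (max u v)) (_ : AddCommGroup V) (_ : Module k V) (ρ : Representation k M V),
      Nontrivial V ∧
      (∀ W : Submodule k V, (∀ g : M, ∀ w ∈ W, ρ g w ∈ W) → W = ⊥ ∨ W = ⊤) ∧
      ¬ FiniteDimensional k V ∧ ρ.asAlgebraHom (mp k S.subtype x) ≠ 0 := by
  set y := mp k f x * (MonoidAlgebra.single g 1 - 1) with hy
  have hyaug : aug k _ y = 0 := by
    rw [hy, map_mul, map_sub, aug_single, map_one, sub_self, mul_zero]
  rw [Ideal.jacobson, Ideal.mem_sInf] at hxJ
  push Not at hxJ
  obtain ⟨m, ⟨-, hm⟩, hxm⟩ := hxJ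
  let m₁ : Ideal (MonoidAlgebra k S) := Ideal.comap (mp k f) m
  let m₂ : Ideal (MonoidAlgebra k M) := Ideal.span (mp k S.subtype '' (m₁ : Set _))
  have hm₂ : m₂ ≠ ⊤ := by
    intro h
    have h1 : (1 : MonoidAlgebra k M) ∈ Ideal.span (mp k S.subtype '' (m₁ : Set _)) := by
      have : (1 : MonoidAlgebra k M) ∈ m₂ := by rw [h]; trivial
      exact this
    have key : ∀ z ∈ Ideal.span (mp k S.subtype '' (m₁ : Set _)), ∀ r : MonoidAlgebra k M,
        pr S.subtype S.subtype_injective (r * z) ∈ m₁ := by
      intro z hz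
      induction hz using Submodule.span_induction with
      | mem z hz =>
        obtain ⟨y, hy, rfl⟩ := hz
        intro r
        rw [pr_mul]
        exact m₁.mul_mem_left _ hy
      | zero => intro r; rw [mul_zero, pr_zero]; exact m₁.zero_mem
      | add a b _ _ ha hb => intro r; rw [mul_add, pr_add]; exact m₁.add_mem (ha r) (hb r)
      | smul a z _ hz =>
        intro r
        rw [smul_eq_mul, ← mul_assoc]
        exact hz _
    have h2 := key 1 h1 1
    rw [mul_one, pr_one] at h2
    have h3 : mp k f 1 ∈ m := h2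
    rw [map_one] at h3
    exact hm.ne_top ((Ideal.eq_top_iff_one m).2 h3)
  obtain ⟨m₃, hm₃, hle⟩ := Ideal.exists_le_maximal m₂ hm₂
  have hsimp : IsSimpleModule (MonoidAlgebra k M) (MonoidAlgebra k M ⧸ m₃) := by
    rw [isSimpleModule_iff_isCoatom]
    exact hm₃.out
  have hnt : Nontrivial (MonoidAlgebra k M ⧸ m₃) :=
    IsSimpleModule.nontrivial (MonoidAlgebra k M) _
  let φ : MonoidAlgebra k S →ₗ[k] (MonoidAlgebra k M ⧸ m₃) :=
    ((m₃.mkQ).restrictScalars k).comp (mp k S.subtype).toLinearMap
  let χ : MonoidAlgebra k S →ₗ[k] (MonoidAlgebra k Q ⧸ m) :=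
    ((m.mkQ).restrictScalars k).comp (mp k f).toLinearMap
  have hφ : ∀ y, φ y = 0 ↔ mp k S.subtype y ∈ m₃ := fun y => by
    show (Submodule.Quotient.mk (mp k S.subtype y) : MonoidAlgebra k M ⧸ m₃) = 0 ↔ _
    exact Submodule.Quotient.mk_eq_zero _
  have hχ : ∀ y, χ y = 0 ↔ mp k f y ∈ m := fun y => by
    show (Submodule.Quotient.mk (mp k f y) : MonoidAlgebra k Q ⧸ m) = 0 ↔ _
    exact Submodule.Quotient.mk_eq_zero _
  have hker : LinearMap.ker φ ≤ LinearMap.ker χ := by
    intro y hy
    rw [LinearMap.mem_ker, hφ] at hy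
    rw [LinearMap.mem_ker, hχ]
    by_contra hy'
    obtain ⟨a, i, hi, hai⟩ := hm.exists_inv hy'
    obtain ⟨a, rfl⟩ := mp_surjective f hf a
    have h1 : (1 - a * y : MonoidAlgebra k S) ∈ m₁ := by
      show mp k f (1 - a * y) ∈ m
      rw [map_sub, map_mul, map_one, ← hai, add_sub_cancel_left]
      exact hi
    have h2 : mp k S.subtype (1 - a * y) ∈ m₃ :=
      hle (Ideal.subset_span ⟨_, h1, rfl⟩)
    have h3 : (1 : MonoidAlgebra k M) ∈ m₃ := by
      have h4 := m₃.add_mem h2 (m₃.mul_mem_left (mp k S.subtype a) hy)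
      rwa [map_sub, map_mul, map_one, sub_add_cancel] at h4
    exact hm₃.ne_top ((Ideal.eq_top_iff_one m₃).2 h3)
  refine ⟨MonoidAlgebra k M ⧸ m₃, inferInstance, inferInstance,
    toRep k M (MonoidAlgebra k M ⧸ m₃), hnt, ?_, ?_, ?_⟩
  · intro W hW
    have hWR : ∀ (r : MonoidAlgebra k M), ∀ w ∈ W, r • w ∈ W := by
      intro r w hw
      induction r using MonoidAlgebra.induction_linear with
      | zero => rw [zero_smul]; exact W.zero_mem
      | add r s hr hs => rw [add_smul]; exact W.add_mem hr hs
      | single g c =>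
        have h1 : (MonoidAlgebra.single g c : MonoidAlgebra k M) =
            c • (MonoidAlgebra.single g 1 : MonoidAlgebra k M) := by
          rw [MonoidAlgebra.smul_single, smul_eq_mul, mul_one]
        rw [h1, smul_assoc]
        exact W.smul_mem _ (hW g w hw)
    let W' : Submodule (MonoidAlgebra k M) (MonoidAlgebra k M ⧸ m₃) :=
      { carrier := W
        add_mem' := fun ha hb => W.add_mem ha hb
        zero_mem' := W.zero_mem
        smul_mem' := fun r w hw => hWR r w hw }
    rcases eq_bot_or_eq_top W' with h | h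
    · left
      ext w
      have h1 : w ∈ W ↔ w ∈ W' := Iff.rfl
      rw [h1, h]
      simp
    · right
      ext w
      have h1 : w ∈ W ↔ w ∈ W' := Iff.rfl
      rw [h1, h]
      simp
  · intro hfin
    apply not_finite_of_ne hQ m hm y hyaug hxm
    have hfin2 : FiniteDimensional k (MonoidAlgebra k S ⧸ LinearMap.ker φ) :=
      LinearEquiv.finiteDimensional (φ.quotKerEquivRange).symm
    have hχs : Function.Surjective χ := by
      intro y
      obtain ⟨y, rfl⟩ := Submodule.Quotient.mk_surjective _ y
      obtain ⟨z, rfl⟩ := mp_surjective f hf y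
      exact ⟨z, rfl⟩
    have hsurj : Function.Surjective ((LinearMap.ker φ).liftQ χ hker) := by
      intro y
      obtain ⟨z, rfl⟩ := hχs y
      exact ⟨Submodule.Quotient.mk z, Submodule.liftQ_apply _ _ _⟩
    exact Module.Finite.of_surjective _ hsurj
  · intro h0
    obtain ⟨g', rfl⟩ := hf g
    have h1 : φ (x * (MonoidAlgebra.single g' 1 - 1)) ≠ 0 := by
      intro h2
      have h3 := hker (LinearMap.mem_ker.2 h2)
      rw [LinearMap.mem_ker, hχ, map_mul, map_sub, map_one, mp_single] at h3
      exact hxm h3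
    apply h1
    show (Submodule.Quotient.mk (mp k S.subtype (x * (MonoidAlgebra.single g' 1 - 1))) :
      MonoidAlgebra k M ⧸ m₃) = 0
    rw [map_mul, ← smul_eq_mul, Submodule.Quotient.mk_smul, ← asAlgebraHom_toRep, h0]
    rfl

/-- **Theorem.** Let `k` be a field of characteristic `2`, let `M` be a group and `f` a surjective
homomorphism from a subgroup `S` of `M` onto the first Grigorchuk group. Then every element of
`k[S]` which is not mapped to `0` by `f` acts non-trivially in some infinite-dimensional
irreducible representation of `M` over `k`. -/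
theorem detects_Grig (k : Type u) [Field k] [CharP k 2] (hG : IsPGroup 2 GrigorchukJacobson.Grig)
    (M : Type v) [Group M] (S : Subgroup M) (f : S →* GrigorchukJacobson.Grig)
    (hf : Function.Surjective f) (x : MonoidAlgebra k S) (hx : mp k f x ≠ 0) :
    ∃ (V : Type (max u v)) (_ : AddCommGroup V) (_ : Module k V) (ρ : Representation k M V),
      Nontrivial V ∧
      (∀ W : Submodule k V, (∀ g : M, ∀ w ∈ W, ρ g w ∈ W) → W = ⊥ ∨ W = ⊤) ∧
      ¬ FiniteDimensional k V ∧ ρ.asAlgebraHom (mp k S.subtype x) ≠ 0 := by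
  have : Fact (Nat.Prime 2) := ⟨Nat.prime_two⟩
  have hinf : Infinite GrigorchukJacobson.Grig := by
    have := infinite_GG
    rw [grig_eq]
    exact this
  obtain ⟨g, hg⟩ := exists_mul_sub_ne hx
  refine detects_of_section hG S f hf x g ?_
  rw [jacobson_Grig, Ideal.mem_bot]
  exact hg

end Pool.Agent.Y803.GR
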