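import Pool.Agent.Y803.GR.Micro

/-!
The killing operators and the main theorem on groups with small rigid stabilisers.
-/

set_option autoImplicit false

open Polynomial Pointwise

namespace Pool.Agent.Y803.GR

universe u v w

section

variable {k : Type u} [Field k] {G : Type v} [Group G] {X : Type w} [MulAction G X]

/-- An additive operator of `k[G]` which preserves two-sided ideals, kills `g`, maps `1` to `z` and
changes the other terms only near `U`. -/
def Kill (g : G) (U : Set X) (z : MonoidAlgebra k G) : Prop :=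
  ∃ Ψ : MonoidAlgebra k G →+ MonoidAlgebra k G,
    (∀ I : Ideal (MonoidAlgebra k G), I.IsTwoSided → ∀ x ∈ I, Ψ x ∈ I) ∧
    (∀ F : Set X, Disjoint F U → Disjoint F (g⁻¹ • U) → ∀ w ∈ A k G F, Ψ w = w * z) ∧
    (∀ F : Set X, Disjoint F (g⁻¹ • U) → ∀ w ∈ A k G F,
      Ψ (MonoidAlgebra.single g 1 * w) = 0) ∧
    (∀ (F : Set X) (s : G), ∀ w ∈ A k G F, ∃ w' ∈ A k G (F ∪ s⁻¹ • U ∪ U ∪ g⁻¹ • U),
      Ψ (MonoidAlgebra.single s 1 * w) = MonoidAlgebra.single s 1 * w')

/-- The sums of elements `[a, y] - 1` with `a, y` in the rigid stabiliser of `U`. -/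
noncomputable def Com (k : Type u) [Field k] (G : Type v) [Group G] [MulAction G X] (U : Set X) :
    AddSubmonoid (MonoidAlgebra k G) :=
  AddSubmonoid.closure {z | ∃ a ∈ Rist G U, ∃ y ∈ Rist G U,
    z = MonoidAlgebra.single (a * y * a⁻¹ * y⁻¹) 1 - 1}

theorem Com_le {U : Set X} {z : MonoidAlgebra k G} (hz : z ∈ Com k G U) : z ∈ A k G U := by
  induction hz using AddSubmonoid.closure_induction with
  | mem z hz =>
    obtain ⟨a, ha, y, hy, rfl⟩ := hz
    refine sub_mem (single_mem_A ?_ 1) (one_mem _)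
    exact (Rist G U).mul_mem ((Rist G U).mul_mem ((Rist G U).mul_mem ha hy)
      ((Rist G U).inv_mem ha)) ((Rist G U).inv_mem hy)
  | zero => exact zero_mem _
  | add x y _ _ hx hy => exact add_mem hx hy

theorem kill_zero (g : G) (U : Set X) : Kill g U (0 : MonoidAlgebra k G) := by
  refine ⟨0, ?_, ?_, ?_, ?_⟩
  · intro I _ x _
    exact I.zero_mem
  · intro F _ _ w _
    rw [mul_zero]; rfl
  · intro F _ w _
    rfl
  · intro F s w _
    exact ⟨0, zero_mem _, by rw [mul_zero]; rfl⟩

theorem kill_add {g : G} {U : Set X} {z z' : MonoidAlgebra k G} (h : Kill g U z)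
    (h' : Kill g U z') : Kill g U (z + z') := by
  obtain ⟨Ψ, a1, a2, a3, a4⟩ := h
  obtain ⟨Ψ', b1, b2, b3, b4⟩ := h'
  refine ⟨Ψ + Ψ', ?_, ?_, ?_, ?_⟩
  · intro I hI x hx
    exact I.add_mem (a1 I hI x hx) (b1 I hI x hx)
  · intro F h1 h2 w hw
    rw [AddMonoidHom.add_apply, a2 F h1 h2 w hw, b2 F h1 h2 w hw, mul_add]
  · intro F h1 w hw
    rw [AddMonoidHom.add_apply, a3 F h1 w hw, b3 F h1 w hw, add_zero]
  · intro F s w hw
    obtain ⟨w1, h1, e1⟩ := a4 F s w hw
    obtain ⟨w2, h2, e2⟩ := b4 F s w hw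
    exact ⟨w1 + w2, add_mem h1 h2, by rw [AddMonoidHom.add_apply, e1, e2, mul_add]⟩

theorem kill_basic [FaithfulSMul G X] {g : G} {U : Set X} (hU : Disjoint U (g⁻¹ • U)) {a y : G}
    (ha : a ∈ Rist G U) (hy : y ∈ Rist G U) :
    Kill g U (MonoidAlgebra.single (a * y * a⁻¹ * y⁻¹) 1 - 1 : MonoidAlgebra k G) := by
  set Y : MonoidAlgebra k G := MonoidAlgebra.single y 1 with hY
  set Y' : MonoidAlgebra k G := MonoidAlgebra.single (g⁻¹ * y⁻¹ * g) 1 with hY'
  set B : MonoidAlgebra k G := MonoidAlgebra.single a 1 with hB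
  set B' : MonoidAlgebra k G := MonoidAlgebra.single a⁻¹ 1 with hB'
  set R : MonoidAlgebra k G := MonoidAlgebra.single (g⁻¹ * y * g * y⁻¹) 1 with hR
  have hy' : g⁻¹ * y⁻¹ * g ∈ Rist G (g⁻¹ • U) := Rist_conj ((Rist G U).inv_mem hy) g
  have hy'' : g⁻¹ * y * g ∈ Rist G (g⁻¹ • U) := Rist_conj hy g
  have hYU : Y ∈ A k G U := single_mem_A hy 1
  have hBU : B ∈ A k G U := single_mem_A ha 1
  have hY'U : Y' ∈ A k G (g⁻¹ • U) := single_mem_A hy' 1
  refine ⟨{ toFun := fun x => ((x - Y * x * Y') - B * (x - Y * x * Y') * B') * R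
            map_zero' := by simp
            map_add' := by
              intro x x'
              simp only [mul_add, add_mul, mul_sub, sub_mul]
              abel }, ?_, ?_, ?_, ?_⟩
  · intro I hI x hx
    have h1 : x - Y * x * Y' ∈ I :=
      I.sub_mem hx (Ideal.mul_mem_right _ _ (I.mul_mem_left _ hx))
    exact Ideal.mul_mem_right _ _ (I.sub_mem h1 (Ideal.mul_mem_right _ _ (I.mul_mem_left _ h1)))
  · intro F hF hF' w hw
    show ((w - Y * w * Y') - B * (w - Y * w * Y') * B') * R = _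
    have e1 : Y * w = w * Y := (A_comm hF hw hYU).symm
    have e2 : B * w = w * B := (A_comm hF hw hBU).symm
    have e3 : w - Y * w * Y' = w * (1 - Y * Y') := by
      rw [e1, mul_sub, mul_one, mul_assoc]
    have e4 : B * (w - Y * w * Y') * B' = w * (B * (1 - Y * Y') * B') := by
      rw [e3, ← mul_assoc, e2, mul_assoc, mul_assoc, mul_assoc]
    rw [e4, e3, ← mul_sub, mul_assoc]
    congr 1
    have e5 : B * (1 - Y * Y') * B' = 1 - MonoidAlgebra.single (a * y * a⁻¹ * (g⁻¹ * y⁻¹ * g)) 1 := by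
      rw [mul_sub, sub_mul, mul_one, hB, hB', hY, hY', MonoidAlgebra.single_mul_single,
        MonoidAlgebra.single_mul_single, MonoidAlgebra.single_mul_single,
        MonoidAlgebra.single_mul_single, mul_inv_cancel, mul_one, mul_one, mul_one,
        MonoidAlgebra.one_def]
      congr 2
      have hc : g⁻¹ * y⁻¹ * g * a⁻¹ = a⁻¹ * (g⁻¹ * y⁻¹ * g) :=
        (Rist_comm hU ((Rist G U).inv_mem ha) hy').symm
      calc a * (y * (g⁻¹ * y⁻¹ * g)) * a⁻¹ = a * y * (g⁻¹ * y⁻¹ * g * a⁻¹) := by group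
        _ = a * y * (a⁻¹ * (g⁻¹ * y⁻¹ * g)) := by rw [hc]
        _ = _ := by group
    have e6 : Y * Y' = MonoidAlgebra.single (y * (g⁻¹ * y⁻¹ * g)) 1 := by
      rw [hY, hY', MonoidAlgebra.single_mul_single, mul_one]
    rw [e5, e6, sub_sub_sub_cancel_left, sub_mul, hR, MonoidAlgebra.single_mul_single,
      MonoidAlgebra.single_mul_single, mul_one, MonoidAlgebra.one_def]
    congr 2
    · group
    · group
  · intro F hF w hw
    show ((MonoidAlgebra.single g 1 * w - Y * (MonoidAlgebra.single g 1 * w) * Y') -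
      B * (MonoidAlgebra.single g 1 * w - Y * (MonoidAlgebra.single g 1 * w) * Y') * B') * R = 0
    have e1 : Y * (MonoidAlgebra.single g 1 * w) * Y' = MonoidAlgebra.single g 1 * w := by
      have e2 : w * Y' = Y' * w := A_comm hF hw hY'U
      rw [← mul_assoc, mul_assoc _ w Y', e2, ← mul_assoc, hY, hY',
        MonoidAlgebra.single_mul_single, MonoidAlgebra.single_mul_single, mul_one, mul_one]
      congr 2
      group
    rw [e1, sub_self, mul_zero, zero_mul, sub_zero, zero_mul]
  · intro F s w hw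
    set Ys : MonoidAlgebra k G := MonoidAlgebra.single (s⁻¹ * y * s) 1 with hYs
    set Bs : MonoidAlgebra k G := MonoidAlgebra.single (s⁻¹ * a * s) 1 with hBs
    refine ⟨((w - Ys * w * Y') - Bs * (w - Ys * w * Y') * B') * R, ?_, ?_⟩
    · set Z := F ∪ s⁻¹ • U ∪ U ∪ g⁻¹ • U with hZ
      have m1 : w ∈ A k G Z := A_mono (fun x hx => Or.inl (Or.inl (Or.inl hx))) hw
      have m2 : Ys ∈ A k G Z := single_mem_A (Rist_mono (V := Z)
        (fun x hx => Or.inl (Or.inl (Or.inr hx))) (Rist_conj hy s)) 1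
      have m3 : Bs ∈ A k G Z := single_mem_A (Rist_mono (V := Z)
        (fun x hx => Or.inl (Or.inl (Or.inr hx))) (Rist_conj ha s)) 1
      have m4 : Y' ∈ A k G Z := A_mono (fun x hx => Or.inr hx) hY'U
      have m5 : B' ∈ A k G Z := single_mem_A (Rist_mono (V := Z)
        (fun x hx => Or.inl (Or.inr hx)) ((Rist G U).inv_mem ha)) 1
      have m6 : R ∈ A k G Z := single_mem_A ((Rist G Z).mul_mem
        (Rist_mono (V := Z) (fun x hx => Or.inr hx) hy'')
        (Rist_mono (V := Z) (fun x hx => Or.inl (Or.inr hx)) ((Rist G U).inv_mem hy))) 1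
      have m7 := sub_mem m1 (mul_mem (mul_mem m2 m1) m4)
      exact mul_mem (sub_mem m7 (mul_mem (mul_mem m3 m7) m5)) m6
    · show ((MonoidAlgebra.single s 1 * w - Y * (MonoidAlgebra.single s 1 * w) * Y') -
        B * (MonoidAlgebra.single s 1 * w - Y * (MonoidAlgebra.single s 1 * w) * Y') * B') * R = _
      have e1 : Y * MonoidAlgebra.single s 1 = MonoidAlgebra.single s 1 * Ys := by
        rw [hY, hYs, MonoidAlgebra.single_mul_single, MonoidAlgebra.single_mul_single]
        congr 1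
        group
      have e2 : B * MonoidAlgebra.single s 1 = MonoidAlgebra.single s 1 * Bs := by
        rw [hB, hBs, MonoidAlgebra.single_mul_single, MonoidAlgebra.single_mul_single]
        congr 1
        group
      have e3 : MonoidAlgebra.single s 1 * w - Y * (MonoidAlgebra.single s 1 * w) * Y' =
          MonoidAlgebra.single s 1 * (w - Ys * w * Y') := by
        rw [← mul_assoc Y, e1, mul_sub]
        simp only [mul_assoc]
      rw [e3, ← mul_assoc B, e2, mul_assoc, mul_assoc _ Bs, mul_assoc _ (Bs * _), ← mul_sub]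
      simp only [mul_assoc, sub_mul, mul_sub]

theorem kill_of_com [FaithfulSMul G X] {g : G} {U : Set X} (hU : Disjoint U (g⁻¹ • U))
    {z : MonoidAlgebra k G} (hz : z ∈ Com k G U) : Kill g U z := by
  induction hz using AddSubmonoid.closure_induction with
  | mem z hz =>
    obtain ⟨a, ha, y, hy, rfl⟩ := hz
    exact kill_basic hU ha hy
  | zero => exact kill_zero g U
  | add x y _ _ hx hy => exact kill_add hx hy

end

end Pool.Agent.Y803.GR
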