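import Pool.Agent.Y803.GR.Nil

/-!
The condition `ω(k[G]) ⊆ J(k[G])` passes to sections.
-/

set_option autoImplicit false

open Polynomial

namespace Pool.Agent.Y803.GR

universe u v w

/-- The augmentation map of a group algebra. -/
noncomputable def aug (k : Type u) [Field k] (G : Type v) [Group G] : MonoidAlgebra k G →ₐ[k] k :=
  MonoidAlgebra.lift k k G 1

theorem aug_single {k : Type u} [Field k] {G : Type v} [Group G] (g : G) (r : k) :
    aug k G (MonoidAlgebra.single g r) = r := by
  simp [aug]

theorem aug_mp {k : Type u} [Field k] {H : Type v} {G : Type w} [Group H] [Group G]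
    (φ : H →* G) (x : MonoidAlgebra k H) : aug k G (mp k φ x) = aug k H x := by
  induction x using MonoidAlgebra.induction_linear with
  | zero => rw [map_zero, map_zero, map_zero]
  | add x y hx hy => rw [map_add, map_add, map_add, hx, hy]
  | single g r => rw [mp_single, aug_single, aug_single]

/-- The Jacobson radical of `k[G]` (the intersection of the maximal left ideals) contains the
augmentation ideal. -/
def AugLeJac (k : Type u) [Field k] (G : Type v) [Group G] : Prop :=
  ∀ x : MonoidAlgebra k G, aug k G x = 0 → x ∈ Ideal.jacobson (⊥ : Ideal (MonoidAlgebra k G))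

/-- If `H × H` embeds in `G`, then the Jacobson radical of `k[G]` meets `k[H × 1]` in nilpotent
elements only. -/
theorem nil_of_square {k : Type u} [Field k] {H : Type v} {G : Type w}
    [Group H] [Group G] (ψ : H × H →* G) (hψ : Function.Injective ψ)
    (x : MonoidAlgebra k H)
    (hx : mp k (ψ.comp (MonoidHom.inl H H)) x ∈ Ideal.jacobson (⊥ : Ideal (MonoidAlgebra k G))) :
    IsNilpotent x := by
  by_contra hn
  have hinj : Function.Injective (mp k (ψ.comp (MonoidHom.inl H H))) := by
    apply mp_injective
    intro a b hab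
    have := hψ hab
    simpa using this
  have hn' : ¬ IsNilpotent (mp k (ψ.comp (MonoidHom.inl H H)) x) := by
    rintro ⟨n, h⟩
    apply hn
    refine ⟨n, hinj ?_⟩
    rw [map_pow, h, map_zero]
  have tX := transcendental_of_jacobson (k := k) hx hn'
  have tx : Transcendental k x := by
    rw [transcendental_iff] at tX ⊢
    intro p hp
    apply tX
    rw [aeval_algHom_apply, hp, map_zero]
  exact hn (nil_of_prod ψ hψ x tx x hx)

/-- The projection of `k[M]` onto `k[H]` for an injective homomorphism `φ : H → M`. -/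
noncomputable def pr {k : Type u} [Field k] {H : Type v} {M : Type w} [Group H] [Group M]
    (φ : H →* M) (hφ : Function.Injective φ) (x : MonoidAlgebra k M) : MonoidAlgebra k H :=
  MonoidAlgebra.comapDomain φ hφ x

section

variable {k : Type u} [Field k] {H : Type v} {M : Type w} [Group H] [Group M]
  (φ : H →* M) (hφ : Function.Injective φ)

theorem pr_zero : pr φ hφ (0 : MonoidAlgebra k M) = 0 := MonoidAlgebra.comapDomain_zero _ _

theorem pr_add (x y : MonoidAlgebra k M) : pr φ hφ (x + y) = pr φ hφ x + pr φ hφ y :=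
  MonoidAlgebra.comapDomain_add _ _ _ _

theorem pr_single (h : H) (r : k) : pr φ hφ (MonoidAlgebra.single (φ h) r) =
    MonoidAlgebra.single h r := MonoidAlgebra.comapDomain_single_map _ _ _ _

theorem pr_single_of_not (g : M) (hg : ∀ h, φ h ≠ g) (r : k) :
    pr φ hφ (MonoidAlgebra.single g r) = 0 :=
  MonoidAlgebra.comapDomain_single_of_not_mem_range (by rintro ⟨h, hh⟩; exact hg h hh) _

theorem pr_mul (z : MonoidAlgebra k M) (y : MonoidAlgebra k H) :
    pr φ hφ (z * mp k φ y) = pr φ hφ z * y := by
  induction z using MonoidAlgebra.induction_linear with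
  | zero => rw [zero_mul, pr_zero, zero_mul]
  | add z z' hz hz' => rw [add_mul, pr_add, hz, hz', pr_add, add_mul]
  | single g r =>
    induction y using MonoidAlgebra.induction_linear with
    | zero => rw [map_zero, mul_zero, pr_zero, mul_zero]
    | add y y' hy hy' => rw [map_add, mul_add, pr_add, hy, hy', mul_add]
    | single h s =>
      rw [mp_single, MonoidAlgebra.single_mul_single]
      by_cases hg : ∃ g', φ g' = g
      · obtain ⟨g', rfl⟩ := hg
        rw [← map_mul, pr_single, pr_single, MonoidAlgebra.single_mul_single]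
      · push Not at hg
        rw [pr_single_of_not φ hφ _ _ (r * s), pr_single_of_not φ hφ _ hg r, zero_mul]
        intro h' hh'
        apply hg (h' * h⁻¹)
        rw [map_mul, hh', map_inv, mul_inv_cancel_right]

theorem pr_one : pr φ hφ (1 : MonoidAlgebra k M) = 1 := by
  rw [MonoidAlgebra.one_def, MonoidAlgebra.one_def, ← pr_single φ hφ 1 (1 : k), map_one]

include hφ in
/-- `J(k[M]) ∩ k[H] ⊆ J(k[H])`. -/
theorem mem_jacobson_of_mp {x : MonoidAlgebra k H}
    (hx : mp k φ x ∈ Ideal.jacobson (⊥ : Ideal (MonoidAlgebra k M))) :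
    x ∈ Ideal.jacobson (⊥ : Ideal (MonoidAlgebra k H)) := by
  rw [Ideal.mem_jacobson_iff] at hx ⊢
  intro y
  obtain ⟨z, hz⟩ := hx (mp k φ y)
  rw [Ideal.mem_bot, sub_eq_zero] at hz
  refine ⟨pr φ hφ z, ?_⟩
  rw [Ideal.mem_bot, sub_eq_zero]
  have h1 := congrArg (pr φ hφ) hz
  rw [pr_add, pr_mul, pr_mul, pr_one] at h1
  exact h1

end

theorem augLeJac_sub {k : Type u} [Field k] {H : Type v} {M : Type w} [Group H] [Group M]
    (φ : H →* M) (hφ : Function.Injective φ) (h : AugLeJac k M) : AugLeJac k H := by
  intro x hx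
  apply mem_jacobson_of_mp φ hφ
  apply h
  rw [aug_mp, hx]

theorem mp_surjective {k : Type u} [Field k] {H : Type v} {Q : Type w} [Group H] [Group Q]
    (f : H →* Q) (hf : Function.Surjective f) : Function.Surjective (mp k f) := by
  intro x
  induction x using MonoidAlgebra.induction_linear with
  | zero => exact ⟨0, map_zero _⟩
  | add x y hx hy =>
    obtain ⟨a, rfl⟩ := hx
    obtain ⟨b, rfl⟩ := hy
    exact ⟨a + b, map_add _ _ _⟩
  | single g r =>
    obtain ⟨h, rfl⟩ := hf g
    exact ⟨MonoidAlgebra.single h r, mp_single f h r⟩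

theorem augLeJac_quot {k : Type u} [Field k] {H : Type v} {Q : Type w} [Group H] [Group Q]
    (f : H →* Q) (hf : Function.Surjective f) (h : AugLeJac k H) : AugLeJac k Q := by
  intro x hx
  obtain ⟨x, rfl⟩ := mp_surjective f hf x
  rw [aug_mp] at hx
  have h1 := h x hx
  rw [Ideal.mem_jacobson_iff] at h1 ⊢
  intro y
  obtain ⟨y, rfl⟩ := mp_surjective f hf y
  obtain ⟨z, hz⟩ := h1 y
  refine ⟨mp k f z, ?_⟩
  rw [Ideal.mem_bot] at hz ⊢
  rw [← map_mul, ← map_mul, ← map_add, ← map_one (mp k f), ← map_sub, hz, map_zero]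

/-- `Q` is a section of `M`: a quotient of a subgroup. -/
def IsSection (Q : Type v) [Group Q] (M : Type w) [Group M] : Prop :=
  ∃ (S : Subgroup M) (f : S →* Q), Function.Surjective f

theorem augLeJac_section {k : Type u} [Field k] {Q : Type v} {M : Type w} [Group Q] [Group M]
    (hs : IsSection Q M) (h : AugLeJac k M) : AugLeJac k Q := by
  obtain ⟨S, f, hf⟩ := hs
  exact augLeJac_quot f hf (augLeJac_sub S.subtype S.subtype_injective h)

/-- If the augmentation ideal lies in the radical and there is an involution, then the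
characteristic is `2`. -/
theorem two_eq_zero {k : Type u} [Field k] {G : Type v} [Group G] (h : AugLeJac k G)
    (g : G) (hg : g * g = 1) (hg1 : g ≠ 1) : (2 : k) = 0 := by
  by_contra h2
  set y : MonoidAlgebra k G := MonoidAlgebra.single 1 1 + MonoidAlgebra.single g (-1)
    with hy
  have hyJ : y ∈ Ideal.jacobson (⊥ : Ideal (MonoidAlgebra k G)) := by
    apply h
    rw [hy, map_add, aug_single, aug_single]
    ring
  have hyy : y * y = y + y := by
    rw [hy]
    simp only [add_mul, mul_add, MonoidAlgebra.single_mul_single, mul_one, one_mul, hg]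
    rw [neg_mul_neg, one_mul]
    abel
  set c : MonoidAlgebra k G := algebraMap k _ (2 : k)⁻¹ with hc
  have hcc : c + c = 1 := by
    rw [hc, ← map_add, ← two_mul, mul_inv_cancel₀ h2, map_one]
  have hu := isUnit_of_jacobson (neg_mem (Ideal.mul_mem_left _ c hyJ))
  have h0 : (1 + -(c * y)) * y = 0 := by
    rw [add_mul, one_mul, neg_mul, mul_assoc, hyy, mul_add, ← add_mul, hcc, one_mul,
      add_neg_cancel]
  have hy0 : y = 0 := (hu.mul_right_eq_zero).1 h0
  have h5 : y.coeff g = 0 := by rw [hy0]; rfl
  rw [hy] at h5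
  have h6 : (MonoidAlgebra.single (1 : G) (1 : k) +
      MonoidAlgebra.single g (-1) : MonoidAlgebra k G).coeff g = -1 := by
    rw [MonoidAlgebra.coeff_add, Finsupp.add_apply]
    simp [hg1.symm]
  rw [h6] at h5
  exact one_ne_zero (neg_eq_zero.1 h5)

end Pool.Agent.Y803.GR
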