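import Pool.Agent.Y803.GR.Fam
import Pool.Agent.Y803.GR.Sec

/-!
The augmentation ideal of `k[G_ω]` is not contained in the Jacobson radical.
-/

set_option autoImplicit false

open Polynomial

namespace Pool.Agent.Y803.GR

universe u v w

/-- The action on functions on the tree. -/
noncomputable def rho (k : Type u) [Field k] (S : Subgroup (Equiv.Perm (List Bool))) :
    S →* Module.End k (List Bool → k) where
  toFun g := LinearMap.funLeft k k ((g : Equiv.Perm (List Bool))⁻¹ : Equiv.Perm (List Bool))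
  map_one' := by ext; simp [LinearMap.funLeft]
  map_mul' g h := by
    ext f u
    simp [LinearMap.funLeft, Equiv.Perm.mul_def]

/-- The action of the group algebra on functions on the tree. -/
noncomputable def Rho (k : Type u) [Field k] (S : Subgroup (Equiv.Perm (List Bool))) :
    MonoidAlgebra k S →ₐ[k] Module.End k (List Bool → k) :=
  MonoidAlgebra.lift k _ S (rho k S)

theorem Rho_single (k : Type u) [Field k] (S : Subgroup (Equiv.Perm (List Bool))) (g : S)
    (f : List Bool → k) (u : List Bool) :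
    Rho k S (MonoidAlgebra.single g 1) f u = f ((g : Equiv.Perm (List Bool))⁻¹ u) := by
  simp [Rho, rho, LinearMap.funLeft]

/-- Restriction of a function to the left subtree. -/
def Res {k : Type u} (f : List Bool → k) : List Bool → k := fun w => f (false :: w)

theorem Lft_Rgt_inv_apply (s t : Equiv.Perm (List Bool)) (w : List Bool) :
    (Lft s * Rgt t)⁻¹ (false :: w) = false :: s⁻¹ w := by
  rw [LR_inv]
  rfl

/-- In the group algebra of `K ω`, `ω 1 ≠ ω 0`, the augmentation ideal is not nil. -/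
theorem exists_not_nilpotent (k : Type u) [Field k] (h2 : (2 : k) = 0) {ω : ℕ → Fin 3}
    (hω : ω 1 ≠ ω 0) : ∃ x : MonoidAlgebra k (K ω), aug k (K ω) x = 0 ∧ ¬ IsNilpotent x := by
  obtain ⟨i, l, hil, hi0, hl0⟩ : ∃ i l : Fin 3, i ≠ l ∧ i ≠ ω 0 ∧ l ≠ ω 0 := by
    have : ∀ x : Fin 3, ∃ i l : Fin 3, i ≠ l ∧ i ≠ x ∧ l ≠ x := by decide
    exact this _
  obtain ⟨⟨t1, h1⟩, ⟨t2, h2'⟩, ⟨t3, h3⟩⟩ := L_words hω hil hi0 hl0
  set ω2 := sh (sh ω) with hω2
  let g1 : K ω := ⟨_, h1⟩
  let g2 : K ω := ⟨_, h2'⟩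
  let g3 : K ω := ⟨_, h3⟩
  let x : MonoidAlgebra k (K ω) := MonoidAlgebra.single 1 1 + MonoidAlgebra.single g1 1 +
    MonoidAlgebra.single g2 1 + MonoidAlgebra.single g3 1
  have hres : ∀ f : List Bool → k, Res (Rho k (K ω) x f) = xop i l ω2 (xop i l ω2 (Res f)) := by
    intro f
    funext w
    simp only [Res, x, map_add, LinearMap.add_apply, Pi.add_apply, Rho_single]
    have e1 : ((g1 : Equiv.Perm (List Bool)))⁻¹ (false :: w) =
        false :: fb l ω2 (fa (fb i ω2 w)) := by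
      rw [show (g1 : Equiv.Perm (List Bool)) = Lft (pb i ω2 * pa * pb l ω2) * Rgt t1 from rfl,
        Lft_Rgt_inv_apply, mul_inv_rev, mul_inv_rev, pb_inv, pb_inv, pa_inv]
      rfl
    have e2 : ((g2 : Equiv.Perm (List Bool)))⁻¹ (false :: w) =
        false :: fb i ω2 (fb l ω2 (fa w)) := by
      rw [show (g2 : Equiv.Perm (List Bool)) = Lft (pa * pb l ω2 * pb i ω2) * Rgt t2 from rfl,
        Lft_Rgt_inv_apply, mul_inv_rev, mul_inv_rev, pb_inv, pb_inv, pa_inv]
      rfl
    have e3 : ((g3 : Equiv.Perm (List Bool)))⁻¹ (false :: w) =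
        false :: fb l ω2 (fa (fb l ω2 (fa w))) := by
      rw [show (g3 : Equiv.Perm (List Bool)) = Lft (pa * pb l ω2 * pa * pb l ω2) * Rgt t3 from rfl,
        Lft_Rgt_inv_apply, mul_inv_rev, mul_inv_rev, mul_inv_rev, pb_inv, pa_inv]
      rfl
    rw [e1, e2, e3]
    simp only [xop, Res, fb_fb, inv_one, OneMemClass.coe_one, Equiv.Perm.coe_one, id_eq]
    ring
  have hpow : ∀ (n : ℕ) (f : List Bool → k),
      Res (Rho k (K ω) (x ^ n) f) = (xop i l ω2)^[2 * n] (Res f) := by
    intro n f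
    induction n with
    | zero => simp
    | succ n ih =>
      rw [pow_succ', map_mul, Module.End.mul_apply, hres, ih, mul_add, mul_one,
        Function.iterate_succ', Function.iterate_succ']
      rfl
  refine ⟨x, ?_, ?_⟩
  · simp only [x, map_add, aug_single]
    have : (1 : k) + 1 + 1 + 1 = 2 + 2 := by norm_num
    rw [this, h2, add_zero]
  · rintro ⟨n, hn⟩
    obtain ⟨f, hf⟩ := xop_pow_ne (k := k) hil ω2 (2 * n)
    apply hf
    have h4 := hpow n (fun w => match w with
      | false :: w => f w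
      | _ => 0)
    have h5 : Res (fun w => match w with
      | false :: w => f w
      | _ => (0 : k)) = f := by
      funext w
      rfl
    rw [h5, hn] at h4
    rw [← h4]
    simp only [map_zero]
    rfl

/-- The product of the rigid stabilisers of the vertices `0` and `1`. -/
def psi (ω : ℕ → Fin 3) : K ω × K ω →* G ω where
  toFun p := ⟨Lft p.1 * Rgt p.2, (G ω).mul_mem p.1.2 (Rgt_mem ω p.2.2)⟩
  map_one' := by
    apply Subtype.ext
    show Lft ((1 : K ω) : Equiv.Perm (List Bool)) * Rgt ((1 : K ω) : Equiv.Perm (List Bool)) = 1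
    rw [OneMemClass.coe_one, map_one, map_one, one_mul]
  map_mul' p q := by
    apply Subtype.ext
    show Lft ((p.1 * q.1 : K ω) : Equiv.Perm (List Bool)) *
      Rgt ((p.2 * q.2 : K ω) : Equiv.Perm (List Bool)) = (Lft p.1 * Rgt p.2) * (Lft q.1 * Rgt q.2)
    rw [LR_mul]
    rfl

theorem psi_injective (ω : ℕ → Fin 3) : Function.Injective (psi ω) := by
  rintro ⟨p1, p2⟩ ⟨q1, q2⟩ h
  have h1 : Lft (p1 : Equiv.Perm (List Bool)) * Rgt (p2 : Equiv.Perm (List Bool)) =
      Lft (q1 : Equiv.Perm (List Bool)) * Rgt (q2 : Equiv.Perm (List Bool)) :=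
    congrArg Subtype.val h
  obtain ⟨e1, e2⟩ := LR_inj h1
  exact Prod.ext (Subtype.ext e1) (Subtype.ext e2)

theorem basic (k : Type u) [Field k] {ω : ℕ → Fin 3} (hω : ω 1 ≠ ω 0) : ¬ AugLeJac k (G ω) := by
  intro hJ
  have h2 : (2 : k) = 0 := by
    refine two_eq_zero hJ ⟨pa, pa_mem ω⟩ (Subtype.ext pa_mul_pa) ?_
    intro h
    have h1 : pa = 1 := congrArg Subtype.val h
    have h3 := congrArg (fun p : Equiv.Perm (List Bool) => p [true]) h1
    simp [pa, fa] at h3
  obtain ⟨x, hx0, hx⟩ := exists_not_nilpotent k h2 hω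
  apply hx
  apply nil_of_square (psi ω) (psi_injective ω) x
  apply hJ
  rw [aug_mp, hx0]

/-- The stabiliser of the first level. -/
def St (ω : ℕ → Fin 3) : Subgroup (G ω) where
  carrier := {g | ∃ s ∈ G (sh ω), ∃ t, (g : Equiv.Perm (List Bool)) = Lft s * Rgt t}
  mul_mem' := by
    rintro g h ⟨s, hs, t, hg⟩ ⟨s', hs', t', hh⟩
    refine ⟨s * s', (G (sh ω)).mul_mem hs hs', t * t', ?_⟩
    rw [Subgroup.coe_mul, hg, hh, LR_mul]
  one_mem' := ⟨1, (G (sh ω)).one_mem, 1, by rw [map_one, map_one]; rfl⟩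
  inv_mem' := by
    rintro g ⟨s, hs, t, hg⟩
    refine ⟨s⁻¹, (G (sh ω)).inv_mem hs, t⁻¹, ?_⟩
    rw [Subgroup.coe_inv, hg, LR_inv]

/-- `G (sh ω)` is a section of `G ω`. -/
theorem section_sh (ω : ℕ → Fin 3) : IsSection (G (sh ω)) (G ω) := by
  classical
  choose s hs t ht using fun g : St ω => g.2
  refine ⟨St ω, MonoidHom.mk' (fun g => ⟨s g, hs g⟩) ?_, ?_⟩
  · intro g h
    apply Subtype.ext
    have h1 := ht (g * h)
    have h2 : ((g * h : St ω) : Equiv.Perm (List Bool)) =
        (Lft (s g) * Rgt (t g)) * (Lft (s h) * Rgt (t h)) := by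
      rw [← ht g, ← ht h]
      rfl
    rw [LR_mul] at h2
    exact (LR_inj (h1.symm.trans h2)).1
  · rintro ⟨r, hr⟩
    obtain ⟨q, hq⟩ := exists_right ω hr
    refine ⟨⟨⟨_, hq⟩, ⟨r, hr, q, rfl⟩⟩, ?_⟩
    apply Subtype.ext
    have h1 := ht ⟨⟨_, hq⟩, ⟨r, hr, q, rfl⟩⟩
    exact (LR_inj h1).1.symm

/-- **Theorem.** For every non-constant sequence `ω`, every field `k` and every group `M` with a
section isomorphic to `G_ω`, the Jacobson radical of `k[M]` does not contain the augmentation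
ideal. -/
theorem family (k : Type u) [Field k] (n : ℕ) : ∀ ω : ℕ → Fin 3, ω (n + 1) ≠ ω n →
    ¬ AugLeJac k (G ω) := by
  induction n with
  | zero => intro ω hω; exact basic k hω
  | succ n ih =>
    intro ω hω hJ
    exact ih (sh ω) hω (augLeJac_section (section_sh ω) hJ)

end Pool.Agent.Y803.GR
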