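import Pool.Agent.Y803.GR.Conj

/-!
Groups with small rigid stabilisers: their group algebras are semiprimitive.
-/

set_option autoImplicit false

open Polynomial Pointwise

namespace Pool.Agent.Y803.GR

universe u v w

/-- The rigid stabiliser of a set `U`: the elements of `G` which fix all points outside `U`. -/
def Rist (G : Type v) [Group G] {X : Type w} [MulAction G X] (U : Set X) : Subgroup G where
  carrier := {g | ∀ x, x ∉ U → g • x = x}
  mul_mem' := by
    intro g h hg hh x hx
    rw [mul_smul, hh x hx, hg x hx]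
  one_mem' := fun x _ => one_smul _ x
  inv_mem' := by
    intro g hg x hx
    rw [inv_smul_eq_iff, hg x hx]

theorem mem_Rist {G : Type v} [Group G] {X : Type w} [MulAction G X] {U : Set X} {g : G} :
    g ∈ Rist G U ↔ ∀ x, x ∉ U → g • x = x := Iff.rfl

theorem Rist_mono {G : Type v} [Group G] {X : Type w} [MulAction G X] {U V : Set X} (h : U ⊆ V) :
    Rist G U ≤ Rist G V := fun _ hg x hx => hg x fun hxU => hx (h hxU)

theorem Rist_maps {G : Type v} [Group G] {X : Type w} [MulAction G X] {U : Set X} {g : G}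
    (hg : g ∈ Rist G U) {x : X} (hx : x ∈ U) : g • x ∈ U := by
  by_contra h
  have h1 := hg _ h
  have h2 : g • x = x := MulAction.injective g h1
  rw [h2] at h
  exact h hx

theorem Rist_comm {G : Type v} [Group G] {X : Type w} [MulAction G X] [FaithfulSMul G X]
    {U V : Set X} (h : Disjoint U V) {a b : G} (ha : a ∈ Rist G U) (hb : b ∈ Rist G V) :
    a * b = b * a := by
  apply FaithfulSMul.eq_of_smul_eq_smul (α := X)
  intro x
  rw [mul_smul, mul_smul]
  by_cases hx : x ∈ U
  · rw [hb x (fun hV => Set.disjoint_left.1 h hx hV),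
      hb _ (fun hV => Set.disjoint_left.1 h (Rist_maps ha hx) hV)]
  · rw [ha x hx]
    by_cases hxV : x ∈ V
    · exact ha _ (fun hU => Set.disjoint_left.1 h hU (Rist_maps hb hxV))
    · rw [hb x hxV, ha x hx]

theorem Rist_disj {G : Type v} [Group G] {X : Type w} [MulAction G X] [FaithfulSMul G X]
    {U V : Set X} (h : Disjoint U V) {a : G} (ha : a ∈ Rist G U) (hb : a ∈ Rist G V) :
    a = 1 := by
  apply FaithfulSMul.eq_of_smul_eq_smul (α := X)
  intro x
  rw [one_smul]
  by_cases hx : x ∈ U
  · exact hb x (fun hV => Set.disjoint_left.1 h hx hV)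
  · exact ha x hx

theorem Rist_conj {G : Type v} [Group G] {X : Type w} [MulAction G X] {U : Set X} {a : G}
    (ha : a ∈ Rist G U) (s : G) : s⁻¹ * a * s ∈ Rist G (s⁻¹ • U) := by
  intro x hx
  rw [Set.mem_inv_smul_set_iff] at hx
  rw [mul_smul, mul_smul, ha _ hx, inv_smul_smul]

section algebra

variable (k : Type u) [Field k] {G : Type v} [Group G] {X : Type w} [MulAction G X]

/-- The subalgebra of `k[G]` of the elements supported on the rigid stabiliser of `U`. -/
noncomputable def A (G : Type v) [Group G] [MulAction G X] (U : Set X) :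
    Subalgebra k (MonoidAlgebra k G) := (mp k (Rist G U).subtype).range

variable {k}

theorem A_ind {U : Set X} {P : MonoidAlgebra k G → Prop} (h0 : P 0)
    (hadd : ∀ x y, P x → P y → P (x + y))
    (hs : ∀ g ∈ Rist G U, ∀ r : k, P (MonoidAlgebra.single g r)) {x : MonoidAlgebra k G}
    (hx : x ∈ A k G U) : P x := by
  obtain ⟨y, rfl⟩ := hx
  show P (mp k (Rist G U).subtype y)
  induction y using MonoidAlgebra.induction_linear with
  | zero => rw [map_zero]; exact h0
  | add a b ha hb => rw [map_add]; exact hadd _ _ ha hb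
  | single g r => rw [mp_single]; exact hs _ g.2 r

theorem single_mem_A {U : Set X} {g : G} (hg : g ∈ Rist G U) (r : k) :
    MonoidAlgebra.single g r ∈ A k G U :=
  ⟨MonoidAlgebra.single ⟨g, hg⟩ r, mp_single _ _ _⟩

theorem A_mono {U V : Set X} (h : U ⊆ V) : A k G U ≤ A k G V := by
  intro x hx
  refine A_ind (P := fun x => x ∈ A k G V) (zero_mem _) (fun _ _ => add_mem) ?_ hx
  intro g hg r
  exact single_mem_A (Rist_mono h hg) r

theorem A_comm [FaithfulSMul G X] {U V : Set X} (h : Disjoint U V) {a b : MonoidAlgebra k G}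
    (ha : a ∈ A k G U) (hb : b ∈ A k G V) : a * b = b * a := by
  refine A_ind (P := fun a => a * b = b * a) (by rw [zero_mul, mul_zero])
    (fun x y hx hy => by rw [add_mul, mul_add, hx, hy]) ?_ ha
  intro g hg r
  refine A_ind (P := fun b => MonoidAlgebra.single g r * b = b * MonoidAlgebra.single g r)
    (by rw [zero_mul, mul_zero])
    (fun x y hx hy => by rw [add_mul, mul_add, hx, hy]) ?_ hb
  intro g' hg' r'
  rw [MonoidAlgebra.single_mul_single, MonoidAlgebra.single_mul_single, Rist_comm h hg hg',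
    mul_comm r r']

theorem A_conj {U : Set X} {a : MonoidAlgebra k G} (ha : a ∈ A k G U) (s : G) :
    ∃ a' ∈ A k G (s⁻¹ • U), a * MonoidAlgebra.single s 1 = MonoidAlgebra.single s 1 * a' := by
  refine A_ind (P := fun a => ∃ a' ∈ A k G (s⁻¹ • U),
    a * MonoidAlgebra.single s 1 = MonoidAlgebra.single s 1 * a') ?_ ?_ ?_ ha
  · exact ⟨0, zero_mem _, by rw [zero_mul, mul_zero]⟩
  · rintro x y ⟨x', hx', hx⟩ ⟨y', hy', hy⟩
    exact ⟨x' + y', add_mem hx' hy', by rw [add_mul, mul_add, hx, hy]⟩
  · intro g hg r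
    refine ⟨MonoidAlgebra.single (s⁻¹ * g * s) r, single_mem_A (Rist_conj hg s) r, ?_⟩
    rw [MonoidAlgebra.single_mul_single, MonoidAlgebra.single_mul_single, mul_one, one_mul]
    congr 1
    group

theorem A_supp {U : Set X} {a : MonoidAlgebra k G} (ha : a ∈ A k G U) :
    ∀ g, a.coeff g ≠ 0 → g ∈ Rist G U := by
  classical
  refine A_ind (P := fun a => ∀ g, a.coeff g ≠ 0 → g ∈ Rist G U) ?_ ?_ ?_ ha
  · intro g hg
    exact absurd rfl hg
  · intro x y hx hy g hg
    rw [MonoidAlgebra.coeff_add, Finsupp.add_apply] at hg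
    by_cases h : x.coeff g = 0
    · rw [h, zero_add] at hg
      exact hy g hg
    · exact hx g h
  · intro s hs r g hg
    by_cases h : s = g
    · exact h ▸ hs
    · exfalso
      apply hg
      simp [h]

/-- Products of nonzero elements with disjoint supports are nonzero. -/
theorem A_mul_ne_zero [FaithfulSMul G X] {U V : Set X} (h : Disjoint U V)
    {a b : MonoidAlgebra k G} (ha : a ∈ A k G U) (hb : b ∈ A k G V) (ha0 : a ≠ 0) (hb0 : b ≠ 0) :
    a * b ≠ 0 := by
  classical
  have key : ∀ g ∈ Rist G U, ∀ g' ∈ Rist G V,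
      (a * b).coeff (g * g') = a.coeff g * b.coeff g' := by
    intro g hg g' hg'
    refine A_ind (P := fun a => (a * b).coeff (g * g') = a.coeff g * b.coeff g') ?_ ?_ ?_ ha
    · rw [zero_mul]; simp
    · intro x y hx hy
      rw [add_mul, MonoidAlgebra.coeff_add, MonoidAlgebra.coeff_add, Finsupp.add_apply,
        Finsupp.add_apply, hx, hy, add_mul]
    · intro s hs r
      refine A_ind (P := fun b => (MonoidAlgebra.single s r * b).coeff (g * g') =
        (MonoidAlgebra.single s r).coeff g * b.coeff g') ?_ ?_ ?_ hb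
      · rw [mul_zero]; simp
      · intro x y hx hy
        rw [mul_add, MonoidAlgebra.coeff_add, MonoidAlgebra.coeff_add, Finsupp.add_apply,
          Finsupp.add_apply, hx, hy, mul_add]
      · intro t ht r'
        rw [MonoidAlgebra.single_mul_single]
        by_cases hsg : s = g
        · subst hsg
          by_cases htg : t = g'
          · subst htg
            simp
          · have : s * t ≠ s * g' := fun hh => htg (mul_left_cancel hh)
            simp [this, htg]
        · have : s * t ≠ g * g' := by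
            intro hh
            apply hsg
            have h1 : g⁻¹ * s = g' * t⁻¹ := by
              rw [inv_mul_eq_iff_eq_mul, ← mul_assoc, eq_mul_inv_iff_mul_eq]; exact hh
            have h2 : g⁻¹ * s = 1 := Rist_disj h ((Rist G U).mul_mem ((Rist G U).inv_mem hg) hs)
              (h1 ▸ (Rist G V).mul_mem hg' ((Rist G V).inv_mem ht))
            exact (inv_mul_eq_one.mp h2).symm
          simp [this, hsg]
  intro hab
  have hsa : ∃ g ∈ Rist G U, a.coeff g ≠ 0 := by
    obtain ⟨g, hg⟩ := Finsupp.ne_iff.1 (fun h0 => ha0 (MonoidAlgebra.coeff_eq_zero.1 h0) :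
      a.coeff ≠ 0)
    exact ⟨g, A_supp ha g hg, hg⟩
  have hsb : ∃ g ∈ Rist G V, b.coeff g ≠ 0 := by
    obtain ⟨g, hg⟩ := Finsupp.ne_iff.1 (fun h0 => hb0 (MonoidAlgebra.coeff_eq_zero.1 h0) :
      b.coeff ≠ 0)
    exact ⟨g, A_supp hb g hg, hg⟩
  obtain ⟨g, hg, hg0⟩ := hsa
  obtain ⟨g', hg', hg'0⟩ := hsb
  have := key g hg g' hg'
  rw [hab] at this
  simp only [MonoidAlgebra.coeff_zero, Finsupp.coe_zero, Pi.zero_apply] at this
  exact mul_ne_zero hg0 hg'0 this.symm

theorem A_not_nilpotent [FaithfulSMul G X] {U V : Set X} (h : Disjoint U V)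
    {a b : MonoidAlgebra k G} (ha : a ∈ A k G U) (hb : b ∈ A k G V) (ha0 : ¬ IsNilpotent a)
    (hb0 : ¬ IsNilpotent b) : ¬ IsNilpotent (a * b) := by
  rintro ⟨n, hn⟩
  have hc : Commute a b := A_comm h ha hb
  rw [hc.mul_pow] at hn
  exact A_mul_ne_zero h (pow_mem ha n) (pow_mem hb n) (fun h0 => ha0 ⟨n, h0⟩)
    (fun h0 => hb0 ⟨n, h0⟩) hn

end algebra

end Pool.Agent.Y803.GR
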