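import Mathlib

/-!
Commuting subgroups and the Jacobson radical of a group algebra: the radical meets the group
algebra of a subgroup `H` in a nil ideal if `H` commutes with a disjoint subgroup whose group
algebra is not algebraic.
-/

set_option autoImplicit false

open Polynomial

namespace Pool.Agent.Y803.GR

universe u v w

/-- The map of group algebras induced by a group homomorphism. -/
noncomputable abbrev mp (k : Type u) [Field k] {H : Type v} {G : Type w} [Group H] [Group G]
    (φ : H →* G) : MonoidAlgebra k H →ₐ[k] MonoidAlgebra k G := MonoidAlgebra.mapDomainAlgHom k k φ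

theorem mp_single {k : Type u} [Field k] {H : Type v} {G : Type w} [Group H] [Group G]
    (φ : H →* G) (h : H) (r : k) :
    mp k φ (MonoidAlgebra.single h r) = MonoidAlgebra.single (φ h) r := by
  simp [mp]

theorem mp_injective {k : Type u} [Field k] {H : Type v} {G : Type w} [Group H] [Group G]
    (φ : H →* G) (hφ : Function.Injective φ) : Function.Injective (mp k φ) :=
  MonoidAlgebra.mapDomain_injective hφ

/-- A transcendental element acts like a variable under a suitable functional. -/
theorem exists_functional {k : Type u} {R : Type v} [Field k] [Ring R] [Algebra k R] (W : R)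
    (hW : Transcendental k W) {L : Type u} [Field L] (f : k[X] →+* L)
    (hf : Function.Injective f) :
    ∃ φ : R →+ L, φ 1 = 1 ∧ ∀ (p : k[X]) (r : R), φ (aeval W p * r) = f p * φ r := by
  have hW' : ∀ p : k[X], p ≠ 0 → aeval W p ≠ 0 := fun p hp h0 =>
    hp ((transcendental_iff.1 hW) p h0)
  let _ : Module k[X] R := Module.compHom R (aeval W : k[X] →ₐ[k] R).toRingHom
  have hsmul : ∀ (p : k[X]) (r : R), p • r = aeval W p * r := fun p r => rfl
  let S := nonZeroDivisors k[X]
  let M' := LocalizedModule S R
  let v : M' := LocalizedModule.mkLinearMap S R 1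
  have hv : v ≠ 0 := by
    intro h
    have := (IsLocalizedModule.eq_zero_iff S (LocalizedModule.mkLinearMap S R)).mp h
    obtain ⟨c, hc⟩ := this
    have h2 : aeval W (c : k[X]) * (1 : R) = 0 := hc
    rw [mul_one] at h2
    exact hW' c (nonZeroDivisors.coe_ne_zero c) h2
  obtain ⟨g, hg⟩ := LinearMap.exists_leftInverse_of_injective
    (LinearMap.toSpanSingleton (FractionRing k[X]) M' v) (LinearMap.ker_toSpanSingleton _ hv)
  have hgv : g v = 1 := by
    have := congrArg (fun f => f 1) hg
    simpa using this
  have key : ∀ (p : k[X]) (r : R), g (LocalizedModule.mkLinearMap S R (aeval W p * r)) =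
      algebraMap k[X] (FractionRing k[X]) p * g (LocalizedModule.mkLinearMap S R r) := by
    intro p r
    have h1 : aeval W p * r = p • r := by rw [hsmul]
    rw [h1, map_smul, ← algebraMap_smul (FractionRing k[X]) p, map_smul, smul_eq_mul]
  refine ⟨((IsFractionRing.lift hf : FractionRing k[X] →+* L) : FractionRing k[X] →+ L).comp
    ((g.toAddMonoidHom).comp (LocalizedModule.mkLinearMap S R).toAddMonoidHom), ?_, ?_⟩
  · change (IsFractionRing.lift hf : FractionRing k[X] →+* L) (g v) = 1
    rw [hgv, map_one]
  · intro p r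
    change (IsFractionRing.lift hf : FractionRing k[X] →+* L)
        (g (LocalizedModule.mkLinearMap S R (aeval W p * r))) =
      f p * (IsFractionRing.lift hf : FractionRing k[X] →+* L)
        (g (LocalizedModule.mkLinearMap S R r))
    rw [key, map_mul, IsFractionRing.lift_algebraMap]

/-- If `ψ : H₁ × H₂ → G` is injective, `x ∈ k[H₁]` and `y ∈ k[H₂]` are transcendental, then
`1 - x y` is not right invertible in `k[G]`. -/
theorem no_right_inverse {k : Type u} [Field k] {H₁ : Type v} {H₂ : Type v} {G : Type w}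
    [Group H₁] [Group H₂] [Group G]
    (ψ : H₁ × H₂ →* G) (hψ : Function.Injective ψ)
    (x : MonoidAlgebra k H₁) (y : MonoidAlgebra k H₂)
    (tx : Transcendental k x) (ty : Transcendental k y) (z : MonoidAlgebra k G) :
    (1 - mp k (ψ.comp (MonoidHom.inl H₁ H₂)) x * mp k (ψ.comp (MonoidHom.inr H₁ H₂)) y) * z ≠ 1 := by
  classical
  set K := FractionRing k[X] with hK
  set t : K := algebraMap k[X] K X with ht
  have ht0 : t ≠ 0 := by
    rw [ht]
    exact fun h => X_ne_zero ((IsFractionRing.injective k[X] K) (by rw [h, map_zero]))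
  have htt : Transcendental k t := by
    rw [ht]
    rw [transcendental_algebraMap_iff (IsFractionRing.injective k[X] K)]
    exact transcendental_X k
  have htinv : Transcendental k t⁻¹ := fun h => htt ((IsAlgebraic.inv_iff).1 h)
  obtain ⟨φ, hφ1, hφ⟩ := exists_functional x tx (algebraMap k[X] K)
    (IsFractionRing.injective k[X] K)
  obtain ⟨χ, hχ1, hχ⟩ := exists_functional y ty ((aeval t⁻¹ : k[X] →ₐ[k] K) : k[X] →+* K)
    (transcendental_iff_injective.1 htinv)
  have hφc : ∀ (r : k) (s : MonoidAlgebra k H₁), φ (algebraMap k _ r * s) =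
      algebraMap k K r * φ s := by
    intro r s
    have := hφ (C r) s
    rw [aeval_C] at this
    rw [this]
    rfl
  have hχc : ∀ (r : k) (s : MonoidAlgebra k H₂), χ (algebraMap k _ r * s) =
      algebraMap k K r * χ s := by
    intro r s
    have := hχ (C r) s
    rw [aeval_C] at this
    rw [this]
    congr 1
    exact aeval_C _ _
  have hφs : ∀ (g : H₁) (r : k), φ (MonoidAlgebra.single g r) =
      algebraMap k K r * φ (MonoidAlgebra.single g 1) := by
    intro g r
    rw [← hφc]
    congr 1
    rw [MonoidAlgebra.coe_algebraMap]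
    simp
  have hχs : ∀ (g : H₂) (r : k), χ (MonoidAlgebra.single g r) =
      algebraMap k K r * χ (MonoidAlgebra.single g 1) := by
    intro g r
    rw [← hχc]
    congr 1
    rw [MonoidAlgebra.coe_algebraMap]
    simp
  let θ₀ : G → K := Function.extend ψ
    (fun p => φ (MonoidAlgebra.single p.1 1) * χ (MonoidAlgebra.single p.2 1)) 0
  have hθ₀ : ∀ (g : H₁) (h : H₂), θ₀ (ψ (g, h)) =
      φ (MonoidAlgebra.single g 1) * χ (MonoidAlgebra.single h 1) := by
    intro g h
    exact hψ.extend_apply _ _ (g, h)
  have hθ₀' : ∀ g, (¬ ∃ a, ψ a = g) → θ₀ g = 0 := by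
    intro g hg
    exact Function.extend_apply' _ _ _ hg
  let θ : MonoidAlgebra k G →+ K := MonoidAlgebra.liftNC (algebraMap k K : k →+ K) θ₀
  have hθ : ∀ g r, θ (MonoidAlgebra.single g r) = algebraMap k K r * θ₀ g := by
    intro g r
    exact MonoidAlgebra.liftNC_single _ _ _ _
  have c1 : ∀ (a : MonoidAlgebra k H₁) (b : MonoidAlgebra k H₂) (g : H₁) (h : H₂) (r : k),
      θ (mp k (ψ.comp (MonoidHom.inl H₁ H₂)) a * (mp k (ψ.comp (MonoidHom.inr H₁ H₂)) b *
        MonoidAlgebra.single (ψ (g, h)) r)) =
        algebraMap k K r * (φ (a * MonoidAlgebra.single g 1) * χ (b * MonoidAlgebra.single h 1)) := by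
    intro a b g h r
    induction a using MonoidAlgebra.induction_linear with
    | zero => simp
    | add a a' ha ha' => rw [map_add, add_mul, map_add, ha, ha', add_mul, map_add]; ring
    | single g' r' =>
      induction b using MonoidAlgebra.induction_linear with
      | zero => simp
      | add b b' hb hb' =>
        rw [map_add, add_mul, mul_add, map_add, hb, hb', add_mul, map_add]; ring
      | single h' r'' =>
        rw [mp_single, mp_single, MonoidAlgebra.single_mul_single, MonoidAlgebra.single_mul_single,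
          MonoidAlgebra.single_mul_single, MonoidAlgebra.single_mul_single, MonoidHom.comp_apply,
          MonoidHom.comp_apply, ← map_mul, ← map_mul, hθ, MonoidHom.inl_apply, MonoidHom.inr_apply,
          Prod.mk_mul_mk, Prod.mk_mul_mk, one_mul, one_mul, hθ₀, mul_one, mul_one,
          hφs (g' * g) r', hχs (h' * h) r'', map_mul, map_mul]
        ring
  have c2 : ∀ (a : MonoidAlgebra k H₁) (b : MonoidAlgebra k H₂) (g : G), (¬ ∃ p, ψ p = g) →
      ∀ (r : k),
      θ (mp k (ψ.comp (MonoidHom.inl H₁ H₂)) a * (mp k (ψ.comp (MonoidHom.inr H₁ H₂)) b *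
        MonoidAlgebra.single g r)) = 0 := by
    intro a b g hg r
    induction a using MonoidAlgebra.induction_linear with
    | zero => simp
    | add a a' ha ha' => rw [map_add, add_mul, map_add, ha, ha', add_zero]
    | single g' r' =>
      induction b using MonoidAlgebra.induction_linear with
      | zero => simp
      | add b b' hb hb' =>
        rw [map_add, add_mul, mul_add, map_add, hb, hb', add_zero]
      | single h' r'' =>
        rw [mp_single, mp_single, MonoidAlgebra.single_mul_single, MonoidAlgebra.single_mul_single,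
          hθ, hθ₀', mul_zero]
        rintro ⟨p, hp⟩
        apply hg
        refine ⟨(1, h')⁻¹ * ((g', 1)⁻¹ * p), ?_⟩
        rw [map_mul, map_mul, hp, map_inv, map_inv, MonoidHom.comp_apply, MonoidHom.comp_apply,
          MonoidHom.inl_apply, MonoidHom.inr_apply, inv_mul_cancel_left, inv_mul_cancel_left]
  have main : ∀ z, θ (mp k (ψ.comp (MonoidHom.inl H₁ H₂)) x *
      (mp k (ψ.comp (MonoidHom.inr H₁ H₂)) y * z)) = θ z := by
    intro z
    induction z using MonoidAlgebra.induction_linear with
    | zero => simp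
    | add x y hx hy => rw [mul_add, mul_add, map_add, hx, hy, map_add]
    | single g r =>
      by_cases hg : ∃ p, ψ p = g
      · obtain ⟨⟨g, h⟩, rfl⟩ := hg
        rw [c1, hθ, hθ₀]
        have e1 := hφ X (MonoidAlgebra.single g 1)
        have e2 := hχ X (MonoidAlgebra.single h 1)
        rw [aeval_X] at e1 e2
        rw [e1, e2]
        have e3 : ((aeval t⁻¹ : k[X] →ₐ[k] K) : k[X] →+* K) X = t⁻¹ := by
          exact aeval_X _
        rw [e3]
        have e4 : t * t⁻¹ = 1 := mul_inv_cancel₀ ht0
        calc _ = (t * t⁻¹) * (algebraMap k K r * (φ (MonoidAlgebra.single g 1) *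
              χ (MonoidAlgebra.single h 1))) := by ring
          _ = _ := by rw [e4, one_mul]
      · rw [c2 _ _ _ hg, hθ, hθ₀' _ hg, mul_zero]
  intro hz
  have h0 := main z
  have h2 : z = 1 + mp k (ψ.comp (MonoidHom.inl H₁ H₂)) x *
      (mp k (ψ.comp (MonoidHom.inr H₁ H₂)) y * z) := by
    rw [sub_mul, one_mul, sub_eq_iff_eq_add] at hz
    rw [← mul_assoc]
    exact hz
  have h3 : θ z = θ 1 + θ z := by
    conv_lhs => rw [h2]
    rw [map_add, h0]
  have h1 : θ 1 = 1 := by
    rw [MonoidAlgebra.one_def, hθ]
    have := hθ₀ 1 1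
    have e : ψ ((1 : H₁), (1 : H₂)) = 1 := by
      rw [← Prod.one_eq_mk, map_one]
    rw [e] at this
    rw [this, ← MonoidAlgebra.one_def, ← MonoidAlgebra.one_def, hφ1, hχ1]
    simp
  rw [h1] at h3
  have : (1 : K) = 0 := by
    have := sub_eq_zero.2 h3
    have h4 : (1 : K) = -(θ z - (1 + θ z)) := by ring
    rw [h4, this, neg_zero]
  exact one_ne_zero this

theorem isUnit_of_jacobson {R : Type v} [Ring R] {x : R}
    (hx : x ∈ Ideal.jacobson (⊥ : Ideal R)) : IsUnit (1 + x) := by
  have hleft : ∀ x ∈ Ideal.jacobson (⊥ : Ideal R), ∃ z, z * (1 + x) = 1 := by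
    intro x hx
    obtain ⟨z, hz⟩ := Ideal.mem_jacobson_iff.mp hx 1
    refine ⟨z, ?_⟩
    rw [Ideal.mem_bot, sub_eq_zero, mul_one] at hz
    rw [mul_add, mul_one, add_comm]
    exact hz
  obtain ⟨z, hz⟩ := hleft x hx
  have h3 : z = 1 + (-(z * x)) := by
    rw [mul_add, mul_one] at hz
    rw [← hz]; abel
  obtain ⟨w, hw⟩ := hleft (-(z * x)) ((Ideal.jacobson ⊥).neg_mem (Ideal.mul_mem_left _ z hx))
  rw [← h3] at hw
  have h4 : w = 1 + x := by
    calc w = w * (z * (1 + x)) := by rw [hz, mul_one]
      _ = 1 + x := by rw [← mul_assoc, hw, one_mul]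
  rw [h4] at hw
  exact ⟨⟨1 + x, z, hw, hz⟩, rfl⟩

/-- Elements of the Jacobson radical are nilpotent or transcendental. -/
theorem transcendental_of_jacobson {k : Type u} [Field k] {R : Type v} [Ring R] [Algebra k R]
    {x : R} (hx : x ∈ Ideal.jacobson (⊥ : Ideal R)) (hn : ¬ IsNilpotent x) :
    Transcendental k x := by
  rw [transcendental_iff]
  intro p h0
  by_contra hp
  obtain ⟨q, hq, hdvd⟩ := exists_eq_pow_rootMultiplicity_mul_and_not_dvd p hp 0
  set n := rootMultiplicity 0 p
  rw [map_zero, sub_zero] at hq hdvd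
  rw [X_dvd_iff] at hdvd
  set c := q.coeff 0 with hc
  have hq2 := divX_mul_X_add q
  have hu : IsUnit (aeval x q) := by
    have h1 : aeval x q = algebraMap k R c * (1 + x * (algebraMap k R c⁻¹ * aeval x q.divX)) := by
      conv_lhs => rw [← hq2]
      rw [map_add, map_mul, aeval_X, aeval_C, mul_add, mul_one, add_comm, ← hc]
      congr 1
      rw [← mul_assoc, (Algebra.commutes c x), mul_assoc, ← mul_assoc (algebraMap k R c),
        ← map_mul, mul_inv_cancel₀ hdvd, map_one, one_mul]
      have h2 : aeval x (q.divX * X) = aeval x (X * q.divX) := by rw [mul_comm]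
      rwa [map_mul, map_mul, aeval_X] at h2
    rw [h1]
    exact ((isUnit_iff_ne_zero.mpr hdvd).map (algebraMap k R)).mul
      (isUnit_of_jacobson (Ideal.mul_mem_right _ _ hx))
  rw [hq, map_mul, map_pow, aeval_X] at h0
  exact hn ⟨n, (hu.mul_left_eq_zero).mp h0⟩

/-- **The radical meets the group algebra of a subgroup with a large centraliser in a nil
ideal.** -/
theorem nil_of_prod {k : Type u} [Field k] {H₁ : Type v} {H₂ : Type v} {G : Type w}
    [Group H₁] [Group H₂] [Group G]
    (ψ : H₁ × H₂ →* G) (hψ : Function.Injective ψ)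
    (y : MonoidAlgebra k H₂) (ty : Transcendental k y)
    (x : MonoidAlgebra k H₁)
    (hx : mp k (ψ.comp (MonoidHom.inl H₁ H₂)) x ∈ Ideal.jacobson (⊥ : Ideal (MonoidAlgebra k G))) :
    IsNilpotent x := by
  by_contra hn
  have hinj : Function.Injective (mp k (ψ.comp (MonoidHom.inl H₁ H₂))) := by
    apply mp_injective
    intro a b hab
    have := hψ hab
    simpa using this
  have hn' : ¬ IsNilpotent (mp k (ψ.comp (MonoidHom.inl H₁ H₂)) x) := by
    rintro ⟨n, h⟩
    apply hn
    refine ⟨n, hinj ?_⟩
    rw [map_pow, h, map_zero]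
  have tX := transcendental_of_jacobson (k := k) hx hn'
  have tx : Transcendental k x := by
    rw [transcendental_iff] at tX ⊢
    intro p hp
    apply tX
    rw [aeval_algHom_apply, hp, map_zero]
  have hu := isUnit_of_jacobson ((Ideal.jacobson (⊥ : Ideal (MonoidAlgebra k G))).neg_mem
    (Ideal.mul_mem_right (mp k (ψ.comp (MonoidHom.inr H₁ H₂)) y) _ hx))
  obtain ⟨z, hz⟩ := hu.exists_right_inv
  rw [← sub_eq_add_neg] at hz
  exact no_right_inverse ψ hψ x y tx ty z hz

end Pool.Agent.Y803.GR
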