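import Pool.Agent.Y803.GR.TopJ

/-!
Corollaries of the theorem on groups of homeomorphisms with non-trivial rigid stabilisers.
-/

set_option autoImplicit false

open Polynomial Pointwise

namespace Pool.Agent.Y803.GR

universe u v w

/-- In characteristic zero `c - 1` is nilpotent only for `c = 1`. -/
theorem eq_one_of_nilpotent {k : Type u} [Field k] [CharZero k] {G : Type v} [Group G] {c : G}
    (h : IsNilpotent (MonoidAlgebra.single c 1 - 1 : MonoidAlgebra k G)) : c = 1 := by
  classical
  by_contra hc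
  set u : MonoidAlgebra k G := MonoidAlgebra.single c 1 with hu
  have hu1 : u - 1 ≠ 0 := by
    intro h0
    rw [sub_eq_zero, hu, MonoidAlgebra.one_def] at h0
    exact hc (MonoidAlgebra.single_left_injective one_ne_zero h0)
  have hex : ∃ n, (u - 1) ^ n = 0 := h
  set N := Nat.find hex with hN
  have hN0 : (u - 1) ^ N = 0 := Nat.find_spec hex
  have hN2 : 2 ≤ N := by
    by_contra hlt
    have : N = 0 ∨ N = 1 := by omega
    rcases this with h0 | h0
    · rw [h0, pow_zero] at hN0
      exact one_ne_zero hN0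
    · rw [h0, pow_one] at hN0
      exact hu1 hN0
  obtain ⟨m, hm⟩ : ∃ m, N = m + 2 := ⟨N - 2, by omega⟩
  have hv' : (u - 1) ^ (m + 1) ≠ 0 := by
    have := Nat.find_min hex (m := m + 1) (by rw [← hN]; omega)
    exact this
  rw [hm] at hN0
  set v : MonoidAlgebra k G := (u - 1) ^ m with hv
  set v' : MonoidAlgebra k G := (u - 1) ^ (m + 1) with hvv'
  have huv' : u * v' = v' := by
    have h1 : (u - 1) * v' = 0 := by rw [hvv', ← pow_succ', hN0]
    rw [sub_mul, one_mul, sub_eq_zero] at h1
    exact h1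
  have huv : u * v = v + v' := by
    have h1 : (u - 1) * v = v' := by rw [hvv', hv, ← pow_succ']
    rw [sub_mul, one_mul, sub_eq_iff_eq_add] at h1
    rw [h1, add_comm]
  have key : ∀ j : ℕ, u ^ j * v = v + (j : k) • v' := by
    intro j
    induction j with
    | zero => simp
    | succ j ih =>
      rw [pow_succ', mul_assoc, ih, mul_add, huv, mul_smul_comm, huv', Nat.cast_succ, add_smul,
        one_smul]
      abel
  obtain ⟨g, hg⟩ := Finsupp.ne_iff.1 (fun h0 => hv' (MonoidAlgebra.coeff_eq_zero.1 h0) :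
    v'.coeff ≠ 0)
  have hg' : v'.coeff g ≠ 0 := hg
  have hupow : ∀ j : ℕ, u ^ j = MonoidAlgebra.single (c ^ j) 1 := by
    intro j
    rw [hu, MonoidAlgebra.single_pow, one_pow]
  have hval : ∀ j : ℕ, v.coeff ((c ^ j)⁻¹ * g) = v.coeff g + j * v'.coeff g := by
    intro j
    have h1 := congrArg (fun z => MonoidAlgebra.coeff z g) (key j)
    simp only [hupow, MonoidAlgebra.coeff_single_mul_apply, one_mul, MonoidAlgebra.coeff_add,
      Finsupp.add_apply, MonoidAlgebra.coeff_smul, Finsupp.smul_apply, smul_eq_mul] at h1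
    exact h1
  have hinj : Function.Injective fun j : ℕ => v.coeff ((c ^ j)⁻¹ * g) := by
    intro i j hij
    simp only [hval] at hij
    have h1 := add_left_cancel hij
    have h2 := mul_right_cancel₀ hg' h1
    exact_mod_cast h2
  have hfin : (Set.range fun h : G => v.coeff h).Finite := by
    refine ((v.coeff.support.image v.coeff).finite_toSet.union (Set.finite_singleton (0 : k))).subset
      ?_
    rintro _ ⟨h, rfl⟩
    by_cases h0 : v.coeff h = 0
    · exact Or.inr h0
    · left
      exact Finset.mem_coe.2 (Finset.mem_image.2 ⟨h, Finsupp.mem_support_iff.2 h0, rfl⟩)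
  have hinf : (Set.range fun j : ℕ => v.coeff ((c ^ j)⁻¹ * g)).Infinite :=
    Set.infinite_range_of_injective hinj
  exact hinf (hfin.subset (by rintro _ ⟨j, rfl⟩; exact ⟨_, rfl⟩))

/-- If `c - 1` is nilpotent then the order of `c` is a power of the characteristic exponent. -/
theorem pow_eq_one_of_nilpotent {k : Type u} [Field k] (q : ℕ) [hq : ExpChar k q] {G : Type v}
    [Group G] {c : G} (h : IsNilpotent (MonoidAlgebra.single c 1 - 1 : MonoidAlgebra k G)) :
    ∃ n : ℕ, c ^ (q ^ n) = 1 := by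
  cases hq with
  | zero =>
    exact ⟨0, by rw [pow_zero, pow_one]; exact eq_one_of_nilpotent h⟩
  | prime hp =>
    rename_i hchar
    have : Fact q.Prime := ⟨hp⟩
    obtain ⟨N, hN⟩ := h
    refine ⟨N, ?_⟩
    have : CharP (MonoidAlgebra k G) q := charP_of_injective_algebraMap
      (algebraMap k (MonoidAlgebra k G)).injective q
    have h1 : (MonoidAlgebra.single c 1 - 1 : MonoidAlgebra k G) ^ (q ^ N) = 0 :=
      pow_eq_zero_of_le (Nat.lt_pow_self hp.one_lt).le hN
    rw [sub_pow_char_pow_of_commute q N (Commute.one_right _), one_pow, sub_eq_zero,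
      MonoidAlgebra.single_pow, one_pow, MonoidAlgebra.one_def] at h1
    exact MonoidAlgebra.single_left_injective one_ne_zero h1

section

variable {G : Type v} [Group G] {X : Type w} [TopologicalSpace X] [T2Space X] [MulAction G X]
  [ContinuousConstSMul G X] [FaithfulSMul G X]

/-- **Theorem.** Let `k` be a field with characteristic exponent `q` and let `G` act faithfully by
homeomorphisms on a Hausdorff space such that for every nonempty open set `U` the rigid stabiliser
of `U` contains a commutator whose order is not a power of `q`. Then `J(k[G]) = 0`. -/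
theorem jacobson_commutator (X : Type w) [TopologicalSpace X] [T2Space X] [MulAction G X]
    [ContinuousConstSMul G X] [FaithfulSMul G X] (k : Type u) [Field k] (q : ℕ) [ExpChar k q]
    (h : ∀ U : Set X, IsOpen U → U.Nonempty → ∃ a ∈ Rist G U, ∃ y ∈ Rist G U,
      ∀ n : ℕ, (a * y * a⁻¹ * y⁻¹) ^ (q ^ n) ≠ 1) :
    Ideal.jacobson (⊥ : Ideal (MonoidAlgebra k G)) = ⊥ := by
  apply jacobson_micro (X := X) k
  intro U hU hne
  obtain ⟨a, ha, y, hy, hn⟩ := h U hU hne
  refine ⟨_, AddSubmonoid.subset_closure ⟨a, ha, y, hy, rfl⟩, ?_⟩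
  intro hnil
  obtain ⟨n, h1⟩ := pow_eq_one_of_nilpotent q hnil
  exact hn n h1

theorem exists_commutator (h : ∀ U : Set X, IsOpen U → U.Nonempty → ∃ a ∈ Rist G U, a ≠ 1)
    (U : Set X) (hU : IsOpen U) (hne : U.Nonempty) :
    ∃ a ∈ Rist G U, ∃ y ∈ Rist G U, a * y * a⁻¹ * y⁻¹ ≠ 1 := by
  obtain ⟨a, ha, ha1⟩ := h U hU hne
  obtain ⟨p, hp⟩ : ∃ p : X, a • p ≠ p := by
    by_contra hcon
    push Not at hcon
    apply ha1
    apply FaithfulSMul.eq_of_smul_eq_smul (α := X)
    intro x
    rw [one_smul]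
    exact hcon x
  have hpU : p ∈ U := by
    by_contra hpU
    exact hp (ha p hpU)
  obtain ⟨O₁, O₂, hO₁, hO₂, h1, h2, hd⟩ := t2_separation hp
  set W : Set X := U ∩ O₂ ∩ a⁻¹ • O₁ with hW
  have hWo : IsOpen W := (hU.inter hO₂).inter (hO₁.smul _)
  have hpW : p ∈ W := ⟨⟨hpU, h2⟩, by rw [Set.mem_inv_smul_set_iff]; exact h1⟩
  obtain ⟨y, hy, hy1⟩ := h W hWo ⟨p, hpW⟩
  refine ⟨a, ha, y, Rist_mono (fun x hx => hx.1.1) hy, ?_⟩
  intro heq
  apply hy1
  have h3 : (a⁻¹)⁻¹ * y * a⁻¹ ∈ Rist G ((a⁻¹)⁻¹ • W) := Rist_conj hy a⁻¹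
  rw [inv_inv] at h3
  have h4 : a * y * a⁻¹ = y := by
    rw [mul_inv_eq_one] at heq
    exact heq
  rw [h4] at h3
  refine Rist_disj (U := W) (V := a • W) ?_ hy h3
  rw [Set.disjoint_left]
  rintro x hx ⟨x', hx', rfl⟩
  refine Set.disjoint_left.1 hd ?_ hx.1.2
  have := hx'.2
  rw [Set.mem_inv_smul_set_iff] at this
  exact this

/-- **Theorem.** Let `k` be a field of characteristic `0` and let `G` act faithfully by
homeomorphisms on a Hausdorff space such that for every nonempty open set `U` some element `≠ 1`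
of `G` fixes all points outside `U`. Then `J(k[G]) = 0`. -/
theorem jacobson_char_zero (X : Type w) [TopologicalSpace X] [T2Space X] [MulAction G X]
    [ContinuousConstSMul G X] [FaithfulSMul G X] (k : Type u) [Field k] [CharZero k]
    (h : ∀ U : Set X, IsOpen U → U.Nonempty → ∃ a ∈ Rist G U, a ≠ 1) :
    Ideal.jacobson (⊥ : Ideal (MonoidAlgebra k G)) = ⊥ := by
  apply jacobson_micro (X := X) k
  intro U hU hne
  obtain ⟨a, ha, y, hy, hn⟩ := exists_commutator h U hU hne
  refine ⟨_, AddSubmonoid.subset_closure ⟨a, ha, y, hy, rfl⟩, ?_⟩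
  intro hnil
  exact hn (eq_one_of_nilpotent hnil)

end

end Pool.Agent.Y803.GR
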