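import Pool.Agent.Y803.GR.Tlf
import Pool.Agent.Y803.GR.TopC

/-!
Group algebras of groups with a normal subgroup of homeomorphisms with large rigid stabilisers.
-/

set_option autoImplicit false

open Polynomial Pointwise

namespace Pool.Agent.Y803.GR

universe u v w

section AS

variable {k : Type u} [Field k] {G : Type v} [Group G]

/-- The subalgebra of the elements supported on a subgroup. -/
noncomputable def AS (k : Type u) [Field k] {G : Type v} [Group G] (H : Subgroup G) :
    Subalgebra k (MonoidAlgebra k G) := (mp k H.subtype).range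

theorem AS_ind {H : Subgroup G} {P : MonoidAlgebra k G → Prop} (h0 : P 0)
    (hadd : ∀ x y, P x → P y → P (x + y))
    (hs : ∀ g ∈ H, ∀ r : k, P (MonoidAlgebra.single g r)) {x : MonoidAlgebra k G}
    (hx : x ∈ AS k H) : P x := by
  obtain ⟨y, rfl⟩ := hx
  show P (mp k H.subtype y)
  induction y using MonoidAlgebra.induction_linear with
  | zero => rw [map_zero]; exact h0
  | add a b ha hb => rw [map_add]; exact hadd _ _ ha hb
  | single g r => rw [mp_single]; exact hs _ g.2 r

theorem single_mem_AS {H : Subgroup G} {g : G} (hg : g ∈ H) (r : k) :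
    MonoidAlgebra.single g r ∈ AS k H :=
  ⟨MonoidAlgebra.single ⟨g, hg⟩ r, mp_single _ _ _⟩

theorem AS_mono {H H' : Subgroup G} (h : H ≤ H') : AS k H ≤ AS k H' := by
  intro x hx
  refine AS_ind (P := fun x => x ∈ AS k H') (zero_mem _) (fun _ _ => add_mem) ?_ hx
  intro g hg r
  exact single_mem_AS (h hg) r

theorem AS_comm {H H' : Subgroup G} (hc : ∀ a ∈ H, ∀ b ∈ H', a * b = b * a)
    {a b : MonoidAlgebra k G} (ha : a ∈ AS k H) (hb : b ∈ AS k H') : a * b = b * a := by
  refine AS_ind (P := fun a => a * b = b * a) (by rw [zero_mul, mul_zero])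
    (fun x y hx hy => by rw [add_mul, mul_add, hx, hy]) ?_ ha
  intro g hg r
  refine AS_ind (P := fun b => MonoidAlgebra.single g r * b = b * MonoidAlgebra.single g r)
    (by rw [zero_mul, mul_zero])
    (fun x y hx hy => by rw [add_mul, mul_add, hx, hy]) ?_ hb
  intro g' hg' r'
  rw [MonoidAlgebra.single_mul_single, MonoidAlgebra.single_mul_single, hc g hg g' hg',
    mul_comm r r']

theorem AS_supp {H : Subgroup G} {a : MonoidAlgebra k G} (ha : a ∈ AS k H) :
    ∀ g, a.coeff g ≠ 0 → g ∈ H := by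
  classical
  refine AS_ind (P := fun a => ∀ g, a.coeff g ≠ 0 → g ∈ H) ?_ ?_ ?_ ha
  · intro g hg
    exact absurd rfl hg
  · intro x y hx hy g hg
    rw [MonoidAlgebra.coeff_add, Finsupp.add_apply] at hg
    by_cases h : x.coeff g = 0
    · rw [h, zero_add] at hg
      exact hy g hg
    · exact hx g h
  · intro s hs r g hg
    by_cases h : s = g
    · exact h ▸ hs
    · exfalso
      apply hg
      simp [h]

theorem AS_mul_ne_zero {H H' : Subgroup G} (hd : ∀ a ∈ H, a ∈ H' → a = 1)
    {a b : MonoidAlgebra k G} (ha : a ∈ AS k H) (hb : b ∈ AS k H') (ha0 : a ≠ 0) (hb0 : b ≠ 0) :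
    a * b ≠ 0 := by
  classical
  have key : ∀ g ∈ H, ∀ g' ∈ H', (a * b).coeff (g * g') = a.coeff g * b.coeff g' := by
    intro g hg g' hg'
    refine AS_ind (P := fun a => (a * b).coeff (g * g') = a.coeff g * b.coeff g') ?_ ?_ ?_ ha
    · rw [zero_mul]; simp
    · intro x y hx hy
      rw [add_mul, MonoidAlgebra.coeff_add, MonoidAlgebra.coeff_add, Finsupp.add_apply,
        Finsupp.add_apply, hx, hy, add_mul]
    · intro s hs r
      refine AS_ind (P := fun b => (MonoidAlgebra.single s r * b).coeff (g * g') =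
        (MonoidAlgebra.single s r).coeff g * b.coeff g') ?_ ?_ ?_ hb
      · rw [mul_zero]; simp
      · intro x y hx hy
        rw [mul_add, MonoidAlgebra.coeff_add, MonoidAlgebra.coeff_add, Finsupp.add_apply,
          Finsupp.add_apply, hx, hy, mul_add]
      · intro t ht r'
        rw [MonoidAlgebra.single_mul_single]
        by_cases hsg : s = g
        · subst hsg
          by_cases htg : t = g'
          · subst htg
            simp
          · have : s * t ≠ s * g' := fun hh => htg (mul_left_cancel hh)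
            simp [this, htg]
        · have : s * t ≠ g * g' := by
            intro hh
            apply hsg
            have h1 : g⁻¹ * s = g' * t⁻¹ := by
              rw [inv_mul_eq_iff_eq_mul, ← mul_assoc, eq_mul_inv_iff_mul_eq]; exact hh
            have h2 : g⁻¹ * s = 1 := hd _ (H.mul_mem (H.inv_mem hg) hs)
              (h1 ▸ H'.mul_mem hg' (H'.inv_mem ht))
            exact (inv_mul_eq_one.mp h2).symm
          simp [this, hsg]
  intro hab
  have hsa : ∃ g ∈ H, a.coeff g ≠ 0 := by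
    obtain ⟨g, hg⟩ := Finsupp.ne_iff.1 (fun h0 => ha0 (MonoidAlgebra.coeff_eq_zero.1 h0) :
      a.coeff ≠ 0)
    exact ⟨g, AS_supp ha g hg, hg⟩
  have hsb : ∃ g ∈ H', b.coeff g ≠ 0 := by
    obtain ⟨g, hg⟩ := Finsupp.ne_iff.1 (fun h0 => hb0 (MonoidAlgebra.coeff_eq_zero.1 h0) :
      b.coeff ≠ 0)
    exact ⟨g, AS_supp hb g hg, hg⟩
  obtain ⟨g, hg, hg0⟩ := hsa
  obtain ⟨g', hg', hg'0⟩ := hsb
  have := key g hg g' hg'
  rw [hab] at this
  simp only [MonoidAlgebra.coeff_zero, Finsupp.coe_zero, Pi.zero_apply] at this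
  exact mul_ne_zero hg0 hg'0 this.symm

theorem AS_not_nilpotent {H H' : Subgroup G} (hc : ∀ a ∈ H, ∀ b ∈ H', a * b = b * a)
    (hd : ∀ a ∈ H, a ∈ H' → a = 1) {a b : MonoidAlgebra k G} (ha : a ∈ AS k H)
    (hb : b ∈ AS k H') (ha0 : ¬ IsNilpotent a) (hb0 : ¬ IsNilpotent b) :
    ¬ IsNilpotent (a * b) := by
  rintro ⟨n, hn⟩
  have hcc : Commute a b := AS_comm hc ha hb
  rw [hcc.mul_pow] at hn
  exact AS_mul_ne_zero hd (pow_mem ha n) (pow_mem hb n) (fun h0 => ha0 ⟨n, h0⟩)
    (fun h0 => hb0 ⟨n, h0⟩) hn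

/-- The radical contains no non-nilpotent element supported on a subgroup which commutes with a
disjoint subgroup whose group algebra contains a transcendental element. -/
theorem nil_of_commuting {H L : Subgroup G} (hc : ∀ a ∈ H, ∀ b ∈ L, a * b = b * a)
    (hd : ∀ a ∈ H, a ∈ L → a = 1) (y : MonoidAlgebra k L) (hy : Transcendental k y)
    {x : MonoidAlgebra k G} (hx : x ∈ Ideal.jacobson (⊥ : Ideal (MonoidAlgebra k G)))
    (hxH : x ∈ AS k H) : IsNilpotent x := by
  obtain ⟨x', rfl⟩ := hxH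
  have hnil := nil_of_prod (k := k) (prodHom H L hc) (prodHom_injective _ _ _ hd) y hy x' (by
    have hinl : (prodHom H L hc).comp (MonoidHom.inl H L) = H.subtype := by
      ext a
      show (a : G) * ((1 : L) : G) = a
      rw [OneMemClass.coe_one, mul_one]
    rw [hinl]
    exact hx)
  exact hnil.map (mp k H.subtype)

end AS

section

variable {k : Type u} [Field k] {G : Type v} [Group G] {X : Type w} [MulAction G X]
  (N : Subgroup G)

/-- The rigid stabiliser of `U` in `N`. -/
def RN (U : Set X) : Subgroup G := Rist G U ⊓ N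

/-- The elements which fix the complement of `F` and commute with the rigid stabiliser in `N` of
the complement of `F`. -/
def PN (F : Set X) : Subgroup G := Rist G F ⊓ Subgroup.centralizer (RN N Fᶜ : Set G)

variable {N}

theorem RN_mono {U V : Set X} (h : U ⊆ V) : RN N U ≤ RN N V :=
  inf_le_inf_right N (Rist_mono h)

theorem PN_mono {U V : Set X} (h : U ⊆ V) : PN N U ≤ PN N V := by
  refine inf_le_inf (Rist_mono h) (Subgroup.centralizer_le ?_)
  exact RN_mono (Set.compl_subset_compl.2 h)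

theorem PN_comm {F V : Set X} (h : Disjoint F V) : ∀ a ∈ PN N F, ∀ r ∈ RN N V,
    a * r = r * a := by
  intro a ha r hr
  exact (ha.2 r (RN_mono (Set.subset_compl_iff_disjoint_left.2 h) hr)).symm

theorem PN_disj (hf : ∀ n ∈ N, (∀ x : X, n • x = x) → n = 1) {F V : Set X} (h : Disjoint F V) :
    ∀ a ∈ PN N F, a ∈ RN N V → a = 1 := by
  intro a ha har
  refine hf a har.2 fun x => ?_
  by_cases hx : x ∈ F
  · exact har.1 x fun hV => Set.disjoint_left.1 h hx hV
  · exact ha.1 x hx

theorem RN_conj [N.Normal] {U : Set X} {a : G} (ha : a ∈ RN N U) (s : G) :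
    s⁻¹ * a * s ∈ RN N (s⁻¹ • U) := by
  refine ⟨Rist_conj ha.1 s, ?_⟩
  have := Subgroup.Normal.conj_mem (inferInstance : N.Normal) a ha.2 s⁻¹
  rwa [inv_inv] at this

theorem RN_comm (hf : ∀ n ∈ N, (∀ x : X, n • x = x) → n = 1) {U V : Set X} (h : Disjoint U V)
    {a b : G} (ha : a ∈ RN N U) (hb : b ∈ RN N V) : a * b = b * a := by
  have h1 : a * b * a⁻¹ * b⁻¹ = 1 := by
    refine hf _ (N.mul_mem (N.mul_mem (N.mul_mem ha.2 hb.2) (N.inv_mem ha.2)) (N.inv_mem hb.2))
      fun x => ?_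
    have h2 : ∀ x : X, (a * b) • x = (b * a) • x := by
      intro x
      rw [mul_smul, mul_smul]
      by_cases hx : x ∈ U
      · rw [hb.1 x (fun hV => Set.disjoint_left.1 h hx hV),
          hb.1 _ (fun hV => Set.disjoint_left.1 h (Rist_maps ha.1 hx) hV)]
      · rw [ha.1 x hx]
        by_cases hxV : x ∈ V
        · exact ha.1 _ (fun hU => Set.disjoint_left.1 h hU (Rist_maps hb.1 hxV))
        · rw [hb.1 x hxV, ha.1 x hx]
    rw [mul_assoc (a * b), mul_smul, h2, ← mul_smul]
    have : b * a * (a⁻¹ * b⁻¹) = 1 := by group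
    rw [this, one_smul]
  calc a * b = (a * b * a⁻¹ * b⁻¹) * (b * a) := by group
    _ = b * a := by rw [h1, one_mul]

theorem RN_le_PN (hf : ∀ n ∈ N, (∀ x : X, n • x = x) → n = 1) (U : Set X) :
    RN N U ≤ PN N U := by
  intro a ha
  refine ⟨ha.1, ?_⟩
  intro r hr
  exact (RN_comm hf disjoint_compl_right ha hr).symm

theorem ker_le_PN [N.Normal] (hf : ∀ n ∈ N, (∀ x : X, n • x = x) → n = 1) {c : G}
    (hc : ∀ x : X, c • x = x) (F : Set X) : c ∈ PN N F := by
  refine ⟨fun x _ => hc x, ?_⟩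
  intro r hr
  have hc' : ∀ x : X, c⁻¹ • x = x := fun x => by rw [inv_smul_eq_iff, hc]
  have h1 : c * r * c⁻¹ * r⁻¹ = 1 := by
    refine hf _ (N.mul_mem (Subgroup.Normal.conj_mem (inferInstance : N.Normal) r hr.2 c)
      (N.inv_mem hr.2)) fun x => ?_
    rw [mul_smul, mul_smul, mul_smul, hc', hc, smul_inv_smul]
  have h2 : c * r = r * c := by
    calc c * r = (c * r * c⁻¹ * r⁻¹) * (r * c) := by group
      _ = r * c := by rw [h1, one_mul]
  exact h2.symm

/-- The killing operator of an element `y` of the rigid stabiliser of `U` in `N`. -/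
theorem killN [N.Normal] {g y : G} {U : Set X} (hy : y ∈ RN N U) :
    ∃ Ψ : MonoidAlgebra k G →+ MonoidAlgebra k G,
    (∀ I : Ideal (MonoidAlgebra k G), I.IsTwoSided → ∀ x ∈ I, Ψ x ∈ I) ∧
    (∀ F : Set X, Disjoint F U → ∀ w ∈ AS k (PN N F),
      Ψ w = w * (1 - MonoidAlgebra.single (y * (g⁻¹ * y⁻¹ * g)) 1)) ∧
    (∀ F : Set X, Disjoint F (g⁻¹ • U) → ∀ w ∈ AS k (PN N F),
      Ψ (MonoidAlgebra.single g 1 * w) = 0) ∧
    (∀ (Z : Subgroup G) (s : G), s⁻¹ * y * s ∈ Z → g⁻¹ * y⁻¹ * g ∈ Z → ∀ w ∈ AS k Z,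
      ∃ w' ∈ AS k Z, Ψ (MonoidAlgebra.single s 1 * w) = MonoidAlgebra.single s 1 * w') := by
  set Y : MonoidAlgebra k G := MonoidAlgebra.single y 1 with hY
  set Y' : MonoidAlgebra k G := MonoidAlgebra.single (g⁻¹ * y⁻¹ * g) 1 with hY'
  have hy' : g⁻¹ * y⁻¹ * g ∈ RN N (g⁻¹ • U) := RN_conj ((RN N U).inv_mem hy) g
  refine ⟨{ toFun := fun x => x - Y * x * Y'
            map_zero' := by simp
            map_add' := by
              intro x x'
              simp only [mul_add, add_mul]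
              abel }, ?_, ?_, ?_, ?_⟩
  · intro I hI x hx
    exact I.sub_mem hx (Ideal.mul_mem_right _ _ (I.mul_mem_left _ hx))
  · intro F hF w hw
    show w - Y * w * Y' = _
    have e1 : Y * w = w * Y :=
      (AS_comm (PN_comm hF) hw (single_mem_AS hy 1)).symm
    rw [e1, mul_sub, mul_one, mul_assoc, hY, hY', MonoidAlgebra.single_mul_single, mul_one]
  · intro F hF w hw
    show MonoidAlgebra.single g 1 * w - Y * (MonoidAlgebra.single g 1 * w) * Y' = 0
    have e2 : w * Y' = Y' * w := AS_comm (PN_comm hF) hw (single_mem_AS hy' 1)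
    rw [← mul_assoc, mul_assoc _ w Y', e2, ← mul_assoc, hY, hY',
      MonoidAlgebra.single_mul_single, MonoidAlgebra.single_mul_single, mul_one, mul_one]
    have e3 : y * g * (g⁻¹ * y⁻¹ * g) = g := by group
    rw [e3, sub_self]
  · intro Z s h1 h2 w hw
    refine ⟨w - MonoidAlgebra.single (s⁻¹ * y * s) 1 * w * Y', ?_, ?_⟩
    · exact sub_mem hw (mul_mem (mul_mem (single_mem_AS h1 1) hw) (single_mem_AS h2 1))
    · show MonoidAlgebra.single s 1 * w - Y * (MonoidAlgebra.single s 1 * w) * Y' = _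
      have e1 : Y * MonoidAlgebra.single s 1 =
          MonoidAlgebra.single s 1 * MonoidAlgebra.single (s⁻¹ * y * s) 1 := by
        rw [hY, MonoidAlgebra.single_mul_single, MonoidAlgebra.single_mul_single]
        congr 1
        group
      rw [← mul_assoc Y, e1, mul_sub]
      simp only [mul_assoc]

theorem reduceN [N.Normal] [DecidableEq G] (hf : ∀ n ∈ N, (∀ x : X, n • x = x) → n = 1)
    (S : Finset G) (h1S : 1 ∈ S) (U : G → Set X) (y : G → G)
    (c1 : ∀ g ∈ S, g ≠ 1 → Disjoint (U g) (g⁻¹ • U g))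
    (c2 : ∀ g ∈ S, g ≠ 1 → ∀ h ∈ S, h ≠ 1 → g ≠ h → ∀ s ∈ S, ∀ t ∈ S,
      Disjoint (s⁻¹ • U g) (t⁻¹ • U h))
    (hy : ∀ g ∈ S, g ≠ 1 → y g ∈ RN N (U g))
    (hyn : ∀ g ∈ S, g ≠ 1 → ¬ IsNilpotent
      (1 - MonoidAlgebra.single (y g * (g⁻¹ * (y g)⁻¹ * g)) 1 : MonoidAlgebra k G))
    (P : MonoidAlgebra k G → Prop) (hP : ∀ w, P w → ∀ g ∈ S, g ≠ 1 →
      P (w * (1 - MonoidAlgebra.single (y g * (g⁻¹ * (y g)⁻¹ * g)) 1)))
    (I : Ideal (MonoidAlgebra k G)) (hI : I.IsTwoSided) (T : Finset G) :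
    (∀ g ∈ T, g ∈ S ∧ g ≠ 1) → ∀ w : G → MonoidAlgebra k G, P (w 1) →
    (∀ s ∈ insert 1 T, w s ∈ AS k (PN N (FF S U T))) → ¬ IsNilpotent (w 1) →
    (∑ s ∈ insert 1 T, MonoidAlgebra.single s 1 * w s) ∈ I →
    ∃ w' ∈ I, P w' ∧ w' ∈ AS k (PN N (FF S U ∅)) ∧ ¬ IsNilpotent w' := by
  induction T using Finset.induction_on with
  | empty =>
    intro _ w hwP hw hw1 hx
    refine ⟨w 1, ?_, hwP, hw 1 (by simp), hw1⟩
    have h1 : (∑ s ∈ insert 1 (∅ : Finset G), MonoidAlgebra.single s 1 * w s) = w 1 := by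
      rw [Finset.sum_insert (by simp), Finset.sum_empty, add_zero, ← MonoidAlgebra.one_def,
        one_mul]
    rwa [h1] at hx
  | insert g T hgT ih =>
    intro hT w hwP hw hw1 hx
    obtain ⟨hgS, hg1⟩ := hT g (Finset.mem_insert_self g T)
    obtain ⟨Ψ, a1, a2, a3, a4⟩ := killN (k := k) (g := g) (hy g hgS hg1)
    set F := FF S U (insert g T) with hF
    have hd1 : Disjoint F (U g) := by
      rw [Set.disjoint_left]
      rintro x ⟨g', hg'S, hg'1, hg'T, s, hs, hx⟩ hxg
      have hne : g' ≠ g := fun h => hg'T (h ▸ Finset.mem_insert_self g T)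
      have := c2 g' hg'S hg'1 g hgS hg1 hne s hs 1 h1S
      rw [inv_one, one_smul] at this
      exact Set.disjoint_left.1 this hx hxg
    have hd2 : Disjoint F (g⁻¹ • U g) := by
      rw [Set.disjoint_left]
      rintro x ⟨g', hg'S, hg'1, hg'T, s, hs, hx⟩ hxg
      have hne : g' ≠ g := fun h => hg'T (h ▸ Finset.mem_insert_self g T)
      exact Set.disjoint_left.1 (c2 g' hg'S hg'1 g hgS hg1 hne s hs g hgS) hx hxg
    have hFsub : F ⊆ FF S U T := by
      rintro x ⟨g', hg'S, hg'1, hg'T, hx⟩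
      exact ⟨g', hg'S, hg'1, fun h => hg'T (Finset.mem_insert_of_mem h), hx⟩
    have hUsub : ∀ s ∈ S, s⁻¹ • U g ⊆ FF S U T := fun s hs x hx => ⟨g, hgS, hg1, hgT, s, hs, hx⟩
    have hUsub1 : U g ⊆ FF S U T := by
      have := hUsub 1 h1S
      rwa [inv_one, one_smul] at this
    have hyg : g⁻¹ * (y g)⁻¹ * g ∈ RN N (g⁻¹ • U g) := RN_conj ((RN N _).inv_mem (hy g hgS hg1)) g
    have hZg : g⁻¹ * (y g)⁻¹ * g ∈ PN N (FF S U T) :=
      RN_le_PN hf _ (RN_mono (hUsub g hgS) hyg)
    have hZs : ∀ s ∈ S, s⁻¹ * y g * s ∈ PN N (FF S U T) := fun s hs =>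
      RN_le_PN hf _ (RN_mono (hUsub s hs) (RN_conj (hy g hgS hg1) s))
    have hex : ∀ s : G, ∃ w' : MonoidAlgebra k G, s ∈ insert 1 (insert g T) →
        w' ∈ AS k (PN N (FF S U T)) ∧
        Ψ (MonoidAlgebra.single s 1 * w s) = MonoidAlgebra.single s 1 * w' := by
      intro s
      by_cases hs : s ∈ insert 1 (insert g T)
      · have hsS : s ∈ S := by
          rcases Finset.mem_insert.1 hs with h | h
          · exact h ▸ h1S
          · exact (hT s h).1
        obtain ⟨w', hw', he⟩ := a4 (PN N (FF S U T)) s (hZs s hsS) hZg (w s)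
          (AS_mono (PN_mono hFsub) (hw s hs))
        exact ⟨w', fun _ => ⟨hw', he⟩⟩
      · exact ⟨0, fun h => absurd h hs⟩
    choose w' hw' using hex
    set z : MonoidAlgebra k G := 1 - MonoidAlgebra.single (y g * (g⁻¹ * (y g)⁻¹ * g)) 1 with hz
    have hzR : z ∈ AS k (RN N (U g ∪ g⁻¹ • U g)) := by
      refine sub_mem (one_mem _) (single_mem_AS ((RN N _).mul_mem ?_ ?_) 1)
      · exact RN_mono Set.subset_union_left (hy g hgS hg1)
      · exact RN_mono Set.subset_union_right hyg
    let w'' : G → MonoidAlgebra k G := fun s => if s = 1 then w 1 * z else w' s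
    have h1T : (1 : G) ∉ T := fun h => (hT 1 (Finset.mem_insert_of_mem h)).2 rfl
    have h1gT : (1 : G) ∉ insert g T := fun h => (hT 1 h).2 rfl
    refine ih (fun h hh => hT h (Finset.mem_insert_of_mem hh)) w'' ?_ ?_ ?_ ?_
    · simp only [w'', if_true]
      exact hP _ hwP g hgS hg1
    · intro s hs
      by_cases h : s = 1
      · simp only [w'', h, if_true]
        refine mul_mem (AS_mono (PN_mono hFsub) (hw 1 (Finset.mem_insert_self _ _)))
          (AS_mono ?_ hzR)
        refine le_trans (RN_le_PN hf _) (PN_mono ?_)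
        exact Set.union_subset hUsub1 (hUsub g hgS)
      · simp only [w'', h, if_false]
        have hsT : s ∈ T := (Finset.mem_insert.1 hs).resolve_left h
        exact (hw' s (Finset.mem_insert_of_mem (Finset.mem_insert_of_mem hsT))).1
    · simp only [w'', if_true]
      have hdd : Disjoint F (U g ∪ g⁻¹ • U g) := Set.disjoint_union_right.2 ⟨hd1, hd2⟩
      exact AS_not_nilpotent (PN_comm hdd) (PN_disj hf hdd)
        (hw 1 (Finset.mem_insert_self _ _)) hzR hw1 (hyn g hgS hg1)
    · have h2 := a1 I hI _ hx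
      have h3 : Ψ (∑ s ∈ insert 1 (insert g T), MonoidAlgebra.single s 1 * w s) =
          ∑ s ∈ insert 1 T, MonoidAlgebra.single s 1 * w'' s := by
        rw [map_sum, Finset.sum_insert h1gT, Finset.sum_insert hgT, Finset.sum_insert h1T,
          a3 F hd2 (w g) (hw g (Finset.mem_insert_of_mem (Finset.mem_insert_self _ _))), zero_add]
        congr 1
        · have e1 : (MonoidAlgebra.single (1 : G) (1 : k)) * w 1 = w 1 := by
            rw [← MonoidAlgebra.one_def, one_mul]
          rw [e1, a2 F hd1 (w 1) (hw 1 (Finset.mem_insert_self _ _))]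
          simp only [w'', if_true]
          rw [← MonoidAlgebra.one_def, one_mul]
        · apply Finset.sum_congr rfl
          intro s hs
          have hs1 : s ≠ 1 := fun h => h1T (h ▸ hs)
          have hsm : s ∈ insert 1 (insert g T) :=
            Finset.mem_insert_of_mem (Finset.mem_insert_of_mem hs)
          rw [(hw' s hsm).2]
          simp only [w'', hs1, if_false]
      rwa [h3] at h2

end

end Pool.Agent.Y803.GR
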