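import Pool.Agent.Y803.GR.Nor

/-!
Semiprimitivity of group algebras over real fields: groups with a normal subgroup of
homeomorphisms with large rigid stabilisers, and groups with large centralisers.
-/

set_option autoImplicit false

open Polynomial Pointwise

namespace Pool.Agent.Y803.GR

universe u v w

section points

variable {G : Type v} [Group G] {X : Type w} [TopologicalSpace X] [T2Space X] [MulAction G X]

theorem infinite_of_openN {N : Subgroup G} (hf : ∀ n ∈ N, (∀ x : X, n • x = x) → n = 1)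
    (h : ∀ U : Set X, IsOpen U → U.Nonempty → ∃ a ∈ RN N U, a ≠ 1) {U : Set X}
    (hU : IsOpen U) (hne : U.Nonempty) : U.Infinite := by
  obtain ⟨p, hp⟩ := hne
  by_contra hfin
  rw [Set.not_infinite] at hfin
  have h1 : IsOpen ({p} : Set X) := by
    have h2 : ({p} : Set X) = U \ (U \ {p}) := by
      rw [Set.sdiff_sdiff_cancel_left (Set.singleton_subset_iff.2 hp)]
    rw [h2]
    exact hU.sdiff (hfin.subset Set.sdiff_subset).isClosed
  obtain ⟨a, ha, ha1⟩ := h {p} h1 ⟨p, rfl⟩
  apply ha1
  refine hf a ha.2 fun x => ?_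
  by_cases hx : x = p
  · subst hx
    exact Rist_maps ha.1 rfl
  · exact ha.1 x hx

variable [ContinuousConstSMul G X]

theorem exists_setsN [DecidableEq G] [DecidableEq X]
    (S : Finset G) (h1S : 1 ∈ S) (hmov : ∀ g ∈ S, g ≠ 1 → ∃ p : X, g⁻¹ • p ≠ p)
    (hinf : ∀ U : Set X, IsOpen U → U.Nonempty → U.Infinite) (E : Set X) (hE : IsOpen E)
    (hEne : E.Nonempty) :
    ∃ U : G → Set X, (∀ g, IsOpen (U g) ∧ (U g).Nonempty) ∧ U 1 ⊆ E ∧
      (∀ g ∈ S, g ≠ 1 → Disjoint (U g) (g⁻¹ • U g)) ∧
      (∀ g ∈ S, ∀ h ∈ S, g ≠ h → ∀ s ∈ S, ∀ t ∈ S, Disjoint (s⁻¹ • U g) (t⁻¹ • U h)) := by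
  let E' : G → Set X := fun g => if g ∈ S ∧ g ≠ 1 then {p | g⁻¹ • p ≠ p} else E
  have hE'o : ∀ g, IsOpen (E' g) := by
    intro g
    by_cases hg : g ∈ S ∧ g ≠ 1
    · simp only [E', if_pos hg]
      exact isOpen_ne_fun (continuous_const_smul _) continuous_id
    · simp only [E', if_neg hg]; exact hE
  have hE'n : ∀ g, (E' g).Nonempty := by
    intro g
    by_cases hg : g ∈ S ∧ g ≠ 1
    · simp only [E', if_pos hg]
      exact hmov g hg.1 hg.2
    · simp only [E', if_neg hg]; exact hEne
  let bad : X → Finset X := fun p => (S ×ˢ S).image fun st => st.1 • st.2⁻¹ • p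
  obtain ⟨f, hf1, hf2⟩ := greedy (S.card * S.card) (S.card * S.card * S.card) bad
    (fun a => le_trans Finset.card_image_le (le_of_eq (Finset.card_product S S)))
    (by
      intro a b hab
      obtain ⟨⟨s, t⟩, hst, rfl⟩ := Finset.mem_image.1 hab
      rw [Finset.mem_product] at hst
      refine Finset.mem_image.2 ⟨(t, s), Finset.mem_product.2 ⟨hst.2, hst.1⟩, ?_⟩
      show t • s⁻¹ • s • t⁻¹ • b = b
      rw [inv_smul_smul, smul_inv_smul])
    E' (fun i B _ => (hinf _ (hE'o i) (hE'n i)).exists_notMem_finset B) S le_rfl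
  let P : Set X := ↑((S ×ˢ S).image fun st : G × G => st.1⁻¹ • f st.2)
  have hP : ∀ s ∈ S, ∀ g ∈ S, s⁻¹ • f g ∈ P := fun s hs g hg =>
    Finset.mem_coe.2 (Finset.mem_image.2 ⟨(s, g), Finset.mem_product.2 ⟨hs, hg⟩, rfl⟩)
  obtain ⟨O, hO1, hO2⟩ := (Finset.finite_toSet ((S ×ˢ S).image
    fun st : G × G => st.1⁻¹ • f st.2) : P.Finite).t2_separation
  let U : G → Set X := fun g => (⋂ s ∈ S, s • O (s⁻¹ • f g)) ∩ E' g
  have hUo : ∀ s ∈ S, ∀ g, s⁻¹ • U g ⊆ O (s⁻¹ • f g) := by
    rintro s hs g _ ⟨x, hx, rfl⟩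
    have h1 : x ∈ s • O (s⁻¹ • f g) := by
      have := hx.1
      simp only [Set.mem_iInter] at this
      exact this s hs
    rw [Set.mem_smul_set_iff_inv_smul_mem] at h1
    exact h1
  refine ⟨U, ?_, ?_, ?_, ?_⟩
  · intro g
    refine ⟨(isOpen_biInter_finset fun s _ => (hO1 _).2.smul s).inter (hE'o g), f g, ?_, hf1 g⟩
    simp only [Set.mem_iInter]
    intro s _
    rw [Set.mem_smul_set_iff_inv_smul_mem]
    exact (hO1 _).1
  · intro x hx
    have := hx.2
    have hn : ¬ ((1 : G) ∈ S ∧ (1 : G) ≠ 1) := fun h => h.2 rfl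
    simp only [E', if_neg hn] at this
    exact this
  · intro g hg hg1
    have h1 : U g ⊆ O ((1 : G)⁻¹ • f g) := by
      have := hUo 1 h1S g
      rw [inv_one, one_smul, one_smul] at this
      rw [inv_one, one_smul]
      exact this
    have h2 := hUo g hg g
    refine Set.disjoint_of_subset h1 h2 (hO2 (hP 1 h1S g hg) (hP g hg g hg) ?_)
    rw [inv_one, one_smul]
    have h3 := hf1 g
    simp only [E', if_pos (⟨hg, hg1⟩ : g ∈ S ∧ g ≠ 1)] at h3
    exact fun h => h3 h.symm
  · intro g hg h hh hgh s hs t ht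
    refine Set.disjoint_of_subset (hUo s hs g) (hUo t ht h) (hO2 (hP s hs g hg) (hP t ht h hh) ?_)
    intro heq
    apply hf2 g hg h hh hgh
    refine Finset.mem_image.2 ⟨(s, t), Finset.mem_product.2 ⟨hs, ht⟩, ?_⟩
    show s • t⁻¹ • f h = f g
    rw [← heq, smul_inv_smul]

end points

section restriction

variable {k : Type u} [Field k] {G : Type v} [Group G]

open Classical in
/-- The restriction of an element of the group algebra to a subgroup. -/
noncomputable def resH (H : Subgroup G) (x : MonoidAlgebra k G) : MonoidAlgebra k G :=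
  .ofCoeff (x.coeff.filter (· ∈ H))

open Classical in
theorem coeff_resH (H : Subgroup G) (x : MonoidAlgebra k G) (g : G) :
    (resH H x).coeff g = if g ∈ H then x.coeff g else 0 := by
  unfold resH
  rw [MonoidAlgebra.coeff_ofCoeff, Finsupp.filter_apply]

theorem resH_mem (H : Subgroup G) (x : MonoidAlgebra k G) : resH H x ∈ AS k H := by
  obtain ⟨y, hy⟩ := exists_of_support H (resH H x) (by
    intro g hg
    rw [Finsupp.mem_support_iff, coeff_resH] at hg
    by_contra h
    rw [if_neg h] at hg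
    exact hg rfl)
  exact ⟨y, hy⟩

theorem st_resH (H : Subgroup G) {x : MonoidAlgebra k G} (hx : st x = x) :
    st (resH H x) = resH H x := by
  ext g
  rw [coeff_st, coeff_resH, coeff_resH]
  have h1 : x.coeff g⁻¹ = x.coeff g := by rw [← coeff_st, hx]
  by_cases h : g ∈ H
  · rw [if_pos h, if_pos (H.inv_mem h), h1]
  · rw [if_neg h, if_neg (fun h' => h ((Subgroup.inv_mem_iff H).1 h'))]

open Classical in
theorem eq_sum_resH (H : Subgroup G) (x : MonoidAlgebra k G) :
    x = ∑ s ∈ insert 1 (x.coeff.support.filter (· ∉ H)), MonoidAlgebra.single s 1 *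
      (if s = 1 then resH H x else algebraMap k (MonoidAlgebra k G) (x.coeff s)) := by
  have h1 : (1 : G) ∉ x.coeff.support.filter (· ∉ H) := by
    rw [Finset.mem_filter]
    exact fun h => h.2 H.one_mem
  rw [Finset.sum_insert h1, if_pos rfl, ← MonoidAlgebra.one_def, one_mul]
  have h2 : ∀ s ∈ x.coeff.support.filter (· ∉ H), MonoidAlgebra.single s 1 *
      (if s = 1 then resH H x else algebraMap k (MonoidAlgebra k G) (x.coeff s)) =
      MonoidAlgebra.single s (x.coeff s) := by
    intro s hs
    have hs1 : s ≠ 1 := fun h => h1 (h ▸ hs)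
    rw [if_neg hs1, MonoidAlgebra.coe_algebraMap, Function.comp_apply,
      MonoidAlgebra.single_mul_single, mul_one, one_mul]
    rfl
  rw [Finset.sum_congr rfl h2]
  ext g
  rw [MonoidAlgebra.coeff_add, Finsupp.add_apply, coeff_resH, MonoidAlgebra.coeff_sum,
    Finsupp.finsetSum_apply]
  simp only [MonoidAlgebra.coeff_single, Finsupp.single_apply]
  rw [Finset.sum_ite_eq']
  by_cases hg : g ∈ H
  · rw [if_pos hg, if_neg (by rw [Finset.mem_filter]; exact fun h => h.2 hg), add_zero]
  · rw [if_neg hg, zero_add]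
    by_cases h0 : x.coeff g = 0
    · rw [h0, ite_self]
    · rw [if_pos (Finset.mem_filter.2 ⟨Finsupp.mem_support_iff.2 h0, hg⟩)]

end restriction

section main

variable {G : Type v} [Group G]

/-- An algebraic element which is not nilpotent has a nonzero idempotent multiple. -/
theorem exists_idempotent {k : Type u} [Field k] {R : Type v} [Ring R] [Algebra k R] {c : R}
    (hc : IsAlgebraic k c) (hn : ¬ IsNilpotent c) :
    ∃ u ∈ Algebra.adjoin k {c}, (c * u) * (c * u) = c * u ∧ c * u ≠ 0 := by
  obtain ⟨p, hp, h0⟩ := hc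
  obtain ⟨q, hq, hdvd⟩ := exists_eq_pow_rootMultiplicity_mul_and_not_dvd p hp 0
  set n := rootMultiplicity 0 p
  rw [map_zero, sub_zero] at hq hdvd
  rw [X_dvd_iff] at hdvd
  set d := q.coeff 0 with hd
  have hq2 := divX_mul_X_add q
  -- `c ^ n * q(c) = 0` and `q(c) = d + c * q₁(c)`
  have h1 : c ^ n * aeval c q = 0 := by
    rw [← h0, hq, map_mul, map_pow, aeval_X]
  have h2 : aeval c q = algebraMap k R d + c * aeval c q.divX := by
    conv_lhs => rw [← hq2]
    have h3 : aeval c (q.divX * X) = aeval c (X * q.divX) := by rw [mul_comm]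
    rw [map_add, aeval_C, h3, map_mul, aeval_X, add_comm]
  set r : R := -(algebraMap k R d⁻¹ * aeval c q.divX) with hr
  have hrc : Commute c r := by
    rw [hr]
    refine Commute.neg_right (Commute.mul_right (Algebra.commutes _ _).symm ?_)
    have h3 : aeval c (q.divX * X) = aeval c (X * q.divX) := by rw [mul_comm]
    rw [map_mul, map_mul, aeval_X] at h3
    exact h3.symm
  have hdd : algebraMap k R d⁻¹ * algebraMap k R d = 1 := by
    rw [← map_mul, inv_mul_cancel₀ hdvd, map_one]
  have h4 : c ^ n * (c * r) = c ^ n := by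
    have h5 : algebraMap k R d⁻¹ * (c ^ n * aeval c q) = 0 := by rw [h1, mul_zero]
    have h6 : algebraMap k R d⁻¹ * (c ^ n * aeval c q) = c ^ n - c ^ n * (c * r) := by
      rw [← mul_assoc, Algebra.commutes, mul_assoc, h2, mul_add, hdd, hr, mul_add, mul_one,
        mul_neg, mul_neg, sub_neg_eq_add, ← mul_assoc _ c, Algebra.commutes, mul_assoc c]
    rw [h6] at h5
    exact (sub_eq_zero.1 h5).symm
  have h7 : ∀ m : ℕ, c ^ n * (c * r) ^ m = c ^ n := by
    intro m
    induction m with
    | zero => rw [pow_zero, mul_one]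
    | succ m ih => rw [pow_succ', ← mul_assoc, h4, ih]
  have hcn : c ^ n ≠ 0 := fun h => hn ⟨n, h⟩
  have hrmem : r ∈ Algebra.adjoin k {c} := by
    rw [hr]
    exact neg_mem (mul_mem (algebraMap_mem _ _) (aeval_mem_adjoin_singleton k c))
  have hcmem : c ∈ Algebra.adjoin k {c} := Algebra.subset_adjoin rfl
  refine ⟨r * (c * r) ^ n, mul_mem hrmem (pow_mem (mul_mem hcmem hrmem) n), ?_, ?_⟩
  · have h8 : c * (r * (c * r) ^ n) = (c * r) ^ (n + 1) := by rw [pow_succ', mul_assoc]
    rw [h8, ← pow_add]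
    have h9 : ∀ m : ℕ, (c * r) ^ (n + m) = (c * r) ^ n := by
      intro m
      rw [pow_add, hrc.mul_pow, (hrc.pow_pow n n).eq, mul_assoc, h7 m]
    have e1 : n + 1 + (n + 1) = n + (n + 2) := by ring
    rw [e1, h9, h9]
  · intro h8
    have h9 : c ^ n * (c * (r * (c * r) ^ n)) = c ^ n := by
      rw [← mul_assoc c, ← pow_succ', h7]
    rw [h8, mul_zero] at h9
    exact hcn h9.symm

/-- If `b` is supported on `K` and `e` is a nonzero idempotent supported on a subgroup `N` which
commutes with `K` and meets it in `1`, and if `b e` is in the radical, then `b` is in the radical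
of `k[K]`. -/
theorem mem_jacobson_of_idempotent {k : Type u} [Field k] {K N : Subgroup G}
    (hc : ∀ a ∈ K, ∀ b ∈ N, a * b = b * a) (hd : ∀ a ∈ K, a ∈ N → a = 1)
    (b : MonoidAlgebra k K) {e : MonoidAlgebra k G} (he : e ∈ AS k N) (hee : e * e = e)
    (he0 : e ≠ 0)
    (hbe : mp k K.subtype b * e ∈ Ideal.jacobson (⊥ : Ideal (MonoidAlgebra k G))) :
    b ∈ Ideal.jacobson (⊥ : Ideal (MonoidAlgebra k K)) := by
  classical
  obtain ⟨e', he'⟩ := he
  have he'' : mp k N.subtype e' = e := he'
  clear he'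
  subst he''
  have he'0 : e' ≠ 0 := by
    rintro rfl
    exact he0 (map_zero _)
  obtain ⟨lam, hlam⟩ : ∃ lam : MonoidAlgebra k N →ₗ[k] k, lam e' = 1 := by
    obtain ⟨g, hg⟩ := LinearMap.exists_leftInverse_of_injective
      (LinearMap.toSpanSingleton k (MonoidAlgebra k N) e') (LinearMap.ker_toSpanSingleton _ he'0)
    refine ⟨g, ?_⟩
    have := congrArg (fun f => f 1) hg
    simpa using this
  let ψ := prodHom K N hc
  have hψ : Function.Injective ψ := prodHom_injective K N hc hd
  let L₀ : G → MonoidAlgebra k K := fun g =>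
    if h : ∃ p : K × N, ψ p = g then
      MonoidAlgebra.single h.choose.1 (lam (MonoidAlgebra.single h.choose.2 1)) else 0
  have hL₀ : ∀ (a : K) (n : N), L₀ (ψ (a, n)) =
      MonoidAlgebra.single a (lam (MonoidAlgebra.single n 1)) := by
    intro a n
    have hex : ∃ p : K × N, ψ p = ψ (a, n) := ⟨_, rfl⟩
    have h1 : hex.choose = (a, n) := hψ hex.choose_spec
    simp only [L₀, dif_pos hex, h1]
  have hL₀' : ∀ g : G, (¬ ∃ p : K × N, ψ p = g) → L₀ g = 0 := fun g hg => by
    simp only [L₀, dif_neg hg]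
  let Lam : MonoidAlgebra k G →+ MonoidAlgebra k K :=
    { toFun := fun x => x.coeff.sum fun g r => r • L₀ g
      map_zero' := by simp
      map_add' := by
        intro x y
        rw [MonoidAlgebra.coeff_add, Finsupp.sum_add_index']
        · intro g; rw [zero_smul]
        · intro g r s; rw [add_smul] }
  have hLam : ∀ (g : G) (r : k), Lam (MonoidAlgebra.single g r) = r • L₀ g := by
    intro g r
    show (MonoidAlgebra.single g r).coeff.sum (fun g r => r • L₀ g) = _
    rw [MonoidAlgebra.coeff_single, Finsupp.sum_single_index (by rw [zero_smul])]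
  have hmul : ∀ (z : MonoidAlgebra k G) (a : MonoidAlgebra k K),
      Lam (z * mp k K.subtype a) = Lam z * a := by
    intro z a
    induction z using MonoidAlgebra.induction_linear with
    | zero => simp
    | add x y hx hy => rw [add_mul, map_add, map_add, add_mul, hx, hy]
    | single g r =>
      induction a using MonoidAlgebra.induction_linear with
      | zero => simp
      | add x y hx hy => rw [map_add, mul_add, map_add, mul_add, hx, hy]
      | single κ s =>
        rw [mp_single, MonoidAlgebra.single_mul_single, hLam, hLam]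
        by_cases hg : ∃ p : K × N, ψ p = g
        · obtain ⟨⟨a, n⟩, rfl⟩ := hg
          have e1 : ψ (a, n) * K.subtype κ = ψ (a * κ, n) := by
            show ((a : G) * n) * κ = ((a * κ : K) : G) * n
            rw [Subgroup.coe_mul, mul_assoc, mul_assoc, hc _ κ.2 _ n.2]
          rw [e1, hL₀, hL₀, MonoidAlgebra.smul_single, MonoidAlgebra.smul_single,
            MonoidAlgebra.single_mul_single]
          congr 1
          rw [smul_eq_mul, smul_eq_mul]
          ring
        · rw [hL₀' g hg, smul_zero, zero_mul, hL₀', smul_zero]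
          rintro ⟨⟨a, n⟩, hp⟩
          apply hg
          refine ⟨(a * κ⁻¹, n), ?_⟩
          show ((a * κ⁻¹ : K) : G) * n = g
          have hp' : (a : G) * n = g * κ := hp
          rw [Subgroup.coe_mul, mul_assoc, Subgroup.coe_inv,
            hc _ (K.inv_mem κ.2) _ n.2, ← mul_assoc, hp', mul_inv_cancel_right]
  have hLe : Lam (mp k N.subtype e') = 1 := by
    have h1 : ∀ y : MonoidAlgebra k N, Lam (mp k N.subtype y) =
        MonoidAlgebra.single 1 (lam y) := by
      intro y
      induction y using MonoidAlgebra.induction_linear with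
      | zero => simp
      | add x y hx hy => rw [map_add, map_add, map_add, hx, hy, MonoidAlgebra.single_add]
      | single n r =>
        rw [mp_single, hLam]
        have e1 : N.subtype n = ψ (1, n) := by
          show (n : G) = ((1 : K) : G) * n
          rw [OneMemClass.coe_one, one_mul]
        rw [e1, hL₀, MonoidAlgebra.smul_single]
        congr 1
        rw [← map_smul, MonoidAlgebra.smul_single, smul_eq_mul, mul_one]
    rw [h1, hlam, MonoidAlgebra.one_def]
  rw [Ideal.mem_jacobson_iff]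
  intro y
  obtain ⟨z, hz⟩ := Ideal.mem_jacobson_iff.1 hbe (mp k K.subtype y)
  rw [Ideal.mem_bot, sub_eq_zero] at hz
  set E := mp k N.subtype e' with hE
  refine ⟨Lam (z * E), ?_⟩
  rw [Ideal.mem_bot, sub_eq_zero]
  have hcom : ∀ a : MonoidAlgebra k K, mp k K.subtype a * E = E * mp k K.subtype a := fun a =>
    AS_comm hc ⟨a, rfl⟩ ⟨e', rfl⟩
  have h2 : z * E * mp k K.subtype (y * b) + z * E = E := by
    calc z * E * mp k K.subtype (y * b) + z * E
        = (z * mp k K.subtype y * (mp k K.subtype b * E) + z) * E := by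
          rw [add_mul]
          congr 1
          rw [map_mul, mul_assoc z E, ← mul_assoc E, ← hcom y, mul_assoc _ E, ← hcom b]
          simp only [mul_assoc, hee]
      _ = E := by rw [hz, one_mul]
  have h3 := congrArg Lam h2
  rw [map_add, hmul, hLe, ← mul_assoc] at h3
  exact h3

/-- **Theorem.** Over a real field: let `G` act on the Hausdorff space `X` with kernel `K`, and let
`N` be a normal subgroup which acts faithfully and whose rigid stabilisers of nonempty open sets
are not trivial. If `J(k[K]) = 0`, or if these rigid stabilisers are not locally finite, then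
`J(k[G]) = 0`. -/
theorem jacobson_normal (k : Type u) [Field k] [CharZero k] (hR : RealFor k G)
    (X : Type w) [TopologicalSpace X] [T2Space X] [MulAction G X] [ContinuousConstSMul G X]
    (N : Subgroup G) [N.Normal] (hf : ∀ n ∈ N, (∀ x : X, n • x = x) → n = 1)
    (h0 : ∀ U : Set X, IsOpen U → U.Nonempty → ∃ a ∈ RN N U, a ≠ 1)
    (hor : Ideal.jacobson (⊥ : Ideal (MonoidAlgebra k (Rist G (∅ : Set X)))) = ⊥ ∨
      (Nonempty X ∧ ∀ U : Set X, IsOpen U → U.Nonempty → ¬ LocFinite (RN N U))) :
    Ideal.jacobson (⊥ : Ideal (MonoidAlgebra k G)) = ⊥ := by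
  classical
  have hinf : ∀ U : Set X, IsOpen U → U.Nonempty → U.Infinite := fun U hU hne =>
    infinite_of_openN hf h0 hU hne
  let K : Subgroup G := Rist G (∅ : Set X)
  have hK : ∀ g : G, g ∈ K ↔ ∀ p : X, g • p = p := fun g =>
    ⟨fun h p => h p (Set.notMem_empty p), fun h p _ => h p⟩
  rcases isEmpty_or_nonempty X with hX | hX
  · -- no points: `G = K`
    rcases hor with hor | hor
    · rw [eq_bot_iff]
      intro x hx
      rw [Ideal.mem_bot]
      obtain ⟨y, rfl⟩ := exists_of_support K x (fun g _ => (hK g).2 fun p => (hX.false p).elim)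
      have h1 := mem_jacobson_of_mp K.subtype K.subtype_injective hx
      have h2 : y ∈ Ideal.jacobson (⊥ : Ideal (MonoidAlgebra k (Rist G (∅ : Set X)))) := h1
      rw [hor, Ideal.mem_bot] at h2
      rw [h2, map_zero]
    · exact (hX.false hor.1.some).elim
  rw [eq_bot_iff]
  intro x₀ hx₀
  rw [Ideal.mem_bot]
  by_contra hx0
  set x : MonoidAlgebra k G := st x₀ * x₀ with hx
  have hxJ : x ∈ Ideal.jacobson (⊥ : Ideal (MonoidAlgebra k G)) := Ideal.mul_mem_left _ _ hx₀
  have hxs : st x = x := by rw [hx, st_mul, st_st]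
  have hx1 : x.coeff 1 ≠ 0 := coeff_one_ne hR hx0
  set b : MonoidAlgebra k G := resH K x with hb
  have hb0 : b ≠ 0 := by
    intro h
    apply hx1
    have := coeff_resH K x 1
    rw [if_pos K.one_mem] at this
    rw [← this, ← hb, h]
    simp
  have hbn : ¬ IsNilpotent b := not_nilpotent_of_selfadjoint hR hb0 (st_resH K hxs)
  set T : Finset G := x.coeff.support.filter (· ∉ K) with hT
  set S : Finset G := insert 1 T with hS
  have h1S : 1 ∈ S := Finset.mem_insert_self _ _
  have hTK : ∀ g ∈ T, g ∉ K := fun g hg => (Finset.mem_filter.1 hg).2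
  have hT1 : ∀ g ∈ T, g ∈ S ∧ g ≠ 1 := fun g hg =>
    ⟨Finset.mem_insert_of_mem hg, fun h => hTK g hg (h ▸ K.one_mem)⟩
  have hmov : ∀ g ∈ S, g ≠ 1 → ∃ p : X, g⁻¹ • p ≠ p := by
    intro g hg hg1
    have hgT : g ∈ T := (Finset.mem_insert.1 hg).resolve_left hg1
    by_contra hcon
    push Not at hcon
    apply hTK g hgT
    rw [← Subgroup.inv_mem_iff]
    exact (hK _).2 hcon
  have hKN : ∀ a ∈ K, ∀ n ∈ N, a * n = n * a := by
    intro a ha n hn
    have h1 := ker_le_PN hf ((hK a).1 ha) (∅ : Set X)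
    exact PN_comm (Set.disjoint_left.2 fun p hp _ => hp) a h1 n
      (⟨fun p hp => absurd (Set.mem_univ p) hp, hn⟩ : n ∈ RN N Set.univ)
  have hKd : ∀ a ∈ K, a ∈ N → a = 1 := fun a ha han => hf a han ((hK a).1 ha)
  -- the main step
  have step : ∀ (U : G → Set X) (y : G → G),
      (∀ g ∈ S, g ≠ 1 → Disjoint (U g) (g⁻¹ • U g)) →
      (∀ g ∈ S, ∀ h ∈ S, g ≠ h → ∀ s ∈ S, ∀ t ∈ S, Disjoint (s⁻¹ • U g) (t⁻¹ • U h)) →
      (∀ g, y g ∈ RN N (U g)) → (∀ g, y g ≠ 1) →
      ∀ P : MonoidAlgebra k G → Prop, (∀ w, P w → ∀ g ∈ S, g ≠ 1 →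
        P (w * (1 - MonoidAlgebra.single (y g * (g⁻¹ * (y g)⁻¹ * g)) 1))) → P b →
      ∃ w' ∈ Ideal.jacobson (⊥ : Ideal (MonoidAlgebra k G)), P w' ∧
        w' ∈ AS k (PN N (FF S U ∅)) ∧ ¬ IsNilpotent w' := by
    intro U y c1 c2 hy hy1 P hP hPb
    have hyn : ∀ g ∈ S, g ≠ 1 → ¬ IsNilpotent
        (1 - MonoidAlgebra.single (y g * (g⁻¹ * (y g)⁻¹ * g)) 1 : MonoidAlgebra k G) := by
      intro g hg hg1 hnil
      have h2 : IsNilpotent (MonoidAlgebra.single (y g * (g⁻¹ * (y g)⁻¹ * g)) 1 - 1 :
          MonoidAlgebra k G) := by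
        rw [← neg_sub]
        exact hnil.neg
      have h3 := eq_one_of_nilpotent h2
      have h4 : y g = g⁻¹ * y g * g := by
        calc y g = (y g * (g⁻¹ * (y g)⁻¹ * g)) * (g⁻¹ * y g * g) := by group
          _ = _ := by rw [h3, one_mul]
      apply hy1 g
      have h5 : y g ∈ RN N (g⁻¹ • U g) := by
        have := RN_conj (hy g) g
        rwa [← h4] at this
      exact PN_disj hf (c1 g hg hg1) _ (RN_le_PN hf _ (hy g)) h5
    exact reduceN (k := k) hf S h1S U y c1
      (fun g hg _ h hh _ hne => c2 g hg h hh hne) (fun g _ _ => hy g) hyn P hP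
      (Ideal.jacobson ⊥) inferInstance T hT1
      (fun s => if s = 1 then resH K x else algebraMap k (MonoidAlgebra k G) (x.coeff s))
      (by simp only [if_true]; exact hPb)
      (by
        intro s _
        by_cases hs : s = 1
        · simp only [hs, if_true]
          refine AS_mono ?_ (resH_mem K x)
          intro c hc
          exact ker_le_PN hf ((hK c).1 hc) _
        · simp only [hs, if_false]
          exact algebraMap_mem _ _)
      (by simp only [if_true]; exact hbn)
      (by rw [← eq_sum_resH K x]; exact hxJ)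
  -- the case of a large rigid stabiliser
  have large : ∀ E : Set X, IsOpen E → E.Nonempty →
      (∀ V : Set X, IsOpen V → V.Nonempty → V ⊆ E → ¬ LocFinite (RN N V)) → False := by
    intro E hE hEne hEL
    obtain ⟨U, hU, hUE, c1, c2⟩ := exists_setsN S h1S hmov hinf E hE hEne
    choose y hy hy1 using fun g => h0 (U g) (hU g).1 (hU g).2
    obtain ⟨w', hw'J, -, hw'A, hw'n⟩ := step U y c1 c2 hy hy1 (fun _ => True)
      (fun _ _ _ _ _ => trivial) trivial
    have hdd : Disjoint (FF S U ∅) (U 1) := by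
      rw [Set.disjoint_left]
      rintro p ⟨g, hgS, hg1, -, s, hs, hps⟩ hp
      have := c2 g hgS 1 h1S hg1 s hs 1 h1S
      rw [inv_one, one_smul] at this
      exact Set.disjoint_left.1 this hps hp
    obtain ⟨y', hy'⟩ := exists_transcendental (k := k) (hEL (U 1) (hU 1).1 (hU 1).2 hUE)
    exact hw'n (nil_of_commuting (PN_comm hdd) (PN_disj hf hdd) y' hy' hw'J hw'A)
  rcases hor with hor | ⟨-, hN⟩
  · by_cases hfo : ∀ U : Set X, IsOpen U → U.Nonempty → ∃ a ∈ RN N U, a ≠ 1 ∧ IsOfFinOrder a
    · obtain ⟨U, hU, -, c1, c2⟩ := exists_setsN S h1S hmov hinf (Set.univ : Set X) isOpen_univ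
        Set.univ_nonempty
      choose y hy hy1 hyo using fun g => hfo (U g) (hU g).1 (hU g).2
      set Z : Set (MonoidAlgebra k G) := (fun g =>
        (1 - MonoidAlgebra.single (y g * (g⁻¹ * (y g)⁻¹ * g)) 1 : MonoidAlgebra k G)) ''
          {g | g ∈ S ∧ g ≠ 1} with hZ
      have hyc : ∀ g, g⁻¹ * (y g)⁻¹ * g ∈ RN N (g⁻¹ • U g) := fun g =>
        RN_conj ((RN N _).inv_mem (hy g)) g
      have hzR : ∀ g, (1 - MonoidAlgebra.single (y g * (g⁻¹ * (y g)⁻¹ * g)) 1 :
          MonoidAlgebra k G) ∈ AS k (RN N (U g ∪ g⁻¹ • U g)) := fun g =>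
        sub_mem (one_mem _) (single_mem_AS ((RN N _).mul_mem
          (RN_mono Set.subset_union_left (hy g)) (RN_mono Set.subset_union_right (hyc g))) 1)
      have hZN : Algebra.adjoin k Z ≤ AS k N := by
        rw [Algebra.adjoin_le_iff]
        rintro _ ⟨g, -, rfl⟩
        exact AS_mono inf_le_right (hzR g)
      obtain ⟨w', hw'J, ⟨c, hcZ, rfl⟩, -, hw'n⟩ := step U y c1 c2 hy hy1
        (fun w => ∃ c ∈ Algebra.adjoin k Z, w = b * c)
        (by
          rintro w ⟨c, hcZ, rfl⟩ g hg hg1
          exact ⟨c * _, mul_mem hcZ (Algebra.subset_adjoin ⟨g, ⟨hg, hg1⟩, rfl⟩), by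
            rw [mul_assoc]⟩)
        ⟨1, one_mem _, by rw [mul_one]⟩
      have hbK : b ∈ AS k K := resH_mem K x
      have hbc : Commute b c := AS_comm hKN hbK (hZN hcZ)
      have hcn : ¬ IsNilpotent c := fun h => hw'n (hbc.isNilpotent_mul_left h)
      have hcalg : IsAlgebraic k c := by
        refine algebraic_adjoin Z ?_ ?_ c hcZ
        · rintro _ ⟨g, ⟨hg, hg1⟩, rfl⟩ _ ⟨h, ⟨hh, hh1⟩, rfl⟩
          by_cases hgh : g = h
          · rw [hgh]
          · refine AS_comm (fun a ha b hb => ?_) (hzR g) (hzR h)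
            refine RN_comm hf ?_ ha hb
            rw [Set.disjoint_union_left, Set.disjoint_union_right, Set.disjoint_union_right]
            have d1 := c2 g hg h hh hgh 1 h1S 1 h1S
            have d2 := c2 g hg h hh hgh 1 h1S h hh
            have d3 := c2 g hg h hh hgh g hg 1 h1S
            have d4 := c2 g hg h hh hgh g hg h hh
            rw [inv_one, one_smul] at d1 d2 d3
            rw [one_smul] at d1
            exact ⟨⟨d1, d2⟩, ⟨d3, d4⟩⟩
        · rintro _ ⟨g, ⟨hg, hg1⟩, rfl⟩
          have hfin : IsOfFinOrder (y g * (g⁻¹ * (y g)⁻¹ * g)) := by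
            have h1 : IsOfFinOrder (g⁻¹ * (y g)⁻¹ * g) := by
              have h2 : g⁻¹ * (y g)⁻¹ * g = MulAut.conj g⁻¹ (y g)⁻¹ := by
                rw [MulAut.conj_apply, inv_inv]
              rw [h2]
              exact (MulAut.conj g⁻¹).toMonoidHom.isOfFinOrder (hyo g).inv
            have h3 : Commute (y g) (g⁻¹ * (y g)⁻¹ * g) :=
              RN_comm hf (c1 g hg hg1) (hy g) (hyc g)
            exact h3.isOfFinOrder_mul (hyo g) h1
          obtain ⟨m, hm, hm1⟩ := isOfFinOrder_iff_pow_eq_one.1 hfin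
          have halg : IsAlgebraic k (MonoidAlgebra.single (y g * (g⁻¹ * (y g)⁻¹ * g)) 1 :
              MonoidAlgebra k G) := by
            refine ⟨Polynomial.X ^ m - C 1, ?_, ?_⟩
            · exact (monic_X_pow_sub_C (1 : k) hm.ne').ne_zero
            · rw [map_sub, map_pow, aeval_X, aeval_C, map_one, MonoidAlgebra.single_pow, hm1,
                one_pow, MonoidAlgebra.one_def, sub_self]
          refine algebraic_adjoin {MonoidAlgebra.single (y g * (g⁻¹ * (y g)⁻¹ * g)) 1} ?_ ?_ _
            (sub_mem (one_mem _) (Algebra.subset_adjoin rfl))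
          · rintro _ rfl _ rfl
            rfl
          · rintro _ rfl
            exact halg
      obtain ⟨u, hu, hidem, hne⟩ := exists_idempotent hcalg hcn
      have huZ : u ∈ Algebra.adjoin k Z :=
        (Algebra.adjoin_le (Set.singleton_subset_iff.2 hcZ) :
          Algebra.adjoin k {c} ≤ Algebra.adjoin k Z) hu
      obtain ⟨b', hb'⟩ := hbK
      have hb'' : mp k K.subtype b' = b := hb'
      have hJK : b' ∈ Ideal.jacobson (⊥ : Ideal (MonoidAlgebra k K)) := by
        refine mem_jacobson_of_idempotent hKN hKd b' (hZN (mul_mem hcZ huZ)) hidem hne ?_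
        rw [hb'', ← mul_assoc]
        exact Ideal.mul_mem_right _ _ hw'J
      have hJK' : b' ∈ Ideal.jacobson (⊥ : Ideal (MonoidAlgebra k (Rist G (∅ : Set X)))) := hJK
      rw [hor, Ideal.mem_bot] at hJK'
      apply hb0
      rw [← hb'', hJK', map_zero]
    · push Not at hfo
      obtain ⟨E, hE, hEne, hEo⟩ := hfo
      refine large E hE hEne ?_
      intro V hV hVne hVE hlf
      obtain ⟨a, ha, ha1⟩ := h0 V hV hVne
      apply hEo a (RN_mono hVE ha) ha1
      have h1 := hlf {⟨a, ha⟩}
      rw [Finset.coe_singleton, ← Subgroup.zpowers_eq_closure] at h1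
      have h2 : IsOfFinOrder (⟨a, ha⟩ : RN N V) := by
        rw [← finite_zpowers]
        exact h1
      exact (Submonoid.isOfFinOrder_coe (H := (RN N V).toSubmonoid) (x := ⟨a, ha⟩)).2 h2
  · exact large Set.univ isOpen_univ Set.univ_nonempty fun V hV hVne _ => hN V hV hVne

/-- **Theorem.** Over a real field of characteristic zero: an element of `J(k[G])` supported on a
subgroup `H` which commutes with a disjoint subgroup `L` that is not locally finite is zero. -/
theorem jacobson_inter (k : Type u) [Field k] [CharZero k] (hR : RealFor k G)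
    (H L : Subgroup G) (hc : ∀ a ∈ H, ∀ b ∈ L, a * b = b * a) (hd : ∀ a ∈ H, a ∈ L → a = 1)
    (hL : ¬ LocFinite L) (x : MonoidAlgebra k G)
    (hx : x ∈ Ideal.jacobson (⊥ : Ideal (MonoidAlgebra k G)))
    (hsupp : ∀ g ∈ x.coeff.support, g ∈ H) : x = 0 := by
  by_contra hx0
  obtain ⟨y, hy⟩ := exists_transcendental (k := k) hL
  have hmem : x ∈ AS k H := exists_of_support H x hsupp
  have hmem' : st x ∈ AS k H := by
    apply exists_of_support H
    intro g hg
    rw [Finsupp.mem_support_iff, coeff_st] at hg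
    exact (Subgroup.inv_mem_iff H).1 (hsupp _ (Finsupp.mem_support_iff.2 hg))
  have hnil : IsNilpotent (st x * x) := nil_of_commuting hc hd y hy
    (Ideal.mul_mem_left _ _ hx) (mul_mem hmem' hmem)
  exact not_nilpotent_of_selfadjoint hR (st_mul_ne_zero hR hx0) (by rw [st_mul, st_st]) hnil

/-- Over a real field of characteristic zero the radical contains no nonzero element supported on a
finite subgroup. -/
theorem jacobson_finite (k : Type u) [Field k] [CharZero k] (hR : RealFor k G)
    (H : Subgroup G) [Finite H] (x : MonoidAlgebra k G)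
    (hx : x ∈ Ideal.jacobson (⊥ : Ideal (MonoidAlgebra k G)))
    (hsupp : ∀ g ∈ x.coeff.support, g ∈ H) : x = 0 := by
  by_contra hx0
  have hmem : x ∈ AS k H := exists_of_support H x hsupp
  have hmem' : st x ∈ AS k H := by
    apply exists_of_support H
    intro g hg
    rw [Finsupp.mem_support_iff, coeff_st] at hg
    exact (Subgroup.inv_mem_iff H).1 (hsupp _ (Finsupp.mem_support_iff.2 hg))
  have hJ : st x * x ∈ Ideal.jacobson (⊥ : Ideal (MonoidAlgebra k G)) := Ideal.mul_mem_left _ _ hx
  have hn : ¬ IsNilpotent (st x * x) :=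
    not_nilpotent_of_selfadjoint hR (st_mul_ne_zero hR hx0) (by rw [st_mul, st_st])
  refine transcendental_of_jacobson (k := k) hJ hn ?_
  obtain ⟨y, hy⟩ := mul_mem hmem' hmem
  have hfin : Module.Finite k (MonoidAlgebra k H) := inferInstance
  have hy1 : IsAlgebraic k y := (Algebra.IsIntegral.isIntegral y).isAlgebraic
  obtain ⟨p, hp, h0⟩ := hy1
  refine ⟨p, hp, ?_⟩
  rw [← hy]
  show aeval (mp k H.subtype y) p = 0
  rw [aeval_algHom_apply, h0, map_zero]

/-- **Theorem.** Over a real field of characteristic zero: if every infinite finitely generated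
subgroup `H` of `G` commutes with a disjoint subgroup which is not locally finite then
`J(k[G]) = 0`. -/
theorem jacobson_central (k : Type u) [Field k] [CharZero k] (hR : RealFor k G)
    (hG : ∀ S : Finset G, (Subgroup.closure (S : Set G) : Set G).Infinite →
      ∃ L : Subgroup G, (∀ a ∈ S, ∀ b ∈ L, a * b = b * a) ∧
      (∀ a ∈ Subgroup.closure (S : Set G), a ∈ L → a = 1) ∧ ¬ LocFinite L) :
    Ideal.jacobson (⊥ : Ideal (MonoidAlgebra k G)) = ⊥ := by
  rw [eq_bot_iff]
  intro x hx
  rw [Ideal.mem_bot]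
  by_cases hinf : (Subgroup.closure (x.coeff.support : Set G) : Set G).Infinite
  · obtain ⟨L, h1, h2, h3⟩ := hG x.coeff.support hinf
    refine jacobson_inter k hR (Subgroup.closure (x.coeff.support : Set G)) L ?_ h2 h3 x hx
      (fun g hg => Subgroup.subset_closure hg)
    intro a ha b hb
    induction ha using Subgroup.closure_induction with
    | mem a ha => exact h1 a ha b hb
    | one => rw [one_mul, mul_one]
    | mul a c _ _ h4 h5 => rw [mul_assoc, h5, ← mul_assoc, h4, mul_assoc]
    | inv a _ h4 =>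
      rw [inv_mul_eq_iff_eq_mul, ← mul_assoc, h4, mul_assoc, mul_inv_cancel, mul_one]
  · rw [Set.not_infinite] at hinf
    have : Finite (Subgroup.closure (x.coeff.support : Set G)) := hinf
    exact jacobson_finite k hR (Subgroup.closure (x.coeff.support : Set G)) x hx
      (fun g hg => Subgroup.subset_closure hg)

end main

end Pool.Agent.Y803.GR
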