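import Pool.Agent.Y803.GR.Micro

/-!
The involution of a group algebra over a field in which a sum of squares vanishes only if all the
squares do.
-/

set_option autoImplicit false

open Polynomial Pointwise

namespace Pool.Agent.Y803.GR

universe u v w

section

variable {k : Type u} [Field k] {G : Type v} [Group G]

/-- The additive map with `g ↦ g⁻¹`. -/
noncomputable def st : MonoidAlgebra k G ≃+ MonoidAlgebra k G :=
  MonoidAlgebra.mapDomainAddEquiv k (Equiv.inv G)

theorem st_single (g : G) (r : k) :
    st (MonoidAlgebra.single g r) = MonoidAlgebra.single g⁻¹ r :=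
  MonoidAlgebra.mapDomainAddEquiv_single _ _ _

theorem coeff_st (x : MonoidAlgebra k G) (g : G) : (st x).coeff g = x.coeff g⁻¹ := by
  rw [st, MonoidAlgebra.coeff_mapDomainAddEquiv]
  rfl

theorem st_st (x : MonoidAlgebra k G) : st (st x) = x := by
  ext g
  rw [coeff_st, coeff_st, inv_inv]

theorem st_mul (x y : MonoidAlgebra k G) : st (x * y) = st y * st x := by
  induction x using MonoidAlgebra.induction_linear with
  | zero => rw [zero_mul, map_zero, mul_zero]
  | add a b ha hb => rw [add_mul, map_add, map_add, mul_add, ha, hb]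
  | single g r =>
    induction y using MonoidAlgebra.induction_linear with
    | zero => rw [mul_zero, map_zero, zero_mul]
    | add a b ha hb => rw [mul_add, map_add, map_add, add_mul, ha, hb]
    | single h s =>
      rw [MonoidAlgebra.single_mul_single, st_single, st_single, st_single,
        MonoidAlgebra.single_mul_single, mul_inv_rev, mul_comm r s]

theorem coeff_st_mul (x : MonoidAlgebra k G) :
    (st x * x).coeff 1 = ∑ g ∈ x.coeff.support, x.coeff g * x.coeff g := by
  classical
  have key : ∀ y z : MonoidAlgebra k G, (st y * z).coeff 1 =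
      y.coeff.sum fun g r => r * z.coeff g := by
    intro y z
    induction y using MonoidAlgebra.induction_linear with
    | zero => simp
    | add a b ha hb =>
      rw [map_add, add_mul, MonoidAlgebra.coeff_add, Finsupp.add_apply, ha, hb,
        MonoidAlgebra.coeff_add, Finsupp.sum_add_index']
      · intro g; rw [zero_mul]
      · intro g r r'; rw [add_mul]
    | single g r =>
      rw [st_single, MonoidAlgebra.coeff_single_mul_apply, inv_inv, mul_one,
        MonoidAlgebra.coeff_single, Finsupp.sum_single_index (by rw [zero_mul])]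
  rw [key]
  rfl

/-- The field `k` is real as far as families indexed by finite subsets of `G` are concerned. -/
def RealFor (k : Type u) [Field k] (G : Type v) : Prop :=
  ∀ (s : Finset G) (f : G → k), ∑ g ∈ s, f g * f g = 0 → ∀ g ∈ s, f g = 0

theorem coeff_one_ne (hR : RealFor k G) {x : MonoidAlgebra k G} (hx : x ≠ 0) :
    (st x * x).coeff 1 ≠ 0 := by
  intro h
  rw [coeff_st_mul] at h
  have h1 := hR _ _ h
  obtain ⟨g, hg⟩ := Finsupp.ne_iff.1 (fun h0 => hx (MonoidAlgebra.coeff_eq_zero.1 h0) :
    x.coeff ≠ 0)
  exact hg (h1 g (Finsupp.mem_support_iff.2 hg))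

theorem st_mul_ne_zero (hR : RealFor k G) {x : MonoidAlgebra k G} (hx : x ≠ 0) :
    st x * x ≠ 0 := by
  intro h
  apply coeff_one_ne hR hx
  rw [h]
  simp

/-- A nonzero selfadjoint element is not nilpotent. -/
theorem not_nilpotent_of_selfadjoint (hR : RealFor k G) {x : MonoidAlgebra k G}
    (hx : x ≠ 0) (hs : st x = x) : ¬ IsNilpotent x := by
  have key : ∀ n : ℕ, st (x ^ (2 ^ n)) = x ^ (2 ^ n) ∧ x ^ (2 ^ n) ≠ 0 := by
    intro n
    induction n with
    | zero => rw [pow_zero, pow_one]; exact ⟨hs, hx⟩
    | succ n ih =>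
      obtain ⟨h1, h2⟩ := ih
      have h3 : x ^ (2 ^ (n + 1)) = st (x ^ (2 ^ n)) * x ^ (2 ^ n) := by
        rw [h1, ← pow_add, ← two_mul, ← pow_succ']
      rw [h3]
      refine ⟨?_, st_mul_ne_zero hR h2⟩
      rw [st_mul, st_st]
  rintro ⟨n, hn⟩
  exact (key n).2 (pow_eq_zero_of_le (Nat.lt_two_pow_self).le hn)

end

end Pool.Agent.Y803.GR
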