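import Pool.Agent.Y803.GR.Spn
import Pool.Agent.Y803.GR.Kap

/-!
The group algebra of a spinal group over the `p`-ary tree: the descent step.
-/

set_option autoImplicit false

namespace Pool.Agent.Y803.Spinal

open Pool.Agent.Y803.GR

universe u v w u1 u2 u3

variable {p : ℕ} [Fact p.Prime] {V : Type v} [AddCommGroup V] [Module (ZMod p) V]
variable (k : Type u) [Field k]

/-- The action of `g` on vectors indexed by the first level. -/
noncomputable def rhoFun (e : ℕ → ZMod p → (V →ₗ[ZMod p] ZMod p)) (g : GG e) :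
    Module.End k (ZMod p → MonoidAlgebra k (GG (sh e))) where
  toFun v := fun y => MonoidAlgebra.single (sec e g (act e g⁻¹ y)) 1 * v (act e g⁻¹ y)
  map_add' v w := by
    ext1 y
    rw [Pi.add_apply, Pi.add_apply, mul_add]
  map_smul' r v := by
    ext1 y
    rw [Pi.smul_apply, Pi.smul_apply, mul_smul_comm, RingHom.id_apply]

theorem rhoFun_apply (e : ℕ → ZMod p → (V →ₗ[ZMod p] ZMod p)) (g : GG e)
    (v : ZMod p → MonoidAlgebra k (GG (sh e))) (y : ZMod p) :
    rhoFun k e g v y =
      MonoidAlgebra.single (sec e g (act e g⁻¹ y)) 1 * v (act e g⁻¹ y) := rfl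

/-- The representation of the group on vectors indexed by the first level. -/
noncomputable def rhoHom (e : ℕ → ZMod p → (V →ₗ[ZMod p] ZMod p)) :
    GG e →* Module.End k (ZMod p → MonoidAlgebra k (GG (sh e))) where
  toFun := rhoFun k e
  map_one' := by
    refine LinearMap.ext fun v => funext fun y => ?_
    rw [rhoFun_apply, inv_one, act_one, sec_one, ← MonoidAlgebra.one_def, one_mul]
    rfl
  map_mul' g h := by
    refine LinearMap.ext fun v => funext fun y => ?_
    rw [Module.End.mul_apply, rhoFun_apply, rhoFun_apply, rhoFun_apply, mul_inv_rev, act_mul,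
      sec_mul, act_act_inv, ← mul_assoc, MonoidAlgebra.single_mul_single, one_mul]

/-- The wreath recursion as an algebra homomorphism. -/
noncomputable def rho (e : ℕ → ZMod p → (V →ₗ[ZMod p] ZMod p)) :
    MonoidAlgebra k (GG e) →ₐ[k] Module.End k (ZMod p → MonoidAlgebra k (GG (sh e))) :=
  MonoidAlgebra.lift k _ _ (rhoHom k e)

theorem rho_single' (e : ℕ → ZMod p → (V →ₗ[ZMod p] ZMod p)) (g : GG e) (r : k)
    (v : ZMod p → MonoidAlgebra k (GG (sh e))) (y : ZMod p) :
    rho k e (MonoidAlgebra.single g r) v y =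
      r • (MonoidAlgebra.single (sec e g (act e g⁻¹ y)) 1 * v (act e g⁻¹ y)) := by
  rw [rho, MonoidAlgebra.lift_single]
  rfl

theorem rho_single (e : ℕ → ZMod p → (V →ₗ[ZMod p] ZMod p)) (g : GG e)
    (v : ZMod p → MonoidAlgebra k (GG (sh e))) (y : ZMod p) :
    rho k e (MonoidAlgebra.single g 1) v y =
      MonoidAlgebra.single (sec e g (act e g⁻¹ y)) 1 * v (act e g⁻¹ y) := by
  rw [rho_single', one_smul]

/-- The sum of the powers of `a`. -/
noncomputable def Na (e : ℕ → ZMod p → (V →ₗ[ZMod p] ZMod p)) : MonoidAlgebra k (GG e) :=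
  ∑ t : ZMod p, MonoidAlgebra.single (ra e t) 1

/-- The sum of the elements of the group `Z/p`. -/
noncomputable def NN (p : ℕ) [Fact p.Prime] : MonoidAlgebra k (Multiplicative (ZMod p)) :=
  ∑ t : ZMod p, MonoidAlgebra.single (Multiplicative.ofAdd t) 1

/-- The rooted automorphisms as a homomorphism. -/
def raH (e : ℕ → ZMod p → (V →ₗ[ZMod p] ZMod p)) : Multiplicative (ZMod p) →* GG e where
  toFun t := ra e t.toAdd
  map_one' := ra_zero e
  map_mul' s t := (ra_mul e s.toAdd t.toAdd).symm

/-- The directed automorphisms as a homomorphism. -/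
def rbH (e : ℕ → ZMod p → (V →ₗ[ZMod p] ZMod p)) : Multiplicative V →* GG e where
  toFun t := rb e t.toAdd
  map_one' := rb_zero e
  map_mul' s t := (rb_mul e s.toAdd t.toAdd).symm

/-- A functional as a homomorphism of multiplicative groups. -/
def hm (φ : V →ₗ[ZMod p] ZMod p) : Multiplicative V →* Multiplicative (ZMod p) :=
  AddMonoidHom.toMultiplicative φ.toAddMonoidHom

theorem hm_apply (φ : V →ₗ[ZMod p] ZMod p) (v : V) :
    hm φ (Multiplicative.ofAdd v) = Multiplicative.ofAdd (φ v) := rfl

/-- The sections of the directed automorphisms as homomorphisms. -/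
noncomputable def sH (e : ℕ → ZMod p → (V →ₗ[ZMod p] ZMod p)) (x : ZMod p) :
    Multiplicative V →* GG (sh e) :=
  if x = 0 then rbH (sh e) else (raH (sh e)).comp (hm (e 0 x))

theorem sH_apply (e : ℕ → ZMod p → (V →ₗ[ZMod p] ZMod p)) (x : ZMod p) (v : Multiplicative V) :
    sH e x v = sec e (rb e v.toAdd) x := by
  rw [sH, sec_rb]
  split_ifs <;> rfl

variable {k}

theorem rho_Na (e : ℕ → ZMod p → (V →ₗ[ZMod p] ZMod p))
    (v : ZMod p → MonoidAlgebra k (GG (sh e)))
    (y : ZMod p) : rho k e (Na k e) v y = ∑ x, v x := by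
  rw [Na, map_sum, LinearMap.sum_apply, Finset.sum_apply]
  have h : ∀ t : ZMod p, rho k e (MonoidAlgebra.single (ra e t) 1) v y = v (y - t) := by
    intro t
    rw [rho_single, sec_ra, ra_inv, act_ra, ← MonoidAlgebra.one_def, one_mul, sub_eq_add_neg]
  simp only [h]
  exact Fintype.sum_equiv (Equiv.subLeft y) _ _ (fun t => rfl)

theorem rho_rb (e : ℕ → ZMod p → (V →ₗ[ZMod p] ZMod p)) (X : MonoidAlgebra k (Multiplicative V))
    (v : ZMod p → MonoidAlgebra k (GG (sh e))) (y : ZMod p) :
    rho k e (mp k (rbH e) X) v y = mp k (sH e y) X * v y := by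
  induction X using MonoidAlgebra.induction_linear with
  | zero => rw [map_zero, map_zero, map_zero, zero_mul]; rfl
  | add X X' h h' =>
    rw [map_add, map_add, map_add, add_mul, ← h, ← h']; rfl
  | single g r =>
    rw [mp_single, mp_single, rho_single']
    have h1 : act e (rbH e g)⁻¹ y = y := by
      show act e (rb e g.toAdd)⁻¹ y = y
      rw [rb_inv, act_rb]
    rw [h1, sH_apply]
    have h2 : (MonoidAlgebra.single (sec e (rb e g.toAdd) y) r : MonoidAlgebra k (GG (sh e))) =
        r • MonoidAlgebra.single (sec e (rb e g.toAdd) y) 1 := by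
      rw [MonoidAlgebra.smul_single, smul_eq_mul, mul_one]
    rw [h2, smul_mul_assoc]
    rfl

theorem mp_raH_NN (e : ℕ → ZMod p → (V →ₗ[ZMod p] ZMod p)) : mp k (raH e) (NN k p) = Na k e := by
  rw [NN, Na, map_sum]
  simp only [mp_single]
  rfl

theorem NN_sq (hp : (p : k) = 0) : NN k p * NN k p = 0 := by
  have h : ∀ t : ZMod p, MonoidAlgebra.single (Multiplicative.ofAdd t) (1 : k) * NN k p =
      NN k p := by
    intro t
    rw [NN, Finset.mul_sum]
    simp only [MonoidAlgebra.single_mul_single, ← ofAdd_add, mul_one]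
    exact Fintype.sum_equiv (Equiv.addLeft t) _ _ (fun s => rfl)
  have h2 : NN k p * NN k p =
      ∑ t : ZMod p, MonoidAlgebra.single (Multiplicative.ofAdd t) (1 : k) * NN k p := by
    rw [← Finset.sum_mul]; rfl
  rw [h2]
  simp only [h, Finset.sum_const, Finset.card_univ, ZMod.card]
  rw [← Nat.cast_smul_eq_nsmul k, hp, zero_smul]

theorem mp_comp {A : Type u1} {B : Type u2} {C : Type u3} [Group A] [Group B] [Group C]
    (f : B →* C) (g : A →* B) (Z : MonoidAlgebra k A) :
    mp k (f.comp g) Z = mp k f (mp k g Z) := by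
  induction Z using MonoidAlgebra.induction_linear with
  | zero => simp only [map_zero]
  | add a b ha hb => simp only [map_add, ha, hb]
  | single g r => rw [mp_single, mp_single, mp_single]; rfl

/-- The sum of the entries of the first column vector of `Y`. -/
noncomputable def ss (e : ℕ → ZMod p → (V →ₗ[ZMod p] ZMod p)) (Y : MonoidAlgebra k (GG e)) :
    MonoidAlgebra k (GG (sh e)) := ∑ x, rho k e Y (fun _ => 1) x

/-- The sum of the constants. -/
def kp (μ : ZMod p → k) : k := ∑ x : ZMod p, if x = 0 then 0 else μ x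

/-- The descent step. -/
theorem descend (hp : (p : k) = 0) (e : ℕ → ZMod p → (V →ₗ[ZMod p] ZMod p)) (d : k)
    (X Z : MonoidAlgebra k (Multiplicative V)) (hZ : Z * (1 - X) = 1) (μ : ZMod p → k)
    (hμ : ∀ x, x ≠ 0 → mp k (hm (e 0 x)) Z = 1 + μ x • NN k p)
    (Y : MonoidAlgebra k (GG e)) (hY : (1 - (d • Na k e + mp k (rbH e) X)) * Y = 1) :
    (1 - ((d * kp μ) • Na k (sh e) + mp k (rbH (sh e)) (d • (Z - 1)))) *
      (1 + d • ss e Y) = 1 := by
  set m := rho k e Y (fun _ => 1) with hm'
  set s := ss e Y with hs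
  have hss : s = ∑ x, m x := rfl
  have h1 : ∀ x, m x - (d • s + mp k (sH e x) X * m x) = 1 := by
    intro x
    have h := congrArg (fun z => rho k e z (fun _ => 1) x) hY
    simp only [map_mul, map_sub, map_one, map_add, map_smul, Module.End.mul_apply,
      LinearMap.sub_apply, LinearMap.add_apply, LinearMap.smul_apply, Module.End.one_apply,
      Pi.sub_apply, Pi.add_apply, Pi.smul_apply, rho_Na, rho_rb] at h
    rw [← hm'] at h
    exact h
  have h2 : ∀ x, m x = mp k (sH e x) Z * (1 + d • s) := by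
    intro x
    have h3 : 1 + d • s = (1 - mp k (sH e x) X) * m x := by
      rw [sub_mul, one_mul, ← h1 x]; abel
    have h4 := congrArg (mp k (sH e x)) hZ
    rw [map_mul, map_sub, map_one] at h4
    rw [h3, ← mul_assoc, h4, one_mul]
  have h5 : ∑ x, mp k (sH e x) Z = mp k (rbH (sh e)) (Z - 1) + kp μ • Na k (sh e) := by
    have h6 : ∀ x, mp k (sH e x) Z = 1 + ((if x = 0 then mp k (rbH (sh e)) (Z - 1) else 0) +
        (if x = 0 then 0 else μ x) • Na k (sh e)) := by
      intro x
      by_cases hx : x = 0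
      · rw [if_pos hx, if_pos hx, zero_smul, add_zero, map_sub, map_one, sH, if_pos hx]
        abel
      · rw [if_neg hx, if_neg hx, zero_add, sH, if_neg hx]
        rw [mp_comp, hμ x hx, map_add, map_one, map_smul, mp_raH_NN]
    rw [Finset.sum_congr rfl (fun x _ => h6 x), Finset.sum_add_distrib, Finset.sum_add_distrib,
      Finset.sum_const, Finset.card_univ, ZMod.card, ← Nat.cast_smul_eq_nsmul k, hp, zero_smul,
      zero_add, Finset.sum_ite_eq' Finset.univ (0 : ZMod p), if_pos (Finset.mem_univ _),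
      ← Finset.sum_smul]
    rfl
  have h8 : s = (mp k (rbH (sh e)) (Z - 1) + kp μ • Na k (sh e)) * (1 + d • s) := by
    conv_lhs => rw [hss]
    rw [Finset.sum_congr rfl (fun x _ => h2 x), ← Finset.sum_mul, h5]
  have h9 : ((d * kp μ) • Na k (sh e) + mp k (rbH (sh e)) (d • (Z - 1))) * (1 + d • s) =
      d • s := by
    conv_rhs => rw [h8]
    rw [← smul_mul_assoc]
    congr 1
    rw [map_smul, smul_add, smul_smul, add_comm]
  rw [sub_mul, one_mul, h9, add_sub_cancel_right]

end Pool.Agent.Y803.Spinal
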