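import Pool.Agent.Y803.GR.SpnA

/-!
The group algebra of a spinal group over the `p`-ary tree: supports and the final contradiction.
-/

set_option autoImplicit false

namespace Pool.Agent.Y803.Spinal

open Pool.Agent.Y803.GR

universe u v w

section VV

variable (k : Type u) [Field k] {G : Type v}

/-- The elements of the group algebra supported on `S`. -/
noncomputable def VV (S : Set G) : Submodule k (MonoidAlgebra k G) :=
  Submodule.span k ((fun g => MonoidAlgebra.single g (1 : k)) '' S)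

variable {k}

theorem VV_mono {S T : Set G} (h : S ⊆ T) : VV k S ≤ VV k T :=
  Submodule.span_mono (Set.image_mono h)

theorem single_mem_VV {S : Set G} {g : G} (hg : g ∈ S) :
    MonoidAlgebra.single g (1 : k) ∈ VV k S := Submodule.subset_span ⟨g, hg, rfl⟩

theorem coeff_VV {S : Set G} {Y : MonoidAlgebra k G} (hY : Y ∈ VV k S) {g : G} (hg : g ∉ S) :
    Y.coeff g = 0 := by
  classical
  induction hY using Submodule.span_induction with
  | mem y hy =>
    obtain ⟨h, hh, rfl⟩ := hy
    show (MonoidAlgebra.single h (1 : k)).coeff g = 0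
    rw [MonoidAlgebra.coeff_single, Finsupp.single_apply, if_neg]
    rintro rfl
    exact hg hh
  | zero => rfl
  | add x y _ _ hx hy => rw [MonoidAlgebra.coeff_add, Finsupp.add_apply, hx, hy, add_zero]
  | smul r x _ hx => rw [MonoidAlgebra.coeff_smul, Finsupp.smul_apply, hx, smul_zero]

end VV

variable {p : ℕ} [Fact p.Prime] {V : Type v} [AddCommGroup V] [Module (ZMod p) V]
variable {k : Type u} [Field k]

theorem ss_mem {e : ℕ → ZMod p → (V →ₗ[ZMod p] ZMod p)} {S : Set (GG e)} {T : Set (GG (sh e))}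
    (h : ∀ g ∈ S, ∀ x, sec e g x ∈ T) {Y : MonoidAlgebra k (GG e)} (hY : Y ∈ VV k S) :
    ss e Y ∈ VV k T := by
  apply Submodule.sum_mem
  intro x _
  induction hY using Submodule.span_induction with
  | mem y hy =>
    obtain ⟨g, hg, rfl⟩ := hy
    show rho k e (MonoidAlgebra.single g 1) (fun _ => 1) x ∈ _
    rw [rho_single, mul_one]
    exact single_mem_VV (h g hg _)
  | zero => rw [map_zero]; exact zero_mem _
  | add a b _ _ ha hb => rw [map_add]; exact add_mem ha hb
  | smul r a _ ha => rw [map_smul]; exact Submodule.smul_mem _ r ha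

theorem exists_VV (e : ℕ → ZMod p → (V →ₗ[ZMod p] ZMod p)) (Y : MonoidAlgebra k (GG e)) :
    ∃ n, Y ∈ VV k (LL e n) := by
  induction Y using MonoidAlgebra.induction_linear with
  | zero => exact ⟨0, zero_mem _⟩
  | add a b ha hb =>
    obtain ⟨n, hn⟩ := ha
    obtain ⟨m, hm⟩ := hb
    exact ⟨max n m, add_mem (VV_mono (LL_mono e (le_max_left n m)) hn)
      (VV_mono (LL_mono e (le_max_right n m)) hm)⟩
  | single g r =>
    obtain ⟨n, hn⟩ := exists_PP e g
    refine ⟨(n + 1) / 2, ?_⟩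
    have h : MonoidAlgebra.single g r = r • MonoidAlgebra.single g (1 : k) := by
      rw [MonoidAlgebra.smul_single, smul_eq_mul, mul_one]
    rw [h]
    exact Submodule.smul_mem _ r (single_mem_VV (PP_LL e n hn))

/-- The image of `k[V]` is supported on the directed automorphisms. -/
theorem mp_rbH_mem (e : ℕ → ZMod p → (V →ₗ[ZMod p] ZMod p))
    (X : MonoidAlgebra k (Multiplicative V)) : mp k (rbH e) X ∈ VV k (Set.range (rb e)) := by
  induction X using MonoidAlgebra.induction_linear with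
  | zero => rw [map_zero]; exact zero_mem _
  | add a b ha hb => rw [map_add]; exact add_mem ha hb
  | single g r =>
    rw [mp_single]
    have h : MonoidAlgebra.single (rbH e g) r = r • MonoidAlgebra.single (rbH e g) (1 : k) := by
      rw [MonoidAlgebra.smul_single, smul_eq_mul, mul_one]
    rw [h]
    exact Submodule.smul_mem _ r (single_mem_VV ⟨g.toAdd, rfl⟩)

theorem no_short {e : ℕ → ZMod p → (V →ₗ[ZMod p] ZMod p)} (hs : Stable e) {d : k} (hd : d ≠ 0)
    (X : MonoidAlgebra k (Multiplicative V)) {x0 : ZMod p} (hx0 : x0 ≠ 0) {μ : k} (hμ0 : μ ≠ 0)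
    (hX : mp k (hm (e 0 x0)) X = μ • NN k p)
    (Y : MonoidAlgebra k (GG e)) (hY : Y ∈ VV k (Let e))
    (h : (1 - (d • Na k e + mp k (rbH e) X)) * Y = 1) : False := by
  classical
  set W := mp k (rbH e) X with hW
  have hWr : W ∈ VV k (Set.range (rb e)) := mp_rbH_mem e X
  have h10 : (1 : ZMod p) ≠ 0 := one_ne_zero
  -- some directed element different from `1` occurs in `W`
  obtain ⟨g0, hg1, hg0⟩ : ∃ g, g ≠ 1 ∧ W.coeff g ≠ 0 := by
    by_contra hcon
    push Not at hcon
    have h1 : W = MonoidAlgebra.single 1 (W.coeff 1) := by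
      ext g
      by_cases hg : g = 1
      · subst hg
        rw [MonoidAlgebra.coeff_single, Finsupp.single_eq_same]
      · rw [hcon g hg, MonoidAlgebra.coeff_single, Finsupp.single_apply, if_neg (Ne.symm hg)]
    have h2 : rho k e W (fun _ => 1) x0 = μ • Na k (sh e) := by
      rw [hW, rho_rb, mul_one, sH, if_neg hx0, mp_comp, hX, map_smul, mp_raH_NN]
    rw [h1, rho_single', inv_one, act_one, sec_one, mul_one] at h2
    have h3 := congrArg (fun z : MonoidAlgebra k (GG (sh e)) => z.coeff (ra (sh e) 1)) h2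
    simp only [Na, MonoidAlgebra.coeff_smul, MonoidAlgebra.coeff_sum, Finsupp.smul_apply,
      Finsupp.finsetSum_apply, MonoidAlgebra.coeff_single, Finsupp.single_apply] at h3
    have h4 : (1 : GG (sh e)) ≠ ra (sh e) 1 := by
      rw [← ra_zero]
      intro h5
      exact h10 (ra_inj h5).symm
    rw [if_neg h4, Finset.sum_eq_single (1 : ZMod p), if_pos rfl] at h3
    · simp only [smul_eq_mul, mul_zero, mul_one] at h3
      exact hμ0 h3.symm
    · intro t _ ht
      rw [if_neg]
      intro h5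
      exact ht (ra_inj h5)
    · intro h5
      exact absurd (Finset.mem_univ _) h5
  obtain ⟨j0, rfl⟩ : g0 ∈ Set.range (rb e) := by
    by_contra hcon
    exact hg0 (coeff_VV hWr hcon)
  have key : ∀ g, Y.coeff g = (1 : MonoidAlgebra k (GG e)).coeff g +
      (d * ∑ t, Y.coeff (ra e (-t) * g) +
        ∑ h ∈ W.coeff.support, W.coeff h * Y.coeff (h⁻¹ * g)) := by
    intro g
    have h1 : Y = 1 + (d • (Na k e * Y) + W * Y) := by
      rw [← h, sub_mul, one_mul, add_mul, smul_mul_assoc]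
      abel
    conv_lhs => rw [h1]
    rw [Na, Finset.sum_mul, MonoidAlgebra.coeff_add, MonoidAlgebra.coeff_add, Finsupp.add_apply,
      Finsupp.add_apply, MonoidAlgebra.coeff_mul_apply_left W]
    simp only [MonoidAlgebra.coeff_smul, MonoidAlgebra.coeff_sum,
      Finsupp.smul_apply, Finsupp.finsetSum_apply,
      MonoidAlgebra.coeff_single_mul_apply, one_mul, ra_inv, smul_eq_mul]
    rfl
  have hone : ∀ g : GG e, g ≠ 1 → (1 : MonoidAlgebra k (GG e)).coeff g = 0 := by
    intro g hg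
    rw [MonoidAlgebra.one_def, MonoidAlgebra.coeff_single, Finsupp.single_apply, if_neg hg.symm]
  have one_Let : (1 : GG e) ∈ Let e := Or.inl ⟨0, ra_zero e⟩
  have nl1 : ∀ (t : ZMod p) (j : V), t ≠ 0 → rb e j ≠ 1 → ra e t * rb e j ∉ Let e := by
    intro t j ht hj
    have := not_Let_one (i := 0) hs ht hj
    rwa [rb_zero, one_mul] at this
  have nl2 : ∀ (j : V) (t : ZMod p), t ≠ 0 → rb e j ≠ 1 → rb e j * ra e t ∉ Let e := by
    intro j t ht hj
    have := not_Let_two (s := 0) hs ht hj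
    rwa [ra_zero, one_mul] at this
  have ne1 : ∀ {g : GG e}, g ∉ Let e → g ≠ 1 := by
    rintro g hg rfl
    exact hg one_Let
  have hsupp : ∀ h ∈ W.coeff.support, ∃ j, rb e j = h := by
    intro h hh
    by_contra hcon
    exact (Finsupp.mem_support_iff.1 hh) (coeff_VV hWr hcon)
  have hb : ∀ j : V, rb e j ≠ 1 → Y.coeff (rb e j) = 0 := by
    intro j hj
    have h0 := nl1 1 j h10 hj
    have h1 := key (ra e 1 * rb e j)
    rw [coeff_VV hY h0, hone _ (ne1 h0), zero_add,
      Finset.sum_eq_single (1 : ZMod p), Finset.sum_eq_zero, add_zero] at h1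
    · rw [← mul_assoc, ra_mul, neg_add_cancel, ra_zero, one_mul] at h1
      exact (mul_eq_zero.1 h1.symm).resolve_left hd
    · intro h hh
      obtain ⟨i, rfl⟩ := hsupp h hh
      rw [rb_inv, coeff_VV hY (not_Let_one hs h10 hj), mul_zero]
    · intro t _ ht
      rw [← mul_assoc, ra_mul]
      refine coeff_VV hY (nl1 _ _ ?_ hj)
      intro h2
      exact ht (neg_add_eq_zero.1 h2)
    · intro h2
      exact absurd (Finset.mem_univ _) h2
  have ha : ∀ t : ZMod p, t ≠ 0 → Y.coeff (ra e t) = 0 := by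
    intro t ht
    have h0 := nl2 j0 t ht hg1
    have h1 := key (rb e j0 * ra e t)
    rw [coeff_VV hY h0, hone _ (ne1 h0), zero_add,
      Finset.sum_eq_zero, mul_zero, zero_add, Finset.sum_eq_single (rb e j0)] at h1
    · rw [inv_mul_cancel_left] at h1
      exact (mul_eq_zero.1 h1.symm).resolve_left hg0
    · intro h hh hne
      obtain ⟨i, rfl⟩ := hsupp h hh
      rw [rb_inv, ← mul_assoc, rb_mul, coeff_VV hY (nl2 _ _ ht ?_), mul_zero]
      intro h2
      apply hne
      rw [← rb_mul, ← rb_inv, inv_mul_eq_one] at h2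
      exact h2
    · intro h2
      rw [Finsupp.notMem_support_iff] at h2
      exact absurd h2 hg0
    · intro s _
      exact coeff_VV hY (not_Let_two hs ht hg1)
  have h1' : Y.coeff 1 = 0 := by
    have h1 := key (ra e 1)
    have hne : ra e 1 ≠ 1 := by
      intro h2
      rw [← ra_zero] at h2
      exact h10 (ra_inj h2)
    rw [ha 1 h10, hone _ hne, zero_add, Finset.sum_eq_single (1 : ZMod p), Finset.sum_eq_zero,
      add_zero] at h1
    · rw [ra_mul, neg_add_cancel, ra_zero] at h1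
      exact (mul_eq_zero.1 h1.symm).resolve_left hd
    · intro h hh
      obtain ⟨i, rfl⟩ := hsupp h hh
      by_cases hi : rb e i = 1
      · rw [hi, inv_one, one_mul, ha 1 h10, mul_zero]
      · rw [rb_inv, coeff_VV hY (nl2 _ _ h10 ?_), mul_zero]
        intro h2
        apply hi
        rw [← rb_inv, inv_eq_one] at h2
        exact h2
    · intro t _ ht
      rw [ra_mul]
      apply ha
      intro h2
      exact ht (neg_add_eq_zero.1 h2)
    · intro h2
      exact absurd (Finset.mem_univ _) h2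
  have hY0 : ∀ g, Y.coeff g = 0 := by
    intro g
    by_cases hg : g ∈ Let e
    · rcases hg with ⟨t, rfl⟩ | ⟨t, rfl⟩
      · by_cases ht : t = 0
        · rw [ht, ra_zero, h1']
        · exact ha t ht
      · by_cases ht : rb e t = 1
        · rw [ht, h1']
        · exact hb t ht
    · exact coeff_VV hY hg
  have h2 := key 1
  rw [hY0] at h2
  simp only [hY0, Finset.sum_const_zero, mul_zero, add_zero] at h2
  rw [MonoidAlgebra.one_def, MonoidAlgebra.coeff_single, Finsupp.single_eq_same] at h2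
  exact zero_ne_one h2

theorem one_mem_PP (e : ℕ → ZMod p → (V →ₗ[ZMod p] ZMod p)) (n : ℕ) : (1 : GG e) ∈ PP e n := by
  induction n with
  | zero => rfl
  | succ n ih => exact ⟨1, Or.inl ⟨0, ra_zero e⟩, 1, ih, (one_mul 1).symm⟩

theorem PP_le_one {e : ℕ → ZMod p → (V →ₗ[ZMod p] ZMod p)} {n : ℕ} (hn : n ≤ 1) :
    PP e n ⊆ Let e := by
  intro g hg
  match n with
  | 0 =>
    rw [show g = 1 from hg]
    exact Or.inl ⟨0, ra_zero e⟩
  | 1 =>
    obtain ⟨l, hl, h, hh, rfl⟩ := hg
    rw [show h = 1 from hh, mul_one]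
    exact hl

/-- The elements of `k[V]` for which the descent works. -/
structure Good (e : ℕ → ZMod p → (V →ₗ[ZMod p] ZMod p)) (X : MonoidAlgebra k (Multiplicative V))
    (μ : ℕ → ZMod p → k) : Prop where
  nil : IsNilpotent X
  eq : ∀ n x, x ≠ 0 → mp k (hm (e n x)) X = μ n x • NN k p
  ne : ∀ n, kp (μ n) ≠ 0

theorem good_step (hp : (p : k) = 0) {e : ℕ → ZMod p → (V →ₗ[ZMod p] ZMod p)}
    {X : MonoidAlgebra k (Multiplicative V)} {μ : ℕ → ZMod p → k} (h : Good e X μ) {d : k}
    (hd : d ≠ 0) : ∃ Z, Z * (1 - X) = 1 ∧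
      (∀ n x, x ≠ 0 → mp k (hm (e n x)) Z = 1 + μ n x • NN k p) ∧
      Good (sh e) (d • (Z - 1)) (fun n x => d * μ (n + 1) x) := by
  obtain ⟨Z, hZ⟩ := (h.nil.isUnit_one_sub).exists_left_inv
  have h1 : ∀ n x, x ≠ 0 → mp k (hm (e n x)) Z = 1 + μ n x • NN k p := by
    intro n x hx
    have h2 := congrArg (mp k (hm (e n x))) hZ
    rw [map_mul, map_sub, map_one, h.eq n x hx] at h2
    have h3 : (1 - μ n x • NN k p) * (1 + μ n x • NN k p) = 1 := by
      rw [sub_mul, one_mul, mul_add, mul_one, smul_mul_smul_comm, NN_sq hp, smul_zero, add_zero,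
        add_sub_cancel_right]
    calc mp k (hm (e n x)) Z = mp k (hm (e n x)) Z *
          ((1 - μ n x • NN k p) * (1 + μ n x • NN k p)) := by rw [h3, mul_one]
      _ = 1 + μ n x • NN k p := by rw [← mul_assoc, h2, one_mul]
  have h4 : Z - 1 = Z * X := by
    have h5 : Z - Z * X = 1 := by rw [← hZ, mul_sub, mul_one]
    rw [← h5]; abel
  refine ⟨Z, hZ, h1, ?_, ?_, ?_⟩
  · rw [h4]
    exact ((Commute.all Z X).isNilpotent_mul_left h.nil).smul d
  · intro n x hx
    rw [map_smul, map_sub, map_one]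
    have h6 : mp k (hm (sh e n x)) Z = 1 + μ (n + 1) x • NN k p := h1 (n + 1) x hx
    rw [h6, add_sub_cancel_left, smul_smul]
  · intro n
    have h7 : kp (fun x => d * μ (n + 1) x) = d * kp (μ (n + 1)) := by
      rw [kp, kp, Finset.mul_sum]
      refine Finset.sum_congr rfl fun x _ => ?_
      split_ifs
      · rw [mul_zero]
      · rfl
    rw [h7]
    exact mul_ne_zero hd (h.ne (n + 1))

/-- One step of the descent. -/
theorem step (hp : (p : k) = 0) {e : ℕ → ZMod p → (V →ₗ[ZMod p] ZMod p)}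
    {X : MonoidAlgebra k (Multiplicative V)} {μ : ℕ → ZMod p → k} (h : Good e X μ) {d : k}
    (hd : d ≠ 0) (Y : MonoidAlgebra k (GG e)) (S : Set (GG e)) (T : Set (GG (sh e)))
    (hST : ∀ g ∈ S, ∀ x, sec e g x ∈ T) (hT : 1 ∈ T) (hY : Y ∈ VV k S)
    (hw : (1 - (d • Na k e + mp k (rbH e) X)) * Y = 1) :
    ∃ (X' : MonoidAlgebra k (Multiplicative V)) (μ' : ℕ → ZMod p → k) (d' : k)
      (Y' : MonoidAlgebra k (GG (sh e))), Good (sh e) X' μ' ∧ d' ≠ 0 ∧ Y' ∈ VV k T ∧
      (1 - (d' • Na k (sh e) + mp k (rbH (sh e)) X')) * Y' = 1 := by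
  obtain ⟨Z, hZ, h1, h2⟩ := good_step hp h hd
  refine ⟨_, _, d * kp (μ 0), 1 + d • ss e Y, h2, mul_ne_zero hd (h.ne 0), ?_,
    descend hp e d X Z hZ (μ 0) (h1 0) Y hw⟩
  exact add_mem (by rw [MonoidAlgebra.one_def]; exact single_mem_VV hT)
    (Submodule.smul_mem _ d (ss_mem hST hY))

theorem exists_ne {μ : ZMod p → k} (h : kp μ ≠ 0) : ∃ x, x ≠ 0 ∧ μ x ≠ 0 := by
  by_contra hcon
  push Not at hcon
  apply h
  rw [kp]
  apply Finset.sum_eq_zero
  intro x _
  split_ifs with hx
  · rfl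
  · exact hcon x hx

theorem no_inv_one [Finite V] (hp : (p : k) = 0) (c : ℕ) :
    ∀ (e : ℕ → ZMod p → (V →ₗ[ZMod p] ZMod p)), Set.ncard {v : V | rb e v ≠ 1} = c →
    ∀ (X : MonoidAlgebra k (Multiplicative V)) (μ : ℕ → ZMod p → k), Good e X μ →
    ∀ d : k, d ≠ 0 → ∀ Y ∈ VV k (Let e),
    (1 - (d • Na k e + mp k (rbH e) X)) * Y ≠ 1 := by
  induction c using Nat.strong_induction_on with
  | _ c ih =>
    intro e hc X μ hG d hd Y hY hw
    by_cases hs : Stable e
    · obtain ⟨x, hx, hμ⟩ := exists_ne (hG.ne 0)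
      exact no_short hs hd X hx hμ (hG.eq 0 x hx) Y hY hw
    · rw [Stable] at hs
      push Not at hs
      obtain ⟨j, hj1, hj2⟩ := hs
      have hlt : Set.ncard {v : V | rb (sh e) v ≠ 1} < c := by
        rw [← hc]
        refine Set.ncard_lt_ncard ⟨fun v hv h => hv (rb_sh_one h), fun hsub => ?_⟩
          (Set.toFinite _)
        exact hsub (show j ∈ {v : V | rb e v ≠ 1} from hj2) hj1
      obtain ⟨X', μ', d', Y', h1, h2, h3, h4⟩ := step hp hG hd Y (Let e) (Let (sh e)) (by
        rintro g (⟨t, rfl⟩ | ⟨t, rfl⟩) x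
        · rw [sec_ra]; exact Or.inl ⟨0, ra_zero _⟩
        · rw [sec_rb]
          split_ifs
          · exact Or.inr ⟨_, rfl⟩
          · exact Or.inl ⟨_, rfl⟩) (Or.inl ⟨0, ra_zero _⟩) hY hw
      exact ih _ hlt (sh e) rfl X' μ' h1 d' h2 Y' h3 h4

theorem no_inv [Finite V] (hp : (p : k) = 0) (n : ℕ) :
    ∀ (e : ℕ → ZMod p → (V →ₗ[ZMod p] ZMod p)) (X : MonoidAlgebra k (Multiplicative V))
      (μ : ℕ → ZMod p → k), Good e X μ → ∀ d : k, d ≠ 0 →
    ∀ Y ∈ VV k (LL e n), (1 - (d • Na k e + mp k (rbH e) X)) * Y ≠ 1 := by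
  induction n using Nat.strong_induction_on with
  | _ n ih =>
    intro e X μ hG d hd Y hY hw
    obtain ⟨X', μ', d', Y', h1, h2, h3, h4⟩ := step hp hG hd Y (LL e n) (PP (sh e) n)
      (sec_LL e n) (one_mem_PP _ n) hY hw
    by_cases hn : n ≤ 1
    · exact no_inv_one hp _ (sh e) rfl X' μ' h1 d' h2 Y' (VV_mono (PP_le_one hn) h3) h4
    · exact ih ((n + 1) / 2) (by omega) (sh e) X' μ' h1 d' h2 Y' (VV_mono (PP_LL _ n) h3) h4

end Pool.Agent.Y803.Spinal
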