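import Pool.Agent.Y803.GR.RealF

/-!
In characteristic zero the group algebra of a group which is not locally finite is not algebraic.
-/

set_option autoImplicit false

open Polynomial Pointwise

namespace Pool.Agent.Y803.GR

universe u v w

/-- Every finitely generated subgroup is finite. -/
def LocFinite (G : Type v) [Group G] : Prop :=
  ∀ S : Finset G, (Subgroup.closure (S : Set G) : Set G).Finite

section

variable {k : Type u} [Field k] [CharZero k] {G : Type v} [Group G]

/-- The set of all products of `n` elements of `S`. -/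
def words (S : Set G) : ℕ → Set G
  | 0 => {1}
  | n + 1 => {g | ∃ s ∈ S, s⁻¹ * g ∈ words S n}

theorem words_mono {S : Set G} (h1 : (1 : G) ∈ S) (n : ℕ) : words S n ⊆ words S (n + 1) := by
  intro g hg
  exact ⟨1, h1, by rw [inv_one, one_mul]; exact hg⟩

theorem words_mono' {S : Set G} (h1 : (1 : G) ∈ S) {m n : ℕ} (h : m ≤ n) :
    words S m ⊆ words S n := by
  induction h with
  | refl => exact subset_rfl
  | step _ ih => exact ih.trans (words_mono h1 _)

theorem words_stable {S : Set G} (n : ℕ) (h : words S (n + 1) ⊆ words S n) :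
    ∀ m, words S (n + m) ⊆ words S n := by
  intro m
  induction m with
  | zero => exact subset_rfl
  | succ m ih =>
    rintro g ⟨s, hs, hg⟩
    exact h ⟨s, hs, ih hg⟩

theorem words_finite {S : Set G} (hS : S.Finite) (n : ℕ) : (words S n).Finite := by
  induction n with
  | zero => exact Set.finite_singleton 1
  | succ n ih =>
    refine (Set.Finite.image2 (fun s g => s * g) hS ih).subset ?_
    rintro g ⟨s, hs, hg⟩
    exact ⟨s, hs, s⁻¹ * g, hg, by group⟩

theorem closure_subset {S : Set G} (hinv : ∀ s ∈ S, s⁻¹ ∈ S) :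
    (Subgroup.closure S : Set G) ⊆ ⋃ n, words S n := by
  intro g hg
  have hmul : ∀ (s : G), s ∈ S → ∀ g ∈ ⋃ n, words S n, s * g ∈ ⋃ n, words S n := by
    intro s hs g hg
    obtain ⟨n, hn⟩ := Set.mem_iUnion.1 hg
    exact Set.mem_iUnion.2 ⟨n + 1, s, hs, by rw [inv_mul_cancel_left]; exact hn⟩
  have hg' : g ∈ Subgroup.closure S := hg
  clear hg
  induction hg' using Subgroup.closure_induction_left with
  | one => exact Set.mem_iUnion.2 ⟨0, rfl⟩
  | mul_left x hx y _ ih => exact hmul x hx y ih
  | inv_mul_cancel x hx y _ ih => exact hmul _ (hinv x hx) y ih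

theorem words_strict {S : Set G} (hS : S.Finite) (h1 : (1 : G) ∈ S) (hinv : ∀ s ∈ S, s⁻¹ ∈ S)
    (hinf : (Subgroup.closure S : Set G).Infinite) (n : ℕ) :
    ∃ g ∈ words S n, ∀ m < n, g ∉ words S m := by
  rcases n with _ | n
  · exact ⟨1, rfl, fun m hm => absurd hm (Nat.not_lt_zero m)⟩
  · by_contra hcon
    push Not at hcon
    apply hinf
    refine (words_finite hS n).subset ((closure_subset hinv).trans ?_)
    refine Set.iUnion_subset fun m => ?_
    refine (words_mono' h1 (Nat.le_add_left m n)).trans (words_stable n ?_ m)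
    intro g hg
    obtain ⟨m, hm, hgm⟩ := hcon g hg
    exact words_mono' h1 (Nat.lt_succ_iff.1 hm) hgm

/-- The sum of the elements of a finite set. -/
noncomputable def sumSet (k : Type u) [Field k] (S : Finset G) : MonoidAlgebra k G :=
  ∑ s ∈ S, MonoidAlgebra.single s 1

theorem coeff_sum_pow (S : Finset G) (n : ℕ) : ∀ g : G, ∃ m : ℕ,
    (sumSet k S ^ n).coeff g = m ∧ (g ∈ words (S : Set G) n ↔ m ≠ 0) := by
  classical
  induction n with
  | zero =>
    intro g
    by_cases hg : g = 1
    · refine ⟨1, ?_, ?_⟩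
      · rw [pow_zero, hg, MonoidAlgebra.one_def]
        simp
      · simp [words, hg]
    · refine ⟨0, ?_, ?_⟩
      · rw [pow_zero, MonoidAlgebra.one_def]
        simp [Ne.symm hg]
      · simp [words, hg]
  | succ n ih =>
    intro g
    choose m hm hm' using ih
    refine ⟨∑ s ∈ S, m (s⁻¹ * g), ?_, ?_⟩
    · rw [pow_succ', sumSet, Finset.sum_mul, MonoidAlgebra.coeff_sum, Finsupp.finsetSum_apply,
        Nat.cast_sum]
      apply Finset.sum_congr rfl
      intro s _
      rw [MonoidAlgebra.coeff_single_mul_apply, one_mul]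
      exact hm _
    · rw [Ne, Finset.sum_eq_zero_iff]
      push Not
      constructor
      · rintro ⟨s, hs, hg⟩
        exact ⟨s, hs, (hm' _).1 hg⟩
      · rintro ⟨s, hs, hg⟩
        exact ⟨s, hs, (hm' _).2 hg⟩

theorem transcendental_sumSet (S : Finset G) (h1 : (1 : G) ∈ S) (hinv : ∀ s ∈ S, s⁻¹ ∈ S)
    (hinf : (Subgroup.closure (S : Set G) : Set G).Infinite) :
    Transcendental k (sumSet k S) := by
  rw [transcendental_iff]
  intro p hp
  by_contra hp0
  obtain ⟨g, hg, hg'⟩ := words_strict S.finite_toSet h1 hinv hinf p.natDegree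
  have h2 := congrArg (fun z => MonoidAlgebra.coeff z g) hp
  simp only [aeval_eq_sum_range, MonoidAlgebra.coeff_sum, Finsupp.finsetSum_apply,
    MonoidAlgebra.coeff_smul, Finsupp.smul_apply, smul_eq_mul] at h2
  rw [Finset.sum_range_succ, Finset.sum_eq_zero, zero_add] at h2
  · obtain ⟨m, hm, hm'⟩ := coeff_sum_pow (k := k) S p.natDegree g
    rw [hm] at h2
    have h3 : (m : k) ≠ 0 := Nat.cast_ne_zero.2 (hm'.1 hg)
    have h4 : p.coeff p.natDegree ≠ 0 := by
      rw [coeff_natDegree]
      exact leadingCoeff_ne_zero.2 hp0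
    exact mul_ne_zero h4 h3 h2
  · intro i hi
    obtain ⟨m, hm, hm'⟩ := coeff_sum_pow (k := k) S i g
    have h3 : m = 0 := by
      by_contra h
      exact hg' i (Finset.mem_range.1 hi) (hm'.2 h)
    rw [hm, h3, Nat.cast_zero, mul_zero]

/-- In characteristic zero the group algebra of a group which is not locally finite contains a
transcendental element. -/
theorem exists_transcendental (h : ¬ LocFinite G) : ∃ y : MonoidAlgebra k G, Transcendental k y := by
  classical
  unfold LocFinite at h
  push Not at h
  obtain ⟨S, hS⟩ := h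
  set T : Finset G := insert 1 (S ∪ S.image fun g => g⁻¹) with hT
  refine ⟨sumSet k T, transcendental_sumSet T (Finset.mem_insert_self _ _) ?_ ?_⟩
  · intro s hs
    rw [hT, Finset.mem_insert, Finset.mem_union, Finset.mem_image] at hs
    rw [hT, Finset.mem_insert, Finset.mem_union, Finset.mem_image]
    rcases hs with rfl | hs | ⟨g, hg, rfl⟩
    · left; rw [inv_one]
    · right; right; exact ⟨s, hs, rfl⟩
    · right; left; rwa [inv_inv]
  · intro hfin
    apply hS
    refine hfin.subset ?_
    apply Subgroup.closure_mono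
    intro s hs
    rw [hT]
    simp only [Finset.coe_insert, Finset.coe_union]
    right; left; exact hs

end

end Pool.Agent.Y803.GR
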