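import Pool.Agent.Y803.GR.AbsT
import Pool.Agent.Y803.GR.Greedy

/-!
Group algebras of groups of homeomorphisms with non-trivial rigid stabilisers.
-/

set_option autoImplicit false

open Polynomial Pointwise

namespace Pool.Agent.Y803.GR

universe u v w

section

variable {k : Type u} [Field k] {G : Type v} [Group G] {X : Type w} [MulAction G X]

theorem Com_mono {U V : Set X} (h : U ⊆ V) : Com k G U ≤ Com k G V := by
  apply AddSubmonoid.closure_mono
  rintro z ⟨a, ha, y, hy, rfl⟩
  exact ⟨a, Rist_mono h ha, y, Rist_mono h hy, rfl⟩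

theorem Com_trivial {U : Set X} (h : ∀ a ∈ Rist G U, a = 1) {z : MonoidAlgebra k G}
    (hz : z ∈ Com k G U) : z = 0 := by
  induction hz using AddSubmonoid.closure_induction with
  | mem z hz =>
    obtain ⟨a, ha, y, hy, rfl⟩ := hz
    rw [h a ha, h y hy, mul_one, mul_inv_cancel, inv_one, mul_one, MonoidAlgebra.one_def, sub_self]
  | zero => rfl
  | add x y _ _ hx hy => rw [hx, hy, add_zero]

end

section

variable {G : Type v} [Group G] {X : Type w} [TopologicalSpace X] [T2Space X] [MulAction G X]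

theorem infinite_of_open [FaithfulSMul G X]
    (h : ∀ U : Set X, IsOpen U → U.Nonempty → ∃ a ∈ Rist G U, a ≠ 1) {U : Set X}
    (hU : IsOpen U) (hne : U.Nonempty) : U.Infinite := by
  obtain ⟨p, hp⟩ := hne
  by_contra hfin
  rw [Set.not_infinite] at hfin
  have h1 : IsOpen ({p} : Set X) := by
    have h2 : ({p} : Set X) = U \ (U \ {p}) := by
      rw [Set.sdiff_sdiff_cancel_left (Set.singleton_subset_iff.2 hp)]
    rw [h2]
    exact hU.sdiff (hfin.subset Set.sdiff_subset).isClosed
  obtain ⟨a, ha, ha1⟩ := h {p} h1 ⟨p, rfl⟩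
  apply ha1
  apply FaithfulSMul.eq_of_smul_eq_smul (α := X)
  intro x
  rw [one_smul]
  by_cases hx : x = p
  · subst hx
    exact Rist_maps ha rfl
  · exact ha x hx

variable [ContinuousConstSMul G X]

theorem exists_sets [FaithfulSMul G X] [DecidableEq G] [DecidableEq X]
    (S : Finset G) (h1S : 1 ∈ S)
    (hinf : ∀ U : Set X, IsOpen U → U.Nonempty → U.Infinite) (E : Set X) (hE : IsOpen E)
    (hEne : E.Nonempty) :
    ∃ U : G → Set X, (∀ g, IsOpen (U g) ∧ (U g).Nonempty) ∧ U 1 ⊆ E ∧
      (∀ g ∈ S, g ≠ 1 → Disjoint (U g) (g⁻¹ • U g)) ∧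
      (∀ g ∈ S, ∀ h ∈ S, g ≠ h → ∀ s ∈ S, ∀ t ∈ S, Disjoint (s⁻¹ • U g) (t⁻¹ • U h)) := by
  let E' : G → Set X := fun g => if g = 1 then E else {p | g⁻¹ • p ≠ p}
  have hE'o : ∀ g, IsOpen (E' g) := by
    intro g
    by_cases hg : g = 1
    · simp only [E', hg, if_true]; exact hE
    · simp only [E', hg, if_false]
      exact isOpen_ne_fun (continuous_const_smul _) continuous_id
  have hE'n : ∀ g, (E' g).Nonempty := by
    intro g
    by_cases hg : g = 1
    · simp only [E', hg, if_true]; exact hEne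
    · simp only [E', hg, if_false]
      by_contra hcon
      rw [Set.not_nonempty_iff_eq_empty] at hcon
      apply hg
      rw [← inv_eq_one]
      apply FaithfulSMul.eq_of_smul_eq_smul (α := X)
      intro x
      rw [one_smul]
      by_contra hx
      have : x ∈ ({p | g⁻¹ • p ≠ p} : Set X) := hx
      rw [hcon] at this
      exact this
  let bad : X → Finset X := fun p => (S ×ˢ S).image fun st => st.1 • st.2⁻¹ • p
  obtain ⟨f, hf1, hf2⟩ := greedy (S.card * S.card) (S.card * S.card * S.card) bad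
    (fun a => le_trans Finset.card_image_le (le_of_eq (Finset.card_product S S)))
    (by
      intro a b hab
      obtain ⟨⟨s, t⟩, hst, rfl⟩ := Finset.mem_image.1 hab
      rw [Finset.mem_product] at hst
      refine Finset.mem_image.2 ⟨(t, s), Finset.mem_product.2 ⟨hst.2, hst.1⟩, ?_⟩
      show t • s⁻¹ • s • t⁻¹ • b = b
      rw [inv_smul_smul, smul_inv_smul])
    E' (fun i B _ => (hinf _ (hE'o i) (hE'n i)).exists_notMem_finset B) S le_rfl
  let P : Set X := ↑((S ×ˢ S).image fun st : G × G => st.1⁻¹ • f st.2)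
  have hP : ∀ s ∈ S, ∀ g ∈ S, s⁻¹ • f g ∈ P := fun s hs g hg =>
    Finset.mem_coe.2 (Finset.mem_image.2 ⟨(s, g), Finset.mem_product.2 ⟨hs, hg⟩, rfl⟩)
  obtain ⟨O, hO1, hO2⟩ := (Finset.finite_toSet ((S ×ˢ S).image
    fun st : G × G => st.1⁻¹ • f st.2) : P.Finite).t2_separation
  let U : G → Set X := fun g => (⋂ s ∈ S, s • O (s⁻¹ • f g)) ∩ E' g
  have hUo : ∀ s ∈ S, ∀ g, s⁻¹ • U g ⊆ O (s⁻¹ • f g) := by
    rintro s hs g _ ⟨x, hx, rfl⟩
    have h1 : x ∈ s • O (s⁻¹ • f g) := by
      have := hx.1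
      simp only [Set.mem_iInter] at this
      exact this s hs
    rw [Set.mem_smul_set_iff_inv_smul_mem] at h1
    exact h1
  refine ⟨U, ?_, ?_, ?_, ?_⟩
  · intro g
    refine ⟨(isOpen_biInter_finset fun s _ => (hO1 _).2.smul s).inter (hE'o g), f g, ?_, hf1 g⟩
    simp only [Set.mem_iInter]
    intro s _
    rw [Set.mem_smul_set_iff_inv_smul_mem]
    exact (hO1 _).1
  · intro x hx
    have := hx.2
    simp only [E', if_true] at this
    exact this
  · intro g hg hg1
    have h1 : U g ⊆ O ((1 : G)⁻¹ • f g) := by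
      have := hUo 1 h1S g
      rw [inv_one, one_smul, one_smul] at this
      rw [inv_one, one_smul]
      exact this
    have h2 := hUo g hg g
    refine Set.disjoint_of_subset h1 h2 (hO2 (hP 1 h1S g hg) (hP g hg g hg) ?_)
    rw [inv_one, one_smul]
    have h3 := hf1 g
    simp only [E', hg1, if_false] at h3
    exact fun h => h3 h.symm
  · intro g hg h hh hgh s hs t ht
    refine Set.disjoint_of_subset (hUo s hs g) (hUo t ht h) (hO2 (hP s hs g hg) (hP t ht h hh) ?_)
    intro heq
    apply hf2 g hg h hh hgh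
    refine Finset.mem_image.2 ⟨(s, t), Finset.mem_product.2 ⟨hs, ht⟩, ?_⟩
    show s • t⁻¹ • f h = f g
    rw [← heq, smul_inv_smul]

/-- **Theorem.** Let `G` act faithfully by homeomorphisms on a Hausdorff space `X`. Suppose that
for every nonempty open set `U` some sum of elements `[a, y] - 1`, with `a`, `y` in the rigid
stabiliser of `U`, is not nilpotent. Then `J(k[G]) = 0`. -/
theorem jacobson_micro [FaithfulSMul G X] (k : Type u) [Field k]
    (h : ∀ U : Set X, IsOpen U → U.Nonempty → ∃ z ∈ Com k G U, ¬ IsNilpotent z) :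
    Ideal.jacobson (⊥ : Ideal (MonoidAlgebra k G)) = ⊥ := by
  classical
  have h0 : ∀ U : Set X, IsOpen U → U.Nonempty → ∃ a ∈ Rist G U, a ≠ 1 := by
    intro U hU hne
    by_contra hcon
    push Not at hcon
    obtain ⟨z, hz, hzn⟩ := h U hU hne
    exact hzn (Com_trivial hcon hz ▸ IsNilpotent.zero)
  have hinf : ∀ U : Set X, IsOpen U → U.Nonempty → U.Infinite := fun U hU hne =>
    infinite_of_open h0 hU hne
  apply jacobson_eq_bot' (X := X)
  intro S h1S
  by_cases hcase : ∀ U : Set X, IsOpen U → U.Nonempty →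
      ∃ z ∈ Com k G U, ¬ IsNilpotent z ∧ IsAlgebraic k z
  · rcases isEmpty_or_nonempty X with hX | hX
    · have hG : ∀ g : G, g = 1 := fun g =>
        FaithfulSMul.eq_of_smul_eq_smul (α := X) fun x => (hX.false x).elim
      exact ⟨fun _ => ∅, fun _ => 0, fun g _ hg => absurd (hG g) hg, fun g _ hg => absurd (hG g) hg,
        fun g _ hg => absurd (hG g) hg, Or.inl fun g _ hg => absurd (hG g) hg⟩
    · obtain ⟨U, hU, -, c1, c2⟩ := exists_sets S h1S hinf (Set.univ : Set X) isOpen_univ
        Set.univ_nonempty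
      choose z hz1 hz2 hz3 using fun g => hcase (U g) (hU g).1 (hU g).2
      exact ⟨U, z, c1, fun g hg _ h hh _ hne => c2 g hg h hh hne, fun g _ _ => ⟨hz1 g, hz2 g⟩,
        Or.inl fun g _ _ => hz3 g⟩
  · push Not at hcase
    obtain ⟨E, hE, hEne, hEz⟩ := hcase
    obtain ⟨U, hU, hUE, c1, c2⟩ := exists_sets S h1S hinf E hE hEne
    choose z hz1 hz2 using fun g => h (U g) (hU g).1 (hU g).2
    refine ⟨U, z, c1, fun g hg _ h hh _ hne => c2 g hg h hh hne, fun g _ _ => ⟨hz1 g, hz2 g⟩,
      Or.inr ⟨U 1, ?_, ?_⟩⟩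
    · intro g hg hg1 s hs
      have := c2 1 h1S g hg (Ne.symm hg1) 1 h1S s hs
      rwa [inv_one, one_smul] at this
    · have htr : Transcendental k (z 1) := by
        intro halg
        exact hEz (z 1) (Com_mono hUE (hz1 1)) (hz2 1) halg
      obtain ⟨y, hy⟩ := Com_le (hz1 1)
      refine ⟨y, ?_⟩
      rw [← hy, transcendental_iff] at htr
      rw [transcendental_iff]
      intro p hp
      apply htr
      show aeval (mp k (Rist G (U 1)).subtype y) p = 0
      rw [aeval_algHom_apply, hp, map_zero]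

end

end Pool.Agent.Y803.GR
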