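import Pool.Agent.Y803.GR.Main

/-!
The constant sequences.
-/

set_option autoImplicit false

open Polynomial

namespace Pool.Agent.Y803.GR

universe u v w

/-- The augmentation ideal of the group algebra of the infinite cyclic group does not lie in the
radical. -/
theorem not_augLeJac_int (k : Type u) [Field k] : ¬ AugLeJac k (Multiplicative ℤ) := by
  intro hJ
  let f : k[X] := X ^ 2 - X + 1
  have hdeg : f.degree ≠ 0 := by
    have : f.degree = 2 := by
      simp only [f]
      compute_degree!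
    rw [this]
    decide
  have hnt : Nontrivial (AdjoinRoot f) := AdjoinRoot.nontrivial f hdeg
  let r : AdjoinRoot f := AdjoinRoot.root f
  have hr : r * r - r + 1 = 0 := by
    have h1 := AdjoinRoot.eval₂_root f
    simp only [f, eval₂_add, eval₂_sub, eval₂_pow, eval₂_X, eval₂_one] at h1
    have h2 : r ^ 2 - r + 1 = 0 := h1
    rwa [pow_two] at h2
  have hr1 : r * (1 - r) = 1 := by
    have : r * (1 - r) = 1 - (r * r - r + 1) := by ring
    rw [this, hr, sub_zero]
  let U : (AdjoinRoot f)ˣ := ⟨r, 1 - r, hr1, by rw [mul_comm]; exact hr1⟩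
  let F : MonoidAlgebra k (Multiplicative ℤ) →ₐ[k] AdjoinRoot f :=
    MonoidAlgebra.lift k (AdjoinRoot f) (Multiplicative ℤ)
      ((Units.coeHom (AdjoinRoot f)).comp (zpowersHom _ U))
  set T : MonoidAlgebra k (Multiplicative ℤ) := MonoidAlgebra.single (Multiplicative.ofAdd 1) 1
    with hT
  have hFT : F T = r := by
    simp only [F, hT, MonoidAlgebra.lift_single, one_smul]
    simp [U]
  have hx : (T - 1 : MonoidAlgebra k (Multiplicative ℤ)) ∈
      Ideal.jacobson (⊥ : Ideal (MonoidAlgebra k (Multiplicative ℤ))) := by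
    apply hJ
    rw [map_sub, map_one, hT, aug_single, sub_self]
  have hu := (isUnit_of_jacobson (Ideal.mul_mem_left _ T hx)).map F
  have h0 : F (1 + T * (T - 1)) = 0 := by
    rw [map_add, map_mul, map_sub, map_one, hFT]
    rw [← hr]
    ring
  rw [h0] at hu
  exact not_isUnit_zero hu

theorem finite_order {k : Type u} [Field k] {G : Type v} [Group G] (hJ : AugLeJac k G) (g : G) :
    IsOfFinOrder g := by
  by_contra hg
  have hinj : Function.Injective (zpowersHom G g) := by
    intro a b hab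
    have h1 : g ^ (Multiplicative.toAdd a) = g ^ (Multiplicative.toAdd b) := hab
    have h2 := (injective_zpow_iff_not_isOfFinOrder.2 hg) h1
    exact h2
  exact not_augLeJac_int k (augLeJac_sub (zpowersHom G g) hinj hJ)

theorem square_ab {ω : ℕ → Fin 3} {i : Fin 3} (h0 : ω 0 ≠ i) (hsh : sh ω = ω) :
    (pa * pb i ω) ^ 2 = Lft (pb i ω * pa) * Rgt (pa * pb i ω) := by
  have h1 : pb i ω = Lft pa * Rgt (pb i ω) := by
    conv_lhs => rw [pb_eq_of_ne h0, hsh]
  have h2 : pa * pb i ω * pa = Lft (pb i ω) * Rgt pa := by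
    conv_lhs => rw [h1]
    have h3 : pa * (Lft pa * Rgt (pb i ω)) * pa = (pa * Lft pa * pa) * (pa * Rgt (pb i ω) * pa) := by
      calc _ = pa * Lft pa * 1 * Rgt (pb i ω) * pa := by group
        _ = pa * Lft pa * (pa * pa) * Rgt (pb i ω) * pa := by rw [pa_mul_pa]
        _ = _ := by group
    rw [h3, conj_Lft, conj_Rgt, ← Lft_Rgt_comm]
  calc (pa * pb i ω) ^ 2 = (pa * pb i ω * pa) * pb i ω := by rw [pow_two]; group
    _ = (Lft (pb i ω) * Rgt pa) * (Lft pa * Rgt (pb i ω)) := by rw [h2, ← h1]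
    _ = _ := LR_mul _ _ _ _

theorem odd_pow_ne {ω : ℕ → Fin 3} {i : Fin 3} (h0 : ω 0 ≠ i) (hsh : sh ω = ω) (m : ℕ) :
    (pa * pb i ω) ^ (2 * m + 1) ≠ 1 := by
  intro h
  rw [pow_succ, pow_mul, square_ab h0 hsh] at h
  have h1 : ∀ m : ℕ, (Lft (pb i ω * pa) * Rgt (pa * pb i ω)) ^ m =
      Lft ((pb i ω * pa) ^ m) * Rgt ((pa * pb i ω) ^ m) := by
    intro m
    induction m with
    | zero => simp
    | succ m ih => rw [pow_succ, ih, LR_mul, ← pow_succ, ← pow_succ]
  rw [h1] at h
  have h2 := congrArg (fun p : Equiv.Perm (List Bool) => (p [true]).head?) h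
  have h3 : (pa * pb i ω) [true] = [false] := by
    show fa (fb i ω [true]) = [false]
    simp [fa, fb]
  simp only [Equiv.Perm.mul_apply] at h2
  rw [show (pa (pb i ω [true])) = [false] from h3, Rgt_false, Lft_false] at h2
  simp at h2

theorem ab_not_finite {ω : ℕ → Fin 3} {i : Fin 3} (h0 : ω 0 ≠ i) (hsh : sh ω = ω) (n : ℕ) :
    0 < n → (pa * pb i ω) ^ n ≠ 1 := by
  induction n using Nat.strong_induction_on with
  | _ n ih =>
    intro hn h
    rcases Nat.even_or_odd' n with ⟨m, rfl | rfl⟩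
    · have h1 : ∀ m : ℕ, (Lft (pb i ω * pa) * Rgt (pa * pb i ω)) ^ m =
          Lft ((pb i ω * pa) ^ m) * Rgt ((pa * pb i ω) ^ m) := by
        intro m
        induction m with
        | zero => simp
        | succ m ih => rw [pow_succ, ih, LR_mul, ← pow_succ, ← pow_succ]
      rw [pow_mul, square_ab h0 hsh, h1] at h
      have h2 : Lft ((pb i ω * pa) ^ m) * Rgt ((pa * pb i ω) ^ m) = Lft 1 * Rgt 1 := by
        rw [h, map_one, map_one, mul_one]
      exact ih m (by omega) (by omega) (LR_inj h2).2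
    · exact odd_pow_ne h0 hsh m h

/-- **Theorem.** For every sequence `ω` and every field `k`, the Jacobson radical of `k[G_ω]` does
not contain the augmentation ideal. -/
theorem all (k : Type u) [Field k] (ω : ℕ → Fin 3) : ¬ AugLeJac k (G ω) := by
  by_cases h : ∃ n, ω (n + 1) ≠ ω n
  · obtain ⟨n, hn⟩ := h
    exact family k n ω hn
  · push Not at h
    intro hJ
    obtain ⟨i, hi⟩ : ∃ i : Fin 3, ω 0 ≠ i := by
      have : ∀ x : Fin 3, ∃ i, x ≠ i := by decide
      exact this _
    have hf := finite_order hJ (⟨pa * pb i ω, (G ω).mul_mem (pa_mem ω) (pb_mem i ω)⟩ : G ω)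
    rw [isOfFinOrder_iff_pow_eq_one] at hf
    obtain ⟨n, hn, hpow⟩ := hf
    exact ab_not_finite hi (funext h) n hn (congrArg Subtype.val hpow)

end Pool.Agent.Y803.GR
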