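import Pool.Agent.H202Kap.C

/-!
The theorems `geo_bounded` and `locFin_top` of `Pool/Agent/H202Kap` under the weaker hypothesis that
the elements `1 - X` have right inverses (the proofs are the same).
-/

set_option autoImplicit false

namespace Pool.Agent.Y803.ZW

open MonoidAlgebra Pool.Agent.Helper826.Kap Pool.Agent.H202Kap

open Classical in
/-- geodesic words in `T` have bounded length -/
theorem geo_bounded' (K : Type) [Field K] (G : Type) [Group G]
    (D Q : Type) [Group D] [Group Q] (φ : Wr D Q →* G) (hφ : Function.Injective φ)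
    (a : D) (ha : (orderOf a : K) = 0) (T : Finset Q) (V : MonoidAlgebra K G)
    (hV : (1 + -(mp K φ (X K T a))) * V = 1) :
    ∃ F : Finset Q, ∀ l : List Q, Geo T l → l.prod ∈ F := by
  have hXe : mp K φ (X K T a) = ∑ s ∈ T, (single (φ (base a * top s)) (1 : K)
      - single (φ (top s)) 1) := by
    unfold X
    rw [map_sum]
    refine Finset.sum_congr rfl fun s _ => ?_
    rw [map_sub, mp_single, mp_single]
  have hV' : V = 1 + mp K φ (X K T a) * V := by
    have h1 : V - mp K φ (X K T a) * V = 1 := by
      rw [← hV, add_mul, one_mul, neg_mul, sub_eq_add_neg]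
    rw [← h1]; abel
  let m : Finset Q → Q → K := fun P q => pair (ext φ (cc K a P q)) V
  have hrec : ∀ P q, m P q = cc K a P q 1 + if (1 : Q) ∈ P then
      ∑ s ∈ T, m ((P.erase 1).image (fun x => s⁻¹ * x)) (s⁻¹ * q) else 0 := by
    intro P q
    have h1 : m P q = pair (ext φ (cc K a P q)) (1 + mp K φ (X K T a) * V) := by
      show pair (ext φ (cc K a P q)) V = _
      conv_lhs => rw [hV']
    rw [h1, pair_add, hXe, Finset.sum_mul, pair_sum]
    congr 1
    · rw [one_def, pair_single, one_mul, ← map_one φ, ext_apply φ hφ]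
    · have hterm : ∀ s ∈ T, pair (ext φ (cc K a P q))
          ((single (φ (base a * top s)) (1 : K) - single (φ (top s)) 1) * V) =
          if (1 : Q) ∈ P then m ((P.erase 1).image (fun x => s⁻¹ * x)) (s⁻¹ * q) else 0 := by
        intro s _
        rw [sub_mul, pair_sub, pair_mul, pair_mul]
        have e1 : ∀ g, ext φ (cc K a P q) (φ (base a * top s) * g) =
            ext φ (cc K a P q) (φ (top s) * g) +
            ext φ (fun w => if (1 : Q) ∈ P then
              cc K a ((P.erase 1).image (fun x => s⁻¹ * x)) (s⁻¹ * q) w else 0) g := by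
          intro g
          rw [ext_mul φ hφ, ext_mul φ hφ, ← ext_add φ hφ]
          congr 1
          funext w
          rw [mul_assoc, cc_base K a ha]
          congr 1
          by_cases h1 : (1 : Q) ∈ P
          · rw [if_pos h1, if_pos h1, cc_top]
          · rw [if_neg h1, if_neg h1]
        rw [pair_congr _ _ e1, pair_addc, add_sub_cancel_left]
        by_cases h1 : (1 : Q) ∈ P
        · simp only [if_pos h1]
          rfl
        · simp only [if_neg h1]
          rw [pair_congr _ _ (ext_zero φ), pair_zeroc]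
      rw [Finset.sum_congr rfl hterm]
      by_cases h1 : (1 : Q) ∈ P
      · simp only [if_pos h1]
      · simp only [if_neg h1, Finset.sum_const_zero]
  let F : Finset Q := V.coeff.support.image fun g =>
    if h : ∃ w, φ w = g then h.choose.1.right else 1
  refine ⟨F, fun l hl => ?_⟩
  have hm1 : m (Pset l) l.prod = 1 := by
    refine geo_eval T m ?_ ?_ ?_ l hl
    · intro q
      rw [hrec, cc_one_empty, if_neg (Finset.notMem_empty _), add_zero]
    · intro P q hP h1
      rw [hrec, cc_one_nonempty K a ha P hP, if_neg h1, add_zero]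
    · intro P q h1
      rw [hrec, cc_one_nonempty K a ha P ⟨1, h1⟩, if_pos h1, zero_add]
  have hm2 : pair (ext φ (cc K a (Pset l) l.prod)) V ≠ 0 := by
    show m (Pset l) l.prod ≠ 0
    rw [hm1]
    exact one_ne_zero
  obtain ⟨g, hg, hg0⟩ := pair_ne_zero _ _ hm2
  refine Finset.mem_image.2 ⟨g, hg, ?_⟩
  by_cases hw : ∃ w, φ w = g
  · rw [dif_pos hw]
    have h3 : ext φ (cc K a (Pset l) l.prod) g = cc K a (Pset l) l.prod hw.choose := by
      conv_lhs => rw [← hw.choose_spec]
      rw [ext_apply φ hφ]
    rw [h3] at hg0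
    exact cc_right K a _ _ _ hg0
  · exact absurd (ext_not _ _ _ hw) hg0

theorem locFin_top' (K : Type) [Field K] (D Q : Type) [Group D] [Group Q] (a : D)
    (ha : (orderOf a : K) = 0)
    (hV : ∀ T : Finset Q, ∃ V : MonoidAlgebra K (Wr D Q), (1 + -(X K T a)) * V = 1)
    (S : Finset Q) : Finite (Subgroup.closure (S : Set Q)) := by
  classical
  let T : Finset Q := S ∪ S.image (fun s => s⁻¹)
  obtain ⟨V, hV⟩ := hV T
  have hid : mp K (MonoidHom.id (Wr D Q)) (X K T a) = X K T a := by
    rw [X, map_sum]
    refine Finset.sum_congr rfl fun s _ => ?_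
    rw [map_sub, mp_single, mp_single]
    rfl
  obtain ⟨F, hF⟩ := geo_bounded' K (Wr D Q) D Q (MonoidHom.id _) Function.injective_id a ha T V
    (by rw [hid]; exact hV)
  have hsub : ((Subgroup.closure (S : Set Q) : Subgroup Q) : Set Q) ⊆ (F : Set Q) := by
    intro q hq
    have hq' : q ∈ Submonoid.closure ((S : Set Q) ∪ (S : Set Q)⁻¹) := by
      rw [← Subgroup.closure_toSubmonoid]
      exact hq
    obtain ⟨l, hl, hlp⟩ := Submonoid.exists_list_of_mem_closure hq'
    have hlT : ∀ x ∈ l, x ∈ T := by
      intro x hx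
      rcases hl x hx with h | h
      · exact Finset.mem_union_left _ (Finset.mem_coe.1 h)
      · exact Finset.mem_union_right _ (Finset.mem_image.2
          ⟨x⁻¹, Finset.mem_coe.1 (Set.mem_inv.1 h), inv_inv x⟩)
    have hex : ∃ n, ∃ l : List Q, (∀ x ∈ l, x ∈ T) ∧ l.prod = q ∧ l.length = n :=
      ⟨l.length, l, hlT, hlp, rfl⟩
    obtain ⟨l0, h1, h2, h3⟩ := Nat.find_spec hex
    have hgeo : Geo T l0 := by
      refine ⟨h1, fun l' hl' hp => ?_⟩
      rw [h3]
      exact Nat.find_min' hex ⟨l', hl', by rw [hp, h2], rfl⟩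
    have := hF l0 hgeo
    rw [h2] at this
    exact this
  exact (F.finite_toSet.subset hsub).to_subtype

end Pool.Agent.Y803.ZW
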