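import Pool.Agent.Y803.GR.ZZ
import Pool.Agent.Y803.GR.ZW0
import Pool.Agent.Y803.GR.Brn

/-!
Property (Z) in characteristic `p`: normal `p`-subgroups of sections, and sections which are
wreath products.
-/

set_option autoImplicit false

namespace Pool.Agent.Y803.ZW

open Pool.Agent.Y803.GR Pool.Agent.Y803.ZZ

universe u v w u1 u2

/-- The abstract form of the argument. -/
theorem main_abs' {p : ℕ} [Fact p.Prime] {F : Type u} [Field F] {Q : Type w} [Group Q]
    (A : Subgroup Q) [A.Normal] (hA : ∀ n ∈ A, ∃ j, n ^ (p ^ j) = 1)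
    {S : Type v} [Group S] (f : S →* Q) (hf : Function.Surjective f)
    {Z : Type u1} [Field Z] [CharP Z p] {N : Type u2} [AddCommGroup N] [Module Z N]
    [FiniteDimensional Z N] (ρ : Representation Z S N) (φ : MonoidAlgebra F S →+ N)
    (m : Ideal (MonoidAlgebra F Q)) (hm : m.IsMaximal) (hφ0 : ∀ y, φ y = 0 ↔ mp F f y ∈ m)
    (hφs : ∀ s y, φ (MonoidAlgebra.single s 1 * y) = ρ s (φ y)) (n : Q) (hn : n ∈ A)
    (r : MonoidAlgebra F Q) : (MonoidAlgebra.single n 1 - 1) * r ∈ m := by
  let N' : Submodule Z N := Submodule.span Z (Set.range φ)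
  have hN' : ∀ s, N' ≤ N'.comap (ρ s) := by
    intro s
    rw [Submodule.span_le]
    rintro _ ⟨y, rfl⟩
    show ρ s (φ y) ∈ N'
    rw [← hφs]
    exact Submodule.subset_span ⟨_, rfl⟩
  let S₁ : Subgroup S := A.comap f
  let ρ₁ : Representation Z S₁ N := ρ.comp S₁.subtype
  have hρ₁ : ∀ s : S₁, ρ₁ s = ρ (s : S) := fun _ => rfl
  have htor : ∀ s : S₁, ∃ j, ∀ v ∈ N', ρ₁ (s ^ (p ^ j)) v = v := by
    intro s
    obtain ⟨j, hj⟩ := hA (f s) s.2
    refine ⟨j, fun v hv => ?_⟩
    rw [hρ₁]
    induction hv using Submodule.span_induction with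
    | mem v hv =>
      obtain ⟨y, rfl⟩ := hv
      rw [← hφs, ← sub_eq_zero, ← map_sub, hφ0, map_sub, map_mul, mp_single, Subgroup.coe_pow,
        map_pow, hj, ← MonoidAlgebra.one_def, one_mul, sub_self]
      exact m.zero_mem
    | zero => rw [map_zero]
    | add a b _ _ ha hb => rw [map_add, ha, hb]
    | smul c a _ ha => rw [map_smul, ha]
  let 𝒮 : Set (Submodule Z N) := {W | W ≤ N' ∧ (∀ s, W ≤ W.comap (ρ s)) ∧
    ∀ y, φ y ∈ W → mp F f y ∈ m}
  have h0 : (⊥ : Submodule Z N) ∈ 𝒮 := by
    refine ⟨bot_le, ?_, ?_⟩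
    · intro s v hv
      have hv0 : v = 0 := (Submodule.mem_bot Z).1 hv
      show ρ s v ∈ (⊥ : Submodule Z N)
      rw [hv0, map_zero]
      exact zero_mem _
    · intro y hy
      exact (hφ0 y).1 ((Submodule.mem_bot Z).1 hy)
  obtain ⟨W, ⟨hWN, hWs, hWm⟩, hmax⟩ :=
    (wellFounded_gt (α := Submodule Z N)).has_min 𝒮 ⟨⊥, h0⟩
  have hlt : W < N' := by
    refine lt_of_le_of_ne hWN ?_
    intro h
    have h1 : φ 1 ∈ W := by rw [h]; exact Submodule.subset_span ⟨1, rfl⟩
    have h2 := hWm 1 h1
    rw [map_one] at h2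
    exact hm.ne_top ((Ideal.eq_top_iff_one m).2 h2)
  obtain ⟨v, hvN, hvW, hv⟩ := relKolchin ρ₁ N' W (fun s => hN' s) (fun s => hWs s) hlt htor
  let U : Submodule Z N :=
    { carrier := {v | v ∈ N' ∧ ∀ s ∈ S₁, ρ s v - v ∈ W}
      zero_mem' := ⟨zero_mem _, fun s _ => by rw [map_zero, sub_zero]; exact zero_mem _⟩
      add_mem' := fun {a b} ha hb => ⟨add_mem ha.1 hb.1, fun s hs => by
        have h1 : ρ s (a + b) - (a + b) = (ρ s a - a) + (ρ s b - b) := by
          rw [map_add]; abel
        rw [h1]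
        exact add_mem (ha.2 s hs) (hb.2 s hs)⟩
      smul_mem' := fun c a ha => ⟨N'.smul_mem c ha.1, fun s hs => by
        rw [map_smul, ← smul_sub]
        exact W.smul_mem c (ha.2 s hs)⟩ }
  have hUmem : ∀ v, v ∈ U ↔ v ∈ N' ∧ ∀ s ∈ S₁, ρ s v - v ∈ W := fun _ => Iff.rfl
  have hWU : W < U := by
    refine lt_of_le_of_ne (fun v hv => ⟨hWN hv, fun s _ => sub_mem (hWs s hv) hv⟩) ?_
    intro h
    apply hvW
    rw [h, hUmem]
    exact ⟨hvN, fun s hs => hv ⟨s, hs⟩⟩
  have hUs : ∀ s, U ≤ U.comap (ρ s) := by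
    intro t v hv
    show ρ t v ∈ U
    rw [hUmem] at hv ⊢
    refine ⟨hN' t hv.1, fun s hs => ?_⟩
    have h1 : t⁻¹ * s * t ∈ S₁ := by
      show f (t⁻¹ * s * t) ∈ A
      have h2 := (inferInstance : A.Normal).conj_mem (f s) hs (f t)⁻¹
      rw [inv_inv] at h2
      rw [map_mul, map_mul, map_inv]
      exact h2
    have h3 : ρ s (ρ t v) - ρ t v = ρ t (ρ (t⁻¹ * s * t) v - v) := by
      rw [map_sub, ← Module.End.mul_apply, ← Module.End.mul_apply, ← map_mul, ← map_mul]
      congr 3
      group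
    rw [h3]
    exact hWs t (hv.2 _ h1)
  have hU2 : U ∉ 𝒮 := fun h => hmax _ h hWU
  have hU3 : ∃ y, φ y ∈ U ∧ mp F f y ∉ m := by
    by_contra hcon
    push Not at hcon
    exact hU2 ⟨fun v hv => hv.1, hUs, hcon⟩
  obtain ⟨y, hyU, hym⟩ := hU3
  have hstep : ∀ q : Q, (MonoidAlgebra.single n 1 - 1) *
      (MonoidAlgebra.single q 1 * mp F f y) ∈ m := by
    intro q
    obtain ⟨t, rfl⟩ := hf q
    obtain ⟨s, rfl⟩ := hf n
    have h1 : φ (MonoidAlgebra.single s 1 * (MonoidAlgebra.single t 1 * y) -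
        MonoidAlgebra.single t 1 * y) ∈ W := by
      rw [map_sub, hφs, hφs]
      exact (hUs t hyU).2 s hn
    have h3 := hWm _ h1
    rw [map_sub, map_mul, map_mul, mp_single, mp_single] at h3
    rw [sub_mul, one_mul]
    exact h3
  have hall : ∀ a : MonoidAlgebra F Q, (MonoidAlgebra.single n 1 - 1) *
      (a * mp F f y) ∈ m := by
    intro a
    induction a using MonoidAlgebra.induction_linear with
    | zero => rw [zero_mul, mul_zero]; exact m.zero_mem
    | add a b ha hb => rw [add_mul, mul_add]; exact m.add_mem ha hb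
    | single q c =>
      have h1 : (MonoidAlgebra.single q c : MonoidAlgebra F Q) =
          c • (MonoidAlgebra.single q 1 : MonoidAlgebra F Q) := by
        rw [MonoidAlgebra.smul_single, smul_eq_mul, mul_one]
      rw [h1, smul_mul_assoc, mul_smul_comm, Algebra.smul_def]
      exact m.mul_mem_left _ (hstep q)
  obtain ⟨a, i, hi, hai⟩ := hm.exists_inv hym
  have h1 : (MonoidAlgebra.single n 1 - 1) * r =
      (MonoidAlgebra.single n 1 - 1) * ((r * a) * mp F f y) +
        (MonoidAlgebra.single n 1 - 1) * (r * i) := by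
    rw [← mul_add, mul_assoc, ← mul_add, hai, mul_one]
  rw [h1]
  exact m.add_mem (hall _) (m.mul_mem_left _ (m.mul_mem_left _ hi))

/-- **Theorem.** Let `F` be a field of characteristic `p` and let `(G, F)` have property (Z). If the
group `Q` is a section of `G` and `A` a normal `p`-subgroup of `Q`, then `(n - 1) r` lies in the
radical of `F[Q]` for all `n ∈ A` and `r ∈ F[Q]`. -/
theorem normal_of_propZ {p : ℕ} [Fact p.Prime] {F : Type u} [Field F] [CharP F p]
    {Q : Type w} [Group Q] (A : Subgroup Q) [A.Normal] (hA : ∀ n ∈ A, ∃ j, n ^ (p ^ j) = 1)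
    {G : Type v} [Group G] (hZ : PropZ F G)
    (S : Subgroup G) (f : S →* Q) (hf : Function.Surjective f) (n : Q) (hn : n ∈ A)
    (r : MonoidAlgebra F Q) : (MonoidAlgebra.single n 1 - 1) * r ∈
      Ideal.jacobson (⊥ : Ideal (MonoidAlgebra F Q)) := by
  classical
  rw [Ideal.jacobson, Ideal.mem_sInf]
  rintro m ⟨-, hm⟩
  let m₁ : Ideal (MonoidAlgebra F S) := Ideal.comap (mp F f) m
  let m₂ : Ideal (MonoidAlgebra F G) := Ideal.span (mp F S.subtype '' (m₁ : Set _))
  have hm₂ : m₂ ≠ ⊤ := by
    intro h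
    have h1 : (1 : MonoidAlgebra F G) ∈ Ideal.span (mp F S.subtype '' (m₁ : Set _)) := by
      have : (1 : MonoidAlgebra F G) ∈ m₂ := by rw [h]; trivial
      exact this
    have key : ∀ z ∈ Ideal.span (mp F S.subtype '' (m₁ : Set _)), ∀ r : MonoidAlgebra F G,
        pr S.subtype S.subtype_injective (r * z) ∈ m₁ := by
      intro z hz
      induction hz using Submodule.span_induction with
      | mem z hz =>
        obtain ⟨y, hy, rfl⟩ := hz
        intro r
        rw [pr_mul]
        exact m₁.mul_mem_left _ hy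
      | zero => intro r; rw [mul_zero, pr_zero]; exact m₁.zero_mem
      | add a b _ _ ha hb => intro r; rw [mul_add, pr_add]; exact m₁.add_mem (ha r) (hb r)
      | smul a z _ hz =>
        intro r
        rw [smul_eq_mul, ← mul_assoc]
        exact hz _
    have h2 := key 1 h1 1
    rw [mul_one, pr_one] at h2
    have h3 : mp F f 1 ∈ m := h2
    rw [map_one] at h3
    exact hm.ne_top ((Ideal.eq_top_iff_one m).2 h3)
  obtain ⟨m₃, hm₃, hle⟩ := Ideal.exists_le_maximal m₂ hm₂
  have hker : ∀ y, mp F S.subtype y ∈ m₃ ↔ mp F f y ∈ m := by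
    intro y
    constructor
    · intro hy
      by_contra hy'
      obtain ⟨a, i, hi, hai⟩ := hm.exists_inv hy'
      obtain ⟨a, rfl⟩ := mp_surjective f hf a
      have h1 : (1 - a * y : MonoidAlgebra F S) ∈ m₁ := by
        show mp F f (1 - a * y) ∈ m
        rw [map_sub, map_mul, map_one, ← hai, add_sub_cancel_left]
        exact hi
      have h2 : mp F S.subtype (1 - a * y) ∈ m₃ :=
        hle (Ideal.subset_span ⟨_, h1, rfl⟩)
      have h3 : (1 : MonoidAlgebra F G) ∈ m₃ := by
        have h4 := m₃.add_mem h2 (m₃.mul_mem_left (mp F S.subtype a) hy)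
        rwa [map_sub, map_mul, map_one, sub_add_cancel] at h4
      exact hm₃.ne_top ((Ideal.eq_top_iff_one m₃).2 h3)
    · intro hy
      exact hle (Ideal.subset_span ⟨y, hy, rfl⟩)
  have hsimp : IsSimpleModule (MonoidAlgebra F G) (MonoidAlgebra F G ⧸ m₃) := by
    rw [isSimpleModule_iff_isCoatom]
    exact hm₃.out
  have hfin := hZ (MonoidAlgebra F G ⧸ m₃) hsimp
  let N := MonoidAlgebra F G ⧸ m₃
  let E := Module.End (MonoidAlgebra F G) N
  let Z := Subring.center E
  have hfin' : Module.Finite Z N := hfin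
  let hD : DivisionRing E := @Module.End.instDivisionRing (MonoidAlgebra F G) _ N _ _ _ hsimp
  let hF : Field Z := @Subring.instField E hD
  have hpR : (p : MonoidAlgebra F G) = 0 := by
    have := congrArg (algebraMap F (MonoidAlgebra F G)) (CharP.cast_eq_zero F p)
    rwa [map_natCast, map_zero] at this
  have hZp : CharP Z p := by
    apply charP_of'
    apply Subtype.ext
    apply LinearMap.ext
    intro n
    show ((p : Z) : E) n = 0
    have h1 : ((p : Z) : E) = (p : E) := by push_cast; rfl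
    rw [h1, Module.End.natCast_apply, ← Nat.cast_smul_eq_nsmul (MonoidAlgebra F G), hpR, zero_smul]
  let ρ : Representation Z S N :=
    { toFun := fun s =>
        { toFun := fun n => (MonoidAlgebra.single (s : G) 1 : MonoidAlgebra F G) • n
          map_add' := fun a b => smul_add _ a b
          map_smul' := fun z n => (((z : E).map_smul _ n)).symm }
      map_one' := by
        apply LinearMap.ext
        intro n
        show (MonoidAlgebra.single (1 : G) 1 : MonoidAlgebra F G) • n = n
        rw [← MonoidAlgebra.one_def, one_smul]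
      map_mul' := fun s t => by
        apply LinearMap.ext
        intro n
        show (MonoidAlgebra.single ((s * t : S) : G) 1 : MonoidAlgebra F G) • n =
          (MonoidAlgebra.single (s : G) 1 : MonoidAlgebra F G) •
            (MonoidAlgebra.single (t : G) 1 : MonoidAlgebra F G) • n
        rw [smul_smul, MonoidAlgebra.single_mul_single, one_mul]
        rfl }
  let φ : MonoidAlgebra F S →+ N :=
    { toFun := fun y => Submodule.Quotient.mk (mp F S.subtype y)
      map_zero' := by rw [map_zero]; rfl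
      map_add' := fun a b => by rw [map_add]; rfl }
  exact main_abs' A hA f hf ρ φ m hm (fun y => by
    show (Submodule.Quotient.mk (mp F S.subtype y) : MonoidAlgebra F G ⧸ m₃) = 0 ↔ _
    rw [Submodule.Quotient.mk_eq_zero]
    exact hker y) (fun s y => by
    show (Submodule.Quotient.mk (mp F S.subtype (MonoidAlgebra.single s 1 * y)) :
      MonoidAlgebra F G ⧸ m₃) = (MonoidAlgebra.single (s : G) 1 : MonoidAlgebra F G) •
        (Submodule.Quotient.mk (mp F S.subtype y) : MonoidAlgebra F G ⧸ m₃)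
    rw [map_mul, mp_single]
    rfl) n hn r

end Pool.Agent.Y803.ZW
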