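import Pool.Agent.Y803.GR.ZW

/-!
Property (Z) in characteristic `p` and sections which are wreath products.
-/

set_option autoImplicit false

namespace Pool.Agent.Y803.ZW

open Pool.Agent.Y803.GR Pool.Agent.Y803.ZZ Pool.Agent.Helper826.Kap

universe v

theorem base_pow_eq {D Q : Type} [Group D] [Group Q] {p : ℕ} (hD : ∀ d : D, d ^ p = 1)
    (y : Wr D Q) (hyr : y.1.right = 1) : y ^ p = 1 := by
  have key : ∀ j : ℕ, (y ^ j).1.right = 1 ∧ ∀ z, (y ^ j).1.left z = (y.1.left z) ^ j := by
    intro j
    induction j with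
    | zero =>
      refine ⟨rfl, fun z => ?_⟩
      rw [pow_zero, pow_zero]; rfl
    | succ j ih =>
      refine ⟨?_, fun z => ?_⟩
      · rw [pow_succ, right_mul, ih.1, hyr, one_mul]
      · rw [pow_succ, left_mul, ih.2, ih.1, inv_one, one_mul, pow_succ]
  apply Subtype.ext
  apply RegularWreathProduct.ext
  · funext z
    rw [(key p).2 z, hD]
    rfl
  · exact (key p).1

/-- **Theorem.** If `(G, F)` has property (Z), `char F = p`, and the restricted wreath product
`C_p ≀ Q` is a section of `G`, then `Q` is locally finite. -/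
theorem locFin_of_propZ (F : Type) [Field F] (p : ℕ) [Fact p.Prime] [CharP F p] {G : Type v}
    [Group G] (hZ : PropZ F G) (Q : Type) [Group Q] (S : Subgroup G)
    (f : S →* Wr (Multiplicative (ZMod p)) Q) (hf : Function.Surjective f) (T : Finset Q) :
    Finite (Subgroup.closure (T : Set Q)) := by
  let D := Multiplicative (ZMod p)
  let a : D := Multiplicative.ofAdd 1
  have hDp : ∀ d : D, d ^ p = 1 := by
    intro d
    apply Multiplicative.toAdd.injective
    rw [toAdd_pow, toAdd_one, nsmul_eq_mul, ZMod.natCast_self, zero_mul]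
  have ha : (orderOf a : F) = 0 := by
    have h1 : orderOf a ∣ p := orderOf_dvd_of_pow_eq_one (hDp a)
    rcases (Nat.dvd_prime (Fact.out : p.Prime)).1 h1 with h2 | h2
    · exfalso
      rw [orderOf_eq_one_iff] at h2
      have h3 : (1 : ZMod p) = 0 := congrArg Multiplicative.toAdd h2
      exact one_ne_zero h3
    · rw [h2]
      exact CharP.cast_eq_zero F p
  let A : Subgroup (Wr D Q) :=
    ((RegularWreathProduct.rightHom (D := D) (Q := Q)).comp (Wr D Q).subtype).ker
  have hA : ∀ n ∈ A, ∃ j, n ^ (p ^ j) = 1 := by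
    intro n hn
    refine ⟨1, ?_⟩
    rw [pow_one]
    exact base_pow_eq hDp n hn
  have hbase : ∀ s : Q, (MonoidAlgebra.single (base a * top s) (1 : F) -
      MonoidAlgebra.single (top s) 1 : MonoidAlgebra F (Wr D Q)) ∈
      Ideal.jacobson (⊥ : Ideal (MonoidAlgebra F (Wr D Q))) := by
    intro s
    have h1 := normal_of_propZ A hA hZ S f hf (base a) (show (1 : Q) = 1 from rfl)
      (MonoidAlgebra.single (top s) 1)
    rw [sub_mul, one_mul, MonoidAlgebra.single_mul_single, one_mul] at h1
    exact h1
  apply locFin_top' F D Q a ha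
  intro T
  have hX : X F T a ∈ Ideal.jacobson (⊥ : Ideal (MonoidAlgebra F (Wr D Q))) :=
    Submodule.sum_mem _ fun s _ => hbase s
  exact (isUnit_of_jacobson (neg_mem hX)).exists_right_inv

end Pool.Agent.Y803.ZW
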