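import Pool.Agent.Y803.GR.Irr
import Pool.Agent.Y803.GR.Kap

/-!
Irreducible modules which are finite-dimensional over the centre of their endomorphism ring:
sections which are `p`-groups, in characteristic `p`.
-/

set_option autoImplicit false

namespace Pool.Agent.Y803.ZZ

open Pool.Agent.Y803.GR

universe u v w u1 u2

/-- The relative form of Kolchin's theorem. -/
theorem relKolchin {p : ℕ} [Fact p.Prime] {Z : Type u} [Field Z] [CharP Z p] {S : Type v} [Group S]
    {N : Type w} [AddCommGroup N] [Module Z N] [FiniteDimensional Z N] (ρ : Representation Z S N)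
    (N' W : Submodule Z N) (hS : ∀ s, N' ≤ N'.comap (ρ s)) (hW : ∀ s, W ≤ W.comap (ρ s))
    (hWN : W < N') (htor : ∀ s, ∃ j, ∀ v ∈ N', ρ (s ^ (p ^ j)) v = v) :
    ∃ v ∈ N', v ∉ W ∧ ∀ s, ρ s v - v ∈ W := by
  let ρ' : Representation Z S N' := ρ.subrepresentation N' hS
  let W' : Submodule Z N' := W.comap N'.subtype
  have hW' : ∀ s, W' ≤ W'.comap (ρ' s) := by
    intro s v hv
    exact hW s hv
  let ρ'' : Representation Z S (N' ⧸ W') := ρ'.quotient W' hW'
  have hne : W' ≠ ⊤ := by
    intro h
    apply hWN.not_ge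
    intro v hv
    have : (⟨v, hv⟩ : N') ∈ W' := by rw [h]; trivial
    exact this
  have hnt : Nontrivial (N' ⧸ W') := Submodule.Quotient.nontrivial_iff.2 hne
  let τ : S →* (Module.End Z (N' ⧸ W'))ˣ := MonoidHom.toHomUnits ρ''
  have hτ : ∀ s, ((τ s : (Module.End Z (N' ⧸ W'))ˣ) : Module.End Z (N' ⧸ W')) = ρ'' s := fun s =>
    MonoidHom.coe_toHomUnits _ _
  have hP : IsPGroup p τ.range := by
    rintro ⟨g, s, rfl⟩
    obtain ⟨j, hj⟩ := htor s
    refine ⟨j, Subtype.ext ?_⟩
    show (τ s) ^ (p ^ j) = 1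
    rw [← map_pow]
    apply Units.ext
    rw [hτ]
    apply LinearMap.ext
    intro v
    obtain ⟨v, rfl⟩ := Submodule.Quotient.mk_surjective _ v
    show (Submodule.Quotient.mk (ρ' (s ^ (p ^ j)) v) : N' ⧸ W') = Submodule.Quotient.mk v
    congr 1
    apply Subtype.ext
    exact hj v.1 v.2
  let ρ3 : Representation Z τ.range (N' ⧸ W') :=
    (Units.coeHom (Module.End Z (N' ⧸ W'))).comp τ.range.subtype
  obtain ⟨v, hv0, hv⟩ := exists_fixed hP ρ3
  obtain ⟨v, rfl⟩ := Submodule.Quotient.mk_surjective _ v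
  refine ⟨v.1, v.2, ?_, ?_⟩
  · intro h
    apply hv0
    rw [Submodule.Quotient.mk_eq_zero]
    exact h
  · intro s
    have h1 := hv ⟨τ s, s, rfl⟩
    have h2 : ρ'' s (Submodule.Quotient.mk v) = Submodule.Quotient.mk v := by
      rw [← hτ]; exact h1
    have h3 : (Submodule.Quotient.mk (ρ' s v) : N' ⧸ W') = Submodule.Quotient.mk v := h2
    rw [Submodule.Quotient.eq] at h3
    exact h3

theorem charP_of' {p : ℕ} [Fact p.Prime] {k : Type u} [Field k] (hp : (p : k) = 0) :
    CharP k p := by
  obtain ⟨q, hq⟩ := CharP.exists k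
  have h1 := (CharP.cast_eq_zero_iff k q p).1 hp
  rcases (Nat.dvd_prime (Fact.out : p.Prime)).1 h1 with h2 | h2
  · subst h2
    have h3 := CharP.cast_eq_zero k 1
    rw [Nat.cast_one] at h3
    exact absurd h3 one_ne_zero
  · rwa [h2] at hq

/-- The abstract form of the argument. -/
theorem main_abs {p : ℕ} [Fact p.Prime] {F : Type u} [Field F] {Q : Type w} [Group Q]
    (hQ : IsPGroup p Q) {S : Type v} [Group S] (f : S →* Q) (hf : Function.Surjective f)
    {Z : Type u1} [Field Z] [CharP Z p] {N : Type u2} [AddCommGroup N] [Module Z N]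
    [FiniteDimensional Z N] (ρ : Representation Z S N) (φ : MonoidAlgebra F S →+ N)
    (m : Ideal (MonoidAlgebra F Q)) (hm : m.IsMaximal) (hφ0 : ∀ y, φ y = 0 ↔ mp F f y ∈ m)
    (hφs : ∀ s y, φ (MonoidAlgebra.single s 1 * y) = ρ s (φ y)) (x : MonoidAlgebra F Q)
    (hx : aug F Q x = 0) : x ∈ m := by
  let N' : Submodule Z N := Submodule.span Z (Set.range φ)
  have hN' : ∀ s, N' ≤ N'.comap (ρ s) := by
    intro s
    rw [Submodule.span_le]
    rintro _ ⟨y, rfl⟩
    show ρ s (φ y) ∈ N'
    rw [← hφs]
    exact Submodule.subset_span ⟨_, rfl⟩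
  have htor : ∀ s, ∃ j, ∀ v ∈ N', ρ (s ^ (p ^ j)) v = v := by
    intro s
    obtain ⟨j, hj⟩ := hQ (f s)
    refine ⟨j, fun v hv => ?_⟩
    induction hv using Submodule.span_induction with
    | mem v hv =>
      obtain ⟨y, rfl⟩ := hv
      rw [← hφs, ← sub_eq_zero, ← map_sub, hφ0, map_sub, map_mul, mp_single, map_pow, hj,
        ← MonoidAlgebra.one_def, one_mul, sub_self]
      exact m.zero_mem
    | zero => rw [map_zero]
    | add a b _ _ ha hb => rw [map_add, ha, hb]
    | smul c a _ ha => rw [map_smul, ha]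
  let 𝒮 : Set (Submodule Z N) := {W | W ≤ N' ∧ (∀ s, W ≤ W.comap (ρ s)) ∧
    ∀ y, φ y ∈ W → mp F f y ∈ m}
  have h0 : (⊥ : Submodule Z N) ∈ 𝒮 := by
    refine ⟨bot_le, ?_, ?_⟩
    · intro s v hv
      have hv0 : v = 0 := (Submodule.mem_bot Z).1 hv
      show ρ s v ∈ (⊥ : Submodule Z N)
      rw [hv0, map_zero]
      exact zero_mem _
    · intro y hy
      exact (hφ0 y).1 ((Submodule.mem_bot Z).1 hy)
  obtain ⟨W, ⟨hWN, hWs, hWm⟩, hmax⟩ :=
    (wellFounded_gt (α := Submodule Z N)).has_min 𝒮 ⟨⊥, h0⟩
  have hlt : W < N' := by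
    refine lt_of_le_of_ne hWN ?_
    intro h
    have h1 : φ 1 ∈ W := by rw [h]; exact Submodule.subset_span ⟨1, rfl⟩
    have h2 := hWm 1 h1
    rw [map_one] at h2
    exact hm.ne_top ((Ideal.eq_top_iff_one m).2 h2)
  obtain ⟨v, hvN, hvW, hv⟩ := relKolchin ρ N' W hN' hWs hlt htor
  have hW2 : W ⊔ Submodule.span Z {v} ∉ 𝒮 := by
    intro h
    apply hmax _ h
    refine lt_of_le_of_ne le_sup_left ?_
    intro h1
    apply hvW
    rw [h1]
    exact (le_sup_right : Submodule.span Z {v} ≤ W ⊔ Submodule.span Z {v})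
      (Submodule.mem_span_singleton_self v)
  have hW3 : ∃ y, φ y ∈ W ⊔ Submodule.span Z {v} ∧ mp F f y ∉ m := by
    by_contra hcon
    push Not at hcon
    apply hW2
    refine ⟨sup_le hWN ((Submodule.span_singleton_le_iff_mem _ _).2 hvN), ?_, hcon⟩
    intro s u hu
    obtain ⟨w1, hw1, w2, hw2, rfl⟩ := Submodule.mem_sup.1 hu
    obtain ⟨c, rfl⟩ := Submodule.mem_span_singleton.1 hw2
    show ρ s (w1 + c • v) ∈ W ⊔ Submodule.span Z {v}
    have h1 : ρ s (w1 + c • v) = (ρ s w1 + c • (ρ s v - v)) + c • v := by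
      rw [map_add, map_smul, smul_sub]; abel
    rw [h1]
    exact Submodule.add_mem_sup (add_mem (hWs s hw1) (W.smul_mem c (hv s)))
      (Submodule.smul_mem _ c (Submodule.mem_span_singleton_self v))
  obtain ⟨y, hyW, hym⟩ := hW3
  obtain ⟨w1, hw1, w2, hw2, h12⟩ := Submodule.mem_sup.1 hyW
  obtain ⟨c, rfl⟩ := Submodule.mem_span_singleton.1 hw2
  have hstep : ∀ q : Q, (MonoidAlgebra.of F Q q - 1) * mp F f y ∈ m := by
    intro q
    obtain ⟨s, rfl⟩ := hf q
    have h1 : φ (MonoidAlgebra.single s 1 * y - y) ∈ W := by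
      rw [map_sub, hφs, ← h12]
      have h2 : ρ s (w1 + c • v) - (w1 + c • v) = (ρ s w1 - w1) + c • (ρ s v - v) := by
        rw [map_add, map_smul, smul_sub]; abel
      rw [h2]
      exact add_mem (sub_mem (hWs s hw1) hw1) (W.smul_mem c (hv s))
    have h3 := hWm _ h1
    rw [map_sub, map_mul, mp_single] at h3
    rw [sub_mul, one_mul, MonoidAlgebra.of_apply]
    exact h3
  have hω' : ∀ r ∈ Ideal.span (Set.range (fun g : Q => MonoidAlgebra.of F Q g - 1)),
      r * mp F f y ∈ m := by
    intro r hr
    induction hr using Submodule.span_induction with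
    | mem r hr' =>
      obtain ⟨q, rfl⟩ := hr'
      exact hstep q
    | zero => rw [zero_mul]; exact m.zero_mem
    | add a b _ _ ha hb => rw [add_mul]; exact m.add_mem ha hb
    | smul a b _ hb => rw [smul_eq_mul, mul_assoc]; exact m.mul_mem_left a hb
  have hω : ∀ r, aug F Q r = 0 → r * mp F f y ∈ m := fun r hr => hω' r (mem_span_of_aug r hr)
  obtain ⟨a, i, hi, hai⟩ := hm.exists_inv hym
  have h1 : x = (x * a) * mp F f y + x * i := by
    rw [mul_assoc, ← mul_add, hai, mul_one]
  rw [h1]
  exact m.add_mem (hω _ (by rw [map_mul, hx, zero_mul])) (m.mul_mem_left x hi)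

/-- Property (Z). -/
def PropZ (F : Type u) [Field F] (G : Type v) [Group G] : Prop :=
  ∀ (M : Type (max u v)) [AddCommGroup M] [Module (MonoidAlgebra F G) M],
    IsSimpleModule (MonoidAlgebra F G) M →
    Module.Finite (Subring.center (Module.End (MonoidAlgebra F G) M)) M

/-- **Theorem.** Let `F` be a field of characteristic `p` and let `(G, F)` have property (Z). If the
`p`-group `Q` is a section of `G`, then the augmentation ideal of `F[Q]` lies in the radical. -/
theorem augLeJac_of_propZ {p : ℕ} [Fact p.Prime] {F : Type u} [Field F] [CharP F p]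
    {Q : Type w} [Group Q] (hQ : IsPGroup p Q) {G : Type v} [Group G] (hZ : PropZ F G)
    (S : Subgroup G) (f : S →* Q) (hf : Function.Surjective f) : AugLeJac F Q := by
  classical
  intro x hx
  rw [Ideal.jacobson, Ideal.mem_sInf]
  rintro m ⟨-, hm⟩
  by_contra hxm
  let m₁ : Ideal (MonoidAlgebra F S) := Ideal.comap (mp F f) m
  let m₂ : Ideal (MonoidAlgebra F G) := Ideal.span (mp F S.subtype '' (m₁ : Set _))
  have hm₂ : m₂ ≠ ⊤ := by
    intro h
    have h1 : (1 : MonoidAlgebra F G) ∈ Ideal.span (mp F S.subtype '' (m₁ : Set _)) := by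
      have : (1 : MonoidAlgebra F G) ∈ m₂ := by rw [h]; trivial
      exact this
    have key : ∀ z ∈ Ideal.span (mp F S.subtype '' (m₁ : Set _)), ∀ r : MonoidAlgebra F G,
        pr S.subtype S.subtype_injective (r * z) ∈ m₁ := by
      intro z hz
      induction hz using Submodule.span_induction with
      | mem z hz =>
        obtain ⟨y, hy, rfl⟩ := hz
        intro r
        rw [pr_mul]
        exact m₁.mul_mem_left _ hy
      | zero => intro r; rw [mul_zero, pr_zero]; exact m₁.zero_mem
      | add a b _ _ ha hb => intro r; rw [mul_add, pr_add]; exact m₁.add_mem (ha r) (hb r)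
      | smul a z _ hz =>
        intro r
        rw [smul_eq_mul, ← mul_assoc]
        exact hz _
    have h2 := key 1 h1 1
    rw [mul_one, pr_one] at h2
    have h3 : mp F f 1 ∈ m := h2
    rw [map_one] at h3
    exact hm.ne_top ((Ideal.eq_top_iff_one m).2 h3)
  obtain ⟨m₃, hm₃, hle⟩ := Ideal.exists_le_maximal m₂ hm₂
  have hker : ∀ y, mp F S.subtype y ∈ m₃ ↔ mp F f y ∈ m := by
    intro y
    constructor
    · intro hy
      by_contra hy'
      obtain ⟨a, i, hi, hai⟩ := hm.exists_inv hy'
      obtain ⟨a, rfl⟩ := mp_surjective f hf a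
      have h1 : (1 - a * y : MonoidAlgebra F S) ∈ m₁ := by
        show mp F f (1 - a * y) ∈ m
        rw [map_sub, map_mul, map_one, ← hai, add_sub_cancel_left]
        exact hi
      have h2 : mp F S.subtype (1 - a * y) ∈ m₃ :=
        hle (Ideal.subset_span ⟨_, h1, rfl⟩)
      have h3 : (1 : MonoidAlgebra F G) ∈ m₃ := by
        have h4 := m₃.add_mem h2 (m₃.mul_mem_left (mp F S.subtype a) hy)
        rwa [map_sub, map_mul, map_one, sub_add_cancel] at h4
      exact hm₃.ne_top ((Ideal.eq_top_iff_one m₃).2 h3)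
    · intro hy
      exact hle (Ideal.subset_span ⟨y, hy, rfl⟩)
  have hsimp : IsSimpleModule (MonoidAlgebra F G) (MonoidAlgebra F G ⧸ m₃) := by
    rw [isSimpleModule_iff_isCoatom]
    exact hm₃.out
  have hfin := hZ (MonoidAlgebra F G ⧸ m₃) hsimp
  let N := MonoidAlgebra F G ⧸ m₃
  let E := Module.End (MonoidAlgebra F G) N
  let Z := Subring.center E
  have hfin' : Module.Finite Z N := hfin
  let hD : DivisionRing E := @Module.End.instDivisionRing (MonoidAlgebra F G) _ N _ _ _ hsimp
  let hF : Field Z := @Subring.instField E hD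
  have hpR : (p : MonoidAlgebra F G) = 0 := by
    have := congrArg (algebraMap F (MonoidAlgebra F G)) (CharP.cast_eq_zero F p)
    rwa [map_natCast, map_zero] at this
  have hZp : CharP Z p := by
    apply charP_of'
    apply Subtype.ext
    apply LinearMap.ext
    intro n
    show ((p : Z) : E) n = 0
    have h1 : ((p : Z) : E) = (p : E) := by push_cast; rfl
    rw [h1, Module.End.natCast_apply, ← Nat.cast_smul_eq_nsmul (MonoidAlgebra F G), hpR, zero_smul]
  let ρ : Representation Z S N :=
    { toFun := fun s =>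
        { toFun := fun n => (MonoidAlgebra.single (s : G) 1 : MonoidAlgebra F G) • n
          map_add' := fun a b => smul_add _ a b
          map_smul' := fun z n => (((z : E).map_smul _ n)).symm }
      map_one' := by
        apply LinearMap.ext
        intro n
        show (MonoidAlgebra.single (1 : G) 1 : MonoidAlgebra F G) • n = n
        rw [← MonoidAlgebra.one_def, one_smul]
      map_mul' := fun s t => by
        apply LinearMap.ext
        intro n
        show (MonoidAlgebra.single ((s * t : S) : G) 1 : MonoidAlgebra F G) • n =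
          (MonoidAlgebra.single (s : G) 1 : MonoidAlgebra F G) •
            (MonoidAlgebra.single (t : G) 1 : MonoidAlgebra F G) • n
        rw [smul_smul, MonoidAlgebra.single_mul_single, one_mul]
        rfl }
  let φ : MonoidAlgebra F S →+ N :=
    { toFun := fun y => Submodule.Quotient.mk (mp F S.subtype y)
      map_zero' := by rw [map_zero]; rfl
      map_add' := fun a b => by rw [map_add]; rfl }
  exact hxm (main_abs hQ f hf ρ φ m hm (fun y => by
    show (Submodule.Quotient.mk (mp F S.subtype y) : MonoidAlgebra F G ⧸ m₃) = 0 ↔ _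
    rw [Submodule.Quotient.mk_eq_zero]
    exact hker y) (fun s y => by
    show (Submodule.Quotient.mk (mp F S.subtype (MonoidAlgebra.single s 1 * y)) :
      MonoidAlgebra F G ⧸ m₃) = (MonoidAlgebra.single (s : G) 1 : MonoidAlgebra F G) •
        (Submodule.Quotient.mk (mp F S.subtype y) : MonoidAlgebra F G ⧸ m₃)
    rw [map_mul, mp_single]
    rfl) x hx)

/-- For a group whose augmentation ideal lies in the radical, the irreducible modules are the
trivial ones, and property (Z) holds. -/
theorem propZ_of_augLeJac {F : Type u} [Field F] {G : Type v} [Group G] (h : AugLeJac F G) :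
    PropZ F G := by
  intro M _ _ hM
  have hnt : Nontrivial M := IsSimpleModule.nontrivial (MonoidAlgebra F G) M
  obtain ⟨v, hv⟩ := exists_ne (0 : M)
  have hspan : ∀ n : M, ∃ r : MonoidAlgebra F G, r • v = n := by
    intro n
    have h1 : Submodule.span (MonoidAlgebra F G) {v} = ⊤ := by
      rcases eq_bot_or_eq_top (Submodule.span (MonoidAlgebra F G) {v}) with h | h
      · exact absurd (Submodule.span_singleton_eq_bot.1 h) hv
      · exact h
    exact Submodule.mem_span_singleton.1 (by rw [h1]; trivial)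
  have h0 : ∀ x : MonoidAlgebra F G, aug F G x = 0 → ∀ n : M, x • n = 0 := by
    intro x hx n
    have h1 : x ∈ Module.annihilator (MonoidAlgebra F G) M := by
      have h2 := h x hx
      rw [Ideal.jacobson, Ideal.mem_sInf] at h2
      rw [Module.mem_annihilator]
      intro n
      by_cases hn : n = 0
      · rw [hn, smul_zero]
      · have h3 : Ideal.IsMaximal
            (LinearMap.ker (LinearMap.toSpanSingleton (MonoidAlgebra F G) M n)) :=
          ⟨LinearMap.isCoatom_ker_of_surjective
            ((IsSimpleModule.toSpanSingleton_surjective (MonoidAlgebra F G) hn))⟩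
        have h4 := h2 ⟨bot_le, h3⟩
        exact h4
    exact Module.mem_annihilator.1 h1 n
  -- the scalars
  let z : F → Subring.center (Module.End (MonoidAlgebra F G) M) := fun c =>
    ⟨{ toFun := fun n => algebraMap F (MonoidAlgebra F G) c • n
       map_add' := fun a b => smul_add _ a b
       map_smul' := fun r n => by
        rw [RingHom.id_apply, smul_smul, smul_smul, Algebra.commutes] }, by
      rw [Subring.mem_center_iff]
      intro g
      apply LinearMap.ext
      intro n
      exact (g.map_smul (algebraMap F (MonoidAlgebra F G) c) n)⟩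
  refine ⟨⟨{v}, ?_⟩⟩
  rw [eq_top_iff]
  rintro n -
  obtain ⟨r, rfl⟩ := hspan n
  rw [Finset.coe_singleton, Submodule.mem_span_singleton]
  refine ⟨z (aug F G r), ?_⟩
  show algebraMap F (MonoidAlgebra F G) (aug F G r) • v = r • v
  rw [← sub_eq_zero, ← sub_smul]
  apply h0
  rw [map_sub, AlgHom.commutes]
  simp

end Pool.Agent.Y803.ZZ
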